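import Mathlib

open Set Topology Cardinal

namespace Pool.Agent.Helper535

universe u

section Defs
variable {X : Type u} [TopologicalSpace X]

/-- `F` is point-countable on `Z`: each point of `Z` is a non-zero of only countably many
members of `F`. -/
def PCon (Z : Set X) (F : Set C(X, ℝ)) : Prop := ∀ x ∈ Z, {f | f ∈ F ∧ f x ≠ 0}.Countable

/-- `F` separates the points of `Z`. -/
def SepOn (Z : Set X) (F : Set C(X, ℝ)) : Prop :=
  ∀ x ∈ Z, ∀ y ∈ Z, (∀ f ∈ F, f x = f y) → x = y

/-- the closed set `Z` is Corson, witnessed by functions defined on the whole space. -/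
def CorsonOn (Z : Set X) : Prop := ∃ F : Set C(X, ℝ), PCon Z F ∧ SepOn Z F

/-- every subset is separated from its complement by a point-countable family. -/
def Splits (X : Type u) [TopologicalSpace X] : Prop :=
  ∀ A : Set X, ∃ F : Set C(X, ℝ), PCon univ F ∧ ∀ x ∈ A, ∀ y ∉ A, ∃ f ∈ F, f x ≠ f y

/-- countable tightness. -/
def CTight (X : Type u) [TopologicalSpace X] : Prop :=
  ∀ B : Set X, ∀ x ∈ closure B, ∃ C ⊆ B, C.Countable ∧ x ∈ closure C

/-- every point of `Z` has an `M`-twin in the closure of `B`. -/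
def Dn (Z B : Set X) (M : Set C(X, ℝ)) : Prop :=
  ∀ x ∈ Z, ∃ x' ∈ closure B, ∀ f ∈ M, f x' = f x

/-- good pairs -/
def Good (B : Set X) (M : Set C(X, ℝ)) : Prop := Dn univ B M ∧ SepOn (closure B) M

end Defs

variable {X : Type u} [TopologicalSpace X]

lemma mk_finset_le (α : Type u) : #(Finset α) ≤ max #α ℵ₀ := by
  cases finite_or_infinite α with
  | inl h => 
    have : Finite (Finset α) := by
      have := Fintype.ofFinite α
      infer_instance
    exact (Cardinal.mk_le_aleph0 (α := Finset α)).trans (le_max_right _ _)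
  | inr h =>
    rw [Cardinal.mk_finset_of_infinite]; exact le_max_left _ _

theorem lemA [CompactSpace X] (A : Set X) (M : Set C(X, ℝ)) :
    ∃ C ⊆ A, #C ≤ max #M ℵ₀ ∧ Dn (closure A) C M := by
  classical
  let J := Finset (M × ℚ × ℚ)
  let U : J → Set X := fun j => {x | ∀ t ∈ j, ((t.2.1 : ℚ) : ℝ) < t.1.1 x ∧ t.1.1 x < ((t.2.2 : ℚ) : ℝ)}
  let P : J → Prop := fun j => (A ∩ U j).Nonempty
  let c : {j : J // P j} → X := fun j => j.2.some
  have hc : ∀ j : {j : J // P j}, c j ∈ A ∩ U j.1 := fun j => j.2.some_mem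
  refine ⟨range c, ?_, ?_, ?_⟩
  · rintro _ ⟨j, rfl⟩; exact (hc j).1
  · calc #(range c) ≤ #{j : J // P j} := Cardinal.mk_range_le
      _ ≤ #J := Cardinal.mk_subtype_le _
      _ ≤ max #(M × ℚ × ℚ) ℵ₀ := mk_finset_le _
      _ ≤ max #M ℵ₀ := by
        apply max_le _ (le_max_right _ _)
        have : #(M × ℚ × ℚ) = #M * ℵ₀ := by
          simp [Cardinal.mk_prod]
        rw [this]
        calc #M * ℵ₀ ≤ max #M ℵ₀ * max #M ℵ₀ := 
              mul_le_mul' (le_max_left _ _) (le_max_right _ _)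
          _ = max #M ℵ₀ := Cardinal.mul_eq_self (le_max_right _ _)
  · intro x hx
    have hUopen : ∀ j, IsOpen (U j) := by
      intro j
      have : U j = ⋂ t ∈ j, {x | ((t.2.1 : ℚ) : ℝ) < t.1.1 x ∧ t.1.1 x < ((t.2.2 : ℚ) : ℝ)} := by
        ext y; simp [U]
      rw [this]
      apply isOpen_biInter_finset
      intro t _
      exact (isOpen_lt continuous_const t.1.1.continuous).inter
        (isOpen_lt t.1.1.continuous continuous_const)
    let Jx := {j : J // x ∈ U j}
    have hP : ∀ j : Jx, P j.1 := by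
      intro j
      have := mem_closure_iff.1 hx (U j.1) (hUopen _) j.2
      rwa [inter_comm] at this
    let T : Jx → Set X := fun j => closure (range c) ∩
      {y | ∀ t ∈ j.1, ((t.2.1 : ℚ) : ℝ) ≤ t.1.1 y ∧ t.1.1 y ≤ ((t.2.2 : ℚ) : ℝ)}
    have hTclosed : ∀ j, IsClosed (T j) := by
      intro j
      apply isClosed_closure.inter
      have : {y | ∀ t ∈ j.1, ((t.2.1 : ℚ) : ℝ) ≤ t.1.1 y ∧ t.1.1 y ≤ ((t.2.2 : ℚ) : ℝ)} =
        ⋂ t ∈ j.1, {y | ((t.2.1 : ℚ) : ℝ) ≤ t.1.1 y ∧ t.1.1 y ≤ ((t.2.2 : ℚ) : ℝ)} := by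
        ext y; simp
      rw [this]
      apply isClosed_biInter
      intro t _
      exact (isClosed_le continuous_const t.1.1.continuous).inter
        (isClosed_le t.1.1.continuous continuous_const)
    have hne : (⋂ j, T j).Nonempty := by
      have : Nonempty Jx := ⟨⟨∅, fun t ht => absurd ht (Finset.notMem_empty t)⟩⟩
      apply IsCompact.nonempty_iInter_of_directed_nonempty_isCompact_isClosed
      · intro j j'
        refine ⟨⟨j.1 ∪ j'.1, ?_⟩, ?_, ?_⟩
        · intro t ht
          rcases Finset.mem_union.1 ht with h | h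
          · exact j.2 t h
          · exact j'.2 t h
        · intro y hy
          exact ⟨hy.1, fun t ht => hy.2 t (Finset.mem_union_left _ ht)⟩
        · intro y hy
          exact ⟨hy.1, fun t ht => hy.2 t (Finset.mem_union_right _ ht)⟩
      · intro j
        refine ⟨c ⟨j.1, hP j⟩, subset_closure ⟨_, rfl⟩, ?_⟩
        intro t ht
        have := (hc ⟨j.1, hP j⟩).2 t ht
        exact ⟨this.1.le, this.2.le⟩
      · intro j; exact (hTclosed j).isCompact
      · exact hTclosed
    obtain ⟨x', hx'⟩ := hne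
    rw [mem_iInter] at hx'
    refine ⟨x', (hx' ⟨∅, fun t ht => absurd ht (Finset.notMem_empty t)⟩).1, ?_⟩
    intro f hf
    by_contra hne
    rcases lt_or_gt_of_ne hne with h | h
    · obtain ⟨q, hq1, hq2⟩ := exists_rat_btwn h
      obtain ⟨q', hq'⟩ := exists_rat_gt (f x)
      have hj : x ∈ U {(⟨f, hf⟩, q, q')} := by
        intro t ht
        rw [Finset.mem_singleton] at ht
        subst ht; exact ⟨hq2, hq'⟩
      have := (hx' ⟨_, hj⟩).2 (⟨f, hf⟩, q, q') (Finset.mem_singleton_self _)
      exact absurd this.1 (not_le.2 hq1)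
    · obtain ⟨q, hq1, hq2⟩ := exists_rat_btwn h
      obtain ⟨q', hq'⟩ := exists_rat_lt (f x)
      have hj : x ∈ U {(⟨f, hf⟩, q', q)} := by
        intro t ht
        rw [Finset.mem_singleton] at ht
        subst ht; exact ⟨hq', hq1⟩
      have := (hx' ⟨_, hj⟩).2 (⟨f, hf⟩, q', q) (Finset.mem_singleton_self _)
      exact absurd this.2 (not_le.2 hq2)

/-- directed unions -/
theorem Dn_iUnion [CompactSpace X] {ι : Type*} [Nonempty ι] {Z : Set X} {B : ι → Set X}
    {M : ι → Set C(X, ℝ)}
    (hdir : ∀ i j, ∃ k, B i ⊆ B k ∧ B j ⊆ B k ∧ M i ⊆ M k ∧ M j ⊆ M k)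
    (h : ∀ i, Dn Z (B i) (M i)) : Dn Z (⋃ i, B i) (⋃ i, M i) := by
  intro x hx
  let T : ι → Set X := fun i => closure (⋃ i, B i) ∩ {y | ∀ f ∈ M i, f y = f x}
  have hTclosed : ∀ j, IsClosed (T j) := by
    intro j
    apply isClosed_closure.inter
    have : {y | ∀ f ∈ M j, f y = f x} = ⋂ f ∈ M j, {y | f y = f x} := by
      ext y; simp
    rw [this]
    apply isClosed_biInter
    intro f _
    exact isClosed_eq f.continuous continuous_const
  have hne : (⋂ j, T j).Nonempty := by
    apply IsCompact.nonempty_iInter_of_directed_nonempty_isCompact_isClosed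
    · intro i j
      obtain ⟨k, -, -, h1, h2⟩ := hdir i j
      refine ⟨k, ?_, ?_⟩
      · intro y hy; exact ⟨hy.1, fun f hf => hy.2 f (h1 hf)⟩
      · intro y hy; exact ⟨hy.1, fun f hf => hy.2 f (h2 hf)⟩
    · intro i
      obtain ⟨x', hx', hf⟩ := h i x hx
      exact ⟨x', closure_mono (subset_iUnion _ i) hx', hf⟩
    · intro j; exact (hTclosed j).isCompact
    · exact hTclosed
  obtain ⟨x', hx'⟩ := hne
  rw [mem_iInter] at hx'
  refine ⟨x', (hx' (Classical.arbitrary ι)).1, ?_⟩
  intro f hf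
  obtain ⟨i, hi⟩ := mem_iUnion.1 hf
  exact (hx' i).2 f hi

theorem Good.retraction [CompactSpace X] [T2Space X] {B : Set X} {M : Set C(X, ℝ)}
    (h : Good B M) : ∃ r : C(X, X), (∀ x, r x ∈ closure B) ∧ (∀ x, ∀ f ∈ M, f (r x) = f x) ∧
      (∀ x ∈ closure B, r x = x) := by
  classical
  obtain ⟨h1, h2⟩ := h
  choose r hr hrf using fun x => h1 x (mem_univ x)
  let e : X → (M → ℝ) := fun x f => f.1 x
  have he : Continuous e := continuous_pi fun f => f.1.continuous
  let e' : closure B → (M → ℝ) := fun x => e x.1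
  have he' : Continuous e' := he.comp continuous_subtype_val
  have hinj : Function.Injective e' := by
    intro x y hxy
    apply Subtype.ext
    apply h2 _ x.2 _ y.2
    intro f hf
    exact congrFun hxy ⟨f, hf⟩
  have : CompactSpace (closure B) := isCompact_iff_compactSpace.1 isClosed_closure.isCompact
  have hemb : IsClosedEmbedding e' := he'.isClosedEmbedding hinj
  let r' : X → closure B := fun x => ⟨r x, hr x⟩
  have hr' : Continuous r' := by
    rw [hemb.isInducing.continuous_iff]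
    have : e' ∘ r' = e := by
      ext x f
      exact hrf x f.1 f.2
    rw [this]; exact he
  refine ⟨⟨r, continuous_subtype_val.comp hr'⟩, hr, hrf, ?_⟩
  intro x hx
  exact h2 _ (hr x) _ hx (hrf x)

lemma vanish_closure {C : Set X} {f : C(X, ℝ)} (h : ∀ c ∈ C, f c = 0) :
    ∀ x ∈ closure C, f x = 0 := by
  intro x hx
  have hcl : IsClosed {x | f x = 0} := isClosed_eq f.continuous continuous_const
  exact (closure_minimal h hcl) hx

theorem lemCO [CompactSpace X] {F : Set C(X, ℝ)} (hF : PCon univ F) {A : Set X} {x : X}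
    (hx : x ∈ closure A) :
    ∃ C ⊆ A, C.Countable ∧ ∃ x' ∈ closure C, ∀ f ∈ F, f x' = f x := by
  classical
  -- one step of the closing-off
  have step : ∀ M : {M : Set C(X, ℝ) // M.Countable}, ∃ C : Set X, C ⊆ A ∧ C.Countable ∧
      ∃ x' ∈ closure C, ∀ f ∈ M.1, f x' = f x := by
    intro M
    obtain ⟨C, hCA, hC, hD⟩ := lemA A M.1
    refine ⟨C, hCA, ?_, hD x hx⟩
    have : #C ≤ ℵ₀ := hC.trans (max_le (Cardinal.le_aleph0_iff_set_countable.2 M.2) le_rfl)
    exact Cardinal.le_aleph0_iff_set_countable.1 this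
  choose C hCA hCc hCx using step
  let nxt : {M : Set C(X, ℝ) // M.Countable} → {M : Set C(X, ℝ) // M.Countable} := fun M =>
    ⟨M.1 ∪ ⋃ c ∈ C M, {f | f ∈ F ∧ f c ≠ 0},
      M.2.union ((hCc M).biUnion fun c _ => hF c (mem_univ c))⟩
  let M : ℕ → {M : Set C(X, ℝ) // M.Countable} := fun n =>
    Nat.rec ⟨{f | f ∈ F ∧ f x ≠ 0}, hF x (mem_univ x)⟩ (fun _ M => nxt M) n
  have hMs : ∀ n, M (n+1) = nxt (M n) := fun n => rfl
  have hMmono : ∀ n, (M n).1 ⊆ (M (n+1)).1 := by
    intro n; rw [hMs]; exact subset_union_left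
  have hMmono' : Monotone (fun n => (M n).1) := monotone_nat_of_le_succ hMmono
  refine ⟨⋃ n, C (M n), iUnion_subset fun n => hCA _, countable_iUnion fun n => hCc _, ?_⟩
  -- compactness
  let T : ℕ → Set X := fun n => closure (⋃ n, C (M n)) ∩ {y | ∀ f ∈ (M n).1, f y = f x}
  have hTclosed : ∀ j, IsClosed (T j) := by
    intro j
    apply isClosed_closure.inter
    have : {y | ∀ f ∈ (M j).1, f y = f x} = ⋂ f ∈ (M j).1, {y | f y = f x} := by
      ext y; simp
    rw [this]
    apply isClosed_biInter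
    intro f _
    exact isClosed_eq f.continuous continuous_const
  have hne : (⋂ j, T j).Nonempty := by
    apply IsCompact.nonempty_iInter_of_directed_nonempty_isCompact_isClosed
    · intro i j
      refine ⟨max i j, ?_, ?_⟩
      · intro y hy; exact ⟨hy.1, fun f hf => hy.2 f (hMmono' (le_max_left i j) hf)⟩
      · intro y hy; exact ⟨hy.1, fun f hf => hy.2 f (hMmono' (le_max_right i j) hf)⟩
    · intro i
      obtain ⟨x', hx', hf⟩ := hCx (M i)
      exact ⟨x', closure_mono (subset_iUnion (fun n => C (M n)) i) hx', hf⟩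
    · intro j; exact (hTclosed j).isCompact
    · exact hTclosed
  obtain ⟨x', hx'⟩ := hne
  rw [mem_iInter] at hx'
  refine ⟨x', (hx' 0).1, ?_⟩
  intro f hf
  by_cases hfM : ∃ n, f ∈ (M n).1
  · obtain ⟨n, hn⟩ := hfM
    exact (hx' n).2 f hn
  · push Not at hfM
    have h0 : f x = 0 := by
      by_contra hne
      exact hfM 0 ⟨hf, hne⟩
    have h1 : ∀ c ∈ ⋃ n, C (M n), f c = 0 := by
      intro c hc
      obtain ⟨n, hn⟩ := mem_iUnion.1 hc
      by_contra hne
      apply hfM (n+1)
      rw [hMs]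
      right
      simp only [mem_iUnion]
      exact ⟨c, hn, hf, hne⟩
    rw [h0]
    exact vanish_closure h1 x' (hx' 0).1

theorem Splits.closed_of_countably_closed [CompactSpace X] (hS : Splits X) {A : Set X}
    (hA : ∀ C ⊆ A, C.Countable → closure C ⊆ A) : IsClosed A := by
  rw [← closure_subset_iff_isClosed]
  intro x hx
  by_contra hxA
  obtain ⟨F, hF, hsep⟩ := hS A
  obtain ⟨C, hCA, hC, x', hx', hf⟩ := lemCO hF hx
  obtain ⟨f, hfF, hne⟩ := hsep x' (hA C hCA hC hx') x hxA
  exact hne (hf f hfF)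

theorem Splits.ctight [CompactSpace X] (hS : Splits X) : CTight X := by
  intro B x hx
  let A : Set X := {y | ∃ C ⊆ B, C.Countable ∧ y ∈ closure C}
  have hA : IsClosed A := by
    apply hS.closed_of_countably_closed
    intro C hCA hC y hy
    have hCA' : ∀ c ∈ C, ∃ D ⊆ B, D.Countable ∧ c ∈ closure D := fun c hc => hCA hc
    choose! D hDB hDc hD using hCA'
    refine ⟨⋃ c ∈ C, D c, ?_, hC.biUnion fun c hc => hDc c hc, ?_⟩
    · simp only [iUnion_subset_iff]
      intro c hc; exact hDB c hc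
    · have : C ⊆ closure (⋃ c ∈ C, D c) := by
        intro c hc
        exact closure_mono (subset_biUnion_of_mem (u := fun c => D c) hc) (hD c hc)
      exact closure_minimal this isClosed_closure hy
  have hBA : B ⊆ A := by
    intro b hb
    exact ⟨{b}, singleton_subset_iff.2 hb, countable_singleton b, subset_closure rfl⟩
  exact closure_minimal hBA hA hx

end Pool.Agent.Helper535
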