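import Pool.Agent.Helper535.V

open Set Topology Cardinal Filter

namespace Pool.Agent.Helper535

universe u v w

/-- K-analytic subsets, in terms of ultrafilters -/
def UK {K : Type*} [TopologicalSpace K] (A : Set K) : Prop :=
  ∃ ζ : K → (ℕ → ℕ), ∀ 𝓤 : Ultrafilter K, A ∈ 𝓤 → ∀ s, Tendsto ζ 𝓤 (𝓝 s) →
    ∃ a ∈ A, (𝓤 : Filter K) ≤ 𝓝 a

section
variable {K : Type*} [TopologicalSpace K]

theorem UK.of_compact {A : Set K} (h : IsCompact A) : UK A := by
  refine ⟨fun _ _ => 0, ?_⟩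
  intro 𝓤 h𝓤 _ _
  exact h.ultrafilter_le_nhds 𝓤 (le_principal_iff.2 h𝓤)

theorem UK.iUnion {A : ℕ → Set K} (h : ∀ n, UK (A n)) : UK (⋃ n, A n) := by
  classical
  choose ζ hζ using h
  have hn : ∀ a, ∃ n, a ∈ ⋃ n, A n → a ∈ A n := by
    intro a
    by_cases ha : a ∈ ⋃ n, A n
    · obtain ⟨n, hn⟩ := mem_iUnion.1 ha
      exact ⟨n, fun _ => hn⟩
    · exact ⟨0, fun h => absurd h ha⟩
  choose N hN using hn
  refine ⟨fun a k => Nat.casesOn k (N a) (ζ (N a) a), ?_⟩
  intro 𝓤 h𝓤 s hs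
  rw [tendsto_pi_nhds] at hs
  have h0 : ∀ᶠ a in (𝓤 : Filter K), N a = s 0 := by
    have := hs 0
    rw [nhds_discrete, tendsto_pure] at this
    exact this
  have hA : A (s 0) ∈ 𝓤 := by
    filter_upwards [h0, h𝓤] with a ha1 ha2
    rw [← ha1]; exact hN a ha2
  obtain ⟨a, ha, hle⟩ := hζ (s 0) 𝓤 hA (fun k => s (k+1)) (by
    rw [tendsto_pi_nhds]
    intro k
    apply Tendsto.congr' _ (hs (k+1))
    filter_upwards [h0] with a ha
    show ζ (N a) a k = ζ (s 0) a k
    rw [ha])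
  exact ⟨a, mem_iUnion.2 ⟨_, ha⟩, hle⟩

theorem UK.union {A B : Set K} (hA : UK A) (hB : UK B) : UK (A ∪ B) := by
  have : A ∪ B = ⋃ n : ℕ, if n = 0 then A else B := by
    ext x
    simp only [mem_union, mem_iUnion]
    constructor
    · rintro (h | h)
      · exact ⟨0, by simpa using h⟩
      · exact ⟨1, by simpa using h⟩
    · rintro ⟨n, hn⟩
      by_cases h0 : n = 0
      · left; simpa [h0] using hn
      · right; simpa [h0] using hn
  rw [this]
  apply UK.iUnion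
  intro n
  by_cases h0 : n = 0
  · simpa [h0] using hA
  · simpa [h0] using hB

theorem UK.iInter [T2Space K] {A : ℕ → Set K} (h : ∀ n, UK (A n)) : UK (⋂ n, A n) := by
  classical
  choose ζ hζ using h
  refine ⟨fun a m => ζ m.unpair.1 a m.unpair.2, ?_⟩
  intro 𝓤 h𝓤 s hs
  rw [tendsto_pi_nhds] at hs
  have h1 : ∀ n, ∃ a ∈ A n, (𝓤 : Filter K) ≤ 𝓝 a := by
    intro n
    apply hζ n 𝓤 (mem_of_superset h𝓤 (iInter_subset A n)) (fun k => s (Nat.pair n k))
    rw [tendsto_pi_nhds]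
    intro k
    have := hs (Nat.pair n k)
    simpa using this
  choose a ha hle using h1
  have h2 : ∀ n, a n = a 0 := by
    intro n
    exact tendsto_nhds_unique (f := id) (l := (𝓤 : Filter K)) (hle n) (hle 0)
  refine ⟨a 0, ?_, hle 0⟩
  rw [mem_iInter]
  intro n
  rw [← h2 n]; exact ha n

theorem UK.prod {L : Type*} [TopologicalSpace L] {A : Set K} {B : Set L} (hA : UK A)
    (hB : UK B) : UK (A ×ˢ B) := by
  classical
  obtain ⟨ζ, hζ⟩ := hA
  obtain ⟨ξ, hξ⟩ := hB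
  refine ⟨fun p m => Nat.pair (ζ p.1 m) (ξ p.2 m), ?_⟩
  intro 𝓤 h𝓤 s hs
  rw [tendsto_pi_nhds] at hs
  have hev : ∀ m, ∀ᶠ p in (𝓤 : Filter (K × L)), Nat.pair (ζ p.1 m) (ξ p.2 m) = s m := by
    intro m
    have := hs m
    rw [nhds_discrete, tendsto_pure] at this
    exact this
  obtain ⟨a, ha, hle⟩ := hζ (𝓤.map Prod.fst) (by
    rw [Ultrafilter.mem_map]
    exact mem_of_superset h𝓤 fun p hp => hp.1) (fun m => (s m).unpair.1) (by
    rw [Ultrafilter.coe_map, tendsto_map'_iff, tendsto_pi_nhds]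
    intro m
    apply Tendsto.congr' _ tendsto_const_nhds
    filter_upwards [hev m] with p hp
    show (s m).unpair.1 = ζ p.1 m
    rw [← hp]; simp)
  obtain ⟨b, hb, hle'⟩ := hξ (𝓤.map Prod.snd) (by
    rw [Ultrafilter.mem_map]
    exact mem_of_superset h𝓤 fun p hp => hp.2) (fun m => (s m).unpair.2) (by
    rw [Ultrafilter.coe_map, tendsto_map'_iff, tendsto_pi_nhds]
    intro m
    apply Tendsto.congr' _ tendsto_const_nhds
    filter_upwards [hev m] with p hp
    show (s m).unpair.2 = ξ p.2 m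
    rw [← hp]; simp)
  refine ⟨(a, b), ⟨ha, hb⟩, ?_⟩
  have h1 : Tendsto Prod.fst (𝓤 : Filter (K × L)) (𝓝 a) := hle
  have h2 : Tendsto Prod.snd (𝓤 : Filter (K × L)) (𝓝 b) := hle'
  have h3 := h1.prodMk h2
  rw [← nhds_prod_eq] at h3
  exact h3

theorem UK.image {L : Type*} [TopologicalSpace L] {A : Set K} (hA : UK A)
    {φ : K → L} (hφ : Continuous φ) : UK (φ '' A) := by
  classical
  rcases A.eq_empty_or_nonempty with rfl | ⟨a0, ha0⟩
  · rw [image_empty]
    exact UK.of_compact isCompact_empty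
  obtain ⟨ζ, hζ⟩ := hA
  have hσ : ∀ b, ∃ a, b ∈ φ '' A → a ∈ A ∧ φ a = b := by
    intro b
    by_cases hb : b ∈ φ '' A
    · obtain ⟨a, ha, hab⟩ := hb
      exact ⟨a, fun _ => ⟨ha, hab⟩⟩
    · exact ⟨a0, fun h => absurd h hb⟩
  choose σ hσ using hσ
  refine ⟨fun b => ζ (σ b), ?_⟩
  intro 𝓤 h𝓤 s hs
  obtain ⟨a, ha, hle⟩ := hζ (𝓤.map σ) (by
    rw [Ultrafilter.mem_map]
    exact mem_of_superset h𝓤 fun b hb => (hσ b hb).1) s (by
    rw [Ultrafilter.coe_map, tendsto_map'_iff]; exact hs)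
  refine ⟨φ a, ⟨a, ha, rfl⟩, ?_⟩
  have h1 : Tendsto σ (𝓤 : Filter L) (𝓝 a) := hle
  have h2 : Tendsto (fun b => φ (σ b)) (𝓤 : Filter L) (𝓝 (φ a)) := (hφ.tendsto a).comp h1
  have h3 : Tendsto (fun b => b) (𝓤 : Filter L) (𝓝 (φ a)) := by
    apply Tendsto.congr' _ h2
    filter_upwards [h𝓤] with b hb
    exact (hσ b hb).2
  exact h3

theorem UK.subtype {A : Set K} (hA : UK A) {p : K → Prop} (hp : ∀ a ∈ A, p a) :
    UK {z : {x // p x} | z.1 ∈ A} := by
  obtain ⟨ζ, hζ⟩ := hA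
  refine ⟨fun z => ζ z.1, ?_⟩
  intro 𝓤 h𝓤 s hs
  obtain ⟨a, ha, hle⟩ := hζ (𝓤.map Subtype.val) h𝓤 s (by
    rw [Ultrafilter.coe_map, tendsto_map'_iff]; exact hs)
  refine ⟨⟨a, hp a ha⟩, ha, ?_⟩
  rw [nhds_subtype_eq_comap, ← map_le_iff_le_comap]
  exact hle

/-- from upper semicontinuous compact-valued covers -/
theorem UK.of_usco {F : (ℕ → ℕ) → Set K} (h1 : ∀ s, IsCompact (F s)) (h2 : ∀ z, ∃ s, z ∈ F s)
    (h3 : ∀ U : Set K, IsOpen U → IsOpen {s | F s ⊆ U}) : UK (Set.univ : Set K) := by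
  choose ζ hζ using h2
  refine ⟨ζ, ?_⟩
  intro 𝓤 _ s hs
  obtain ⟨c, -, hc⟩ := ultra_compact (h1 s) 𝓤 (by
    intro U hU hsU
    have h4 : {s | F s ⊆ U} ∈ 𝓝 s := (h3 U hU).mem_nhds hsU
    have h5 : ζ ⁻¹' {s | F s ⊆ U} ∈ (𝓤 : Filter K) := hs h4
    exact Filter.mem_of_superset h5 fun z hz => hz (hζ z))
  exact ⟨c, mem_univ c, hc⟩

/-- to upper semicontinuous compact-valued covers -/
theorem UK.usco [RegularSpace K] (h : UK (Set.univ : Set K)) :
    ∃ F : (ℕ → ℕ) → Set K, (∀ s, IsCompact (F s)) ∧ (∀ z, ∃ s, z ∈ F s) ∧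
      ∀ U : Set K, IsOpen U → IsOpen {s | F s ⊆ U} := by
  classical
  obtain ⟨ζ, hζ⟩ := h
  let F : (ℕ → ℕ) → Set K := fun s => {z | ∃ 𝓤 : Ultrafilter K, Tendsto ζ 𝓤 (𝓝 s) ∧
    (𝓤 : Filter K) ≤ 𝓝 z}
  have hcomp : ∀ s, IsCompact (F s) := by
    intro s
    rw [isCompact_iff_ultrafilter_le_nhds]
    intro 𝓥 h𝓥
    rw [le_principal_iff] at h𝓥
    have hsel : ∀ z, ∃ 𝓤 : Ultrafilter K, z ∈ F s → Tendsto ζ 𝓤 (𝓝 s) ∧ (𝓤 : Filter K) ≤ 𝓝 z := by
      intro z
      by_cases hz : z ∈ F s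
      · obtain ⟨𝓤, h⟩ := hz; exact ⟨𝓤, fun _ => h⟩
      · exact ⟨pure z, fun h => absurd h hz⟩
    choose 𝓤 h𝓤 using hsel
    have hmem : ∀ A : Set K, A ∈ Ultrafilter.bind 𝓥 𝓤 ↔ {z | A ∈ 𝓤 z} ∈ 𝓥 := fun A => Iff.rfl
    obtain ⟨a, -, ha⟩ := hζ (Ultrafilter.bind 𝓥 𝓤) Filter.univ_mem s (by
      intro W hW
      show ζ ⁻¹' W ∈ Ultrafilter.bind 𝓥 𝓤
      rw [hmem]
      apply mem_of_superset h𝓥
      intro z hz
      exact (h𝓤 z hz).1 hW)
    refine ⟨a, ⟨Ultrafilter.bind 𝓥 𝓤, ?_, ha⟩, ?_⟩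
    · intro W hW
      show ζ ⁻¹' W ∈ Ultrafilter.bind 𝓥 𝓤
      rw [hmem]
      apply mem_of_superset h𝓥
      intro z hz
      exact (h𝓤 z hz).1 hW
    · intro O hO
      obtain ⟨O', hO', hO'c, hO'O⟩ := exists_mem_nhds_isClosed_subset hO
      have h1 : O' ∈ Ultrafilter.bind 𝓥 𝓤 := ha hO'
      rw [hmem] at h1
      filter_upwards [h1, h𝓥] with z hz1 hz2
      apply hO'O
      exact hO'c.mem_of_tendsto (f := id) (b := (𝓤 z : Filter K)) (h𝓤 z hz2).2 hz1
  have husc0 : ∀ s, ∀ U : Set K, IsOpen U → F s ⊆ U → U ∈ comap ζ (𝓝 s) := by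
    intro s U hU hsU
    by_contra hcon
    have hne : (comap ζ (𝓝 s) ⊓ 𝓟 Uᶜ).NeBot := by
      rw [neBot_iff]
      intro h
      apply hcon
      rwa [inf_principal_eq_bot, compl_compl] at h
    let 𝓤 : Ultrafilter K := Ultrafilter.of (comap ζ (𝓝 s) ⊓ 𝓟 Uᶜ)
    have h𝓤 : (𝓤 : Filter K) ≤ comap ζ (𝓝 s) ⊓ 𝓟 Uᶜ := Ultrafilter.of_le _
    have ht : Tendsto ζ 𝓤 (𝓝 s) := tendsto_comap.mono_left (h𝓤.trans inf_le_left)
    obtain ⟨a, -, ha⟩ := hζ 𝓤 Filter.univ_mem s ht
    have h1 : a ∈ U := hsU ⟨𝓤, ht, ha⟩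
    have h2 : U ∈ 𝓤 := ha (hU.mem_nhds h1)
    have h3 : Uᶜ ∈ 𝓤 := (h𝓤.trans inf_le_right) (mem_principal_self _)
    exact (Ultrafilter.compl_mem_iff_notMem.1 h3) h2
  refine ⟨F, hcomp, fun z => ⟨ζ z, pure z, ?_, ?_⟩, ?_⟩
  · rw [Ultrafilter.coe_pure]; exact tendsto_pure_nhds ζ z
  · rw [Ultrafilter.coe_pure]; exact pure_le_nhds z
  · intro U hU
    rw [isOpen_iff_mem_nhds]
    intro s hs
    have hs' : F s ⊆ U := hs
    obtain ⟨V, hV, hFV, hVU⟩ := (hcomp s).exists_isOpen_closure_subset (hU.mem_nhdsSet.2 hs')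
    obtain ⟨W, hW, hWV⟩ := husc0 s V hV hFV
    rw [mem_nhds_iff] at hW
    obtain ⟨W', hW'W, hW', hsW'⟩ := hW
    apply mem_of_superset (hW'.mem_nhds hsW')
    rintro s' hs' z ⟨𝓤, h𝓤1, h𝓤2⟩
    apply hVU
    have h1 : V ∈ 𝓤 := by
      have h2 := h𝓤1 (hW'.mem_nhds hs')
      exact mem_of_superset h2 fun y hy => hWV (hW'W hy)
    exact mem_closure_of_tendsto (f := id) (b := (𝓤 : Filter K)) h𝓤2 h1

end

section
variable {X : Type*} [TopologicalSpace X]

theorem UK_const : UK (range (fun (c : ℝ) (_ : X) => c)) := by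
  have hc : Continuous (fun (c : ℝ) (_ : X) => c) := continuous_pi fun _ => continuous_id
  have : range (fun (c : ℝ) (_ : X) => c) = ⋃ n : ℕ, (fun (c : ℝ) (_ : X) => c) ''
      Icc (-(n:ℝ)) n := by
    rw [← image_iUnion, ← image_univ]
    congr 1
    symm
    rw [eq_univ_iff_forall]
    intro c
    obtain ⟨n, hn⟩ := exists_nat_ge |c|
    exact mem_iUnion.2 ⟨n, abs_le.1 hn⟩
  rw [this]
  apply UK.iUnion
  intro n
  exact UK.of_compact (isCompact_Icc.image (s := Icc (-(n:ℝ)) n) hc)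

end

section
variable {X : Type u} [TopologicalSpace X]

lemma algA_UK {A : Set (X → ℝ)} (hA : UK A) : ∀ n, UK (algA A n) := by
  intro n
  induction n with
  | zero => exact hA
  | succ n ih =>
    exact ih.union (((ih.prod ih).image (continuous_fst.add continuous_snd)).union
      ((ih.prod ih).image (continuous_fst.mul continuous_snd)))

/-- the algebra generated by a set of functions -/
def algP (D : Set (X → ℝ)) : Set (X → ℝ) := ⋃ n, algA (D ∪ range (fun (c : ℝ) (_ : X) => c)) n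

lemma algP_UK {D : Set (X → ℝ)} (hD : UK D) : UK (algP D) :=
  UK.iUnion (algA_UK (hD.union UK_const))

lemma algP_cont {D : Set (X → ℝ)} (hD : ∀ f ∈ D, Continuous f) : ∀ f ∈ algP D, Continuous f := by
  intro f hf
  obtain ⟨n, hn⟩ := mem_iUnion.1 hf
  refine algA_cont ?_ n f hn
  rintro f (hf | ⟨c, rfl⟩)
  · exact hD f hf
  · exact continuous_const

lemma algP_subset (D : Set (X → ℝ)) : D ⊆ algP D := fun _ hf => mem_iUnion.2 ⟨0, Or.inl hf⟩

lemma algP_const (D : Set (X → ℝ)) (c : ℝ) : (fun _ => c) ∈ algP D :=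
  mem_iUnion.2 ⟨0, Or.inr ⟨c, rfl⟩⟩

lemma algP_add {D : Set (X → ℝ)} {f g : X → ℝ} (hf : f ∈ algP D) (hg : g ∈ algP D) :
    f + g ∈ algP D := by
  obtain ⟨n, hn⟩ := mem_iUnion.1 hf
  obtain ⟨m, hm⟩ := mem_iUnion.1 hg
  refine mem_iUnion.2 ⟨max n m + 1, Or.inr (Or.inl ⟨(f, g), ⟨?_, ?_⟩, rfl⟩)⟩
  · exact algA_mono _ (le_max_left n m) hn
  · exact algA_mono _ (le_max_right n m) hm

lemma algP_mul {D : Set (X → ℝ)} {f g : X → ℝ} (hf : f ∈ algP D) (hg : g ∈ algP D) :
    f * g ∈ algP D := by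
  obtain ⟨n, hn⟩ := mem_iUnion.1 hf
  obtain ⟨m, hm⟩ := mem_iUnion.1 hg
  refine mem_iUnion.2 ⟨max n m + 1, Or.inr (Or.inr ⟨(f, g), ⟨?_, ?_⟩, rfl⟩)⟩
  · exact algA_mono _ (le_max_left n m) hn
  · exact algA_mono _ (le_max_right n m) hm

/-- approximation on a compact subset of the space -/
theorem algP_approx {D : Set (X → ℝ)} (hD : ∀ f ∈ D, Continuous f) {J : Set X}
    (hJ : IsCompact J)
    (hsep : ∀ x ∈ J, ∀ y ∈ J, (∀ f ∈ D, f x = f y) → x = y) {g : X → ℝ} (hg : Continuous g)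
    {ε : ℝ} (hε : 0 < ε) : ∃ f ∈ algP D, ∀ x ∈ J, |g x - f x| < ε := by
  have hJc : CompactSpace J := isCompact_iff_compactSpace.1 hJ
  let hs : D → C(J, ℝ) := fun f => ⟨fun x => f.1 x.1, (hD f.1 f.2).comp continuous_subtype_val⟩
  let R : Subalgebra ℝ C(J, ℝ) := Algebra.adjoin ℝ (range hs)
  have hR : ∀ f ∈ R, ∃ p ∈ algP D, ∀ x : J, p x.1 = f x := by
    intro f hf
    induction hf using Algebra.adjoin_induction with
    | mem f hf =>
      obtain ⟨s, rfl⟩ := hf
      exact ⟨s.1, algP_subset D s.2, fun x => rfl⟩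
    | algebraMap c => exact ⟨fun _ => c, algP_const D c, fun x => rfl⟩
    | add f g _ _ hf hg =>
      obtain ⟨p, hp, hpf⟩ := hf
      obtain ⟨q, hq, hqg⟩ := hg
      exact ⟨p + q, algP_add hp hq, fun x => by simp [hpf, hqg]⟩
    | mul f g _ _ hf hg =>
      obtain ⟨p, hp, hpf⟩ := hf
      obtain ⟨q, hq, hqg⟩ := hg
      exact ⟨p * q, algP_mul hp hq, fun x => by simp [hpf, hqg]⟩
  have hRsep : R.SeparatesPoints := by
    intro x y hxy
    have : ∃ f ∈ D, f x.1 ≠ f y.1 := by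
      by_contra hall
      push Not at hall
      exact hxy (Subtype.ext (hsep x.1 x.2 y.1 y.2 hall))
    obtain ⟨f, hf, hne⟩ := this
    exact ⟨hs ⟨f, hf⟩, ⟨hs ⟨f, hf⟩, Algebra.subset_adjoin ⟨_, rfl⟩, rfl⟩, hne⟩
  have hRd := ContinuousMap.subalgebra_topologicalClosure_eq_top_of_separatesPoints R hRsep
  let g' : C(J, ℝ) := ⟨fun x => g x.1, hg.comp continuous_subtype_val⟩
  have h2 : g' ∈ closure (R : Set C(J, ℝ)) := by
    have h1 : g' ∈ R.topologicalClosure := by rw [hRd]; trivial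
    exact h1
  obtain ⟨f, hf, hd⟩ := Metric.mem_closure_iff.1 h2 ε hε
  obtain ⟨p, hp, hpf⟩ := hR f hf
  refine ⟨p, hp, ?_⟩
  intro x hx
  have h3 := (ContinuousMap.dist_apply_le_dist (f := g') (g := f) ⟨x, hx⟩).trans_lt hd
  rw [Real.dist_eq] at h3
  rw [hpf ⟨x, hx⟩]
  exact h3

/-- a K-analytic separating set of functions makes the function space K-analytic -/
theorem UK_continuous [CompactSpace X] [T2Space X] {D : Set (X → ℝ)} (hD : UK D)
    (hDc : ∀ f ∈ D, Continuous f) (hsep : ∀ x y, (∀ f ∈ D, f x = f y) → x = y) :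
    UK {f : X → ℝ | Continuous f} := by
  let Bn : ℕ → Set (X → ℝ) := fun n => Set.pi Set.univ fun _ => Icc (-(1/((n:ℝ)+1))) (1/((n:ℝ)+1))
  have hBn : ∀ n, UK (Bn n) := fun n =>
    UK.of_compact (isCompact_univ_pi fun _ => isCompact_Icc)
  have hmain : {f : X → ℝ | Continuous f} = ⋂ n, (fun p : (X → ℝ) × (X → ℝ) => p.1 + p.2) ''
      (algP D ×ˢ Bn n) := by
    ext f
    rw [mem_iInter]
    constructor
    · intro hf n
      obtain ⟨g, hg, hd⟩ := algP_approx hDc isCompact_univ (fun x _ y _ => hsep x y)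
        (show Continuous f from hf) (show (0:ℝ) < 1/((n:ℝ)+1) by positivity)
      refine ⟨(g, f - g), ⟨hg, ?_⟩, ?_⟩
      · intro x _
        exact abs_le.1 (hd x (mem_univ x)).le
      · funext x; simp
    · intro hf
      show Continuous f
      apply continuous_of_uniform_approx_of_continuous
      intro u hu
      obtain ⟨ε, hε, hεu⟩ := Metric.mem_uniformity_dist.1 hu
      obtain ⟨n, hn⟩ := exists_nat_one_div_lt hε
      obtain ⟨⟨g, k⟩, ⟨hg, hk⟩, hgk⟩ := hf n
      refine ⟨g, algP_cont hDc g hg, ?_⟩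
      intro y
      apply hεu
      have h4 : f y = g y + k y := by rw [← hgk]; rfl
      have h5 : |k y| ≤ 1/((n:ℝ)+1) := abs_le.2 (hk y (mem_univ y))
      rw [Real.dist_eq, h4]
      have h6 : g y + k y - g y = k y := by ring
      rw [h6]; exact h5.trans_lt hn
  rw [hmain]
  exact UK.iInter fun n => ((algP_UK hD).prod (hBn n)).image (continuous_fst.add continuous_snd)

end

/-- the function space -/
abbrev Cp (X : Type*) [TopologicalSpace X] : Type _ := {f : X → ℝ // Continuous f}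

/-- a dense K-analytic subspace -/
def DK (W : Type*) [TopologicalSpace W] : Prop := ∃ D : Set W, Dense D ∧ UK D

theorem DK.homeo {W W' : Type*} [TopologicalSpace W] [TopologicalSpace W'] (h : DK W)
    (e : W ≃ₜ W') : DK W' := by
  obtain ⟨D, hD, hU⟩ := h
  refine ⟨e '' D, ?_, hU.image e.continuous⟩
  exact e.surjective.denseRange.dense_image e.continuous hD

theorem DK.step {W : Type u} [TopologicalSpace W] (h : DK W) : DK (Cp (Cp W)) := by
  classical
  obtain ⟨D, hD, hU⟩ := h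
  let ev : W → (Cp W → ℝ) := fun w t => t.1 w
  have hev : Continuous ev := continuous_pi fun t => t.2
  have hevc : ∀ w, Continuous (ev w) := fun w => (continuous_apply w).comp continuous_subtype_val
  have hD' : UK (ev '' D) := hU.image hev
  have hDc : ∀ f ∈ ev '' D, Continuous f := by
    rintro _ ⟨w, -, rfl⟩; exact hevc w
  have hsep : ∀ x y : Cp W, (∀ f ∈ ev '' D, f x = f y) → x = y := by
    intro x y hxy
    apply Subtype.ext
    apply Continuous.ext_on hD x.2 y.2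
    intro w hw
    exact hxy _ ⟨w, hw, rfl⟩
  refine ⟨{z | z.1 ∈ algP (ev '' D)}, ?_, (algP_UK hD').subtype (algP_cont hDc)⟩
  intro v
  rw [mem_closure_iff_nhds]
  intro N hN
  rw [nhds_subtype_eq_comap] at hN
  obtain ⟨N', hN', hNN'⟩ := hN
  rw [nhds_pi, Filter.mem_pi] at hN'
  obtain ⟨I, hI, t, ht, htN⟩ := hN'
  have hδ : ∀ i, ∃ δ > 0, Metric.ball (v.1 i) δ ⊆ t i := fun i => Metric.mem_nhds_iff.1 (ht i)
  choose δ hδ0 hδt using hδ
  have hε : ∀ I : Set (Cp W), I.Finite → ∃ ε > 0, ∀ i ∈ I, ε ≤ δ i := by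
    intro I hI
    induction I, hI using Set.Finite.induction_on with
    | empty => exact ⟨1, one_pos, by simp⟩
    | @insert a s _ _ ih =>
      obtain ⟨ε, hε, h1⟩ := ih
      refine ⟨min ε (δ a), lt_min hε (hδ0 a), ?_⟩
      intro i hi
      rcases hi with rfl | hi
      · exact min_le_right _ _
      · exact (min_le_left _ _).trans (h1 i hi)
  obtain ⟨ε, hε, hεI⟩ := hε I hI
  obtain ⟨f, hf, hfI⟩ := algP_approx hDc hI.isCompact (fun x _ y _ => hsep x y) v.2 hε
  refine ⟨⟨f, algP_cont hDc f hf⟩, ?_, hf⟩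
  apply hNN'
  apply htN
  intro i hi
  apply hδt
  rw [Metric.mem_ball, Real.dist_eq, abs_sub_comm]
  exact (hfI i hi).trans_le (hεI i hi)

/-- functoriality -/
def Cp.congr {P Q : Type*} [TopologicalSpace P] [TopologicalSpace Q] (e : P ≃ₜ Q) :
    Cp Q ≃ₜ Cp P where
  toFun f := ⟨fun p => f.1 (e p), f.2.comp e.continuous⟩
  invFun g := ⟨fun q => g.1 (e.symm q), g.2.comp e.symm.continuous⟩
  left_inv f := by apply Subtype.ext; funext q; simp
  right_inv g := by apply Subtype.ext; funext p; simp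
  continuous_toFun := by
    apply Continuous.subtype_mk
    exact continuous_pi fun p => (continuous_apply (e p)).comp continuous_subtype_val
  continuous_invFun := by
    apply Continuous.subtype_mk
    exact continuous_pi fun q => (continuous_apply (e.symm q)).comp continuous_subtype_val

/-- points separated by continuous functions -/
def PSep (Z : Type*) [TopologicalSpace Z] : Prop :=
  ∀ z z' : Z, (∀ f : Z → ℝ, Continuous f → f z = f z') → z = z'

theorem PSep.homeo {P Q : Type*} [TopologicalSpace P] [TopologicalSpace Q] (h : PSep P)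
    (e : P ≃ₜ Q) : PSep Q := by
  intro z z' hzz
  apply e.symm.injective
  apply h
  intro f hf
  exact hzz (fun q => f (e.symm q)) (hf.comp e.symm.continuous)

theorem PSep.Cp (P : Type*) [TopologicalSpace P] : PSep (Cp P) := by
  intro z z' h
  apply Subtype.ext
  funext p
  exact h (fun f => f.1 p) ((continuous_apply p).comp continuous_subtype_val)

theorem PSep.of_compact (P : Type*) [TopologicalSpace P] [CompactSpace P] [T2Space P] :
    PSep P := by
  intro z z' h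
  by_contra hne
  obtain ⟨f, hf0, hf1, -⟩ := exists_continuous_zero_one_of_isClosed (isClosed_singleton (x := z))
    (isClosed_singleton (x := z')) (by rwa [disjoint_singleton])
  have h0 : f z = 0 := hf0 rfl
  have h1 : f z' = 1 := hf1 rfl
  have h2 := h f f.continuous
  rw [h0, h1] at h2
  exact zero_ne_one h2

theorem iter_main (X Y : Type) [TopologicalSpace X] [TopologicalSpace Y]
    [CompactSpace Y] [T2Space Y]
    (n : ℕ) (A B : ℕ → Type) [∀ k, TopologicalSpace (A k)] [∀ k, TopologicalSpace (B k)]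
    (hA0 : Nonempty (A 0 ≃ₜ X))
    (hA : ∀ k, Nonempty (A (k + 1) ≃ₜ {f : A k → ℝ // Continuous f}))
    (hB0 : Nonempty (B 0 ≃ₜ Y))
    (hB : ∀ k, Nonempty (B (k + 1) ≃ₜ {f : B k → ℝ // Continuous f}))
    (hAB : Nonempty (A n ≃ₜ B n))
    (hX : ∃ F : (ℕ → ℕ) → Set {f : X → ℝ // Continuous f},
            (∀ s, IsCompact (F s)) ∧ (∀ z, ∃ s, z ∈ F s) ∧
            ∀ U : Set {f : X → ℝ // Continuous f}, IsOpen U → IsOpen {s | F s ⊆ U}) :
    ∃ F : (ℕ → ℕ) → Set {f : Y → ℝ // Continuous f},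
            (∀ s, IsCompact (F s)) ∧ (∀ z, ∃ s, z ∈ F s) ∧
            ∀ U : Set {f : Y → ℝ // Continuous f}, IsOpen U → IsOpen {s | F s ⊆ U} := by
  classical
  obtain ⟨F, hF1, hF2, hF3⟩ := hX
  have hDX : DK (Cp X) := ⟨Set.univ, dense_univ, UK.of_usco hF1 hF2 hF3⟩
  -- all odd levels have a dense K-analytic subspace
  have hodd : ∀ m, DK (A (2 * m + 1)) := by
    intro m
    induction m with
    | zero =>
      obtain ⟨e0⟩ := hA0
      obtain ⟨e1⟩ := hA 0
      exact (hDX.homeo (Cp.congr e0)).homeo e1.symm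
    | succ m ih =>
      obtain ⟨e1⟩ := hA (2 * m + 1)
      obtain ⟨e2⟩ := hA (2 * m + 2)
      exact (ih.step.homeo (Cp.congr e1)).homeo e2.symm
  -- all higher levels are homeomorphic
  have hup : ∀ k, Nonempty (A (n + k) ≃ₜ B (n + k)) := by
    intro k
    induction k with
    | zero => exact hAB
    | succ k ih =>
      obtain ⟨e⟩ := ih
      obtain ⟨e1⟩ := hA (n + k)
      obtain ⟨e2⟩ := hB (n + k)
      exact ⟨(e1.trans (Cp.congr e.symm)).trans e2.symm⟩
  have hsepB : ∀ k, PSep (B k) := by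
    intro k
    cases k with
    | zero =>
      obtain ⟨e⟩ := hB0
      exact (PSep.of_compact Y).homeo e.symm
    | succ k =>
      obtain ⟨e⟩ := hB k
      exact (PSep.Cp (B k)).homeo e.symm
  -- the space Y injects in all even levels
  have heven : ∀ m, ∃ j : Y → B (2 * m), Continuous j ∧ Function.Injective j := by
    intro m
    induction m with
    | zero =>
      obtain ⟨e⟩ := hB0
      exact ⟨e.symm, e.symm.continuous, e.symm.injective⟩
    | succ m ih =>
      obtain ⟨j, hj, hji⟩ := ih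
      obtain ⟨e1⟩ := hB (2 * m)
      obtain ⟨e2⟩ := hB (2 * m + 1)
      let ev : B (2 * m) → Cp (Cp (B (2 * m))) := fun b =>
        ⟨fun f => f.1 b, (continuous_apply b).comp continuous_subtype_val⟩
      have hev : Continuous ev := by
        apply Continuous.subtype_mk
        exact continuous_pi fun f => f.2
      have hevi : Function.Injective ev := by
        intro b b' hbb
        apply hsepB (2 * m)
        intro f hf
        have := congrFun (congrArg Subtype.val hbb) ⟨f, hf⟩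
        exact this
      refine ⟨fun y => e2.symm (Cp.congr e1 (ev (j y))), ?_, ?_⟩
      · exact e2.symm.continuous.comp ((Cp.congr e1).continuous.comp (hev.comp hj))
      · exact e2.symm.injective.comp ((Cp.congr e1).injective.comp (hevi.comp hji))
  obtain ⟨j, hj, hji⟩ := heven (n + 1)
  obtain ⟨e⟩ := hup (n + 2)
  have hn2 : n + (n + 2) = 2 * (n + 1) := by ring
  rw [hn2] at e
  obtain ⟨e1⟩ := hA (2 * n + 1)
  obtain ⟨D, hD, hUD⟩ := hodd n
  -- an injection of Y in the function space of a level with a dense K-analytic subspace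
  let g : Y → Cp (A (2 * n + 1)) := fun y => e1 (e.symm (j y))
  have hg : Continuous g := e1.continuous.comp (e.symm.continuous.comp hj)
  have hgi : Function.Injective g := e1.injective.comp (e.symm.injective.comp hji)
  let φ : A (2 * n + 1) → (Y → ℝ) := fun w y => (g y).1 w
  have hφ : Continuous φ := continuous_pi fun y => (g y).2
  have hUφ : UK (φ '' D) := hUD.image hφ
  have hφc : ∀ f ∈ φ '' D, Continuous f := by
    rintro _ ⟨w, -, rfl⟩
    exact (continuous_apply w).comp (continuous_subtype_val.comp hg)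
  have hφs : ∀ x y, (∀ f ∈ φ '' D, f x = f y) → x = y := by
    intro x y hxy
    apply hgi
    apply Subtype.ext
    apply Continuous.ext_on hD (g x).2 (g y).2
    intro w hw
    exact hxy _ ⟨w, hw, rfl⟩
  have hYc : UK {f : Y → ℝ | Continuous f} := UK_continuous hUφ hφc hφs
  have hYu : UK (Set.univ : Set (Cp Y)) := by
    have := hYc.subtype (p := fun f => Continuous f) (fun _ h => h)
    convert this using 1
    symm
    rw [eq_univ_iff_forall]
    intro z
    exact z.2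
  exact hYu.usco

end Pool.Agent.Helper535
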