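import Pool.Agent.Helper535.T

open Set Topology Cardinal

namespace Pool.Agent.Helper535

universe u v w

/-- ultrafilters converging to a compact set converge to a point of it -/
lemma ultra_compact {Z : Type*} [TopologicalSpace Z] {C : Set Z} (hC : IsCompact C)
    (𝓤 : Ultrafilter Z) (h : ∀ U : Set Z, IsOpen U → C ⊆ U → U ∈ 𝓤) :
    ∃ c ∈ C, (𝓤 : Filter Z) ≤ 𝓝 c := by
  by_contra hcon
  push Not at hcon
  have h1 : ∀ c ∈ C, ∃ U : Set Z, IsOpen U ∧ c ∈ U ∧ U ∉ 𝓤 := by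
    intro c hc
    have := hcon c hc
    rw [Filter.not_le] at this
    obtain ⟨V, hV, hVU⟩ := this
    obtain ⟨U, hUV, hU, hcU⟩ := mem_nhds_iff.1 hV
    exact ⟨U, hU, hcU, fun h' => hVU (Filter.mem_of_superset h' hUV)⟩
  choose! U hU1 hU2 hU3 using h1
  obtain ⟨t, ht, hCt⟩ := hC.elim_nhds_subcover U fun c hc => (hU1 c hc).mem_nhds (hU2 c hc)
  have h2 := h (⋃ c ∈ t, U c) (isOpen_biUnion fun c hc => hU1 c (ht c hc)) hCt
  have h3 := (Ultrafilter.finite_biUnion_mem_iff t.finite_toSet).1 h2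
  obtain ⟨c, hc, h4⟩ := h3
  exact hU3 c (ht c hc) h4

theorem network_usco {X : Type u} [TopologicalSpace X] (N : ℕ → Set {g : X → ℝ // Continuous g})
    (hN : ∀ g : {g : X → ℝ // Continuous g}, ∃ C : Set {g : X → ℝ // Continuous g},
      IsCompact C ∧ g ∈ C ∧
      ∀ U : Set {g : X → ℝ // Continuous g}, IsOpen U → C ⊆ U → ∃ n : ℕ, C ⊆ N n ∧ N n ⊆ U) :
    ∃ (E : Type) (_ : TopologicalSpace E) (_ : SecondCountableTopology E) (_ : Nonempty E)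
      (ζ : C(X, ℝ) → E), Usco E X ζ := by
  classical
  choose C hC hgC hCN using hN
  let ζ' : {g : X → ℝ // Continuous g} → (ℕ → Bool) := fun g n => decide (C g ⊆ N n)
  let c : C(X, ℝ) → {g : X → ℝ // Continuous g} := fun f => ⟨f, f.continuous⟩
  refine ⟨range ζ', inferInstance, inferInstance, ⟨⟨_, c 0, rfl⟩⟩, fun f => ⟨ζ' (c f), c f, rfl⟩, ?_⟩
  rintro ⟨_, g0, rfl⟩ 𝓤 h𝓤
  have h1 : Filter.Tendsto (fun f => ζ' (c f)) 𝓤 (𝓝 (ζ' g0)) :=
    (continuous_subtype_val.tendsto _).comp h𝓤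
  have h2 : ∀ n, C g0 ⊆ N n → N n ∈ 𝓤.map c := by
    intro n hn
    have h3 : Filter.Tendsto (fun f => ζ' (c f) n) 𝓤 (𝓝 (ζ' g0 n)) :=
      (tendsto_pi_nhds.1 h1) n
    have h4 : ζ' g0 n = true := by simp [ζ', hn]
    rw [h4, nhds_discrete, Filter.tendsto_pure] at h3
    rw [Ultrafilter.mem_map]
    filter_upwards [h3] with f hf
    have h5 : C (c f) ⊆ N n := by simpa [ζ'] using hf
    exact h5 (hgC (c f))
  obtain ⟨g, hg, hle⟩ := ultra_compact (hC g0) (𝓤.map c) (by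
    intro U hU hCU
    obtain ⟨n, hn1, hn2⟩ := hCN g0 U hU hCU
    exact Filter.mem_of_superset (h2 n hn1) hn2)
  refine ⟨⟨g.1, g.2⟩, ?_⟩
  intro x
  have h6 : Filter.Tendsto c 𝓤 (𝓝 g) := by
    rw [Filter.Tendsto]; exact hle
  have h7 : Continuous (fun k : {g : X → ℝ // Continuous g} => k.1 x) :=
    (continuous_apply x).comp continuous_subtype_val
  exact (h7.tendsto g).comp h6

theorem network_usco' {X : Type u} [TopologicalSpace X]
    (h : ∃ 𝓕 : Set (Set {g : X → ℝ // Continuous g}), 𝓕.Countable ∧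
      ∀ z : {g : X → ℝ // Continuous g}, ∃ K : Set {g : X → ℝ // Continuous g},
        IsCompact K ∧ z ∈ K ∧
        ∀ U : Set {g : X → ℝ // Continuous g}, IsOpen U → K ⊆ U → ∃ F ∈ 𝓕, K ⊆ F ∧ F ⊆ U) :
    ∃ (E : Type) (_ : TopologicalSpace E) (_ : SecondCountableTopology E) (_ : Nonempty E)
      (ζ : C(X, ℝ) → E), Usco E X ζ := by
  obtain ⟨𝓕, h𝓕, hz⟩ := h
  have hne : 𝓕.Nonempty := by
    obtain ⟨K, -, -, hK⟩ := hz ⟨fun _ => 0, continuous_const⟩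
    obtain ⟨F, hF, -⟩ := hK Set.univ isOpen_univ (subset_univ _)
    exact ⟨F, hF⟩
  obtain ⟨N, hN⟩ := h𝓕.exists_eq_range hne
  refine network_usco N ?_
  intro g
  obtain ⟨K, hK, hgK, hU⟩ := hz g
  refine ⟨K, hK, hgK, ?_⟩
  intro U hU1 hU2
  obtain ⟨F, hF, h1, h2⟩ := hU U hU1 hU2
  rw [hN] at hF
  obtain ⟨n, rfl⟩ := hF
  exact ⟨n, h1, h2⟩

/-- splitting over spaces with Usco function spaces -/
theorem gsplit_of {X : Type u} [TopologicalSpace X]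
    (h : ∀ A : Set X, ∃ (Y : Type u) (_ : TopologicalSpace Y) (_ : CompactSpace Y) (_ : T2Space Y),
      (∃ (E : Type v) (_ : TopologicalSpace E) (_ : SecondCountableTopology E) (_ : Nonempty E)
      (ζ : C(Y, ℝ) → E), Usco E Y ζ) ∧ ∃ f : X → Y, Continuous f ∧ f ⁻¹' (f '' A) = A) :
    GSplit.{u, v} X := by
  intro A
  obtain ⟨Y, _, _, _, ⟨E, _, _, _, ζ, H⟩, f, hf, hfA⟩ := h A
  obtain ⟨S, g, e, G, hsep⟩ := H.gs
  refine ⟨ℕ → E, inferInstance, inferInstance, inferInstance, S,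
    fun s => (g s).comp ⟨f, hf⟩, e, G.comp ⟨f, hf⟩, ?_⟩
  intro x hx y hy
  by_contra hall
  push Not at hall
  have : f x = f y := hsep _ _ hall
  apply hy
  rw [← hfA]
  exact ⟨x, hx, this⟩

theorem GS.network {X : Type u} [TopologicalSpace X] [CompactSpace X] [T2Space X] {E : Type v}
    [TopologicalSpace E] [SecondCountableTopology E] (hX : GS E X) :
    ∃ 𝓕 : Set (Set {g : X → ℝ // Continuous g}), 𝓕.Countable ∧
      ∀ z : {g : X → ℝ // Continuous g}, ∃ K : Set {g : X → ℝ // Continuous g},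
        IsCompact K ∧ z ∈ K ∧
        ∀ U : Set {g : X → ℝ // Continuous g}, IsOpen U → K ⊆ U → ∃ F ∈ 𝓕, K ⊆ F ∧ F ⊆ U :=
  (LSg_continuous hX).network

theorem GS.network' {X : Type u} [TopologicalSpace X] [CompactSpace X] [T2Space X] {E : Type v}
    [TopologicalSpace E] [SecondCountableTopology E] (hX : GS E X) :
    ∃ N : ℕ → Set {g : X → ℝ // Continuous g},
      ∀ g : {g : X → ℝ // Continuous g}, ∃ C : Set {g : X → ℝ // Continuous g},
        IsCompact C ∧ g ∈ C ∧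
        ∀ U : Set {g : X → ℝ // Continuous g}, IsOpen U → C ⊆ U → ∃ n : ℕ, C ⊆ N n ∧ N n ⊆ U := by
  obtain ⟨𝓕, h𝓕, hz⟩ := hX.network
  have hne : 𝓕.Nonempty := by
    obtain ⟨K, -, -, hK⟩ := hz ⟨fun _ => 0, continuous_const⟩
    obtain ⟨F, hF, -⟩ := hK Set.univ isOpen_univ (subset_univ _)
    exact ⟨F, hF⟩
  obtain ⟨N, hN⟩ := h𝓕.exists_eq_range hne
  refine ⟨N, ?_⟩
  intro g
  obtain ⟨K, hK, hgK, hU⟩ := hz g
  refine ⟨K, hK, hgK, ?_⟩
  intro U hU1 hU2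
  obtain ⟨F, hF, h1, h2⟩ := hU U hU1 hU2
  rw [hN] at hF
  obtain ⟨n, rfl⟩ := hF
  exact ⟨n, h1, h2⟩

theorem GS.prod {X : Type u} [TopologicalSpace X] {E : Type v}
    [TopologicalSpace E] (hX : GS E X) : GS E (X × X) := by
  obtain ⟨S, h, e, H, hsep⟩ := hX
  refine ⟨S ⊕ S, Sum.elim (fun s => (h s).comp ⟨Prod.fst, continuous_fst⟩)
    (fun s => (h s).comp ⟨Prod.snd, continuous_snd⟩), Sum.elim e e, ⟨?_, ?_⟩, ?_⟩
  · rintro (s | s) x
    · exact H.bdd s _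
    · exact H.bdd s _
  · intro x z ε hε
    obtain ⟨O1, hO1, hf1⟩ := H.fin x.1 z ε hε
    obtain ⟨O2, hO2, hf2⟩ := H.fin x.2 z ε hε
    refine ⟨O1 ∩ O2, Filter.inter_mem hO1 hO2, ?_⟩
    apply ((hf1.image Sum.inl).union (hf2.image Sum.inr)).subset
    rintro (s | s) ⟨hs1, hs2⟩
    · exact Or.inl ⟨s, ⟨hs1.1, hs2⟩, rfl⟩
    · exact Or.inr ⟨s, ⟨hs1.2, hs2⟩, rfl⟩
  · intro x y hxy
    exact Prod.ext (hsep _ _ fun s => hxy (Sum.inl s)) (hsep _ _ fun s => hxy (Sum.inr s))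

end Pool.Agent.Helper535
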