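import Pool.Agent.Helper535.T
import Pool.Agent.Helper535.V

open Set Topology Cardinal

namespace Pool.Agent.Helper535

universe u v w

/-- covers of the complement of the diagonal -/
structure DD (E : Type v) [TopologicalSpace E] (X : Type u) [TopologicalSpace X] where
  S : Type u
  W : S → Set (X × X)
  g : S → C(X, ℝ)
  e : S → E
  T : Type u
  W' : T → Set (X × X)
  u : T → C(X, ℝ)
  v : T → C(X, ℝ)
  σ : T → S
  openW : ∀ s, IsOpen (W s)
  openW' : ∀ t, IsOpen (W' t)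
  hg : ∀ s y z, (y, z) ∈ W s → g s y ≠ g s z
  fin : ∀ p z, ∃ O ∈ 𝓝 z, {s | e s ∈ O ∧ p ∈ W s}.Finite
  cnt : ∀ p, {t | p ∈ W' t}.Countable
  hu : ∀ t y z, (y, z) ∈ W' t → 0 < u t y ∧ 0 < v t z
  hσ : ∀ t y z, 0 < u t y → 0 < v t z → (y, z) ∈ W (σ t)
  cover : ∀ y z, y ≠ z → ∃ t, (y, z) ∈ W' t

section
variable {X : Type u} [TopologicalSpace X] {E : Type v} [TopologicalSpace E]

/-- restriction to a subspace -/
def DD.restrict (𝔇 : DD E X) (Z : Set X) : DD E Z where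
  S := 𝔇.S
  W s := {p | (p.1.1, p.2.1) ∈ 𝔇.W s}
  g s := (𝔇.g s).comp ⟨Subtype.val, continuous_subtype_val⟩
  e := 𝔇.e
  T := 𝔇.T
  W' s := {p | (p.1.1, p.2.1) ∈ 𝔇.W' s}
  u s := (𝔇.u s).comp ⟨Subtype.val, continuous_subtype_val⟩
  v s := (𝔇.v s).comp ⟨Subtype.val, continuous_subtype_val⟩
  σ := 𝔇.σ
  openW s := (𝔇.openW s).preimage ((continuous_subtype_val.comp continuous_fst).prodMk
    (continuous_subtype_val.comp continuous_snd))
  openW' s := (𝔇.openW' s).preimage ((continuous_subtype_val.comp continuous_fst).prodMk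
    (continuous_subtype_val.comp continuous_snd))
  hg s y z h := 𝔇.hg s y z h
  fin p z := 𝔇.fin (p.1.1, p.2.1) z
  cnt p := 𝔇.cnt (p.1.1, p.2.1)
  hu t y z h := 𝔇.hu t y z h
  hσ t y z h h' := 𝔇.hσ t y z h h'
  cover y z h := 𝔇.cover y z fun h' => h (Subtype.ext h')

variable {S : Type u} {ι : Type u}

/-- the state after a chain -/
def stt (i0 : ι) (ρ : S → ι) : List S → ι
  | [] => i0
  | (s :: _) => ρ s

/-- valid chains -/
def val (W : S → Set (X × X)) (r : ι → C(X, X)) (i0 : ι) (ρ : S → ι) (x : X) : List S → Prop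
  | [] => True
  | (s :: l) => val W r i0 ρ x l ∧ (r (stt i0 ρ l) x, x) ∈ W s

/-- code of a chain -/
def cd (e : S → E) (z0 : E) : List S → (ℕ → E)
  | [] => fun _ => z0
  | (s :: l) => scons (e s) (cd e z0 l)

theorem val_open {W : S → Set (X × X)} (hW : ∀ s, IsOpen (W s)) (r : ι → C(X, X)) (i0 : ι)
    (ρ : S → ι) (l : List S) : IsOpen {x | val W r i0 ρ x l} := by
  induction l with
  | nil => simp only [val]; exact isOpen_univ
  | cons s l ih =>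
    simp only [val]
    exact ih.inter ((hW s).preimage ((r _).continuous.prodMk continuous_id))

theorem val_fin {W : S → Set (X × X)} {e : S → E}
    (fin : ∀ p z, ∃ O ∈ 𝓝 z, {s | e s ∈ O ∧ p ∈ W s}.Finite) (r : ι → C(X, X)) (i0 : ι)
    (ρ : S → ι) (z0 : E) (x : X) (n : ℕ) : ∀ z : ℕ → E, ∃ O ∈ 𝓝 z,
      {l : List S | l.length = n ∧ cd e z0 l ∈ O ∧ val W r i0 ρ x l}.Finite := by
  classical
  induction n with
  | zero =>
    intro z
    refine ⟨Set.univ, Filter.univ_mem, (Set.finite_singleton ([] : List S)).subset ?_⟩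
    rintro l ⟨hl, -⟩
    exact List.eq_nil_of_length_eq_zero hl
  | succ n ih =>
    intro z
    obtain ⟨O2, hO2, hf⟩ := ih (fun k => z (k+1))
    choose O hO hfin using fun l : List S => fin (r (stt i0 ρ l) x, x) (z 0)
    let L := {l : List S | l.length = n ∧ cd e z0 l ∈ O2 ∧ val W r i0 ρ x l}
    have hO1 : (⋂ l ∈ L, O l) ∈ 𝓝 (z 0) := by
      rw [Filter.biInter_mem hf]
      exact fun l _ => hO l
    refine ⟨_, scons_nhds z hO1 hO2, ?_⟩
    have hfin2 : (⋃ l ∈ L, (fun s => s :: l) '' {s | e s ∈ O l ∧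
        (r (stt i0 ρ l) x, x) ∈ W s}).Finite := hf.biUnion fun l _ => (hfin l).image _
    apply hfin2.subset
    rintro l' ⟨hl', ⟨h1, h2⟩, h3⟩
    match l', hl', h1, h2, h3 with
    | [], hl', _, _, _ => simp at hl'
    | s :: l, hl', h1, h2, h3 =>
      have hlL : l ∈ L := ⟨by simpa using hl', h2, h3.1⟩
      simp only [mem_iUnion]
      refine ⟨l, hlL, s, ⟨?_, h3.2⟩, rfl⟩
      have : e s ∈ ⋂ l ∈ L, O l := h1
      simp only [mem_iInter] at this
      exact this l hlL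

end

/-- every jump is reached by a chain -/
theorem jump_reach {X : Type u} [TopologicalSpace X] [CompactSpace X] [T2Space X]
    {E : Type v} [TopologicalSpace E] (𝔇 : DD E X)
    {ι : Type u} [LinearOrder ι] [WellFoundedLT ι]
    (B : ι → Set X) (M : ι → Set C(X, ℝ)) (hB : Monotone B) (r : ι → C(X, X))
    (hr1 : ∀ i x, r i x ∈ closure (B i)) (hr2 : ∀ i x, ∀ f ∈ M i, f (r i x) = f x)
    (hr3 : ∀ i, ∀ x ∈ closure (B i), r i x = x)
    (K0 : ∀ k i x, k ≤ i → r k (r i x) = r k x)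
    (hsepM : ∀ i, SepOn (closure (B i)) (M i))
    (hlimM : ∀ i, Order.IsSuccLimit i → ∀ f ∈ M i, ∃ j < i, f ∈ M j)
    (hmod : ∀ i, ∀ b ∈ B i, ∀ b' ∈ B i, ∀ t, (b, b') ∈ 𝔇.W' t →
      𝔇.u t ∈ M i ∧ 𝔇.v t ∈ M i ∧ 𝔇.g (𝔇.σ t) ∈ M i)
    (hMm : Monotone M)
    (i0 : ι) (hi0 : ∀ i, i0 ≤ i) (ρ : 𝔇.S → ι)
    (hρ : ∀ s i, 𝔇.g s ∈ M i → 𝔇.g s ∈ M (ρ s) ∧ ρ s ≤ i)
    (x : X) (j i : ι) (hji : j ⋖ i) (hne : r j x ≠ r i x) :
    ∃ l, val 𝔇.W r i0 ρ x l ∧ stt i0 ρ l = i := by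
  classical
  by_contra hcon
  push Not at hcon
  let A : Set ι := {a | ∃ l, val 𝔇.W r i0 ρ x l ∧ stt i0 ρ l = a}
  have hiA : i ∉ A := by
    rintro ⟨l, hl1, hl2⟩
    exact hcon l hl1 hl2
  -- states never contain the functions of the next element
  have ha : ∀ k s, 𝔇.g s ∈ M k → (r k x, x) ∉ 𝔇.W s := by
    intro k s hs hmem
    exact 𝔇.hg s _ _ hmem (hr2 k x _ hs)
  obtain ⟨γ, hγ, hγmin⟩ := WellFounded.has_min (wellFounded_lt (α := ι))
    {c | ∀ a ∈ A, a ≤ j → a ≤ c} ⟨j, fun a _ h => h⟩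
  have hγj : γ ≤ j := by
    by_contra hlt
    push Not at hlt
    exact hγmin j (fun a _ h => h) hlt
  have hγi : γ ≤ i := hγj.trans hji.le
  have hne2 : r γ x ≠ r i x := by
    intro heq
    apply hne
    have h1 : r j (r i x) = r j x := K0 j i x hji.le
    rw [← h1, ← heq]
    exact hr3 j _ (closure_mono (hB hγj) (hr1 γ x))
  obtain ⟨t, ht⟩ := 𝔇.cover _ _ hne2
  have hclos : (r γ x, r i x) ∈ closure (B i ×ˢ B i) := by
    rw [closure_prod_eq]
    exact ⟨closure_mono (hB hγi) (hr1 γ x), hr1 i x⟩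
  obtain ⟨⟨b, b'⟩, hb1, hb2, hb3⟩ := mem_closure_iff.1 hclos _ (𝔇.openW' t) ht
  obtain ⟨hu, hv, hgs⟩ := hmod i b hb2 b' hb3 t hb1
  obtain ⟨hup, hvp⟩ := 𝔇.hu t _ _ ht
  rw [hr2 i x _ hv] at hvp
  have hW : (r γ x, x) ∈ 𝔇.W (𝔇.σ t) := 𝔇.hσ t _ _ hup hvp
  obtain ⟨hρ1, hρ2⟩ := hρ _ i hgs
  have hgγ : 𝔇.g (𝔇.σ t) ∉ M γ := fun h => ha γ _ h hW
  -- the final step
  have final : ∀ l, val 𝔇.W r i0 ρ x l → (r (stt i0 ρ l) x, x) ∈ 𝔇.W (𝔇.σ t) → False := by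
    intro l hl hl2
    have h1 : ρ (𝔇.σ t) ∈ A := ⟨𝔇.σ t :: l, ⟨hl, hl2⟩, rfl⟩
    have h2 : ρ (𝔇.σ t) ≠ i := fun h => hiA (h ▸ h1)
    have h3 : ρ (𝔇.σ t) ≤ j := hji.le_of_lt (lt_of_le_of_ne hρ2 h2)
    have h4 : ρ (𝔇.σ t) ≤ γ := hγ _ h1 h3
    exact hgγ (hMm h4 hρ1)
  by_cases hγA : γ ∈ A
  · obtain ⟨l, hl, hlγ⟩ := hγA
    apply final l hl
    rw [hlγ]; exact hW
  · have hi0A : i0 ∈ A := ⟨[], trivial, rfl⟩
    have hltγ : ∀ a ∈ A, a ≤ j → a < γ := by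
      intro a haA haj
      exact lt_of_le_of_ne (hγ a haA haj) fun h => hγA (h ▸ haA)
    -- cofinality
    have hcof : ∀ k < γ, ∃ a ∈ A, a ≤ j ∧ k < a := by
      intro k hk
      by_contra hall
      push Not at hall
      exact hγmin k (fun a haA haj => hall a haA haj) hk
    have hlim : Order.IsSuccLimit γ := by
      rcases order_tri γ with hm | ⟨k, hk⟩ | hl
      · exact absurd (hm (hi0 γ)) (not_le.2 (hltγ i0 hi0A (hi0 j)))
      · obtain ⟨a, haA, haj, hka⟩ := hcof k hk.lt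
        exact absurd (hltγ a haA haj) (fun h => hk.2 hka h)
      · exact hl
    have hex : ∃ a ∈ A, a ≤ j ∧ 0 < 𝔇.u t (r a x) := by
      by_contra hall
      push Not at hall
      let 𝒜 : Type u := {a : ι // a ∈ A ∧ a ≤ j}
      have : Nonempty 𝒜 := ⟨⟨i0, hi0A, hi0 j⟩⟩
      let 𝓥 : Ultrafilter 𝒜 := Ultrafilter.of Filter.atTop
      have h𝓥 : (𝓥 : Filter 𝒜) ≤ Filter.atTop := Ultrafilter.of_le _
      obtain ⟨y, -, hy⟩ := isCompact_univ.ultrafilter_le_nhds (𝓥.map fun a => r a.1 x)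
        (by simp)
      have hy' : Filter.Tendsto (fun a : 𝒜 => r a.1 x) 𝓥 (𝓝 y) := hy
      have hyB : y ∈ closure (B γ) := by
        apply isClosed_closure.mem_of_tendsto hy'
        apply Filter.Eventually.of_forall
        intro a
        exact closure_mono (hB (hltγ a.1 a.2.1 a.2.2).le) (hr1 _ _)
      have hyeq : y = r γ x := by
        apply hsepM γ _ hyB _ (hr1 γ x)
        intro f hf
        rw [hr2 γ x f hf]
        obtain ⟨k, hk, hfk⟩ := hlimM γ hlim f hf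
        obtain ⟨a, haA, haj, hka⟩ := hcof k hk
        have h1 : ∀ᶠ c : 𝒜 in (𝓥 : Filter 𝒜), f (r c.1 x) = f x := by
          apply h𝓥
          filter_upwards [Filter.mem_atTop (⟨a, haA, haj⟩ : 𝒜)] with c hc
          have hc' : a ≤ c.1 := hc
          exact hr2 c.1 x f (hMm (hka.le.trans hc') hfk)
        have h2 : Filter.Tendsto (fun a : 𝒜 => f (r a.1 x)) 𝓥 (𝓝 (f y)) :=
          (f.continuous.tendsto y).comp hy'
        exact tendsto_nhds_unique h2 (tendsto_const_nhds.congr' (h1.mono fun c hc => hc.symm))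
      have h3 : Filter.Tendsto (fun a : 𝒜 => 𝔇.u t (r a.1 x)) 𝓥 (𝓝 (𝔇.u t y)) :=
        ((𝔇.u t).continuous.tendsto y).comp hy'
      have h4 : 𝔇.u t y ≤ 0 := le_of_tendsto h3 (Filter.Eventually.of_forall fun a =>
        hall a.1 a.2.1 a.2.2)
      rw [hyeq] at h4
      exact absurd hup (not_lt.2 h4)
    obtain ⟨a, ⟨l, hl, hla⟩, haj, hua⟩ := hex
    apply final l hl
    rw [hla]
    exact 𝔇.hσ t _ _ hua hvp

end Pool.Agent.Helper535
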