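import Pool.Agent.Helper535.AB

open Set Topology Cardinal

namespace Pool.Agent.Helper535

universe u v w

/-- soft thresholding -/
noncomputable def soft (m : ℕ) (t : ℝ) : ℝ := max (t - 1/((m:ℝ)+1)) 0 + min (t + 1/((m:ℝ)+1)) 0

lemma soft_cont (m : ℕ) : Continuous (soft m) := by
  unfold soft
  exact ((continuous_id.sub continuous_const).max continuous_const).add
    ((continuous_id.add continuous_const).min continuous_const)

lemma soft_zero (m : ℕ) {t : ℝ} (h : |t| ≤ 1/((m:ℝ)+1)) : soft m t = 0 := by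
  have h' := abs_le.1 h
  unfold soft
  rw [max_eq_right (by linarith), min_eq_right (by linarith), add_zero]

lemma soft_abs (m : ℕ) (t : ℝ) : |soft m t| ≤ |t| := by
  have hp : (0:ℝ) < 1/((m:ℝ)+1) := by positivity
  unfold soft
  rcases le_total 0 t with h | h
  · rw [min_eq_right (by linarith), add_zero, abs_of_nonneg (le_max_right _ _), abs_of_nonneg h]
    exact max_le (by linarith) h
  · rw [max_eq_right (by linarith), zero_add, abs_of_nonpos (min_le_right _ _), abs_of_nonpos h,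
      neg_le_neg_iff]
    exact le_min (by linarith) h

lemma soft_close (m : ℕ) (t : ℝ) : |soft m t - t| ≤ 1/((m:ℝ)+1) := by
  have hp : (0:ℝ) < 1/((m:ℝ)+1) := by positivity
  rcases le_or_gt |t| (1/((m:ℝ)+1)) with h | h
  · rw [soft_zero m h, zero_sub, abs_neg]; exact h
  · unfold soft
    rcases le_total 0 t with h' | h'
    · rw [abs_of_nonneg h'] at h
      rw [min_eq_right (by linarith), add_zero, max_eq_left (by linarith)]
      rw [abs_le]; constructor <;> linarith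
    · rw [abs_of_nonpos h'] at h
      rw [max_eq_right (by linarith), zero_add, min_eq_left (by linarith)]
      rw [abs_le]; constructor <;> linarith

lemma soft_inj {t t' : ℝ} (h : ∀ m, soft m t = soft m t') : t = t' := by
  by_contra hne
  have hpos : 0 < |t - t'| := abs_pos.2 (sub_ne_zero.2 hne)
  obtain ⟨m, hm⟩ := exists_nat_one_div_lt (show 0 < |t - t'| / 2 by positivity)
  have h1 := soft_close m t
  have h2 := soft_close m t'
  rw [← h m] at h2
  have h3 : |t - t'| ≤ |soft m t - t| + |soft m t - t'| := by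
    have : t - t' = -(soft m t - t) + (soft m t - t') := by ring
    rw [this]
    exact (abs_add_le _ _).trans (by rw [abs_neg])
  linarith

/-- the index space -/
abbrev F0 (E : Type v) : Type v := ℕ × (ℕ → E) × ℕ × ℕ

theorem glue_off {E : Type v} [TopologicalSpace E] (z0 : E)
    {X : Type u} [TopologicalSpace X] [CompactSpace X] [T2Space X] (𝔇 : DD E X)
    {ι : Type u} [LinearOrder ι] [WellFoundedLT ι] [Nonempty ι]
    (B : ι → Set X) (M : ι → Set C(X, ℝ)) (hB : Monotone B) (hMm : Monotone M) (r : ι → C(X, X))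
    (hr1 : ∀ i x, r i x ∈ closure (B i)) (hr2 : ∀ i x, ∀ f ∈ M i, f (r i x) = f x)
    (hr3 : ∀ i, ∀ x ∈ closure (B i), r i x = x)
    (K0 : ∀ k i x, k ≤ i → r k (r i x) = r k x)
    (hsepM : ∀ i, SepOn (closure (B i)) (M i))
    (hlimM : ∀ i, Order.IsSuccLimit i → ∀ f ∈ M i, ∃ j < i, f ∈ M j)
    (hmod : ∀ i, ∀ b ∈ B i, ∀ b' ∈ B i, ∀ t, (b, b') ∈ 𝔇.W' t →
      𝔇.u t ∈ M i ∧ 𝔇.v t ∈ M i ∧ 𝔇.g (𝔇.σ t) ∈ M i)
    (hlimr : ∀ i, Order.IsSuccLimit i → ∀ x y, (∀ j < i, r j x = r j y) → r i x = r i y)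
    (hsep : ∀ x y, (∀ i, r i x = r i y) → x = y)
    (hst : ∀ i, GS (ℕ → F0 E) (closure (B i))) :
    GS (ℕ → F0 E) X := by
  classical
  choose Q g c G hG using hst
  let rc : ∀ i, C(X, closure (B i)) := fun i => ⟨fun x => ⟨r i x, hr1 i x⟩,
    (r i).continuous.subtype_mk _⟩
  have hrc : ∀ i x y, rc i x = rc i y → r i x = r i y := by
    intro i x y hxy
    exact congrArg Subtype.val hxy
  have hrc' : ∀ i x y, r i x = r i y → rc i x = rc i y := by
    intro i x y hxy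
    exact Subtype.ext hxy
  obtain ⟨i0, -, hi0'⟩ := WellFounded.has_min (wellFounded_lt (α := ι)) Set.univ univ_nonempty
  have hi0 : ∀ i, i0 ≤ i := fun i => not_lt.1 (hi0' i (mem_univ i))
  -- ranks
  have hρex : ∀ s, ∃ k, ∀ i, 𝔇.g s ∈ M i → 𝔇.g s ∈ M k ∧ k ≤ i := by
    intro s
    by_cases h : ∃ i, 𝔇.g s ∈ M i
    · obtain ⟨k, hk, hmin⟩ := WellFounded.has_min (wellFounded_lt (α := ι)) {i | 𝔇.g s ∈ M i} h
      exact ⟨k, fun i hi => ⟨hk, not_lt.1 (hmin i hi)⟩⟩
    · exact ⟨i0, fun i hi => absurd ⟨i, hi⟩ h⟩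
  choose ρ hρ using hρex
  have hreach := jump_reach 𝔇 B M hB r hr1 hr2 hr3 K0 hsepM hlimM hmod hMm i0 hi0 ρ hρ
  let V : X → List 𝔇.S → Prop := fun x l => val 𝔇.W r i0 ρ x l
  let st : List 𝔇.S → ι := stt i0 ρ
  let J : Type u := {p : ι × ι // p.1 ⋖ p.2}
  let I2 : Type u := Σ p : J, Q p.1.2
  let ff : I2 → C(X, ℝ) := fun q => (1/2 : ℝ) • ((g q.1.1.2 q.2).comp (rc q.1.1.2) -
    ((g q.1.1.2 q.2).comp (rc q.1.1.2)).comp (r q.1.1.1))
  have hff : ∀ q x, ff q x = 1/2 * (g q.1.1.2 q.2 (rc q.1.1.2 x) -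
      g q.1.1.2 q.2 (rc q.1.1.2 (r q.1.1.1 x))) := fun q x => rfl
  have hffb : ∀ q x, |ff q x| ≤ 1 := by
    intro q x
    rw [hff]
    have h1 := abs_le.1 ((G q.1.1.2).bdd q.2 (rc q.1.1.2 x))
    have h2 := abs_le.1 ((G q.1.1.2).bdd q.2 (rc q.1.1.2 (r q.1.1.1 x)))
    rw [abs_le]
    constructor <;> linarith [h1.1, h1.2, h2.1, h2.2]
  -- the supports are covered by chains
  have hffr : ∀ q x, ff q x ≠ 0 → ∃ l, V x l ∧ st l = q.1.1.2 := by
    intro q x hq
    apply hreach x q.1.1.1 q.1.1.2 q.1.2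
    intro heq
    apply hq
    rw [hff]
    have h1 : r q.1.1.2 (r q.1.1.1 x) = r q.1.1.2 x := by
      rw [← heq]
      exact hr3 _ _ (closure_mono (hB q.1.2.le) (hr1 _ x))
    rw [hrc' _ _ _ h1, sub_self, mul_zero]
  have hpart : ∀ (q : I2) (m : ℕ), ∃ (N : ℕ) (ls : ℕ → List 𝔇.S) (p : ℕ → C(X, ℝ)),
      (∀ k x, |p k x| ≤ 1) ∧ (∀ k x, p k x ≠ 0 → V x (ls k) ∧ st (ls k) = q.1.1.2) ∧
      ∀ x, 1/((m:ℝ)+1) ≤ |ff q x| → ∑ k ∈ Finset.range N, p k x = 1 := by
    intro q m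
    have hK : IsCompact {x | 1/((m:ℝ)+1) ≤ |ff q x|} :=
      (isClosed_le continuous_const (ff q).continuous.abs).isCompact
    let LL : Type u := {l : List 𝔇.S // st l = q.1.1.2}
    obtain ⟨F, hF⟩ := hK.elim_finite_subcover (fun l : LL => {x | V x l.1})
      (fun l => val_open 𝔇.openW r i0 ρ l.1) (by
        intro x hx
        have hx' : ff q x ≠ 0 := by
          intro h0
          have h1 : 1/((m:ℝ)+1) ≤ |ff q x| := hx
          rw [h0, abs_zero] at h1
          have : (0:ℝ) < 1/((m:ℝ)+1) := by positivity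
          linarith
        obtain ⟨l, hl1, hl2⟩ := hffr q x hx'
        exact mem_iUnion.2 ⟨⟨l, hl2⟩, hl1⟩)
    let N := F.card
    let en : Fin N ≃ F := F.equivFin.symm
    obtain ⟨f, hf1, hf2, hf3, -⟩ := exists_continuous_sum_one_of_isOpen_isCompact
      (n := N) (s := fun k => {x | V x (en k).1.1})
      (fun k => val_open 𝔇.openW r i0 ρ _) hK (by
        intro x hx
        obtain ⟨l, hl⟩ := mem_iUnion.1 (hF hx)
        obtain ⟨hlF, hxl⟩ := mem_iUnion.1 hl
        refine mem_iUnion.2 ⟨en.symm ⟨l, hlF⟩, ?_⟩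
        show V x (en (en.symm ⟨l, hlF⟩)).1.1
        rw [Equiv.apply_symm_apply]
        exact hxl)
    refine ⟨N, fun k => if h : k < N then (en ⟨k, h⟩).1.1 else [],
      fun k => if h : k < N then f ⟨k, h⟩ else 0, ?_, ?_, ?_⟩
    · intro k x
      by_cases h : k < N
      · simp only [h, dif_pos]
        have := hf3 ⟨k, h⟩ x
        rw [abs_of_nonneg this.1]; exact this.2
      · simp only [h, dif_neg, not_false_eq_true]
        simp
    · intro k x hne
      by_cases h : k < N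
      · simp only [h, dif_pos] at hne ⊢
        refine ⟨?_, (en ⟨k, h⟩).1.2⟩
        exact hf1 ⟨k, h⟩ (subset_tsupport _ hne)
      · simp only [h, dif_neg, not_false_eq_true] at hne
        exact absurd rfl hne
    · intro x hx
      have h1 := hf2 hx
      simp only [Pi.one_apply, Finset.sum_apply] at h1
      rw [← h1, Finset.sum_range]
      apply Finset.sum_congr rfl
      intro k _
      simp
  choose N ls p hp1 hp2 hp3 using hpart
  -- the final family
  let I3 : Type u := I2 × ℕ × ℕ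
  let hh : I3 → C(X, ℝ) := fun t => (⟨soft t.2.1, soft_cont _⟩ : C(ℝ, ℝ)).comp (ff t.1) *
    p t.1 t.2.1 t.2.2
  have hhh : ∀ t x, hh t x = soft t.2.1 (ff t.1 x) * p t.1 t.2.1 t.2.2 x := fun t x => rfl
  let ee : I3 → (ℕ → F0 E) := fun t =>
    scons ((ls t.1 t.2.1 t.2.2).length, cd 𝔇.e z0 (ls t.1 t.2.1 t.2.2), t.2.1, t.2.2)
      (c t.1.1.1.2 t.1.2)
  refine ⟨Q i0 ⊕ I3, Sum.elim (fun s => (g i0 s).comp (rc i0)) hh,
    Sum.elim (c i0) ee, ⟨?_, ?_⟩, ?_⟩
  · rintro (s | t) x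
    · exact (G i0).bdd s _
    · show |hh t x| ≤ 1
      rw [hhh, abs_mul]
      exact mul_le_one₀ ((soft_abs _ _).trans (hffb _ _)) (abs_nonneg _) (hp1 _ _ _ _)
  · intro x z ε hε
    obtain ⟨O0, hO0, hf0⟩ := (G i0).fin (rc i0 x) z ε hε
    obtain ⟨O1, hO1, hf1⟩ := val_fin 𝔇.fin r i0 ρ z0 x (z 0).1 (z 0).2.1
    let L : Set (List 𝔇.S) := {l | l.length = (z 0).1 ∧ cd 𝔇.e z0 l ∈ O1 ∧ V x l}
    have hL : L.Finite := hf1
    let P1 : Set J := {p : J | ∃ l ∈ L, st l = p.1.2}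
    have hP1 : P1.Finite := by
      have hinj : Set.InjOn (fun p : J => p.1.2) P1 := by
        rintro ⟨⟨a, b⟩, hab⟩ _ ⟨⟨a', b'⟩, hab'⟩ _ heq
        simp only at heq hab hab'
        subst heq
        have := hab.unique_left hab'
        subst this
        rfl
      apply Set.Finite.of_finite_image _ hinj
      apply (hL.image st).subset
      rintro _ ⟨q, ⟨l, hl, hlq⟩, rfl⟩
      exact ⟨l, hl, hlq⟩
    choose O hO hf using fun p : J => (G p.1.2).fin (rc p.1.2 x) (fun n => z (n+1)) ε hε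
    choose O' hO' hf' using fun p : J => (G p.1.2).fin (rc p.1.2 (r p.1.1 x))
      (fun n => z (n+1)) ε hε
    have hO2 : (⋂ p ∈ P1, O p ∩ O' p) ∈ 𝓝 (fun n => z (n+1)) := by
      rw [Filter.biInter_mem hP1]
      exact fun p _ => Filter.inter_mem (hO p) (hO' p)
    have hO3 : ({(z 0).1} : Set ℕ) ×ˢ (O1 ×ˢ (({(z 0).2.2.1} : Set ℕ) ×ˢ
        ({(z 0).2.2.2} : Set ℕ))) ∈ 𝓝 (z 0) := by
      have e : z 0 = ((z 0).1, (z 0).2.1, (z 0).2.2.1, (z 0).2.2.2) := rfl
      rw [e]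
      refine prod_mem_nhds ?_ (prod_mem_nhds hO1 (prod_mem_nhds ?_ ?_))
      · exact (isOpen_discrete _).mem_nhds rfl
      · exact (isOpen_discrete _).mem_nhds rfl
      · exact (isOpen_discrete _).mem_nhds rfl
    refine ⟨O0 ∩ {z' : ℕ → F0 E | z' 0 ∈ ({(z 0).1} : Set ℕ) ×ˢ (O1 ×ˢ
      (({(z 0).2.2.1} : Set ℕ) ×ˢ ({(z 0).2.2.2} : Set ℕ))) ∧
      (fun n => z' (n+1)) ∈ ⋂ p ∈ P1, O p ∩ O' p},
      Filter.inter_mem hO0 (scons_nhds z hO3 hO2), ?_⟩
    have hfin2 : (⋃ p ∈ P1, (fun s : Q p.1.2 => (((⟨p, s⟩ : I2), (z 0).2.2.1, (z 0).2.2.2) : I3)) ''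
        ({s | c p.1.2 s ∈ O p ∧ ε ≤ |g p.1.2 s (rc p.1.2 x)|} ∪
        {s | c p.1.2 s ∈ O' p ∧ ε ≤ |g p.1.2 s (rc p.1.2 (r p.1.1 x))|})).Finite :=
      hP1.biUnion fun p _ => ((hf p).union (hf' p)).image _
    apply ((hf0.image Sum.inl).union (hfin2.image Sum.inr)).subset
    rintro (s | t) ⟨⟨hs1, hs2, hs3⟩, hs4⟩
    · exact Or.inl ⟨s, ⟨hs1, hs4⟩, rfl⟩
    · refine Or.inr ⟨t, ?_, rfl⟩
      obtain ⟨q, m, k⟩ := t
      obtain ⟨h1, h2, h3, h4⟩ := hs2
      have h1' : (ls q m k).length = (z 0).1 := h1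
      have h2' : cd 𝔇.e z0 (ls q m k) ∈ O1 := h2
      have h3' : m = (z 0).2.2.1 := h3
      have h4' : k = (z 0).2.2.2 := h4
      have hs5 : ε ≤ |soft m (ff q x) * p q m k x| := hs4
      have hpne : p q m k x ≠ 0 := by
        intro h0
        rw [h0, mul_zero, abs_zero] at hs5
        linarith
      obtain ⟨hV, hst'⟩ := hp2 q m k x hpne
      have hq : q.1 ∈ P1 := ⟨ls q m k, ⟨h1', h2', hV⟩, hst'⟩
      have hs6 : ε ≤ |ff q x| := by
        rw [abs_mul] at hs5
        exact (hs5.trans (mul_le_of_le_one_right (abs_nonneg _) (hp1 _ _ _ _))).trans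
          (soft_abs _ _)
      have hq2 : c q.1.1.2 q.2 ∈ O q.1 ∩ O' q.1 := by
        have : (c q.1.1.2 q.2) ∈ ⋂ p ∈ P1, O p ∩ O' p := hs3
        simp only [mem_iInter] at this
        exact this q.1 hq
      simp only [mem_iUnion]
      refine ⟨q.1, hq, q.2, ?_, by rw [← h3', ← h4']⟩
      rw [hff, abs_mul] at hs6
      have h6 := abs_sub (g q.1.1.2 q.2 (rc q.1.1.2 x)) (g q.1.1.2 q.2 (rc q.1.1.2 (r q.1.1.1 x)))
      have h7 : |(1/2 : ℝ)| = 1/2 := abs_of_pos (by norm_num)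
      rw [h7] at hs6
      by_cases h8 : ε ≤ |g q.1.1.2 q.2 (rc q.1.1.2 x)|
      · exact Or.inl ⟨hq2.1, h8⟩
      · right
        refine ⟨hq2.2, ?_⟩
        push Not at h8
        linarith
  · intro x y hxy
    by_contra hne
    have hex : ∃ i, r i x ≠ r i y := by
      by_contra hall'
      push Not at hall'
      exact hne (hsep x y hall')
    obtain ⟨i, hi, hmin⟩ := WellFounded.has_min (wellFounded_lt (α := ι)) {i | r i x ≠ r i y} hex
    rcases order_tri i with hm | ⟨j, hj⟩ | hl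
    · have : i = i0 := le_antisymm (by
        by_contra hlt
        push Not at hlt
        exact absurd (hm hlt.le) (not_le.2 hlt)) (hi0 i)
      subst this
      apply hi
      apply hrc
      apply hG
      intro s
      exact hxy (Sum.inl s)
    · have hjeq : r j x = r j y := by
        by_contra hne'
        exact hmin j hne' hj.lt
      apply hi
      apply hrc
      apply hG
      intro q
      have h3 : ff ⟨⟨(j, i), hj⟩, q⟩ x = ff ⟨⟨(j, i), hj⟩, q⟩ y := by
        apply soft_inj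
        intro m
        have key : ∀ w, soft m (ff ⟨⟨(j, i), hj⟩, q⟩ w) =
            ∑ k ∈ Finset.range (N ⟨⟨(j, i), hj⟩, q⟩ m), hh (⟨⟨(j, i), hj⟩, q⟩, m, k) w := by
          intro w
          simp only [hhh]
          rw [← Finset.mul_sum]
          by_cases hw : 1/((m:ℝ)+1) ≤ |ff ⟨⟨(j, i), hj⟩, q⟩ w|
          · rw [hp3 _ _ _ hw, mul_one]
          · push Not at hw
            rw [soft_zero m hw.le, zero_mul]
        rw [key x, key y]
        apply Finset.sum_congr rfl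
        intro k _
        exact hxy (Sum.inr (⟨⟨(j, i), hj⟩, q⟩, m, k))
      rw [hff, hff] at h3
      simp only [hjeq] at h3
      linarith
    · apply hi
      apply hlimr i hl
      intro j hji
      by_contra hne'
      exact hmin j hne' hji

end Pool.Agent.Helper535
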