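import Pool.Agent.Helper535.AC

open Set Topology Cardinal

namespace Pool.Agent.Helper535

universe u v w

section
variable {X : Type u} [TopologicalSpace X] {E : Type v} [TopologicalSpace E]

/-- models for covers of the complement of the diagonal -/
def Mod2 (𝔇 : DD E X) (A : Set (X ⊕ C(X, ℝ))) : Prop :=
  Dn Set.univ (Bp A) (Mp A) ∧ ∀ b ∈ Bp A, ∀ b' ∈ Bp A, ∀ t, (b, b') ∈ 𝔇.W' t →
      𝔇.u t ∈ Mp A ∧ 𝔇.v t ∈ Mp A ∧ 𝔇.g (𝔇.σ t) ∈ Mp A

theorem Mod2.sep {𝔇 : DD E X} {A : Set (X ⊕ C(X, ℝ))} (h : Mod2 𝔇 A) :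
    SepOn (closure (Bp A)) (Mp A) := by
  intro y hy z hz hyz
  by_contra hne
  obtain ⟨t, ht⟩ := 𝔇.cover _ _ hne
  have hclos : (y, z) ∈ closure (Bp A ×ˢ Bp A) := by
    rw [closure_prod_eq]
    exact ⟨hy, hz⟩
  obtain ⟨⟨b, b'⟩, hb1, hb2, hb3⟩ := mem_closure_iff.1 hclos _ (𝔇.openW' t) ht
  obtain ⟨-, -, hgs⟩ := h.2 b hb2 b' hb3 t hb1
  obtain ⟨hup, hvp⟩ := 𝔇.hu t _ _ ht
  exact 𝔇.hg _ _ _ (𝔇.hσ t _ _ hup hvp) (hyz _ hgs)

theorem Mod2.sUnion [CompactSpace X] {𝔇 : DD E X}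
    (𝒮 : Set (Set (X ⊕ C(X, ℝ)))) (hne : 𝒮.Nonempty) (hch : IsChain (· ⊆ ·) 𝒮)
    (h : ∀ S ∈ 𝒮, Mod2 𝔇 S) : Mod2 𝔇 (⋃₀ 𝒮) := by
  classical
  have hne' : Nonempty 𝒮 := hne.to_subtype
  have e1 : Bp (⋃₀ 𝒮) = ⋃ S : 𝒮, Bp S.1 := by
    ext x; simp [Bp]
  have e2 : Mp (⋃₀ 𝒮) = ⋃ S : 𝒮, Mp S.1 := by
    ext x; simp [Mp]
  have hBm : ∀ S S' : Set (X ⊕ C(X, ℝ)), S ⊆ S' → Bp S ⊆ Bp S' := fun S S' h x hx => h hx
  have hMm : ∀ S S' : Set (X ⊕ C(X, ℝ)), S ⊆ S' → Mp S ⊆ Mp S' := fun S S' h x hx => h hx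
  constructor
  · rw [e1, e2]
    apply Dn_iUnion
    · intro i j
      rcases hch.total i.2 j.2 with h | h
      · exact ⟨j, hBm _ _ h, subset_rfl, hMm _ _ h, subset_rfl⟩
      · exact ⟨i, subset_rfl, hBm _ _ h, subset_rfl, hMm _ _ h⟩
    · intro i; exact (h i.1 i.2).1
  · rintro b ⟨S, hS, hbS⟩ b' ⟨S', hS', hbS'⟩ t ht
    have : ∃ S ∈ 𝒮, b ∈ Bp S ∧ b' ∈ Bp S := by
      rcases hch.total hS hS' with h | h
      · exact ⟨S', hS', h hbS, hbS'⟩
      · exact ⟨S, hS, hbS, h hbS'⟩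
    obtain ⟨S, hS, h1, h2⟩ := this
    obtain ⟨h3, h4, h5⟩ := (h S hS).2 b h1 b' h2 t ht
    exact ⟨⟨S, hS, h3⟩, ⟨S, hS, h4⟩, ⟨S, hS, h5⟩⟩

theorem Mod2.close [CompactSpace X] (𝔇 : DD E X)
    (S : Set (X ⊕ C(X, ℝ))) : ∃ S', S ⊆ S' ∧ Mod2 𝔇 S' ∧ #S' ≤ max #S ℵ₀ := by
  classical
  have h1 : ∀ S : Set (X ⊕ C(X, ℝ)), ∃ C : Set X, #C ≤ max #S ℵ₀ ∧ Dn Set.univ C (Mp S) := by
    intro S
    obtain ⟨C, -, hCc, hD⟩ := lemA (Set.univ : Set X) (Mp S)
    rw [closure_univ] at hD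
    exact ⟨C, hCc.trans (max_le ((Mp_card S).trans (le_max_left _ _)) (le_max_right _ _)), hD⟩
  choose C hCc hCD using h1
  let W : Set (X ⊕ C(X, ℝ)) → Set C(X, ℝ) := fun S =>
    ⋃ p : Bp S × Bp S, ⋃ t ∈ {t | (p.1.1, p.2.1) ∈ 𝔇.W' t}, {𝔇.u t, 𝔇.v t, 𝔇.g (𝔇.σ t)}
  have hW : ∀ S, #(W S) ≤ max #S ℵ₀ := by
    intro S
    refine (Cardinal.mk_iUnion_le _).trans ?_
    calc #(Bp S × Bp S) * (⨆ p : Bp S × Bp S, #↥(⋃ t ∈ {t | (p.1.1, p.2.1) ∈ 𝔇.W' t},
          ({𝔇.u t, 𝔇.v t, 𝔇.g (𝔇.σ t)} : Set C(X, ℝ)))) ≤ max #S ℵ₀ * max #S ℵ₀ := by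
          apply mul_le_mul'
          · rw [Cardinal.mk_prod, Cardinal.lift_id]
            calc #(Bp S) * #(Bp S) ≤ max #S ℵ₀ * max #S ℵ₀ :=
                  mul_le_mul' ((Bp_card S).trans (le_max_left _ _))
                    ((Bp_card S).trans (le_max_left _ _))
              _ = max #S ℵ₀ := Cardinal.mul_eq_self (le_max_right _ _)
          · apply ciSup_le'
            intro p
            refine le_trans ?_ (le_max_right _ _)
            rw [Cardinal.le_aleph0_iff_set_countable]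
            apply (𝔇.cnt (p.1.1, p.2.1)).biUnion
            intro t _
            exact (((Set.finite_singleton _).insert _).insert _).countable
      _ = max #S ℵ₀ := Cardinal.mul_eq_self (le_max_right _ _)
  let nxt : Set (X ⊕ C(X, ℝ)) → Set (X ⊕ C(X, ℝ)) := fun S =>
    S ∪ (Sum.inl '' C S ∪ Sum.inr '' W S)
  let T : ℕ → Set (X ⊕ C(X, ℝ)) := fun n => Nat.rec S (fun _ S => nxt S) n
  have hT : ∀ n, T (n+1) = nxt (T n) := fun n => rfl
  have hTmono : Monotone T := monotone_nat_of_le_succ fun n => by rw [hT]; exact subset_union_left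
  have hTcard : ∀ n, #↥(T n) ≤ max #S ℵ₀ := by
    intro n
    induction n with
    | zero => exact le_max_left _ _
    | succ n ih =>
      rw [hT]
      refine (Cardinal.mk_union_le _ _).trans ?_
      refine Cardinal.add_le_of_le (le_max_right _ _) ih ?_
      refine (Cardinal.mk_union_le _ _).trans ?_
      refine Cardinal.add_le_of_le (le_max_right _ _) ?_ ?_
      · exact Cardinal.mk_image_le.trans ((hCc _).trans (max_le ih (le_max_right _ _)))
      · exact Cardinal.mk_image_le.trans ((hW _).trans (max_le ih (le_max_right _ _)))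
  refine ⟨⋃ n, T n, subset_iUnion T 0, ⟨?_, ?_⟩, iUnion_nat_card_le T (le_max_right _ _) hTcard⟩
  · have e1 : Bp (⋃ n, T n) = ⋃ n, Bp (T n) := by
      ext x; simp [Bp]
    have e2 : Mp (⋃ n, T n) = ⋃ n, Mp (T n) := by
      ext x; simp [Mp]
    rw [e1, e2]
    have h5 : Dn Set.univ (⋃ n, Bp (T (n+1))) (⋃ n, Mp (T n)) := by
      apply Dn_iUnion
      · intro i j
        refine ⟨max i j, ?_, ?_, ?_, ?_⟩
        · intro x hx; exact hTmono (Nat.succ_le_succ (le_max_left i j)) hx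
        · intro x hx; exact hTmono (Nat.succ_le_succ (le_max_right i j)) hx
        · intro x hx; exact hTmono (le_max_left i j) hx
        · intro x hx; exact hTmono (le_max_right i j) hx
      · intro n x hx
        obtain ⟨x', hx', hf⟩ := hCD (T n) x hx
        refine ⟨x', closure_mono ?_ hx', hf⟩
        intro c hc
        show Sum.inl c ∈ T (n+1)
        rw [hT]
        exact Or.inr (Or.inl ⟨c, hc, rfl⟩)
    intro x hx
    obtain ⟨x', hx', hf⟩ := h5 x hx
    exact ⟨x', closure_mono (iUnion_subset fun n => subset_iUnion (fun n => Bp (T n)) (n+1)) hx', hf⟩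
  · intro b hb b' hb' t ht
    obtain ⟨n, hn⟩ := mem_iUnion.1 hb
    obtain ⟨m, hm⟩ := mem_iUnion.1 hb'
    have h1 : b ∈ Bp (T (max n m)) := hTmono (le_max_left n m) hn
    have h2 : b' ∈ Bp (T (max n m)) := hTmono (le_max_right n m) hm
    have h3 : ∀ f ∈ ({𝔇.u t, 𝔇.v t, 𝔇.g (𝔇.σ t)} : Set C(X, ℝ)), f ∈ Mp (⋃ n, T n) := by
      intro f hf
      refine mem_iUnion.2 ⟨max n m + 1, ?_⟩
      rw [hT]
      refine Or.inr (Or.inr ⟨f, ?_, rfl⟩)
      exact mem_iUnion.2 ⟨(⟨b, h1⟩, ⟨b', h2⟩), mem_iUnion₂.2 ⟨t, ht, hf⟩⟩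
    exact ⟨h3 _ (by simp), h3 _ (by simp), h3 _ (by simp)⟩

end

theorem dd_aux {E : Type v} [TopologicalSpace E] (z0 : E)
    (kap : Cardinal.{u}) : ∀ (X : Type u) [TopologicalSpace X] [CompactSpace X] [T2Space X]
      (_ : DD E X), ∀ D : Set X, Dense D → #D = kap → GS (ℕ → F0 E) X := by
  classical
  induction kap using WellFoundedLT.induction with
  | ind kap ih =>
    intro X _ _ _ 𝔇 D hD hDk
    have hgood : ∀ S : Set (X ⊕ C(X, ℝ)), Mod2 𝔇 S → Good (Bp S) (Mp S) :=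
      fun S hS => ⟨hS.1, hS.sep⟩
    rcases le_or_gt kap ℵ₀ with hk | hk
    · obtain ⟨S, hS1, hS2, hS3⟩ := Mod2.close 𝔇 (Sum.inl '' D)
      have hSc : #S ≤ ℵ₀ := hS3.trans (max_le (Cardinal.mk_image_le.trans (hDk.le.trans hk)) le_rfl)
      have hB : closure (Bp S) = Set.univ := by
        apply Dense.closure_eq
        apply hD.mono
        intro x hx
        exact hS1 ⟨x, hx, rfl⟩
      have h1 := (hgood S hS2).2
      rw [hB] at h1
      exact GS_of_countable (fun _ => (0, fun _ => z0, 0, 0))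
        (Cardinal.le_aleph0_iff_set_countable.1 ((Mp_card S).trans hSc)) h1
    · obtain ⟨ι, _, _, hιne, S, hSmono, hP, hScard, hSlim, hSD⟩ := chain_exists
        (T := X ⊕ C(X, ℝ)) (kap := kap) ℵ₀ le_rfl hk (Mod2 𝔇)
        (fun 𝒮 h1 h2 h3 => Mod2.sUnion 𝒮 h1 h2 h3)
        (fun N _ => Mod2.close 𝔇 N) (Sum.inl '' D) (Cardinal.mk_image_le.trans hDk.le)
      choose r hr1 hr2 hr3 using fun i => (hgood _ (hP i)).retraction
      have hSep : ∀ i, SepOn (closure (Bp (S i))) (Mp (S i)) := fun i => (hgood _ (hP i)).2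
      have hBm : Monotone fun i => Bp (S i) := fun i j hij x hx => hSmono hij hx
      have hMm : Monotone fun i => Mp (S i) := fun i j hij x hx => hSmono hij hx
      have hdense : Dense (⋃ i, Bp (S i)) := by
        apply hD.mono
        intro x hx
        obtain ⟨i, hi⟩ := mem_iUnion.1 (hSD ⟨x, hx, rfl⟩)
        exact mem_iUnion.2 ⟨i, hi⟩
      apply glue_off z0 𝔇 (fun i => Bp (S i)) (fun i => Mp (S i)) hBm hMm r hr1 hr2 hr3
      · intro k i x hki
        apply hSep k _ (hr1 k _) _ (hr1 k _)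
        intro f hf
        rw [hr2 k _ f hf, hr2 k _ f hf, hr2 i _ f (hMm hki hf)]
      · exact hSep
      · intro i hi f hf
        obtain ⟨j, hj, hfj⟩ := hSlim i hi _ hf
        exact ⟨j, hj, hfj⟩
      · intro i
        exact (hP i).2
      · intro i hi x y hxy
        apply hSep i _ (hr1 i _) _ (hr1 i _)
        intro f hf
        obtain ⟨j, hj, hfj⟩ := hSlim i hi _ hf
        rw [hr2 i _ f hf, hr2 i _ f hf, ← hr2 j x f hfj, ← hr2 j y f hfj, hxy j hj]
      · intro x y hxy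
        have h1 : Mod2 𝔇 (⋃₀ range S) := by
          apply Mod2.sUnion _ (range_nonempty S)
          · rintro _ ⟨i, rfl⟩ _ ⟨j, rfl⟩ _
            rcases le_total i j with h | h
            · exact Or.inl (hSmono h)
            · exact Or.inr (hSmono h)
          · rintro _ ⟨i, rfl⟩; exact hP i
        have h2 := (hgood _ h1).2
        have e1 : Bp (⋃₀ range S) = ⋃ i, Bp (S i) := by
          ext x; simp [Bp]
        rw [e1, hdense.closure_eq] at h2
        apply h2 x (mem_univ x) y (mem_univ y)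
        rintro f ⟨_, ⟨i, rfl⟩, hf⟩
        rw [← hr2 i x f hf, ← hr2 i y f hf, hxy i]
      · intro i
        have : CompactSpace (closure (Bp (S i))) :=
          isCompact_iff_compactSpace.1 isClosed_closure.isCompact
        let DY : Set (closure (Bp (S i))) := {y | y.1 ∈ Bp (S i)}
        have hDY : Dense DY := by
          intro y
          rw [closure_subtype]
          have : ((↑) : closure (Bp (S i)) → X) '' DY = Bp (S i) := by
            ext x
            constructor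
            · rintro ⟨y, hy, rfl⟩; exact hy
            · intro hx; exact ⟨⟨x, subset_closure hx⟩, hx, rfl⟩
          rw [this]; exact y.2
        have hc : #DY ≤ #(Bp (S i)) := by
          refine Cardinal.mk_le_of_injective (f := fun y : DY => (⟨y.1.1, y.2⟩ : Bp (S i))) ?_
          intro y z h
          have h' : y.1.1 = z.1.1 := congrArg (fun t : Bp (S i) => t.1) h
          exact Subtype.ext (Subtype.ext h')
        exact ih #DY ((hc.trans (Bp_card _)).trans_lt (hScard i)) (closure (Bp (S i)))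
          (𝔇.restrict (closure (Bp (S i)))) DY hDY rfl

theorem DD.gs {E : Type v} [TopologicalSpace E] (z0 : E)
    {X : Type u} [TopologicalSpace X] [CompactSpace X] [T2Space X] (𝔇 : DD E X) :
    GS (ℕ → F0 E) X :=
  dd_aux z0 _ X 𝔇 Set.univ dense_univ rfl

end Pool.Agent.Helper535
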