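import Pool.Agent.Helper535.A

open Set Topology Cardinal

namespace Pool.Agent.Helper535

universe u v

variable {X : Type u} [TopologicalSpace X]

theorem chain_lemma [CompactSpace X] [T2Space X] (hct : CTight X)
    {ι : Type v} [LinearOrder ι] [WellFoundedLT ι]
    (B : ι → Set X) (M : ι → Set C(X, ℝ)) (hB : Monotone B) (hM : Monotone M)
    (hgood : ∀ i, Good (B i) (M i))
    (hlimB : ∀ i, Order.IsSuccLimit i → ∀ b ∈ B i, ∃ j < i, b ∈ B j)
    (hlimM : ∀ i, Order.IsSuccLimit i → ∀ f ∈ M i, ∃ j < i, f ∈ M j)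
    (hdense : Dense (⋃ i, B i)) (hsep : SepOn univ (⋃ i, M i))
    (hcor : ∀ i, CorsonOn (closure (B i))) : CorsonOn (univ : Set X) := by
  classical
  choose r hr1 hr2 hr3 using fun i => (hgood i).retraction
  choose F hF1 hF2 using hcor
  -- basic facts on the retractions
  have K0 : ∀ k i x, k ≤ i → r k (r i x) = r k x := by
    intro k i x hki
    apply (hgood k).2 _ (hr1 k _) _ (hr1 k _)
    intro f hf
    rw [hr2 k _ f hf, hr2 k _ f hf, hr2 i _ f (hM hki hf)]
  have K1 : ∀ j i k x, j ≤ k → k ≤ i → r i x ∈ closure (B j) → r k x = r i x := by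
    intro j i k x hjk hki hx
    rw [← K0 k i x hki]
    exact hr3 k _ (closure_mono (hB hjk) hx)
  let J : X → Set ι := fun x => {i | ∃ j, j ⋖ i ∧ r j x ≠ r i x}
  have htri : ∀ i : ι, IsMin i ∨ (∃ j, j ⋖ i) ∨ Order.IsSuccLimit i := by
    intro i
    by_cases h1 : IsMin i
    · exact Or.inl h1
    · by_cases h2 : ∃ j, j ⋖ i
      · exact Or.inr (Or.inl h2)
      · right; right
        exact ⟨h1, fun b hb => h2 ⟨b, hb⟩⟩
  have hJi : ∀ x i, (J x ∩ Iic i).Countable := by
    intro x i
    induction i using WellFoundedLT.induction with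
    | ind i ih =>
      rcases htri i with h | ⟨j, hj⟩ | h
      · have : J x ∩ Iic i ⊆ {i} := by
          rintro k ⟨-, hk⟩
          exact le_antisymm hk (h hk)
        exact (countable_singleton i).mono this
      · have : J x ∩ Iic i ⊆ (J x ∩ Iic j) ∪ {i} := by
          rintro k ⟨hk1, hk2⟩
          rcases eq_or_lt_of_le (show k ≤ i from hk2) with rfl | hlt
          · right; rfl
          · left; exact ⟨hk1, hj.le_of_lt hlt⟩
        exact ((ih j hj.lt).union (countable_singleton i)).mono this
      · obtain ⟨C, hCB, hC, hxC⟩ := hct (B i) (r i x) (hr1 i x)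
        have hj' : ∀ c ∈ C, ∃ j < i, c ∈ B j := fun c hc => hlimB i h c (hCB hc)
        have : Nonempty ι := ⟨i⟩
        choose! jc hjc1 hjc2 using hj'
        by_cases hb : ∃ j < i, ∀ c ∈ C, jc c ≤ j
        · obtain ⟨j, hji, hj⟩ := hb
          have hxj : r i x ∈ closure (B j) :=
            closure_mono (fun c hc => hB (hj c hc) (hjc2 c hc)) hxC
          have : J x ∩ Iic i ⊆ J x ∩ Iic j := by
            rintro k ⟨hk1, hk2⟩
            refine ⟨hk1, ?_⟩
            by_contra hkj
            rw [mem_Iic, not_le] at hkj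
            obtain ⟨k', hk', hne⟩ := hk1
            apply hne
            rw [K1 j i k' x (hk'.le_of_lt hkj) (hk'.le.trans hk2) hxj,
              K1 j i k x hkj.le hk2 hxj]
          exact (ih j hji).mono this
        · push Not at hb
          have : J x ∩ Iic i ⊆ (⋃ c ∈ C, J x ∩ Iic (jc c)) ∪ {i} := by
            rintro k ⟨hk1, hk2⟩
            rcases eq_or_lt_of_le (show k ≤ i from hk2) with rfl | hlt
            · right; rfl
            · left
              obtain ⟨c, hc, hkc⟩ := hb k hlt
              simp only [mem_iUnion]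
              exact ⟨c, hc, hk1, hkc.le⟩
          exact ((hC.biUnion fun c hc => ih _ (hjc1 c hc)).union (countable_singleton i)).mono this
  have hJ : ∀ x, (J x).Countable := by
    intro x
    rcases isEmpty_or_nonempty ι with hemp | hne
    · rw [eq_empty_of_isEmpty (J x)]; exact countable_empty
    obtain ⟨C, hCB, hC, hxC⟩ := hct (⋃ i, B i) x (hdense x)
    have hj' : ∀ c ∈ C, ∃ j, c ∈ B j := fun c hc => mem_iUnion.1 (hCB hc)
    choose! jc hjc2 using hj'
    by_cases hb : ∃ j, ∀ c ∈ C, jc c ≤ j
    · obtain ⟨j, hj⟩ := hb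
      have hxj : x ∈ closure (B j) :=
        closure_mono (fun c hc => hB (hj c hc) (hjc2 c hc)) hxC
      have : J x ⊆ J x ∩ Iic j := by
        rintro k hk1
        refine ⟨hk1, ?_⟩
        by_contra hkj
        rw [mem_Iic, not_le] at hkj
        obtain ⟨k', hk', hne⟩ := hk1
        apply hne
        rw [hr3 k' x (closure_mono (hB (hk'.le_of_lt hkj)) hxj),
          hr3 k x (closure_mono (hB hkj.le) hxj)]
      exact (hJi x j).mono this
    · push Not at hb
      have : J x ⊆ (⋃ c ∈ C, J x ∩ Iic (jc c)) := by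
        rintro k hk1
        obtain ⟨c, hc, hkc⟩ := hb k
        simp only [mem_iUnion]
        exact ⟨c, hc, hk1, hkc.le⟩
      exact (hC.biUnion fun c hc => hJi x _).mono this
  -- the family
  let F1 : Set C(X, ℝ) := {h | ∃ i, IsMin i ∧ ∃ g ∈ F i, h = g.comp (r i)}
  let F2 : Set C(X, ℝ) := {h | ∃ j i, j ⋖ i ∧ ∃ g ∈ F i, h = g.comp (r i) - g.comp (r j)}
  refine ⟨F1 ∪ F2, ?_, ?_⟩
  · intro x _
    have h1 : {f | f ∈ F1 ∧ f x ≠ 0}.Countable := by
      by_cases hmin : ∃ i : ι, IsMin i
      · obtain ⟨i, hi⟩ := hmin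
        have : {f | f ∈ F1 ∧ f x ≠ 0} ⊆ (fun g : C(X, ℝ) => g.comp (r i)) ''
            {g | g ∈ F i ∧ g (r i x) ≠ 0} := by
          rintro f ⟨⟨i', hi', g, hg, rfl⟩, hne⟩
          have : i' = i := le_antisymm ((le_total i' i).elim id (fun h => hi' h))
            ((le_total i' i).elim (fun h => hi h) id)
          subst this
          exact ⟨g, ⟨hg, hne⟩, rfl⟩
        exact ((hF1 i _ (hr1 i x)).image _).mono this
      · have : {f | f ∈ F1 ∧ f x ≠ 0} = ∅ := by
          ext f
          simp only [mem_ofPred_eq, mem_empty_iff_false, iff_false, not_and]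
          rintro ⟨i, hi, -⟩
          exact absurd ⟨i, hi⟩ hmin
        rw [this]; exact countable_empty
    have h2 : {f | f ∈ F2 ∧ f x ≠ 0}.Countable := by
      let p : ι → ι := fun i => if h : ∃ j, j ⋖ i then h.choose else i
      have hp : ∀ j i, j ⋖ i → p i = j := by
        intro j i hji
        have hex : ∃ j, j ⋖ i := ⟨j, hji⟩
        have : p i = hex.choose := dif_pos hex
        rw [this]
        exact hex.choose_spec.unique_left hji
      have : {f | f ∈ F2 ∧ f x ≠ 0} ⊆ ⋃ i ∈ J x,
          (fun g : C(X, ℝ) => g.comp (r i) - g.comp (r (p i))) ''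
            ({g | g ∈ F i ∧ g (r i x) ≠ 0} ∪ {g | g ∈ F i ∧ g (r (p i) x) ≠ 0}) := by
        rintro f ⟨⟨j, i, hji, g, hg, rfl⟩, hne⟩
        have hpi := hp j i hji
        simp only [mem_iUnion]
        refine ⟨i, ⟨j, hji, ?_⟩, g, ?_, ?_⟩
        · intro heq
          apply hne
          simp [heq]
        · rw [hpi]
          by_cases h0 : g (r i x) = 0
          · right
            refine ⟨hg, ?_⟩
            intro h0'
            apply hne
            simp [h0, h0']
          · left; exact ⟨hg, h0⟩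
        · simp only [hpi]
      refine ((hJ x).biUnion fun i hi => ?_).mono this
      obtain ⟨j, hji, -⟩ := hi
      have hpi := hp j i hji
      apply Countable.image
      apply Countable.union
      · exact hF1 i _ (hr1 i x)
      · apply hF1 i
        rw [hpi]
        exact closure_mono (hB hji.le) (hr1 j x)
    have : {f | f ∈ F1 ∪ F2 ∧ f x ≠ 0} ⊆ {f | f ∈ F1 ∧ f x ≠ 0} ∪ {f | f ∈ F2 ∧ f x ≠ 0} := by
      rintro f ⟨h | h, hne⟩
      · exact Or.inl ⟨h, hne⟩
      · exact Or.inr ⟨h, hne⟩
    exact (h1.union h2).mono this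
  · intro x _ y _ hxy
    by_contra hne
    have hex : ∃ i, r i x ≠ r i y := by
      by_contra hall
      push Not at hall
      apply hne
      apply hsep x (mem_univ x) y (mem_univ y)
      intro f hf
      obtain ⟨i, hi⟩ := mem_iUnion.1 hf
      rw [← hr2 i x f hi, ← hr2 i y f hi, hall i]
    obtain ⟨i, hi, hmin⟩ := WellFounded.has_min (wellFounded_lt (α := ι)) {i | r i x ≠ r i y} hex
    rcases htri i with h | ⟨j, hj⟩ | h
    · apply hi
      apply hF2 i _ (hr1 i x) _ (hr1 i y)
      intro g hg
      exact hxy _ (Or.inl ⟨i, h, g, hg, rfl⟩)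
    · have hjeq : r j x = r j y := by
        by_contra hne'
        exact hmin j hne' hj.lt
      apply hi
      apply hF2 i _ (hr1 i x) _ (hr1 i y)
      intro g hg
      have := hxy _ (Or.inr ⟨j, i, hj, g, hg, rfl⟩)
      simp only [ContinuousMap.sub_apply, ContinuousMap.comp_apply, hjeq] at this
      linarith
    · apply hi
      apply (hgood i).2 _ (hr1 i x) _ (hr1 i y)
      intro f hf
      obtain ⟨j, hji, hfj⟩ := hlimM i h f hf
      have hjeq : r j x = r j y := by
        by_contra hne'
        exact hmin j hne' hji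
      rw [hr2 i x f hf, hr2 i y f hf, ← hr2 j x f hfj, ← hr2 j y f hfj, hjeq]

end Pool.Agent.Helper535
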