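import Pool.Agent.Helper535.B

open Set Topology Cardinal

namespace Pool.Agent.Helper535

universe u v

variable {X : Type u} [TopologicalSpace X]

/-- trimmed family -/
lemma trim_card {F : Set C(X, ℝ)} {B : Set X} (hF : PCon B F) :
    #{f : C(X, ℝ) | f ∈ F ∧ ∃ b ∈ B, f b ≠ 0} ≤ max #B ℵ₀ := by
  have : {f : C(X, ℝ) | f ∈ F ∧ ∃ b ∈ B, f b ≠ 0} = ⋃ b : B, {f | f ∈ F ∧ f b.1 ≠ 0} := by
    ext f
    simp only [mem_ofPred_eq, mem_iUnion, Subtype.exists]
    constructor
    · rintro ⟨hf, b, hb, hne⟩; exact ⟨b, hb, hf, hne⟩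
    · rintro ⟨b, hb, hf, hne⟩; exact ⟨hf, b, hb, hne⟩
  rw [this]
  calc #(⋃ b : B, {f | f ∈ F ∧ f b.1 ≠ 0}) ≤ #B * ⨆ b : B, #{f | f ∈ F ∧ f b.1 ≠ 0} :=
        Cardinal.mk_iUnion_le _
    _ ≤ max #B ℵ₀ * max #B ℵ₀ := by
        apply mul_le_mul' (le_max_left _ _)
        apply ciSup_le'
        intro b
        exact (Cardinal.le_aleph0_iff_set_countable.2 (hF b.1 b.2)).trans (le_max_right _ _)
    _ = max #B ℵ₀ := Cardinal.mul_eq_self (le_max_right _ _)

/-- a trimmed separating family still separates the closure -/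
lemma trim_sep {F : Set C(X, ℝ)} {B : Set X} {x y : X} (hx : x ∈ closure B) (hy : y ∈ closure B)
    {f : C(X, ℝ)} (hf : f ∈ F) (hne : f x ≠ f y) :
    f ∈ {f : C(X, ℝ) | f ∈ F ∧ ∃ b ∈ B, f b ≠ 0} := by
  refine ⟨hf, ?_⟩
  by_contra hall
  push Not at hall
  apply hne
  rw [vanish_closure hall x hx, vanish_closure hall y hy]

theorem lemG [CompactSpace X] (hct : CTight X) (lam : Cardinal.{u}) (hlam : ℵ₁ ≤ lam)
    (hcor : ∀ B : Set X, #B ≤ lam → CorsonOn (closure B)) (E : Set C(X, ℝ)) (hE : #E ≤ lam) :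
    ∃ (B : Set X) (M : Set C(X, ℝ)), #B ≤ lam ∧ #M ≤ lam ∧ E ⊆ M ∧ Good B M := by
  classical
  have hlam0 : ℵ₀ ≤ lam := (Cardinal.aleph0_le_aleph 1).trans hlam
  -- choose separating families
  have hch : ∀ B : Set X, ∃ F : Set C(X, ℝ), #B ≤ lam → PCon (closure B) F ∧ SepOn (closure B) F := by
    intro B
    by_cases h : #B ≤ lam
    · obtain ⟨F, hF⟩ := hcor B h
      exact ⟨F, fun _ => hF⟩
    · exact ⟨∅, fun h' => absurd h' h⟩
  choose F hF using hch
  have hA := fun M : Set C(X, ℝ) => lemA (univ : Set X) M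
  choose C hC1 hC2 hC3 using hA
  let nM : Set X → Set C(X, ℝ) → Set C(X, ℝ) := fun B M =>
    M ∪ {f | f ∈ F B ∧ ∃ b ∈ B, f b ≠ 0}
  let Φ : Set X × Set C(X, ℝ) → Set X × Set C(X, ℝ) := fun p =>
    (p.1 ∪ C (nM p.1 p.2), nM p.1 p.2)
  have hΦ1 : ∀ p, p.1 ⊆ (Φ p).1 := fun p => subset_union_left
  have hΦ2 : ∀ p, p.2 ⊆ (Φ p).2 := fun p => subset_union_left
  have hΦD : ∀ p, Dn univ (Φ p).1 (Φ p).2 := by
    intro p x hx
    obtain ⟨x', hx', hf⟩ := hC3 (nM p.1 p.2) x (by simp)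
    exact ⟨x', closure_mono subset_union_right hx', hf⟩
  have hΦc : ∀ p : Set X × Set C(X, ℝ), #p.1 ≤ lam → #p.2 ≤ lam →
      #(Φ p).1 ≤ lam ∧ #(Φ p).2 ≤ lam := by
    intro p h1 h2
    have h3 : #(nM p.1 p.2) ≤ lam := by
      refine (Cardinal.mk_union_le _ _).trans ?_
      refine Cardinal.add_le_of_le hlam0 h2 ?_
      have := (hF p.1 h1).1
      refine (trim_card (B := p.1) (F := F p.1) (fun x hx => this x (subset_closure hx))).trans ?_
      exact max_le h1 hlam0
    refine ⟨?_, h3⟩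
    refine (Cardinal.mk_union_le _ _).trans ?_
    refine Cardinal.add_le_of_le hlam0 h1 ?_
    exact (hC2 _).trans (max_le h3 hlam0)
  have hΦS : ∀ p : Set X × Set C(X, ℝ), #p.1 ≤ lam → SepOn (closure p.1) (Φ p).2 := by
    intro p h1 x hx y hy hxy
    apply (hF p.1 h1).2 x hx y hy
    intro f hf
    by_contra hne
    exact hne (hxy f (Or.inr (trim_sep hx hy hf hne)))
  -- the index set
  let ι := (ℵ₁ : Cardinal.{u}).ord.ToType
  have hι : #ι = ℵ₁ := Cardinal.mk_ord_toType _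
  have hIio : ∀ i : ι, #(Iio i) ≤ ℵ₀ := by
    intro i
    have : #(Iio i) < ℵ₁ := Cardinal.mk_Iio_toType_ord_lt i
    rwa [← Order.lt_succ_iff, Cardinal.succ_aleph0]
  let step : ∀ i : ι, (∀ j, j < i → Set X × Set C(X, ℝ)) → Set X × Set C(X, ℝ) := fun i g =>
    Φ (⋃ j : Iio i, (g j.1 j.2).1, E ∪ ⋃ j : Iio i, (g j.1 j.2).2)
  let S : ι → Set X × Set C(X, ℝ) := WellFounded.fix (wellFounded_lt (α := ι)) step
  let U : ι → Set X × Set C(X, ℝ) := fun i =>
    (⋃ j : Iio i, (S j.1).1, E ∪ ⋃ j : Iio i, (S j.1).2)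
  have hS : ∀ i, S i = Φ (U i) := by
    intro i
    exact WellFounded.fix_eq (wellFounded_lt (α := ι)) step i
  have hmono : ∀ j i, j < i → (S j).1 ⊆ (U i).1 ∧ (S j).2 ⊆ (U i).2 := by
    intro j i hji
    refine ⟨?_, ?_⟩
    · exact subset_iUnion (fun j : Iio i => (S j.1).1) ⟨j, hji⟩
    · exact (subset_iUnion (fun j : Iio i => (S j.1).2) ⟨j, hji⟩).trans subset_union_right
  have hmono' : ∀ j i, j ≤ i → (S j).1 ⊆ (S i).1 ∧ (S j).2 ⊆ (S i).2 := by
    intro j i hji
    rcases eq_or_lt_of_le hji with rfl | hlt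
    · exact ⟨subset_rfl, subset_rfl⟩
    · have := hmono j i hlt
      rw [hS i]
      exact ⟨this.1.trans (hΦ1 _), this.2.trans (hΦ2 _)⟩
  have hcard : ∀ i, #(U i).1 ≤ lam ∧ #(U i).2 ≤ lam ∧ #(S i).1 ≤ lam ∧ #(S i).2 ≤ lam := by
    intro i
    induction i using WellFoundedLT.induction with
    | ind i ih =>
      have h1 : #(U i).1 ≤ lam := by
        refine (Cardinal.mk_iUnion_le _).trans ?_
        calc #(Iio i) * (⨆ j : Iio i, #(S j.1).1) ≤ lam * lam := by
              apply mul_le_mul' ((hIio i).trans hlam0)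
              apply ciSup_le'
              intro j
              exact (ih j.1 j.2).2.2.1
          _ = lam := Cardinal.mul_eq_self hlam0
      have h2 : #(U i).2 ≤ lam := by
        refine (Cardinal.mk_union_le _ _).trans ?_
        refine Cardinal.add_le_of_le hlam0 hE ?_
        refine (Cardinal.mk_iUnion_le _).trans ?_
        calc #(Iio i) * (⨆ j : Iio i, #(S j.1).2) ≤ lam * lam := by
              apply mul_le_mul' ((hIio i).trans hlam0)
              apply ciSup_le'
              intro j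
              exact (ih j.1 j.2).2.2.2
          _ = lam := Cardinal.mul_eq_self hlam0
      refine ⟨h1, h2, ?_⟩
      rw [hS i]
      exact hΦc _ h1 h2
  have hne : Nonempty ι := by
    rw [← Cardinal.mk_ne_zero_iff, hι]
    exact (Cardinal.aleph_pos 1).ne'
  -- unbounded countable sets
  have hbdd : ∀ C : Set X, C.Countable → ∀ jc : X → ι, ∃ i, ∀ c ∈ C, jc c < i := by
    intro C hC jc
    by_contra hall
    push Not at hall
    have : (univ : Set ι) ⊆ ⋃ c ∈ C, Iic (jc c) := by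
      intro i _
      obtain ⟨c, hc, hci⟩ := hall i
      simp only [mem_iUnion]
      exact ⟨c, hc, hci⟩
    have hcount : (univ : Set ι).Countable := by
      refine (hC.biUnion fun c _ => ?_).mono this
      have : Iic (jc c) = Iio (jc c) ∪ {jc c} := by
        ext k; simp [le_iff_lt_or_eq]
      rw [this]
      exact (Cardinal.le_aleph0_iff_set_countable.1 (hIio _)).union (countable_singleton _)
    have h1 : #ι ≤ ℵ₀ := by
      rw [← Cardinal.mk_univ]
      exact Cardinal.le_aleph0_iff_set_countable.2 hcount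
    rw [hι] at h1
    exact absurd h1 (not_le.2 (by simpa using Cardinal.aleph0_lt_aleph_one))
  refine ⟨⋃ i, (S i).1, ⋃ i, (S i).2, ?_, ?_, ?_, ?_, ?_⟩
  · refine (Cardinal.mk_iUnion_le _).trans ?_
    calc #ι * (⨆ j : ι, #(S j).1) ≤ lam * lam := by
          apply mul_le_mul' (hι.le.trans hlam)
          apply ciSup_le'
          intro j
          exact (hcard j).2.2.1
      _ = lam := Cardinal.mul_eq_self hlam0
  · refine (Cardinal.mk_iUnion_le _).trans ?_
    calc #ι * (⨆ j : ι, #(S j).2) ≤ lam * lam := by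
          apply mul_le_mul' (hι.le.trans hlam)
          apply ciSup_le'
          intro j
          exact (hcard j).2.2.2
      _ = lam := Cardinal.mul_eq_self hlam0
  · obtain ⟨i⟩ := hne
    refine Subset.trans ?_ (subset_iUnion (fun i => (S i).2) i)
    rw [hS i]
    exact subset_union_left.trans (hΦ2 (U i))
  · apply Dn_iUnion
    · intro i j
      refine ⟨max i j, ?_, ?_, ?_, ?_⟩
      · exact (hmono' _ _ (le_max_left i j)).1
      · exact (hmono' _ _ (le_max_right i j)).1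
      · exact (hmono' _ _ (le_max_left i j)).2
      · exact (hmono' _ _ (le_max_right i j)).2
    · intro i
      rw [hS i]
      exact hΦD _
  · intro x hx y hy hxy
    obtain ⟨C1, hC1B, hC1c, hxC⟩ := hct _ x hx
    obtain ⟨C2, hC2B, hC2c, hyC⟩ := hct _ y hy
    have hj : ∀ c ∈ C1 ∪ C2, ∃ i, c ∈ (S i).1 := fun c hc =>
      mem_iUnion.1 (union_subset hC1B hC2B hc)
    choose! jc hjc using hj
    obtain ⟨i, hi⟩ := hbdd (C1 ∪ C2) (hC1c.union hC2c) jc
    have hsub : C1 ∪ C2 ⊆ (U i).1 := fun c hc => (hmono _ _ (hi c hc)).1 (hjc c hc)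
    have hsep := hΦS (U i) (hcard i).1
    apply hsep x (closure_mono (subset_union_left.trans hsub) hxC) y
      (closure_mono (subset_union_right.trans hsub) hyC)
    intro f hf
    apply hxy
    rw [← hS i] at hf
    exact mem_iUnion.2 ⟨i, hf⟩

end Pool.Agent.Helper535
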