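import Pool.Agent.Helper535.D

open Set Topology Cardinal

namespace Pool.Agent.Helper535

universe u v

variable {X : Type u} [TopologicalSpace X]

lemma iUnion_card_lt {K : Type u} {J : Type u} {S : J → Set K} {kap : Cardinal.{u}}
    (hinf : ℵ₀ ≤ kap) (hJ : #J < kap.ord.cof) (hS : ∀ j, #(S j) < kap) : #(⋃ j, S j) < kap := by
  refine (Cardinal.mk_iUnion_le _).trans_lt ?_
  apply Cardinal.mul_lt_of_lt hinf
  · exact hJ.trans_le (Ordinal.cof_ord_le kap)
  · exact Cardinal.iSup_lt_of_lt_cof_ord hJ hS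

lemma finset_subset_chain {K : Type u} {ι : Type v} [LinearOrder ι] {S : ι → Set K}
    (hS : Monotone S) {I : Set ι} (hI : I.Nonempty) (t : Finset K)
    (ht : ∀ k ∈ t, ∃ j ∈ I, k ∈ S j) : ∃ j ∈ I, ∀ k ∈ t, k ∈ S j := by
  classical
  induction t using Finset.induction_on with
  | empty => obtain ⟨j, hj⟩ := hI; exact ⟨j, hj, by simp⟩
  | insert a t _ ih =>
    obtain ⟨j, hj, hjt⟩ := ih (fun k hk => ht k (Finset.mem_insert_of_mem hk))
    obtain ⟨j', hj', hja⟩ := ht a (Finset.mem_insert_self a t)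
    rcases le_total j j' with h | h
    · refine ⟨j', hj', ?_⟩
      intro k hk
      rcases Finset.mem_insert.1 hk with rfl | hk
      · exact hja
      · exact hS h (hjt k hk)
    · refine ⟨j, hj, ?_⟩
      intro k hk
      rcases Finset.mem_insert.1 hk with rfl | hk
      · exact hS h hja
      · exact hjt k hk

theorem chain_build [CompactSpace X] [T2Space X] (hct : CTight X)
    {K : Type u} [LinearOrder K] [WellFoundedLT K]
    (hIio : ∀ k : K, #(Iio k) < #K) (hKcof : (#K).ord.cof = Order.cof K)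
    (hunc : ℵ₀ < Order.cof K)
    (hcor : ∀ B : Set X, #B < #K → CorsonOn (closure B))
    (d : K → X) (hd : DenseRange d)
    (Mf : Set K → Set C(X, ℝ)) (hMmono : Monotone Mf)
    (hMfin : ∀ S f, f ∈ Mf S → ∃ t : Finset K, (∀ k ∈ t, k ∈ S) ∧ f ∈ Mf {k | k ∈ t})
    (hsep : SepOn univ (Mf univ))
    (P : Set K → Prop)
    (hPU : ∀ 𝒮 : Set (Set K), 𝒮.Nonempty → IsChain (· ⊆ ·) 𝒮 → (∀ S ∈ 𝒮, P S) → P (⋃₀ 𝒮))
    (hPex : ∀ S : Set K, #S < #K → ∃ S', S ⊆ S' ∧ P S' ∧ #S' < #K)
    (hgood : ∀ S : Set K, P S → #S < #K → Good (d '' S) (Mf S)) :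
    CorsonOn (univ : Set X) := by
  classical
  have hcofle : Order.cof K ≤ #K := Order.cof_le_cardinalMk K
  have hinf : ℵ₀ ≤ #K := hunc.le.trans hcofle
  -- closure operator
  have hch : ∀ S : Set K, ∃ S', #S < #K → S ⊆ S' ∧ P S' ∧ #S' < #K := by
    intro S
    by_cases h : #S < #K
    · obtain ⟨S', h'⟩ := hPex S h
      exact ⟨S', fun _ => h'⟩
    · exact ⟨S, fun h' => absurd h' h⟩
  choose Cl hCl using hch
  obtain ⟨s, hs, hscard⟩ := Order.exists_cof_eq K
  let ι := (Order.cof K).ord.ToType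
  have hι : #ι = Order.cof K := Cardinal.mk_ord_toType _
  obtain ⟨e⟩ : Nonempty (ι ≃ s) := by
    rw [← Cardinal.eq, hι, hscard]
  have hιIio : ∀ i : ι, #(Iio i) < Order.cof K := by
    intro i
    have := Cardinal.mk_Iio_lt i (by simp [ι])
    rwa [hι] at this
  have hιinf : ℵ₀ ≤ #ι := by rw [hι]; exact hunc.le
  have hnomax : ∀ i : ι, ∃ j, i < j := by
    intro i
    by_contra hall
    push Not at hall
    have h1 : (univ : Set ι) ⊆ Iio i ∪ {i} := by
      intro j _
      rcases eq_or_lt_of_le (hall j) with h | h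
      · right; exact h
      · left; exact h
    have h2 : #ι < #ι := by
      calc #ι = #(univ : Set ι) := Cardinal.mk_univ.symm
        _ ≤ #((Iio i ∪ {i} : Set ι)) := Cardinal.mk_le_mk_of_subset h1
        _ ≤ #(Iio i) + #({i} : Set ι) := Cardinal.mk_union_le _ _
        _ < #ι := by
          apply Cardinal.add_lt_of_lt hιinf
          · rw [hι]; exact hιIio i
          · rw [Cardinal.mk_singleton]
            exact Cardinal.one_lt_aleph0.trans_le hιinf
    exact lt_irrefl _ h2
  have hne : Nonempty ι := by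
    rw [← Cardinal.mk_ne_zero_iff]
    exact (Cardinal.aleph0_pos.trans_le hιinf).ne'
  -- the recursion
  let step : ∀ i : ι, (∀ j, j < i → Set K) → Set K := fun i g =>
    Cl ∅ ∪ ⋃ j : Iio i, Cl (Iic (e j.1).1 ∪ g j.1 j.2)
  let S : ι → Set K := WellFounded.fix (wellFounded_lt (α := ι)) step
  have hS : ∀ i, S i = Cl ∅ ∪ ⋃ j : Iio i, Cl (Iic (e j.1).1 ∪ S j.1) := by
    intro i
    exact WellFounded.fix_eq (wellFounded_lt (α := ι)) step i
  have hIic : ∀ k : K, #(Iic k) < #K := by
    intro k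
    have : Iic k = Iio k ∪ {k} := by
      ext j; simp [le_iff_lt_or_eq]
    rw [this]
    refine (Cardinal.mk_union_le _ _).trans_lt ?_
    apply Cardinal.add_lt_of_lt hinf (hIio k)
    rw [Cardinal.mk_singleton]
    exact Cardinal.one_lt_aleph0.trans_le hinf
  have hempty : #(∅ : Set K) < #K := by
    rw [Cardinal.mk_eq_zero]; exact Cardinal.aleph0_pos.trans_le hinf
  have hcard0 : ∀ i, #(S i) < #K → #((Iic (e i).1 ∪ S i : Set K)) < #K := by
    intro i h
    exact (Cardinal.mk_union_le _ _).trans_lt (Cardinal.add_lt_of_lt hinf (hIic _) h)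
  have hcard : ∀ i, #(S i) < #K := by
    intro i
    induction i using WellFoundedLT.induction with
    | ind i ih =>
      rw [hS i]
      refine (Cardinal.mk_union_le _ _).trans_lt ?_
      apply Cardinal.add_lt_of_lt hinf (hCl ∅ hempty).2.2
      apply iUnion_card_lt hinf
      · rw [hKcof]; exact hιIio i
      · intro j
        exact (hCl _ (hcard0 j.1 (ih j.1 j.2))).2.2
  have hclS : ∀ j i, j < i → Cl (Iic (e j).1 ∪ S j) ⊆ S i := by
    intro j i hji
    rw [hS i]
    exact (subset_iUnion (fun j : Iio i => Cl (Iic (e j.1).1 ∪ S j.1)) ⟨j, hji⟩).trans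
      subset_union_right
  have hSlt : ∀ j i, j < i → S j ⊆ S i := by
    intro j i hji
    exact (subset_union_right.trans (hCl _ (hcard0 j (hcard j))).1).trans (hclS j i hji)
  have hSmono : Monotone S := by
    intro j i hji
    rcases eq_or_lt_of_le hji with rfl | hlt
    · exact subset_rfl
    · exact hSlt j i hlt
  have hCl0 : ∀ i, Cl ∅ ⊆ S i := by
    intro i; rw [hS i]; exact subset_union_left
  have hP : ∀ i, P (S i) := by
    intro i
    have h1 : S i = ⋃₀ ({Cl ∅} ∪ range (fun j : Iio i => Cl (Iic (e j.1).1 ∪ S j.1))) := by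
      rw [sUnion_union, sUnion_singleton, sUnion_range]
      exact hS i
    rw [h1]
    apply hPU
    · exact ⟨Cl ∅, Or.inl rfl⟩
    · have hlt : ∀ j j' : ι, j < j' → Cl (Iic (e j).1 ∪ S j) ⊆ Cl (Iic (e j').1 ∪ S j') := by
        intro j j' hjj
        exact (hclS j j' hjj).trans (subset_union_right.trans (hCl _ (hcard0 j' (hcard j'))).1)
      have h0 : ∀ j : ι, Cl ∅ ⊆ Cl (Iic (e j).1 ∪ S j) := by
        intro j
        exact (hCl0 j).trans (subset_union_right.trans (hCl _ (hcard0 j (hcard j))).1)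
      rintro a (ha | ⟨j, rfl⟩) b (hb | ⟨j', rfl⟩) hab
      · rw [mem_singleton_iff] at ha hb
        exact absurd (ha.trans hb.symm) hab
      · rw [mem_singleton_iff] at ha; subst ha; exact Or.inl (h0 _)
      · rw [mem_singleton_iff] at hb; subst hb; exact Or.inr (h0 _)
      · rcases lt_trichotomy j.1 j'.1 with h | h | h
        · exact Or.inl (hlt _ _ h)
        · exact absurd (by simp only [h]) hab
        · exact Or.inr (hlt _ _ h)
    · rintro a (ha | ⟨j, rfl⟩)
      · rw [mem_singleton_iff] at ha; subst ha; exact (hCl ∅ hempty).2.1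
      · exact (hCl _ (hcard0 j.1 (hcard j.1))).2.1
  -- limits
  have hlim : ∀ i : ι, Order.IsSuccLimit i → ∀ k ∈ S i, ∃ j < i, k ∈ S j := by
    intro i hi k hk
    rw [hS i] at hk
    rcases hk with hk | hk
    · have := hi.1
      rw [not_isMin_iff] at this
      obtain ⟨j, hj⟩ := this
      exact ⟨j, hj, hCl0 j hk⟩
    · obtain ⟨j, hj⟩ := mem_iUnion.1 hk
      have h2 := hi.2 j.1
      have : ∃ j', j.1 < j' ∧ j' < i := by
        by_contra hall
        push Not at hall
        exact h2 ⟨j.2, fun c hc hci => absurd hci (not_lt.2 (hall c hc))⟩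
      obtain ⟨j', h1, h3⟩ := this
      exact ⟨j', h3, hclS _ _ h1 hj⟩
  have htot : ∀ k : K, ∃ i, k ∈ S i := by
    intro k
    obtain ⟨k', hk', hkk'⟩ := hs k
    obtain ⟨j, hj⟩ := e.surjective ⟨k', hk'⟩
    obtain ⟨i, hi⟩ := hnomax j
    refine ⟨i, hclS j i hi ((hCl _ (hcard0 j (hcard j))).1 ?_)⟩
    left
    rw [mem_Iic, hj]; exact hkk'
  refine chain_lemma hct (fun i => d '' S i) (fun i => Mf (S i))
    (fun i j hij => image_mono (hSmono hij)) (fun i j hij => hMmono (hSmono hij)) ?_ ?_ ?_ ?_ ?_ ?_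
  · intro i; exact hgood _ (hP i) (hcard i)
  · rintro i hi _ ⟨k, hk, rfl⟩
    obtain ⟨j, hj, hkj⟩ := hlim i hi k hk
    exact ⟨j, hj, k, hkj, rfl⟩
  · intro i hi f hf
    obtain ⟨t, ht, hft⟩ := hMfin _ _ hf
    have h2 := hi.1
    rw [not_isMin_iff] at h2
    obtain ⟨j, hj, hjt⟩ := finset_subset_chain hSmono (I := Iio i) h2 t
      (fun k hk => hlim i hi k (ht k hk))
    exact ⟨j, hj, hMmono (fun k hk => hjt k hk) hft⟩
  · have : (⋃ i, d '' S i) = range d := by
      rw [← image_iUnion, ← image_univ]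
      congr 1
      ext k; simp only [mem_iUnion, mem_univ, iff_true]; exact htot k
    rw [this]; exact hd
  · intro x _ y _ hxy
    apply hsep x (mem_univ x) y (mem_univ y)
    intro f hf
    obtain ⟨t, ht, hft⟩ := hMfin _ _ hf
    obtain ⟨j, -, hjt⟩ := finset_subset_chain hSmono (I := univ) univ_nonempty t
      (fun k hk => by obtain ⟨i, hi⟩ := htot k; exact ⟨i, mem_univ i, hi⟩)
    exact hxy f (mem_iUnion.2 ⟨j, hMmono (fun k hk => hjt k hk) hft⟩)
  · intro i
    exact hcor _ (Cardinal.mk_image_le.trans_lt (hcard i))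

end Pool.Agent.Helper535
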