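import Pool.Agent.Helper535.E

open Set Topology Cardinal

namespace Pool.Agent.Helper535

universe u v

variable {X : Type u} [TopologicalSpace X]

section
variable {K : Type u} [LinearOrder K]

/-- the functions attached to a set of indices -/
def Mf (d : K → X) (F : K → Set C(X, ℝ)) (S : Set K) : Set C(X, ℝ) :=
  {f | ∃ i ∈ S, f ∈ F i ∧ ∃ s ∈ S, s < i ∧ f (d s) ≠ 0}

lemma Mf_mono (d : K → X) (F : K → Set C(X, ℝ)) : Monotone (Mf d F) := by
  rintro S S' h f ⟨i, hi, hf, s, hs, hsi, hne⟩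
  exact ⟨i, h hi, hf, s, h hs, hsi, hne⟩

lemma Mf_fin (d : K → X) (F : K → Set C(X, ℝ)) (S : Set K) (f : C(X, ℝ)) (hf : f ∈ Mf d F S) :
    ∃ t : Finset K, (∀ k ∈ t, k ∈ S) ∧ f ∈ Mf d F {k | k ∈ t} := by
  classical
  obtain ⟨i, hi, hf, s, hs, hsi, hne⟩ := hf
  refine ⟨{i, s}, ?_, i, ?_, hf, s, ?_, hsi, hne⟩
  · intro k hk
    rcases Finset.mem_insert.1 hk with rfl | hk
    · exact hi
    · rw [Finset.mem_singleton] at hk; subst hk; exact hs
  · exact Finset.mem_insert_self i {s}
  · exact Finset.mem_insert_of_mem (Finset.mem_singleton_self s)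

lemma Mf_card {d : K → X} {F : K → Set C(X, ℝ)}
    (hF : ∀ i, PCon (closure (d '' Iio i)) (F i)) (S : Set K) :
    #(Mf d F S) ≤ max #S ℵ₀ := by
  have : Mf d F S ⊆ ⋃ i : S, {f : C(X, ℝ) | f ∈ F i ∧ ∃ b ∈ d '' (S ∩ Iio i.1), f b ≠ 0} := by
    rintro f ⟨i, hi, hf, s, hs, hsi, hne⟩
    exact mem_iUnion.2 ⟨⟨i, hi⟩, hf, d s, ⟨s, ⟨hs, hsi⟩, rfl⟩, hne⟩
  refine (Cardinal.mk_le_mk_of_subset this).trans ?_
  refine (Cardinal.mk_iUnion_le _).trans ?_
  calc _ ≤ max #S ℵ₀ * max #S ℵ₀ := by
        apply mul_le_mul' (le_max_left _ _)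
        apply ciSup_le'
        intro i
        refine (trim_card (B := d '' (S ∩ Iio i.1)) (F := F i) ?_).trans ?_
        · intro x hx
          apply hF i x
          apply subset_closure
          exact image_mono inter_subset_right hx
        · apply max_le_max_right
          refine Cardinal.mk_image_le.trans ?_
          exact Cardinal.mk_le_mk_of_subset inter_subset_left
    _ = max #S ℵ₀ := Cardinal.mul_eq_self (le_max_right _ _)

/-- separation of points in the closure of a bounded piece -/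
lemma Mf_sep {d : K → X} {F : K → Set C(X, ℝ)}
    (hF : ∀ i, SepOn (closure (d '' Iio i)) (F i)) {S C : Set K} (hC : C ⊆ S) {i : K}
    (hi : i ∈ S) (hCi : ∀ c ∈ C, c < i) : SepOn (closure (d '' C)) (Mf d F S) := by
  intro x hx y hy hxy
  have hsub : d '' C ⊆ d '' Iio i := image_mono hCi
  apply hF i x (closure_mono hsub hx) y (closure_mono hsub hy)
  intro f hf
  by_contra hne
  obtain ⟨-, b, ⟨s, hs, rfl⟩, hb⟩ := trim_sep hx hy hf hne
  exact hne (hxy f ⟨i, hi, hf, s, hC hs, hCi s hs, hb⟩)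

end

lemma iUnion_nat_card_le {K : Type u} (T : ℕ → Set K) {c : Cardinal.{u}} (hc : ℵ₀ ≤ c)
    (h : ∀ n, #(T n) ≤ c) : #(⋃ n, T n) ≤ c := by
  have h1 : (⋃ n, T n) = ⋃ n : ULift.{u} ℕ, T n.down := by
    ext k
    simp only [mem_iUnion]
    exact ⟨fun ⟨n, hn⟩ => ⟨⟨n⟩, hn⟩, fun ⟨n, hn⟩ => ⟨n.down, hn⟩⟩
  rw [h1]
  refine (Cardinal.mk_iUnion_le _).trans ?_
  calc _ ≤ c * c := by
        apply mul_le_mul'
        · simpa using hc
        · apply ciSup_le'
          intro n; exact h n.down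
    _ = c := Cardinal.mul_eq_self hc

/-- countable sets of indices, from countable sets of points -/
lemma ctight_index {K : Type u} (hct : CTight X) (d : K → X) (S : Set K) {x : X}
    (hx : x ∈ closure (d '' S)) : ∃ C ⊆ S, C.Countable ∧ x ∈ closure (d '' C) := by
  obtain ⟨C, hCS, hC, hxC⟩ := hct _ x hx
  have : ∀ c ∈ C, ∃ k ∈ S, d k = c := fun c hc => hCS hc
  rcases isEmpty_or_nonempty K with hK | hK
  · have : C = ∅ := by
      rw [eq_empty_iff_forall_notMem]
      intro c hc
      obtain ⟨k, -, -⟩ := this c hc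
      exact hK.false k
    subst this
    exact ⟨∅, empty_subset _, countable_empty, by simp at hxC⟩
  · choose! k hk1 hk2 using this
    refine ⟨k '' C, ?_, hC.image _, ?_⟩
    · rintro _ ⟨c, hc, rfl⟩; exact hk1 c hc
    · have : d '' (k '' C) = C := by
        rw [image_image]
        ext c
        constructor
        · rintro ⟨c', hc', rfl⟩
          show d (k c') ∈ C
          rw [hk2 c' hc']; exact hc'
        · intro hc; exact ⟨c, hc, hk2 c hc⟩
      rw [this]; exact hxC

/-- closing off with respect to density -/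
theorem close_off [CompactSpace X] {K : Type u} (d : K → X) (hd : DenseRange d)
    (Mf : Set K → Set C(X, ℝ)) (hMmono : Monotone Mf)
    (hMfin : ∀ S f, f ∈ Mf S → ∃ t : Finset K, (∀ k ∈ t, k ∈ S) ∧ f ∈ Mf {k | k ∈ t})
    (hMcard : ∀ S, #(Mf S) ≤ max #S ℵ₀) (S : Set K) :
    ∃ S', S ⊆ S' ∧ Dn univ (d '' S') (Mf S') ∧ #S' ≤ max #S ℵ₀ := by
  classical
  have h1 : ∀ S : Set K, ∃ C : Set K, #C ≤ max #S ℵ₀ ∧ Dn univ (d '' C) (Mf S) := by
    intro S
    obtain ⟨C, hC, hCc, hD⟩ := lemA (range d) (Mf S)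
    have hC' : ∀ c : C, ∃ k, d k = c.1 := fun c => hC c.2
    choose k hk using hC'
    refine ⟨range k, ?_, ?_⟩
    · exact (Cardinal.mk_range_le.trans hCc).trans (max_le (hMcard S) (le_max_right _ _))
    · have : d '' (range k) = C := by
        ext c
        constructor
        · rintro ⟨_, ⟨c', rfl⟩, rfl⟩; rw [hk c']; exact c'.2
        · intro hc; exact ⟨k ⟨c, hc⟩, ⟨_, rfl⟩, hk ⟨c, hc⟩⟩
      rw [this]
      intro x _
      exact hD x (hd x)
  choose C hCc hCD using h1
  let T : ℕ → Set K := fun n => Nat.rec S (fun _ T => T ∪ C T) n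
  have hT : ∀ n, T (n+1) = T n ∪ C (T n) := fun n => rfl
  have hTmono : Monotone T := monotone_nat_of_le_succ fun n => by rw [hT]; exact subset_union_left
  have hTcard : ∀ n, #↥(T n) ≤ max #S ℵ₀ := by
    intro n
    induction n with
    | zero => exact le_max_left _ _
    | succ n ih =>
      rw [hT]
      refine (Cardinal.mk_union_le _ _).trans ?_
      refine Cardinal.add_le_of_le (le_max_right _ _) ih ?_
      exact (hCc _).trans (max_le ih (le_max_right _ _))
  refine ⟨⋃ n, T n, subset_iUnion T 0, ?_, ?_⟩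
  · have hDn : Dn univ (⋃ n, d '' T (n+1)) (⋃ n, Mf (T n)) := by
      apply Dn_iUnion
      · intro i j
        refine ⟨max i j, ?_, ?_, ?_, ?_⟩
        · exact image_mono (hTmono (Nat.succ_le_succ (le_max_left i j)))
        · exact image_mono (hTmono (Nat.succ_le_succ (le_max_right i j)))
        · exact hMmono (hTmono (le_max_left i j))
        · exact hMmono (hTmono (le_max_right i j))
      · intro n x hx
        obtain ⟨x', hx', hf⟩ := hCD (T n) x hx
        refine ⟨x', closure_mono ?_ hx', hf⟩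
        apply image_mono
        rw [hT]; exact subset_union_right
    intro x hx
    obtain ⟨x', hx', hf⟩ := hDn x hx
    refine ⟨x', closure_mono ?_ hx', ?_⟩
    · rw [image_iUnion]
      apply iUnion_subset
      intro n
      exact subset_iUnion (fun n => d '' T n) (n+1)
    · intro f hf'
      obtain ⟨t, ht, hft⟩ := hMfin _ _ hf'
      obtain ⟨n, -, hn⟩ := finset_subset_chain hTmono (I := Set.univ) univ_nonempty t
        (fun k hk => by obtain ⟨i, hi⟩ := mem_iUnion.1 (ht k hk); exact ⟨i, mem_univ i, hi⟩)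
      exact hf f (mem_iUnion.2 ⟨n, hMmono (fun k hk => hn k hk) hft⟩)
  · exact iUnion_nat_card_le T (le_max_right _ _) hTcard

end Pool.Agent.Helper535
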