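import Pool.Agent.Helper535.H

open Set Topology Cardinal

namespace Pool.Agent.Helper535

universe u v

/-- splitting over Corson compacta, in the embedding form, gives splitting families -/
theorem splits_of_maps {X : Type u} [TopologicalSpace X]
    (h : ∀ A : Set X, ∃ (Y : Type u) (_ : TopologicalSpace Y) (κ : Type u) (e : Y → κ → ℝ)
      (f : X → Y), Continuous e ∧ Function.Injective e ∧ (∀ y, {i | e y i ≠ 0}.Countable) ∧
      Continuous f ∧ f ⁻¹' (f '' A) = A) : Splits X := by
  intro A
  obtain ⟨Y, _, κ, e, f, he, hinj, hsupp, hf, hA⟩ := h A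
  let g : κ → C(X, ℝ) := fun i => ⟨fun x => e (f x) i, (continuous_apply i).comp (he.comp hf)⟩
  refine ⟨range g, ?_, ?_⟩
  · intro x _
    have : {k | k ∈ range g ∧ k x ≠ 0} ⊆ g '' {i | e (f x) i ≠ 0} := by
      rintro k ⟨⟨i, rfl⟩, hne⟩
      exact ⟨i, hne, rfl⟩
    exact ((hsupp (f x)).image _).mono this
  · intro x hx y hy
    have hne : f x ≠ f y := by
      intro heq
      apply hy
      rw [← hA]
      exact ⟨x, hx, heq⟩
    have hne' : e (f x) ≠ e (f y) := fun h => hne (hinj h)
    obtain ⟨i, hi⟩ := Function.ne_iff.1 hne'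
    exact ⟨g i, ⟨i, rfl⟩, hi⟩

/-- embedding into a sigma-product from a point-countable separating family -/
theorem embedding_of_corson {X : Type u} [TopologicalSpace X] [CompactSpace X]
    (h : CorsonOn (univ : Set X)) :
    ∃ (κ : Type u) (e : X → κ → ℝ), IsEmbedding e ∧ ∀ x, {i | e x i ≠ 0}.Countable := by
  obtain ⟨F, hF, hsep⟩ := h
  have hcont : Continuous (fun (x : X) (f : F) => f.1 x) := continuous_pi fun f => f.1.continuous
  have hinj : Function.Injective (fun (x : X) (f : F) => f.1 x) := by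
    intro x y hxy
    exact hsep x (mem_univ x) y (mem_univ y) fun f hf => congrFun hxy ⟨f, hf⟩
  refine ⟨F, fun x f => f.1 x, (hcont.isClosedEmbedding hinj).isEmbedding, ?_⟩
  intro x
  have : {i : F | i.1 x ≠ 0} = Subtype.val ⁻¹' {f | f ∈ F ∧ f x ≠ 0} := by
    ext i; simp [i.2]
  rw [this]
  exact (hF x (mem_univ x)).preimage Subtype.val_injective

end Pool.Agent.Helper535
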