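import Pool.Agent.Helper535.J

open Set Topology Cardinal

namespace Pool.Agent.Helper535

universe u v

theorem ctight_image {X Z : Type u} [TopologicalSpace X] [TopologicalSpace Z] [CompactSpace X]
    [T2Space Z] (hct : CTight X) (g : X → Z) (hg : Continuous g) (hs : Function.Surjective g) :
    CTight Z := by
  intro B z hz
  have hcl : ∀ s : Set X, closure (g '' s) = g '' closure s := fun s =>
    (hg.isClosedMap.closure_image_eq_of_continuous hg s)
  let σ : Z → X := Function.surjInv hs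
  have hσ : ∀ z, g (σ z) = z := Function.surjInv_eq hs
  have hB : g '' (σ '' B) = B := by
    rw [image_image]
    ext z; simp [hσ]
  rw [← hB, hcl] at hz
  obtain ⟨x, hx, rfl⟩ := hz
  obtain ⟨C, hCB, hC, hxC⟩ := hct _ x hx
  refine ⟨g '' C, ?_, hC.image g, ?_⟩
  · rintro _ ⟨c, hc, rfl⟩
    obtain ⟨b, hb, rfl⟩ := hCB hc
    rw [hσ]; exact hb
  · rw [hcl]; exact ⟨x, hxC, rfl⟩

theorem CorsonOn.restrict {X : Type u} [TopologicalSpace X] {Z : Set X} (h : CorsonOn Z) :
    CorsonOn (univ : Set Z) := by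
  obtain ⟨F, hF, hsep⟩ := h
  refine ⟨(fun f : C(X, ℝ) => f.restrict Z) '' F, ?_, ?_⟩
  · intro x _
    have : {f | f ∈ (fun f : C(X, ℝ) => f.restrict Z) '' F ∧ f x ≠ 0} ⊆
        (fun f : C(X, ℝ) => f.restrict Z) '' {f | f ∈ F ∧ f x.1 ≠ 0} := by
      rintro f ⟨⟨g, hg, rfl⟩, hne⟩
      exact ⟨g, ⟨hg, hne⟩, rfl⟩
    exact ((hF x.1 x.2).image _).mono this
  · intro x _ y _ hxy
    apply Subtype.ext
    apply hsep _ x.2 _ y.2
    intro f hf
    exact hxy (f.restrict Z) ⟨f, hf, rfl⟩

theorem CorsonOn.splits {X : Type u} [TopologicalSpace X] (h : CorsonOn (univ : Set X)) :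
    Splits X := by
  obtain ⟨F, hF, hsep⟩ := h
  intro A
  refine ⟨F, hF, ?_⟩
  intro x hx y hy
  by_contra hall
  push Not at hall
  have := hsep x (mem_univ x) y (mem_univ y) hall
  subst this
  exact hy hx

variable {X : Type u} [TopologicalSpace X] {Z : Type u} [TopologicalSpace Z]

/-- the functions in `F` alive on `B` -/
def supp (F : Set C(X, ℝ)) (B : Set X) : Set C(X, ℝ) := {f | f ∈ F ∧ ∃ b ∈ B, f b ≠ 0}

lemma supp_mono (F : Set C(X, ℝ)) {B B' : Set X} (h : B ⊆ B') : supp F B ⊆ supp F B' := by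
  rintro f ⟨hf, b, hb, hne⟩
  exact ⟨hf, b, h hb, hne⟩

def EDp (g : X → Z) (B : Set X) (M : Set C(X, ℝ)) (x y : X) : Prop :=
  ∃ x' ∈ closure B, ∃ y' ∈ closure B, g x' = g y' ∧ ∀ f ∈ M, f x' = f x ∧ f y' = f y

theorem EDp_iUnion [CompactSpace X] [T2Space Z] {g : X → Z} (hg : Continuous g)
    {ι : Type*} [Nonempty ι] {B : ι → Set X}
    {M : ι → Set C(X, ℝ)} {x y : X}
    (hdir : ∀ i j, ∃ k, M i ⊆ M k ∧ M j ⊆ M k)
    (h : ∀ i, EDp g (B i) (M i) x y) : EDp g (⋃ i, B i) (⋃ i, M i) x y := by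
  let T : ι → Set (X × X) := fun i => (closure (⋃ i, B i) ×ˢ closure (⋃ i, B i)) ∩
    ({p | g p.1 = g p.2} ∩ {p | ∀ f ∈ M i, f p.1 = f x ∧ f p.2 = f y})
  have hTclosed : ∀ j, IsClosed (T j) := by
    intro j
    apply (isClosed_closure.prod isClosed_closure).inter
    apply (isClosed_eq (hg.comp continuous_fst) (hg.comp continuous_snd)).inter
    have : {p : X × X | ∀ f ∈ M j, f p.1 = f x ∧ f p.2 = f y} =
        ⋂ f ∈ M j, {p | f p.1 = f x ∧ f p.2 = f y} := by
      ext y; simp
    rw [this]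
    apply isClosed_biInter
    intro f _
    exact (isClosed_eq (f.continuous.comp continuous_fst) continuous_const).inter
      (isClosed_eq (f.continuous.comp continuous_snd) continuous_const)
  have hne : (⋂ j, T j).Nonempty := by
    apply IsCompact.nonempty_iInter_of_directed_nonempty_isCompact_isClosed
    · intro i j
      obtain ⟨k, h1, h2⟩ := hdir i j
      refine ⟨k, ?_, ?_⟩
      · intro p hp; exact ⟨hp.1, hp.2.1, fun f hf => hp.2.2 f (h1 hf)⟩
      · intro p hp; exact ⟨hp.1, hp.2.1, fun f hf => hp.2.2 f (h2 hf)⟩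
    · intro i
      obtain ⟨x', hx', y', hy', hgxy, hf⟩ := h i
      exact ⟨(x', y'), ⟨closure_mono (subset_iUnion _ i) hx',
        closure_mono (subset_iUnion _ i) hy'⟩, hgxy, hf⟩
    · intro j; exact (hTclosed j).isCompact
    · exact hTclosed
  obtain ⟨p, hp⟩ := hne
  rw [mem_iInter] at hp
  have h0 := hp (Classical.arbitrary ι)
  refine ⟨p.1, h0.1.1, p.2, h0.1.2, h0.2.1, ?_⟩
  intro f hf
  obtain ⟨i, hi⟩ := mem_iUnion.1 hf
  exact (hp i).2.2 f hi

/-- closing off for the fibre relation -/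
theorem ED_close [CompactSpace X] [T2Space X] [T2Space Z] {g : X → Z} (hg : Continuous g)
    {F : Set C(X, ℝ)} (hF : PCon univ F) (B : Set X) :
    ∃ B', B ⊆ B' ∧ (∀ x y, g x = g y → EDp g B' (supp F B') x y) ∧ #B' ≤ max #B ℵ₀ := by
  classical
  let E : Set (X × X) := {p | g p.1 = g p.2}
  have hE : IsClosed E := isClosed_eq (hg.comp continuous_fst) (hg.comp continuous_snd)
  let f1 : C(X, ℝ) → C(X × X, ℝ) := fun f => f.comp ⟨Prod.fst, continuous_fst⟩
  let f2 : C(X, ℝ) → C(X × X, ℝ) := fun f => f.comp ⟨Prod.snd, continuous_snd⟩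
  have h1 : ∀ B : Set X, ∃ C : Set X, #C ≤ max #B ℵ₀ ∧
      ∀ x y, g x = g y → EDp g C (supp F B) x y := by
    intro B
    obtain ⟨C, hCE, hCc, hD⟩ := lemA E (f1 '' supp F B ∪ f2 '' supp F B)
    refine ⟨Prod.fst '' C ∪ Prod.snd '' C, ?_, ?_⟩
    · have hs : #(supp F B) ≤ max #B ℵ₀ := trim_card fun x _ => hF x (mem_univ x)
      have hC : #C ≤ max #B ℵ₀ := by
        refine hCc.trans (max_le ?_ (le_max_right _ _))
        refine (Cardinal.mk_union_le _ _).trans ?_
        exact Cardinal.add_le_of_le (le_max_right _ _) (Cardinal.mk_image_le.trans hs)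
          (Cardinal.mk_image_le.trans hs)
      refine (Cardinal.mk_union_le _ _).trans ?_
      exact Cardinal.add_le_of_le (le_max_right _ _) (Cardinal.mk_image_le.trans hC)
        (Cardinal.mk_image_le.trans hC)
    · intro x y hxy
      obtain ⟨p, hp, hf⟩ := hD (x, y) (subset_closure hxy)
      have hpE : p ∈ E := by
        have := closure_mono hCE hp
        rwa [hE.closure_eq] at this
      refine ⟨p.1, ?_, p.2, ?_, hpE, ?_⟩
      · apply closure_mono subset_union_left
        exact image_closure_subset_closure_image continuous_fst ⟨p, hp, rfl⟩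
      · apply closure_mono subset_union_right
        exact image_closure_subset_closure_image continuous_snd ⟨p, hp, rfl⟩
      · intro f hfs
        exact ⟨hf (f1 f) (Or.inl ⟨f, hfs, rfl⟩), hf (f2 f) (Or.inr ⟨f, hfs, rfl⟩)⟩
  choose C hCc hCD using h1
  let T : ℕ → Set X := fun n => Nat.rec B (fun _ T => T ∪ C T) n
  have hT : ∀ n, T (n+1) = T n ∪ C (T n) := fun n => rfl
  have hTmono : Monotone T := monotone_nat_of_le_succ fun n => by rw [hT]; exact subset_union_left
  have hTcard : ∀ n, #↥(T n) ≤ max #B ℵ₀ := by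
    intro n
    induction n with
    | zero => exact le_max_left _ _
    | succ n ih =>
      rw [hT]
      refine (Cardinal.mk_union_le _ _).trans ?_
      refine Cardinal.add_le_of_le (le_max_right _ _) ih ?_
      exact (hCc _).trans (max_le ih (le_max_right _ _))
  refine ⟨⋃ n, T n, subset_iUnion T 0, ?_, iUnion_nat_card_le T (le_max_right _ _) hTcard⟩
  intro x y hxy
  have h2 : EDp g (⋃ n, T (n+1)) (⋃ n, supp F (T n)) x y := by
    apply EDp_iUnion hg
    · intro i j
      exact ⟨max i j, supp_mono F (hTmono (le_max_left i j)),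
        supp_mono F (hTmono (le_max_right i j))⟩
    · intro n
      obtain ⟨x', hx', y', hy', h3, h4⟩ := hCD (T n) x y hxy
      have hsub : C (T n) ⊆ T (n+1) := by rw [hT]; exact subset_union_right
      exact ⟨x', closure_mono hsub hx', y', closure_mono hsub hy', h3, h4⟩
  obtain ⟨x', hx', y', hy', h3, h4⟩ := h2
  have hsub : (⋃ n, T (n+1)) ⊆ ⋃ n, T n := iUnion_subset fun n => subset_iUnion T (n+1)
  refine ⟨x', closure_mono hsub hx', y', closure_mono hsub hy', h3, ?_⟩
  rintro f ⟨hf, b, hb, hne⟩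
  obtain ⟨n, hn⟩ := mem_iUnion.1 hb
  exact h4 f (mem_iUnion.2 ⟨n, hf, b, hn, hne⟩)

end Pool.Agent.Helper535
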