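import Pool.Agent.Helper535.K

open Set Topology Cardinal

namespace Pool.Agent.Helper535

universe u v

/-- the countable case: a countable separating family passes to images -/
theorem image_countable {X Z : Type u} [TopologicalSpace X] [CompactSpace X] [T2Space X]
    [TopologicalSpace Z] [T2Space Z] {F : Set C(X, ℝ)} (hFc : F.Countable) (hF : SepOn univ F)
    (g : X → Z) (hg : Continuous g) (hs : Function.Surjective g) :
    CorsonOn (univ : Set Z) := by
  classical
  have : CompactSpace Z := by
    constructor
    have := (isCompact_univ (X := X)).image hg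
    rwa [image_univ, hs.range_eq] at this
  -- X is second countable
  have hcont : Continuous (fun (x : X) (f : F) => f.1 x) := continuous_pi fun f => f.1.continuous
  have hinj : Function.Injective (fun (x : X) (f : F) => f.1 x) := by
    intro x y hxy
    exact hF x (mem_univ x) y (mem_univ y) fun f hf => congrFun hxy ⟨f, hf⟩
  have hemb := (hcont.isClosedEmbedding hinj).isEmbedding
  have hFc' : Countable F := hFc
  have hsc : SecondCountableTopology X := hemb.secondCountableTopology
  -- restriction along g is an isometry
  let Φ : C(Z, ℝ) → C(X, ℝ) := fun h => h.comp ⟨g, hg⟩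
  have hiso : Isometry Φ := by
    apply Isometry.of_dist_eq
    intro h1 h2
    apply le_antisymm
    · rw [ContinuousMap.dist_le dist_nonneg]
      intro x
      exact ContinuousMap.dist_apply_le_dist (f := h1) (g := h2) (g x)
    · rw [ContinuousMap.dist_le dist_nonneg]
      intro z
      obtain ⟨x, rfl⟩ := hs z
      exact ContinuousMap.dist_apply_le_dist (f := Φ h1) (g := Φ h2) x
  have hsc2 : SecondCountableTopology C(Z, ℝ) :=
    hiso.isEmbedding.secondCountableTopology
  obtain ⟨S, hSc, hSd⟩ := TopologicalSpace.exists_countable_dense C(Z, ℝ)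
  refine ⟨S, fun x _ => hSc.mono fun f hf => hf.1, ?_⟩
  intro z _ w _ hzw
  by_contra hne
  have hdis : Disjoint ({z} : Set Z) {w} := by
    rw [disjoint_singleton]; exact hne
  obtain ⟨h, h0, h1, -⟩ := exists_continuous_zero_one_of_isClosed (isClosed_singleton (x := z))
    (isClosed_singleton (x := w)) hdis
  have hz : h z = 0 := h0 rfl
  have hw : h w = 1 := h1 rfl
  obtain ⟨f, hfS, hfd⟩ := hSd.exists_dist_lt h (show (0:ℝ) < 1/2 by norm_num)
  have e1 : dist (h z) (f z) < 1/2 :=
    (ContinuousMap.dist_apply_le_dist z).trans_lt hfd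
  have e2 : dist (h w) (f w) < 1/2 :=
    (ContinuousMap.dist_apply_le_dist w).trans_lt hfd
  rw [Real.dist_eq, hz, abs_lt] at e1
  rw [Real.dist_eq, hw, abs_lt] at e2
  have := hzw f hfS
  linarith [e1.1, e1.2, e2.1, e2.2]

theorem image_aux (kap : Cardinal.{u}) : ∀ (X : Type u) [TopologicalSpace X] [CompactSpace X]
    [T2Space X], CorsonOn (univ : Set X) → ∀ D : Set X, Dense D → #D = kap →
    ∀ (Z : Type u) [TopologicalSpace Z] [T2Space Z] (g : X → Z), Continuous g →
    Function.Surjective g → CorsonOn (univ : Set Z) := by
  classical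
  induction kap using WellFoundedLT.induction with
  | ind kap ih =>
    intro X _ _ _ hX D hD hDk Z _ _ g hg hs
    have hctX : CTight X := hX.splits.ctight
    obtain ⟨F0, hF0, hsep0⟩ := hX
    let F : Set C(X, ℝ) := {f | f ∈ F0 ∧ ∃ b ∈ D, f b ≠ 0}
    have hF : PCon univ F := by
      intro x hx
      refine (hF0 x hx).mono ?_
      rintro f ⟨⟨h1, -⟩, h2⟩
      exact ⟨h1, h2⟩
    have hsep : SepOn univ F := by
      intro x hx y hy hxy
      apply hsep0 x hx y hy
      intro f hf
      by_contra hne
      exact hne (hxy f (trim_sep (hD x) (hD y) hf hne))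
    have hFc : #F ≤ max kap ℵ₀ := by
      rw [← hDk]; exact trim_card fun x _ => hF0 x (mem_univ x)
    rcases le_or_gt kap ℵ₀ with hk | hk
    · apply image_countable (F := F) _ hsep g hg hs
      exact Cardinal.le_aleph0_iff_set_countable.1 (hFc.trans (max_le hk le_rfl))
    · have hCZ : CompactSpace Z := by
        constructor
        have := (isCompact_univ (X := X)).image hg
        rwa [image_univ, hs.range_eq] at this
      have hcl : ∀ s : Set X, closure (g '' s) = g '' closure s := fun s =>
        (hg.isClosedMap.closure_image_eq_of_continuous hg s)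
      let P : Set X → Prop := fun B => ∀ x y, g x = g y → EDp g B (supp F B) x y
      obtain ⟨ι, _, _, hιne, S, hSmono, hP, hScard, hSlim, hSD⟩ := chain_exists (T := X)
        (kap := kap) ℵ₀ le_rfl hk P (by
          intro 𝒮 hne hchain hall x y hxy
          have hne' : Nonempty 𝒮 := hne.to_subtype
          have h1 : EDp g (⋃ B : 𝒮, B.1) (⋃ B : 𝒮, supp F B.1) x y := by
            apply EDp_iUnion hg
            · intro i j
              rcases hchain.total i.2 j.2 with h | h
              · exact ⟨j, supp_mono F h, subset_rfl⟩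
              · exact ⟨i, subset_rfl, supp_mono F h⟩
            · intro i; exact hall i.1 i.2 x y hxy
          obtain ⟨x', hx', y', hy', h3, h4⟩ := h1
          have hsub : (⋃ B : 𝒮, B.1) ⊆ ⋃₀ 𝒮 := iUnion_subset fun B => subset_sUnion_of_mem B.2
          refine ⟨x', closure_mono hsub hx', y', closure_mono hsub hy', h3, ?_⟩
          rintro f ⟨hf, b, ⟨B, hB, hbB⟩, hne⟩
          exact h4 f (mem_iUnion.2 ⟨⟨B, hB⟩, hf, b, hbB, hne⟩))
        (by
          intro B _
          exact ED_close hg hF B) D hDk.le
      -- good pairs
      have hSep : ∀ i, SepOn (closure (S i)) (supp F (S i)) := by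
        intro i x hx y hy hxy
        apply hsep x (mem_univ x) y (mem_univ y)
        intro f hf
        by_contra hne
        exact hne (hxy f (trim_sep hx hy hf hne))
      have hgood : ∀ i, Good (S i) (supp F (S i)) := by
        intro i
        refine ⟨?_, hSep i⟩
        intro x _
        obtain ⟨x', hx', y', hy', -, h4⟩ := hP i x x rfl
        exact ⟨x', hx', fun f hf => (h4 f hf).1⟩
      choose r hr1 hr2 hr3 using fun i => (hgood i).retraction
      have hrg : ∀ i x y, g x = g y → g (r i x) = g (r i y) := by
        intro i x y hxy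
        obtain ⟨x', hx', y', hy', h3, h4⟩ := hP i x y hxy
        have hx'' : x' = r i x := hSep i x' hx' _ (hr1 i x) fun f hf => by
          rw [hr2 i x f hf, (h4 f hf).1]
        have hy'' : y' = r i y := hSep i y' hy' _ (hr1 i y) fun f hf => by
          rw [hr2 i y f hf, (h4 f hf).2]
        rw [← hx'', ← hy'']; exact h3
      let gC : C(X, Z) := ⟨g, hg⟩
      have hq : IsQuotientMap gC := hg.isClosedMap.isQuotientMap hg hs
      let ρ : ι → C(Z, Z) := fun i => hq.lift (gC.comp (r i)) (by
        intro x y hxy; exact hrg i x y hxy)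
      have hρ : ∀ i x, ρ i (g x) = g (r i x) := by
        intro i x
        have := hq.lift_comp (gC.comp (r i)) (by intro x y hxy; exact hrg i x y hxy)
        exact congrArg (fun k : C(X, Z) => k x) this
      have K0 : ∀ k i x, k ≤ i → r k (r i x) = r k x := by
        intro k i x hki
        apply hSep k _ (hr1 k _) _ (hr1 k _)
        intro f hf
        rw [hr2 k _ f hf, hr2 k _ f hf, hr2 i _ f (supp_mono F (hSmono hki) hf)]
      apply chain_lemma_retr (ctight_image hctX g hg hs) (fun i => g '' S i)
        (fun i j hij => image_mono (hSmono hij)) ρ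
      · intro i z
        obtain ⟨x, rfl⟩ := hs z
        rw [hρ, hcl]; exact ⟨_, hr1 i x, rfl⟩
      · intro i z hz
        rw [hcl] at hz
        obtain ⟨x, hx, rfl⟩ := hz
        rw [hρ, hr3 i x hx]
      · intro k i z hki
        obtain ⟨x, rfl⟩ := hs z
        rw [hρ, hρ, hρ, K0 k i x hki]
      · rintro i hi _ ⟨b, hb, rfl⟩
        obtain ⟨j, hj, hbj⟩ := hSlim i hi b hb
        exact ⟨j, hj, b, hbj, rfl⟩
      · intro i hi z w hzw
        obtain ⟨x, rfl⟩ := hs z
        obtain ⟨y, rfl⟩ := hs w
        have hne : Nonempty (Iio i) := by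
          have h2 := hi.1
          rw [not_isMin_iff] at h2
          obtain ⟨j, hj⟩ := h2
          exact ⟨⟨j, hj⟩⟩
        have h1 : EDp g (⋃ j : Iio i, S j.1) (⋃ j : Iio i, supp F (S j.1)) x y := by
          apply EDp_iUnion hg
          · intro j k
            rcases le_total j.1 k.1 with h | h
            · exact ⟨k, supp_mono F (hSmono h), subset_rfl⟩
            · exact ⟨j, subset_rfl, supp_mono F (hSmono h)⟩
          · intro j
            refine ⟨r j.1 x, hr1 _ _, r j.1 y, hr1 _ _, ?_, ?_⟩
            · have := hzw j.1 j.2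
              rwa [hρ, hρ] at this
            · intro f hf; exact ⟨hr2 _ _ f hf, hr2 _ _ f hf⟩
        obtain ⟨x', hx', y', hy', h3, h4⟩ := h1
        have hsub : (⋃ j : Iio i, S j.1) ⊆ S i := iUnion_subset fun j => hSmono (le_of_lt j.2)
        have h5 : ∀ f ∈ supp F (S i), f x' = f x ∧ f y' = f y := by
          rintro f ⟨hf, b, hb, hne⟩
          obtain ⟨j, hj, hbj⟩ := hSlim i hi b hb
          exact h4 f (mem_iUnion.2 ⟨⟨j, hj⟩, hf, b, hbj, hne⟩)
        have hx'' : x' = r i x := hSep i x' (closure_mono hsub hx') _ (hr1 i x) fun f hf => by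
          rw [hr2 i x f hf, (h5 f hf).1]
        have hy'' : y' = r i y := hSep i y' (closure_mono hsub hy') _ (hr1 i y) fun f hf => by
          rw [hr2 i y f hf, (h5 f hf).2]
        rw [hρ, hρ, ← hx'', ← hy'']; exact h3
      · have : (⋃ i, g '' S i) = g '' (⋃ i, S i) := by rw [image_iUnion]
        rw [this]
        exact (hs.denseRange.dense_image hg (hD.mono hSD))
      · intro z w hzw
        obtain ⟨x, rfl⟩ := hs z
        obtain ⟨y, rfl⟩ := hs w
        have h1 : EDp g (⋃ j, S j) (⋃ j, supp F (S j)) x y := by
          apply EDp_iUnion hg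
          · intro j k
            rcases le_total j k with h | h
            · exact ⟨k, supp_mono F (hSmono h), subset_rfl⟩
            · exact ⟨j, subset_rfl, supp_mono F (hSmono h)⟩
          · intro j
            refine ⟨r j x, hr1 _ _, r j y, hr1 _ _, ?_, ?_⟩
            · have := hzw j
              rwa [hρ, hρ] at this
            · intro f hf; exact ⟨hr2 _ _ f hf, hr2 _ _ f hf⟩
        obtain ⟨x', hx', y', hy', h3, h4⟩ := h1
        have h5 : ∀ f ∈ F, f x' = f x ∧ f y' = f y := by
          rintro f hf
          obtain ⟨hf0, b, hb, hne⟩ := hf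
          obtain ⟨j, hbj⟩ := mem_iUnion.1 (hSD hb)
          exact h4 f (mem_iUnion.2 ⟨j, ⟨hf0, b, hb, hne⟩, b, hbj, hne⟩)
        have hx'' : x' = x := hsep x' (mem_univ _) x (mem_univ _) fun f hf => (h5 f hf).1
        have hy'' : y' = y := hsep y' (mem_univ _) y (mem_univ _) fun f hf => (h5 f hf).2
        rw [← hx'', ← hy'']; exact h3
      · intro i
        apply CorsonOn.of_subtype isClosed_closure
        have hcomp : CompactSpace (closure (S i)) :=
          isCompact_iff_compactSpace.1 isClosed_closure.isCompact
        let DY : Set (closure (S i)) := {y | y.1 ∈ S i}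
        have hDY : Dense DY := by
          intro y
          rw [closure_subtype]
          have : ((↑) : closure (S i) → X) '' DY = S i := by
            ext x
            constructor
            · rintro ⟨y, hy, rfl⟩; exact hy
            · intro hx; exact ⟨⟨x, subset_closure hx⟩, hx, rfl⟩
          rw [this]; exact y.2
        have hc : #DY ≤ #(S i) := by
          refine Cardinal.mk_le_of_injective (f := fun y : DY => (⟨y.1.1, y.2⟩ : S i)) ?_
          intro y z h
          have h' : y.1.1 = z.1.1 := congrArg (fun t : S i => t.1) h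
          exact Subtype.ext (Subtype.ext h')
        have hmaps : ∀ x : closure (S i), g x.1 ∈ closure (g '' S i) := by
          intro x; rw [hcl]; exact ⟨x.1, x.2, rfl⟩
        have hXi : CorsonOn (univ : Set (closure (S i))) := by
          apply CorsonOn.restrict
          exact CorsonOn.mono ⟨F, hF, hsep⟩ (subset_univ _)
        refine ih #DY (hc.trans_lt (hScard i)) (closure (S i)) hXi DY hDY rfl
          (closure (g '' S i)) (fun x => ⟨g x.1, hmaps x⟩)
          ((hg.comp continuous_subtype_val).subtype_mk _) ?_
        rintro ⟨z, hz⟩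
        have hz' := hz
        rw [hcl] at hz'
        obtain ⟨x, hx, rfl⟩ := hz'
        exact ⟨⟨x, hx⟩, rfl⟩

/-- continuous images of Corson compacta are Corson -/
theorem CorsonOn.image {X : Type u} [TopologicalSpace X] [CompactSpace X] [T2Space X]
    (h : CorsonOn (univ : Set X)) {Z : Type u} [TopologicalSpace Z] [T2Space Z] {g : X → Z}
    (hg : Continuous g) (hs : Function.Surjective g) : CorsonOn (univ : Set Z) :=
  image_aux _ X h univ dense_univ rfl Z g hg hs

end Pool.Agent.Helper535
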