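import Pool.Agent.Helper535.L

open Set Topology Cardinal

namespace Pool.Agent.Helper535

universe u v

/-- a colouring of the countable subsets with `c` colours, distinguishing strict inclusions -/
def Col (T : Type u) : Prop :=
  ∃ χ : Set T → (ℕ → Bool), ∀ a b : Set T, b.Countable → a ⊂ b → χ a ≠ χ b

def seqB (g : ℕ → ℕ → Bool) : ℕ → Bool := fun n => g n.unpair.1 n.unpair.2

lemma seqB_inj {g g' : ℕ → ℕ → Bool} (h : seqB g = seqB g') : g = g' := by
  funext i j
  have := congrFun h (Nat.pair i j)
  simpa [seqB] using this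

lemma Col.of_countable {T : Type u} (h : Countable T) : Col T := by
  classical
  obtain ⟨f, hf⟩ := exists_injective_nat T
  refine ⟨fun s n => decide (∃ t ∈ s, f t = n), ?_⟩
  intro a b _ hab heq
  apply hab.2
  intro t ht
  have h1 := congrFun heq (f t)
  simp only [decide_eq_decide] at h1
  obtain ⟨t', ht', h2⟩ := h1.2 ⟨t, ht, rfl⟩
  rwa [← hf h2]

lemma Col.of_iUnion {T : Type u} (A : ℕ → Set T) (hA : (⋃ n, A n) = Set.univ)
    (h : ∀ n, Col (A n)) : Col T := by
  classical
  choose χ hχ using h
  refine ⟨fun s => seqB fun n => χ n (Subtype.val ⁻¹' s), ?_⟩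
  intro a b hb hab heq
  have h1 := seqB_inj heq
  obtain ⟨t, htb, hta⟩ := Set.exists_of_ssubset hab
  have ht : t ∈ ⋃ n, A n := by rw [hA]; exact mem_univ t
  obtain ⟨n, hn⟩ := mem_iUnion.1 ht
  refine hχ n (Subtype.val ⁻¹' a) (Subtype.val ⁻¹' b) (hb.preimage Subtype.val_injective) ?_
    (congrFun h1 n)
  refine ⟨preimage_mono hab.1, ?_⟩
  intro h2
  exact hta (h2 (show (⟨t, hn⟩ : A n) ∈ Subtype.val ⁻¹' b from htb))

/-- order type of a subset -/
noncomputable def otp {K : Type u} [LinearOrder K] [WellFoundedLT K] (b : Set K) : Ordinal.{u} :=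
  Ordinal.type (α := b) (· < ·)

lemma otp_lt {K : Type u} [LinearOrder K] [WellFoundedLT K] {a b : Set K} {y : K} (hy : y ∈ b)
    (hay : ∀ x ∈ a, x < y) (hab : a ⊆ b) : otp a < otp b := by
  have h1 : Ordinal.typein (α := b) (· < ·) ⟨y, hy⟩ < otp b := Ordinal.typein_lt_type _ _
  refine lt_of_le_of_lt ?_ h1
  rw [← Ordinal.type_subrel, otp, Ordinal.type_le_iff']
  exact ⟨⟨⟨fun x => ⟨⟨x.1, hab x.2⟩, hay x.1 x.2⟩, fun x x' h => by
    have := congrArg (fun z : {z : b // z < ⟨y, hy⟩} => z.1.1) h
    exact Subtype.ext this⟩, Iff.rfl⟩⟩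

lemma otp_countable {K : Type u} [LinearOrder K] [WellFoundedLT K] {b : Set K}
    (hb : b.Countable) : otp b < Ordinal.omega 1 := by
  rw [← Cardinal.ord_aleph, Cardinal.lt_ord, otp, Ordinal.card_type]
  rw [← Cardinal.countable_iff_lt_aleph_one]
  exact hb

lemma exists_code : ∃ c : Ordinal.{u} → (ℕ → Bool),
    ∀ o < Ordinal.omega 1, ∀ o' < Ordinal.omega 1, c o = c o' → o = o' := by
  classical
  have h1 : Cardinal.lift.{0} #(Iio (Ordinal.omega.{u} 1)) ≤ Cardinal.lift.{u+1} #(ℕ → Bool) := by
    rw [Cardinal.mk_Iio_ordinal]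
    have h2 : #(ℕ → Bool) = 𝔠 := by simp
    rw [h2, Cardinal.lift_continuum]
    simp only [Ordinal.card_omega]
    rw [Cardinal.lift_aleph]
    simpa using Cardinal.aleph_one_le_continuum
  rw [Cardinal.lift_mk_le'] at h1
  obtain ⟨f⟩ := h1
  refine ⟨fun o => if h : o < Ordinal.omega 1 then f ⟨o, h⟩ else fun _ => false, ?_⟩
  intro o ho o' ho' heq
  simp only [ho, ho', dif_pos] at heq
  have := f.injective heq
  exact congrArg Subtype.val this

lemma Col.of_cof {K : Type u} [LinearOrder K] [WellFoundedLT K]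
    (hbd : ∀ b : Set K, b.Countable → ∃ d, ∀ x ∈ b, x < d)
    (h : ∀ d : K, Col (Iio d)) : Col K := by
  classical
  obtain ⟨c, hc⟩ := exists_code.{u}
  choose χ hχ using h
  -- the least strict upper bound
  have hex : ∀ b : Set K, ∃ δ : Option K, b.Countable → ∃ d, δ = some d ∧ (∀ x ∈ b, x < d) ∧
      ∀ d' < d, ¬ ∀ x ∈ b, x < d' := by
    intro b
    by_cases hb : b.Countable
    · obtain ⟨d, hd, hmin⟩ := WellFounded.has_min (wellFounded_lt (α := K))
        {d | ∀ x ∈ b, x < d} (hbd b hb)
      exact ⟨some d, fun _ => ⟨d, rfl, hd, fun d' hd' h => hmin d' h hd'⟩⟩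
    · exact ⟨none, fun h => absurd h hb⟩
  choose δ hδ using hex
  let χ' : Set K → ℕ → Bool := fun b =>
    match δ b with
    | some d => χ d (Subtype.val ⁻¹' b)
    | none => fun _ => false
  refine ⟨fun b => seqB fun n => if n = 0 then c (otp b) else χ' b, ?_⟩
  intro a b hb hab heq
  have h1 := seqB_inj heq
  have ha : a.Countable := hb.mono hab.1
  have e0 : c (otp a) = c (otp b) := by simpa using congrFun h1 0
  have e1 : χ' a = χ' b := by simpa using congrFun h1 1
  have e2 : otp a = otp b := hc _ (otp_countable ha) _ (otp_countable hb) e0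
  obtain ⟨d, hd, hd1, hd2⟩ := hδ a ha
  obtain ⟨d', hd', hd1', hd2'⟩ := hδ b hb
  have hle : d ≤ d' := by
    by_contra hlt
    push Not at hlt
    exact hd2 d' hlt fun x hx => hd1' x (hab.1 hx)
  rcases eq_or_lt_of_le hle with hdd | hlt
  · subst hdd
    have e3 : χ d (Subtype.val ⁻¹' a) = χ d (Subtype.val ⁻¹' b) := by
      have e4 : χ' a = χ d (Subtype.val ⁻¹' a) := by simp only [χ', hd]
      have e5 : χ' b = χ d (Subtype.val ⁻¹' b) := by simp only [χ', hd']
      rw [← e4, ← e5, e1]
    obtain ⟨t, htb, hta⟩ := Set.exists_of_ssubset hab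
    refine hχ d (Subtype.val ⁻¹' a) (Subtype.val ⁻¹' b) (hb.preimage Subtype.val_injective) ?_ e3
    refine ⟨preimage_mono hab.1, ?_⟩
    intro h2
    exact hta (h2 (show (⟨t, hd1' t htb⟩ : Iio d) ∈ Subtype.val ⁻¹' b from htb))
  · have := hd2' d hlt
    push Not at this
    obtain ⟨y, hy, hdy⟩ := this
    exact absurd e2 (otp_lt hy (fun x hx => (hd1 x hx).trans_le hdy) hab.1).ne

lemma Col.of_equiv {T T' : Type u} (e : T ≃ T') (h : Col T') : Col T := by
  obtain ⟨χ, hχ⟩ := h
  refine ⟨fun s => χ (e '' s), ?_⟩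
  intro a b hb hab
  apply hχ _ _ (hb.image e)
  refine ⟨image_mono hab.1, ?_⟩
  intro h
  apply hab.2
  intro t ht
  obtain ⟨t', ht', heq⟩ := h ⟨t, ht, rfl⟩
  rwa [← e.injective heq]

theorem col_aux (kap : Cardinal.{u}) : ∀ T : Type u, #T = kap → Col T := by
  induction kap using WellFoundedLT.induction with
  | ind kap ih =>
    intro T hT
    rcases le_or_gt kap ℵ₀ with hk | hk
    · apply Col.of_countable
      rw [← Cardinal.mk_le_aleph0_iff, hT]; exact hk
    · let K := kap.ord.ToType
      have hK : #K = kap := Cardinal.mk_ord_toType _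
      have hIio : ∀ k : K, #(Iio k) < kap := fun k => by
        have := Cardinal.mk_Iio_lt k (by simp [K])
        rwa [hK] at this
      obtain ⟨e⟩ : Nonempty (T ≃ K) := by rw [← Cardinal.eq, hK, hT]
      apply Col.of_equiv e
      have hne : Nonempty K := by
        rw [← Cardinal.mk_ne_zero_iff, hK]
        exact (Cardinal.aleph0_pos.trans hk).ne'
      rcases le_or_gt (Order.cof K) ℵ₀ with hc | hc
      · obtain ⟨s, hs, hscard⟩ := Order.exists_cof_eq K
        rw [← hscard] at hc
        have hsc : s.Countable := Cardinal.le_aleph0_iff_set_countable.1 hc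
        have hsne : s.Nonempty := hs.nonempty
        obtain ⟨a, ha⟩ := hsc.exists_eq_range hsne
        refine Col.of_iUnion (fun n => Iic (a n)) ?_ ?_
        · rw [eq_univ_iff_forall]
          intro k
          obtain ⟨k', hk', hle⟩ := hs k
          rw [ha] at hk'
          obtain ⟨n, rfl⟩ := hk'
          exact mem_iUnion.2 ⟨n, hle⟩
        · intro n
          have h1 : Iic (a n) = Iio (a n) ∪ {a n} := by
            ext j; simp [le_iff_lt_or_eq]
          have h2 : #↥(Iic (a n)) < kap := by
            rw [h1]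
            refine (Cardinal.mk_union_le _ _).trans_lt ?_
            apply Cardinal.add_lt_of_lt hk.le
            · exact hIio (a n)
            · rw [Cardinal.mk_singleton]
              exact Cardinal.one_lt_aleph0.trans hk
          exact ih _ h2 _ rfl
      · apply Col.of_cof
        · intro b hb
          have hb' : #b < Order.cof K := (Cardinal.le_aleph0_iff_set_countable.2 hb).trans_lt hc
          by_contra hall
          push Not at hall
          have : IsCofinal b := by
            intro d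
            obtain ⟨x, hx, hdx⟩ := hall d
            exact ⟨x, hx, hdx⟩
          exact absurd (Order.cof_le this) (not_le.2 hb')
        · intro d
          exact ih _ (hIio d) _ rfl

theorem col (T : Type u) : Col T := col_aux _ T rfl

end Pool.Agent.Helper535
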