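import Pool.Agent.Helper535.M

open Set Topology Cardinal

namespace Pool.Agent.Helper535

universe u v w

/-- an `E`-family of continuous functions -/
structure EFam {X : Type u} [TopologicalSpace X] {E : Type v} [TopologicalSpace E] {S : Type w}
    (h : S → C(X, ℝ)) (e : S → E) : Prop where
  bdd : ∀ s x, |h s x| ≤ 1
  fin : ∀ x z ε, 0 < ε → ∃ O ∈ 𝓝 z, {s | e s ∈ O ∧ ε ≤ |h s x|}.Finite

/-- a point separating `E`-family exists -/
def GS (E : Type v) [TopologicalSpace E] (X : Type u) [TopologicalSpace X] : Prop :=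
  ∃ (S : Type u) (h : S → C(X, ℝ)) (e : S → E), EFam h e ∧ ∀ x y, (∀ s, h s x = h s y) → x = y

theorem GS_of_countable {X : Type u} [TopologicalSpace X] [CompactSpace X] {E : Type v}
    [TopologicalSpace E] (z0 : E) {M : Set C(X, ℝ)} (hM : M.Countable) (hsep : SepOn Set.univ M) :
    GS E X := by
  classical
  have : Countable M := hM
  obtain ⟨enc, henc⟩ := exists_injective_nat M
  let c : M → ℝ := fun f => ((‖f.1‖ + 1) * ((enc f : ℝ) + 1))⁻¹
  have hc : ∀ f, 0 < c f := fun f => by positivity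
  have key : ∀ (f : M) x, |c f * f.1 x| ≤ ((enc f : ℝ) + 1)⁻¹ := by
    intro f x
    have h1 : |f.1 x| ≤ ‖f.1‖ + 1 := by
      have := f.1.norm_coe_le_norm x
      rw [Real.norm_eq_abs] at this
      linarith
    rw [abs_mul, abs_of_pos (hc f)]
    calc c f * |f.1 x| ≤ c f * (‖f.1‖ + 1) := by
          apply mul_le_mul_of_nonneg_left h1 (hc f).le
      _ = ((enc f : ℝ) + 1)⁻¹ := by
          simp only [c]
          have : (‖f.1‖ + 1) ≠ 0 := by positivity
          have h2 : ((enc f : ℝ) + 1) ≠ 0 := by positivity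
          field_simp
  refine ⟨M, fun f => c f • f.1, fun _ => z0, ⟨?_, ?_⟩, ?_⟩
  · intro f x
    refine (key f x).trans ?_
    apply inv_le_one_of_one_le₀
    have : (0:ℝ) ≤ enc f := Nat.cast_nonneg _
    linarith
  · intro x z ε hε
    refine ⟨Set.univ, Filter.univ_mem, ?_⟩
    obtain ⟨N, hN⟩ := exists_nat_gt (1/ε)
    apply Set.Finite.subset (s := enc ⁻¹' (Iio N))
    · exact (Set.finite_Iio N).preimage henc.injOn
    · rintro f ⟨-, hf⟩
      have h1 : ε ≤ ((enc f : ℝ) + 1)⁻¹ := hf.trans (key f x)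
      have h2 : (enc f : ℝ) + 1 ≤ 1/ε := by
        rw [le_div_iff₀ hε]
        have h3 : 0 < (enc f : ℝ) + 1 := by positivity
        have := mul_le_mul_of_nonneg_left h1 h3.le
        rwa [mul_inv_cancel₀ h3.ne'] at this
      have h4 : (enc f : ℝ) < N := by linarith
      exact Nat.cast_lt.1 h4
  · intro x y hxy
    apply hsep x (mem_univ x) y (mem_univ y)
    intro f hf
    have := hxy ⟨f, hf⟩
    simp only [ContinuousMap.smul_apply, smul_eq_mul] at this
    exact mul_left_cancel₀ (hc ⟨f, hf⟩).ne' this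

/-- pull back along a continuous map -/
theorem EFam.comp {X : Type u} [TopologicalSpace X] {Y : Type*} [TopologicalSpace Y]
    {E : Type v} [TopologicalSpace E] {S : Type w}
    {h : S → C(Y, ℝ)} {e : S → E} (H : EFam h e) (f : C(X, Y)) :
    EFam (fun s => (h s).comp f) e :=
  ⟨fun s x => H.bdd s (f x), fun x z ε hε => H.fin (f x) z ε hε⟩

theorem EFam.pcount {X : Type u} [TopologicalSpace X]
    {E : Type v} [TopologicalSpace E] [SecondCountableTopology E] {S : Type w}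
    {h : S → C(X, ℝ)} {e : S → E} (H : EFam h e) (x : X) : {s | h s x ≠ 0}.Countable := by
  have h1 : ∀ n : ℕ, {s | (1:ℝ)/(n+1) ≤ |h s x|}.Countable := by
    intro n
    choose O hO hfin using fun z => H.fin x z (1/((n:ℝ)+1)) (by positivity)
    obtain ⟨c, hc, hcov⟩ := TopologicalSpace.countable_cover_nhds hO
    have : {s | (1:ℝ)/(n+1) ≤ |h s x|} ⊆ ⋃ z ∈ c, {s | e s ∈ O z ∧ (1:ℝ)/(n+1) ≤ |h s x|} := by
      intro s hs
      have h2 : e s ∈ ⋃ z ∈ c, O z := by rw [hcov]; exact mem_univ _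
      simp only [mem_iUnion] at h2 ⊢
      obtain ⟨z, hz, hzO⟩ := h2
      exact ⟨z, hz, hzO, hs⟩
    exact (hc.biUnion fun z _ => (hfin z).countable).mono this
  have : {s | h s x ≠ 0} ⊆ ⋃ n : ℕ, {s | (1:ℝ)/(n+1) ≤ |h s x|} := by
    intro s hs
    have h2 : 0 < |h s x| := abs_pos.2 hs
    obtain ⟨n, hn⟩ := exists_nat_one_div_lt h2
    exact mem_iUnion.2 ⟨n, hn.le⟩
  exact (countable_iUnion h1).mono this

/-- every subset is split by an `E`-family -/
def GSplit (X : Type u) [TopologicalSpace X] : Prop :=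
  ∀ A : Set X, ∃ (E : Type v) (_ : TopologicalSpace E) (_ : SecondCountableTopology E)
    (_ : Nonempty E) (S : Type u) (h : S → C(X, ℝ)) (e : S → E), EFam h e ∧
    ∀ x ∈ A, ∀ y ∉ A, ∃ s, h s x ≠ h s y

theorem GSplit.splits {X : Type u} [TopologicalSpace X] (H : GSplit.{u, v} X) : Splits X := by
  intro A
  obtain ⟨E, _, _, _, S, h, e, hF, hsep⟩ := H A
  refine ⟨range h, ?_, ?_⟩
  · intro x _
    have : {f | f ∈ range h ∧ f x ≠ 0} ⊆ h '' {s | h s x ≠ 0} := by
      rintro f ⟨⟨s, rfl⟩, hne⟩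
      exact ⟨s, hne, rfl⟩
    exact ((hF.pcount x).image h).mono this
  · intro x hx y hy
    obtain ⟨s, hs⟩ := hsep x hx y hy
    exact ⟨h s, ⟨s, rfl⟩, hs⟩

theorem GSplit.simul {X : Type u} [TopologicalSpace X] (H : GSplit.{u, v} X) (A : ℕ → Set X) :
    ∃ (E : Type v) (_ : TopologicalSpace E) (_ : SecondCountableTopology E)
    (_ : Nonempty E) (S : Type u) (h : S → C(X, ℝ)) (e : S → E), EFam h e ∧
    ∀ n, ∀ x ∈ A n, ∀ y ∉ A n, ∃ s, h s x ≠ h s y := by
  choose E i1 i2 i3 S h e hF hsep using fun n => H (A n)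
  refine ⟨Σ n, E n, inferInstance, inferInstance, ⟨⟨0, Classical.arbitrary _⟩⟩, Σ n, S n,
    fun s => h s.1 s.2, fun s => ⟨s.1, e s.1 s.2⟩, ⟨?_, ?_⟩, ?_⟩
  · rintro ⟨n, s⟩ x; exact (hF n).bdd s x
  · rintro x ⟨n, z⟩ ε hε
    obtain ⟨O, hO, hfin⟩ := (hF n).fin x z ε hε
    refine ⟨Sigma.mk n '' O, ?_, ?_⟩
    · rw [Sigma.nhds_mk]; exact Filter.image_mem_map hO
    · apply (hfin.image (fun s => (⟨n, s⟩ : Σ n, S n))).subset
      rintro ⟨m, s⟩ ⟨⟨z', hz', heq⟩, hs2⟩
      have hnm : n = m := congrArg Sigma.fst heq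
      subst hnm
      have : z' = e n s := by simpa using heq
      subst this
      exact ⟨s, ⟨hz', hs2⟩, rfl⟩
  · intro n x hx y hy
    obtain ⟨s, hs⟩ := hsep n x hx y hy
    exact ⟨⟨n, s⟩, hs⟩

end Pool.Agent.Helper535
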