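import Pool.Agent.Helper535.N

open Set Topology Cardinal

namespace Pool.Agent.Helper535

universe u v w

def scons {E : Type v} (a : E) (z : ℕ → E) : ℕ → E := fun n => Nat.casesOn n a z

lemma scons_zero {E : Type v} (a : E) (z : ℕ → E) : scons a z 0 = a := rfl
lemma scons_succ {E : Type v} (a : E) (z : ℕ → E) : (fun n => scons a z (n+1)) = z := rfl

lemma scons_nhds {E : Type v} [TopologicalSpace E] (z : ℕ → E) {O1 : Set E} {O2 : Set (ℕ → E)}
    (h1 : O1 ∈ 𝓝 (z 0)) (h2 : O2 ∈ 𝓝 (fun n => z (n+1))) :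
    {z' : ℕ → E | z' 0 ∈ O1 ∧ (fun n => z' (n+1)) ∈ O2} ∈ 𝓝 z := by
  have c1 : Continuous (fun z : ℕ → E => z 0) := continuous_apply 0
  have c2 : Continuous (fun (z : ℕ → E) (n : ℕ) => z (n+1)) :=
    continuous_pi fun n => continuous_apply (n+1)
  exact Filter.inter_mem (c1.continuousAt.preimage_mem_nhds h1)
    (c2.continuousAt.preimage_mem_nhds h2)

section
variable {X : Type u} [TopologicalSpace X] {T : Type u}

/-- the family `F` restricts to `N` -/
def Res (F : T → C(X, ℝ)) (N : Set T) : Prop :=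
  ∀ x, ∃ x', (∀ t ∈ N, F t x' = F t x) ∧ ∀ t ∉ N, F t x' = 0

theorem res_lim [CompactSpace X] {F : T → C(X, ℝ)} {ι : Type*} [Nonempty ι] {N : ι → Set T}
    (hdir : ∀ i j, ∃ k, N i ⊆ N k ∧ N j ⊆ N k)
    (h : ∀ i x, ∃ x', (∀ t ∈ N i, F t x' = F t x) ∧ ∀ t ∉ ⋃ i, N i, F t x' = 0) :
    Res F (⋃ i, N i) := by
  intro x
  let Q : ι → Set X := fun i => {y | ∀ t ∈ N i, F t y = F t x} ∩ {y | ∀ t ∉ ⋃ i, N i, F t y = 0}
  have hQ : ∀ i, IsClosed (Q i) := by
    intro i
    have e1 : {y | ∀ t ∈ N i, F t y = F t x} = ⋂ t ∈ N i, {y | F t y = F t x} := by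
      ext y; simp
    have e2 : {y | ∀ t ∉ ⋃ i, N i, F t y = 0} = ⋂ t ∈ (⋃ i, N i)ᶜ, {y | F t y = 0} := by
      ext y; simp
    apply IsClosed.inter
    · rw [e1]
      exact isClosed_biInter fun t _ => isClosed_eq (F t).continuous continuous_const
    · rw [e2]
      exact isClosed_biInter fun t _ => isClosed_eq (F t).continuous continuous_const
  have hne : (⋂ i, Q i).Nonempty := by
    apply IsCompact.nonempty_iInter_of_directed_nonempty_isCompact_isClosed
    · intro i j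
      obtain ⟨k, h1, h2⟩ := hdir i j
      exact ⟨k, fun y hy => ⟨fun t ht => hy.1 t (h1 ht), hy.2⟩,
        fun y hy => ⟨fun t ht => hy.1 t (h2 ht), hy.2⟩⟩
    · intro i
      obtain ⟨x', h1, h2⟩ := h i x
      exact ⟨x', h1, h2⟩
    · intro j; exact (hQ j).isCompact
    · exact hQ
  obtain ⟨y, hy⟩ := hne
  rw [mem_iInter] at hy
  refine ⟨y, ?_, (hy (Classical.arbitrary ι)).2⟩
  intro t ht
  obtain ⟨i, hi⟩ := mem_iUnion.1 ht
  exact (hy i).1 t hi

lemma alive_card {F : T → C(X, ℝ)} (hF : ∀ x, {t | F t x ≠ 0}.Countable) (C : Set X) :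
    #{t | ∃ c ∈ C, F t c ≠ 0} ≤ max #C ℵ₀ := by
  have h1 : {t | ∃ c ∈ C, F t c ≠ 0} ⊆ ⋃ c : C, {t | F t c.1 ≠ 0} := by
    rintro t ⟨c, hc, hne⟩
    exact mem_iUnion.2 ⟨⟨c, hc⟩, hne⟩
  refine (Cardinal.mk_le_mk_of_subset h1).trans ?_
  refine (Cardinal.mk_iUnion_le _).trans ?_
  calc _ ≤ max #C ℵ₀ * max #C ℵ₀ := by
        apply mul_le_mul' (le_max_left _ _)
        apply ciSup_le'
        intro c
        exact (Cardinal.le_aleph0_iff_set_countable.2 (hF c.1)).trans (le_max_right _ _)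
    _ = max #C ℵ₀ := Cardinal.mul_eq_self (le_max_right _ _)

theorem res_close [CompactSpace X] {F : T → C(X, ℝ)} (hF : ∀ x, {t | F t x ≠ 0}.Countable)
    (N : Set T) : ∃ N', N ⊆ N' ∧ Res F N' ∧ #N' ≤ max #N ℵ₀ := by
  classical
  have h1 : ∀ N : Set T, ∃ C : Set X, #C ≤ max #N ℵ₀ ∧ Dn Set.univ C (F '' N) := by
    intro N
    obtain ⟨C, -, hCc, hD⟩ := lemA (Set.univ : Set X) (F '' N)
    rw [closure_univ] at hD
    exact ⟨C, hCc.trans (max_le (Cardinal.mk_image_le.trans (le_max_left _ _))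
      (le_max_right _ _)), hD⟩
  choose C hCc hCD using h1
  let N' : ℕ → Set T := fun n => Nat.rec N (fun _ N => N ∪ {t | ∃ c ∈ C N, F t c ≠ 0}) n
  have hN' : ∀ n, N' (n+1) = N' n ∪ {t | ∃ c ∈ C (N' n), F t c ≠ 0} := fun n => rfl
  have hmono : Monotone N' := monotone_nat_of_le_succ fun n => by
    rw [hN']; exact subset_union_left
  have hcard : ∀ n, #↥(N' n) ≤ max #N ℵ₀ := by
    intro n
    induction n with
    | zero => exact le_max_left _ _
    | succ n ih =>
      rw [hN']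
      refine (Cardinal.mk_union_le _ _).trans ?_
      refine Cardinal.add_le_of_le (le_max_right _ _) ih ?_
      refine (alive_card hF _).trans (max_le ?_ (le_max_right _ _))
      exact (hCc _).trans (max_le ih (le_max_right _ _))
  refine ⟨⋃ n, N' n, subset_iUnion N' 0, ?_, iUnion_nat_card_le N' (le_max_right _ _) hcard⟩
  apply res_lim
  · intro i j
    exact ⟨max i j, hmono (le_max_left i j), hmono (le_max_right i j)⟩
  · intro n x
    obtain ⟨x', hx', hf⟩ := hCD (N' n) x (mem_univ x)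
    refine ⟨x', fun t ht => hf (F t) ⟨t, ht, rfl⟩, ?_⟩
    intro t ht
    apply vanish_closure _ x' hx'
    intro c hc
    by_contra hne
    apply ht
    refine mem_iUnion.2 ⟨n+1, ?_⟩
    rw [hN']
    exact Or.inr ⟨c, hc, hne⟩

theorem res_union [CompactSpace X] {F : T → C(X, ℝ)} (𝒮 : Set (Set T)) (hne : 𝒮.Nonempty)
    (hch : IsChain (· ⊆ ·) 𝒮) (h : ∀ S ∈ 𝒮, Res F S) : Res F (⋃₀ 𝒮) := by
  have hne' : Nonempty 𝒮 := hne.to_subtype
  rw [sUnion_eq_iUnion]
  apply res_lim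
  · intro i j
    rcases hch.total i.2 j.2 with h | h
    · exact ⟨j, h, subset_rfl⟩
    · exact ⟨i, subset_rfl, h⟩
  · intro i x
    obtain ⟨x', h1, h2⟩ := h i.1 i.2 x
    exact ⟨x', h1, fun t ht => h2 t fun h' => ht (mem_iUnion.2 ⟨i, h'⟩)⟩

theorem Res.retraction [CompactSpace X] [T2Space X] {F : T → C(X, ℝ)}
    (hsep : ∀ x y, (∀ t, F t x = F t y) → x = y) {N : Set T} (h : Res F N) :
    ∃ r : C(X, X), (∀ x, ∀ t ∈ N, F t (r x) = F t x) ∧ (∀ x, ∀ t ∉ N, F t (r x) = 0) := by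
  classical
  choose r hr1 hr2 using h
  let e : X → (T → ℝ) := fun x t => F t x
  have he : Continuous e := continuous_pi fun t => (F t).continuous
  have hinj : Function.Injective e := fun x y hxy => hsep x y fun t => congrFun hxy t
  have hemb : IsClosedEmbedding e := he.isClosedEmbedding hinj
  have hr : Continuous r := by
    rw [hemb.isInducing.continuous_iff]
    apply continuous_pi
    intro t
    by_cases ht : t ∈ N
    · have : (fun x => (e ∘ r) x t) = fun x => F t x := by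
        funext x; exact hr1 x t ht
      rw [this]; exact (F t).continuous
    · have : (fun x => (e ∘ r) x t) = fun x => 0 := by
        funext x; exact hr2 x t ht
      rw [this]; exact continuous_const
  exact ⟨⟨r, hr⟩, hr1, hr2⟩

end

lemma order_tri {ι : Type*} [LinearOrder ι] (i : ι) :
    IsMin i ∨ (∃ j, j ⋖ i) ∨ Order.IsSuccLimit i := by
  by_cases h1 : IsMin i
  · exact Or.inl h1
  · by_cases h2 : ∃ j, j ⋖ i
    · exact Or.inr (Or.inl h2)
    · right; right
      exact ⟨h1, fun b hb => h2 ⟨b, hb⟩⟩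

end Pool.Agent.Helper535
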