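import Pool.Agent.Helper535.O

open Set Topology Cardinal

namespace Pool.Agent.Helper535

universe u v w

/-- the capturing property -/
def Capt {X : Type u} [TopologicalSpace X] {T S : Type u} (φ : T → C(X, ℝ)) (h : S → C(X, ℝ)) :
    Prop := ∀ x y, {t | φ t x ≠ 0} ⊂ {t | φ t y ≠ 0} → ∃ s, h s x ≠ h s y

/-- gluing of families along a chain of restrictions -/
theorem glue {E : Type v} [TopologicalSpace E] [Nonempty E]
    {X : Type u} [TopologicalSpace X] [CompactSpace X] [T2Space X] {T S : Type u}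
    {φ : T → C(X, ℝ)} {h : S → C(X, ℝ)} {e : S → E}
    (hφ : ∀ x y, (∀ t, φ t x = φ t y) → x = y) (H : EFam h e) (hcap : Capt φ h)
    {ι : Type u} [LinearOrder ι] [WellFoundedLT ι] [Nonempty ι]
    (N : ι → Set (T ⊕ S)) (hN : Monotone N)
    (hlim : ∀ i, Order.IsSuccLimit i → ∀ t ∈ N i, ∃ j < i, t ∈ N j)
    (hall : ∀ t, (∃ x, Sum.elim φ h t x ≠ 0) → t ∈ ⋃ i, N i)
    (r : ι → C(X, X)) (hr1 : ∀ i x, ∀ t ∈ N i, Sum.elim φ h t (r i x) = Sum.elim φ h t x)
    (hr2 : ∀ i x, ∀ t ∉ N i, Sum.elim φ h t (r i x) = 0)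
    (Z : ι → Set X) (hZ : ∀ i x, r i x ∈ Z i) (hst : ∀ i, GS (ℕ → E) (Z i)) :
    GS (ℕ → E) X := by
  classical
  choose Q g c G hG using hst
  let rc : ∀ i, C(X, Z i) := fun i => ⟨fun x => ⟨r i x, hZ i x⟩,
    (r i).continuous.subtype_mk _⟩
  have hrc : ∀ i x y, rc i x = rc i y → r i x = r i y := by
    intro i x y hxy
    exact congrArg Subtype.val hxy
  have hFsep : ∀ x y, (∀ t, Sum.elim φ h t x = Sum.elim φ h t y) → x = y :=
    fun x y hxy => hφ x y fun t => hxy (Sum.inl t)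
  obtain ⟨i0, -, hi0⟩ := WellFounded.has_min (wellFounded_lt (α := ι)) Set.univ univ_nonempty
  -- the jump property
  have jump : ∀ j i x, j ⋖ i → r j x ≠ r i x → ∃ s, Sum.inr s ∈ N i ∧ Sum.inr s ∉ N j ∧
      h s x ≠ 0 := by
    intro j i x hji hne
    have hs1 : {t | φ t (r j x) ≠ 0} ⊆ {t | φ t (r i x) ≠ 0} := by
      intro t ht
      by_cases htj : Sum.inl t ∈ N j
      · have e1 := hr1 j x _ htj
        have e2 := hr1 i x _ (hN hji.le htj)
        simp only [Sum.elim_inl] at e1 e2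
        show φ t (r i x) ≠ 0
        rw [e2, ← e1]; exact ht
      · exact absurd (hr2 j x _ htj) ht
    have hs2 : ¬ {t | φ t (r i x) ≠ 0} ⊆ {t | φ t (r j x) ≠ 0} := by
      intro hsub
      apply hne
      apply hφ
      intro t
      by_cases htj : Sum.inl t ∈ N j
      · have e1 := hr1 j x _ htj
        have e2 := hr1 i x _ (hN hji.le htj)
        simp only [Sum.elim_inl] at e1 e2
        rw [e1, e2]
      · have e1 := hr2 j x _ htj
        simp only [Sum.elim_inl] at e1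
        rw [e1]
        by_contra hne'
        exact hsub (show φ t (r i x) ≠ 0 from fun h => hne' h.symm) e1
    obtain ⟨s, hs⟩ := hcap (r j x) (r i x) ⟨hs1, hs2⟩
    by_cases hsj : Sum.inr s ∈ N j
    · have e1 := hr1 j x _ hsj
      have e2 := hr1 i x _ (hN hji.le hsj)
      simp only [Sum.elim_inr] at e1 e2
      exact absurd (e1.trans e2.symm) hs
    · have e1 := hr2 j x _ hsj
      simp only [Sum.elim_inr] at e1
      by_cases hsi : Sum.inr s ∈ N i
      · have e2 := hr1 i x _ hsi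
        simp only [Sum.elim_inr] at e2
        refine ⟨s, hsi, hsj, ?_⟩
        intro h0
        apply hs
        rw [e1, e2, h0]
      · have e2 := hr2 i x _ hsi
        simp only [Sum.elim_inr] at e2
        exact absurd (e1.trans e2.symm) hs
  -- the index sets
  let J : Type u := {p : ι × ι × S // p.1 ⋖ p.2.1 ∧ Sum.inr p.2.2 ∈ N p.2.1 ∧
    Sum.inr p.2.2 ∉ N p.1}
  have hJ : Function.Injective (fun p : J => p.1.2.2) := by
    rintro ⟨⟨j, i, t⟩, h1, h2, h3⟩ ⟨⟨j', i', t'⟩, h1', h2', h3'⟩ heq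
    simp only at heq h1 h2 h3 h1' h2' h3'
    subst heq
    have hii : i = i' := by
      rcases lt_trichotomy i i' with hlt | heq | hlt
      · exact absurd (hN (h1'.le_of_lt hlt) h2) h3'
      · exact heq
      · exact absurd (hN (h1.le_of_lt hlt) h2') h3
    subst hii
    have hjj : j = j' := h1.unique_left h1'
    subst hjj
    rfl
  let I2 : Type u := Σ p : J, Q p.1.2.1
  let hh : Q i0 ⊕ (S ⊕ I2) → C(X, ℝ) := Sum.elim (fun s => (g i0 s).comp (rc i0))
    (Sum.elim h fun q => h q.1.1.2.2 * (g q.1.1.2.1 q.2).comp (rc q.1.1.2.1))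
  let ee : Q i0 ⊕ (S ⊕ I2) → (ℕ → E) := Sum.elim (c i0)
    (Sum.elim (fun s _ => e s) fun q => scons (e q.1.1.2.2) (c q.1.1.2.1 q.2))
  refine ⟨Q i0 ⊕ (S ⊕ I2), hh, ee, ⟨?_, ?_⟩, ?_⟩
  · rintro (s | s | q) x
    · exact (G i0).bdd s _
    · exact H.bdd s x
    · show |h q.1.1.2.2 x * (g q.1.1.2.1 q.2) (rc q.1.1.2.1 x)| ≤ 1
      rw [abs_mul]
      exact mul_le_one₀ (H.bdd _ _) (abs_nonneg _) ((G _).bdd _ _)
  · intro x z ε hε
    obtain ⟨O0, hO0, hf0⟩ := (G i0).fin (rc i0 x) z ε hε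
    obtain ⟨O1, hO1, hf1⟩ := H.fin x (z 0) ε hε
    let P1 : Set J := {p | e p.1.2.2 ∈ O1 ∧ ε ≤ |h p.1.2.2 x|}
    have hP1 : P1.Finite := hf1.preimage hJ.injOn
    choose O hO hf using fun p : J => (G p.1.2.1).fin (rc p.1.2.1 x) (fun n => z (n+1)) ε hε
    have hO2 : (⋂ p ∈ P1, O p) ∈ 𝓝 (fun n => z (n+1)) := by
      rw [Filter.biInter_mem hP1]
      exact fun p _ => hO p
    refine ⟨O0 ∩ {z' : ℕ → E | z' 0 ∈ O1 ∧ (fun n => z' (n+1)) ∈ ⋂ p ∈ P1, O p},
      Filter.inter_mem hO0 (scons_nhds z hO1 hO2), ?_⟩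
    have hfin2 : (⋃ p ∈ P1, (fun s : Q p.1.2.1 => (⟨p, s⟩ : I2)) ''
        {s | c p.1.2.1 s ∈ O p ∧ ε ≤ |g p.1.2.1 s (rc p.1.2.1 x)|}).Finite :=
      hP1.biUnion fun p _ => (hf p).image _
    apply ((hf0.image Sum.inl).union (((hf1.image Sum.inl).union
      (hfin2.image Sum.inr)).image Sum.inr)).subset
    rintro (s | s | q) ⟨⟨hs1, hs2, hs3⟩, hs4⟩
    · exact Or.inl ⟨s, ⟨hs1, hs4⟩, rfl⟩
    · exact Or.inr ⟨Sum.inl s, Or.inl ⟨s, ⟨hs2, hs4⟩, rfl⟩, rfl⟩
    · refine Or.inr ⟨Sum.inr q, Or.inr ⟨q, ?_, rfl⟩, rfl⟩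
      have hs5 : ε ≤ |h q.1.1.2.2 x * (g q.1.1.2.1 q.2) (rc q.1.1.2.1 x)| := hs4
      rw [abs_mul] at hs5
      have hs6 : ε ≤ |h q.1.1.2.2 x| := hs5.trans
        (mul_le_of_le_one_right (abs_nonneg _) ((G _).bdd _ _))
      have hs7 : ε ≤ |(g q.1.1.2.1 q.2) (rc q.1.1.2.1 x)| := hs5.trans
        (mul_le_of_le_one_left (abs_nonneg _) (H.bdd _ _))
      have hq : q.1 ∈ P1 := ⟨hs2, hs6⟩
      have hq2 : c q.1.1.2.1 q.2 ∈ O q.1 := by
        have : (c q.1.1.2.1 q.2) ∈ ⋂ p ∈ P1, O p := hs3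
        simp only [mem_iInter] at this
        exact this q.1 hq
      simp only [mem_iUnion]
      exact ⟨q.1, hq, q.2, ⟨hq2, hs7⟩, rfl⟩
  · intro x y hxy
    by_contra hne
    have hex : ∃ i, r i x ≠ r i y := by
      by_contra hall'
      push Not at hall'
      apply hne
      apply hFsep
      intro t
      by_cases ht : t ∈ ⋃ i, N i
      · obtain ⟨i, hi⟩ := mem_iUnion.1 ht
        rw [← hr1 i x t hi, ← hr1 i y t hi, hall' i]
      · have : ∀ x, Sum.elim φ h t x = 0 := by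
          intro x
          by_contra hx
          exact ht (hall t ⟨x, hx⟩)
        rw [this, this]
    obtain ⟨i, hi, hmin⟩ := WellFounded.has_min (wellFounded_lt (α := ι)) {i | r i x ≠ r i y} hex
    rcases order_tri i with hm | ⟨j, hj⟩ | hl
    · have : i = i0 := by
        apply le_antisymm
        · by_contra hlt
          push Not at hlt
          exact absurd (hm hlt.le) (not_le.2 hlt)
        · by_contra hlt
          push Not at hlt
          exact hi0 i (mem_univ i) hlt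
      subst this
      apply hi
      apply hrc
      apply hG
      intro s
      exact hxy (Sum.inl s)
    · have hjeq : r j x = r j y := by
        by_contra hne'
        exact hmin j hne' hj.lt
      have h1 : ∀ s, h s x = h s y := fun s => hxy (Sum.inr (Sum.inl s))
      have h2 : ∃ s, Sum.inr s ∈ N i ∧ Sum.inr s ∉ N j ∧ h s x ≠ 0 := by
        by_cases hx : r j x = r i x
        · have hy : r j y ≠ r i y := by
            intro hy
            apply hi
            rw [← hx, ← hy, hjeq]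
          obtain ⟨s, hs1, hs2, hs3⟩ := jump j i y hj hy
          exact ⟨s, hs1, hs2, by rw [h1]; exact hs3⟩
        · exact jump j i x hj hx
      obtain ⟨s, hs1, hs2, hs3⟩ := h2
      apply hi
      apply hrc
      apply hG
      intro q
      have h3 : h s x * g i q (rc i x) = h s y * g i q (rc i y) :=
        hxy (Sum.inr (Sum.inr ⟨⟨(j, i, s), hj, hs1, hs2⟩, q⟩))
      rw [← h1 s] at h3
      exact mul_left_cancel₀ hs3 h3
    · apply hi
      apply hFsep
      intro t
      by_cases ht : t ∈ N i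
      · obtain ⟨j, hji, htj⟩ := hlim i hl t ht
        have hjeq : r j x = r j y := by
          by_contra hne'
          exact hmin j hne' hji
        rw [hr1 i x t ht, hr1 i y t ht, ← hr1 j x t htj, ← hr1 j y t htj, hjeq]
      · rw [hr2 i x t ht, hr2 i y t ht]

end Pool.Agent.Helper535
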