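import Pool.Agent.Helper535.P

open Set Topology Cardinal

namespace Pool.Agent.Helper535

universe u v w

theorem gs_cap_aux {E : Type v} [TopologicalSpace E] [Nonempty E] (kap : Cardinal.{u}) :
    ∀ (X : Type u) [TopologicalSpace X] [CompactSpace X] [T2Space X] (T S : Type u)
      (φ : T → C(X, ℝ)) (h : S → C(X, ℝ)) (e : S → E),
      (∀ x, {t | φ t x ≠ 0}.Countable) → (∀ x y, (∀ t, φ t x = φ t y) → x = y) →
      EFam h e → (∀ x, {s | h s x ≠ 0}.Countable) → Capt φ h →
      ∀ D : Set X, Dense D → #D = kap → GS (ℕ → E) X := by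
  classical
  induction kap using WellFoundedLT.induction with
  | ind kap ih =>
    intro X _ _ _ T S φ h e hpc hsep H hpc' hcap D hD hDk
    rcases le_or_gt kap ℵ₀ with hk | hk
    · have hDc : D.Countable := Cardinal.le_aleph0_iff_set_countable.1 (hDk.le.trans hk)
      have hA : (⋃ d ∈ D, {t | φ t d ≠ 0}).Countable := hDc.biUnion fun d _ => hpc d
      refine GS_of_countable (fun _ => Classical.arbitrary E) (hA.image φ) ?_
      intro x _ y _ hxy
      apply hsep
      intro t
      by_cases ht : t ∈ ⋃ d ∈ D, {t | φ t d ≠ 0}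
      · exact hxy _ ⟨t, ht, rfl⟩
      · have h0 : ∀ c ∈ D, φ t c = 0 := by
          intro c hc
          by_contra hne
          apply ht
          simp only [mem_iUnion]
          exact ⟨c, hc, hne⟩
        rw [vanish_closure h0 x (hD x), vanish_closure h0 y (hD y)]
    · let F : T ⊕ S → C(X, ℝ) := Sum.elim φ h
      have hF : ∀ x, {t | F t x ≠ 0}.Countable := by
        intro x
        have : {t | F t x ≠ 0} ⊆ Sum.inl '' {t | φ t x ≠ 0} ∪ Sum.inr '' {s | h s x ≠ 0} := by
          rintro (t | s) ht
          · exact Or.inl ⟨t, ht, rfl⟩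
          · exact Or.inr ⟨s, ht, rfl⟩
        exact (((hpc x).image _).union ((hpc' x).image _)).mono this
      have hFsep : ∀ x y, (∀ t, F t x = F t y) → x = y :=
        fun x y hxy => hsep x y fun t => hxy (Sum.inl t)
      obtain ⟨ι, _, _, hιne, N, hNmono, hP, hNcard, hNlim, hND⟩ := chain_exists (T := T ⊕ S)
        (kap := kap) ℵ₀ le_rfl hk (Res F) (fun 𝒮 h1 h2 h3 => res_union 𝒮 h1 h2 h3)
        (fun N _ => res_close hF N) {t | ∃ c ∈ D, F t c ≠ 0}
        ((alive_card hF D).trans (max_le hDk.le hk.le))
      choose r hr1 hr2 using fun i => (hP i).retraction hFsep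
      let Z : ι → Set X := fun i => {x | ∀ t ∉ N i, F t x = 0}
      have hZcl : ∀ i, IsClosed (Z i) := by
        intro i
        have e2 : Z i = ⋂ t ∈ (N i)ᶜ, {y | F t y = 0} := by
          ext y; simp [Z]
        rw [e2]
        exact isClosed_biInter fun t _ => isClosed_eq (F t).continuous continuous_const
      have hgs : ∀ i, GS (ℕ → E) (Z i) := by
        intro i
        have : CompactSpace (Z i) := isCompact_iff_compactSpace.1 (hZcl i).isCompact
        obtain ⟨C, hCZ, hCc, hCD⟩ := lemA (Z i) (F '' N i)
        let DZ : Set (Z i) := {y | y.1 ∈ C}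
        have hDZ : Dense DZ := by
          intro y
          rw [closure_subtype]
          have h1 : ((↑) : Z i → X) '' DZ = C := by
            ext x
            constructor
            · rintro ⟨y, hy, rfl⟩; exact hy
            · intro hx; exact ⟨⟨x, hCZ hx⟩, hx, rfl⟩
          rw [h1]
          obtain ⟨x', hx', hf⟩ := hCD y.1 (subset_closure y.2)
          have hx'Z : x' ∈ Z i := closure_minimal hCZ (hZcl i) hx'
          have : x' = y.1 := by
            apply hFsep
            intro t
            by_cases ht : t ∈ N i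
            · exact hf _ ⟨t, ht, rfl⟩
            · rw [hx'Z t ht, y.2 t ht]
          rw [← this]; exact hx'
        have hc : #DZ ≤ #C := by
          refine Cardinal.mk_le_of_injective (f := fun y : DZ => (⟨y.1.1, y.2⟩ : C)) ?_
          intro y z h
          have h' : y.1.1 = z.1.1 := congrArg (fun t : C => t.1) h
          exact Subtype.ext (Subtype.ext h')
        have hlt : #DZ < kap := by
          refine (hc.trans hCc).trans_lt (max_lt ?_ hk)
          exact Cardinal.mk_image_le.trans_lt (hNcard i)
        refine ih #DZ hlt (Z i) T S (fun t => (φ t).restrict (Z i)) (fun s => (h s).restrict (Z i)) e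
          (fun x => hpc x.1) ?_ ?_ (fun x => hpc' x.1) ?_ DZ hDZ rfl
        · intro x y hxy
          exact Subtype.ext (hsep x.1 y.1 hxy)
        · exact H.comp ⟨Subtype.val, continuous_subtype_val⟩
        · intro x y hxy
          exact hcap x.1 y.1 hxy
      apply glue hsep H hcap N hNmono hNlim ?_ r hr1 hr2 Z ?_ hgs
      · rintro t ⟨x, hx⟩
        apply hND
        by_contra hcon
        apply hx
        have h0 : ∀ c ∈ D, F t c = 0 := by
          intro c hc
          by_contra hne
          exact hcon ⟨c, hc, hne⟩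
        exact vanish_closure h0 x (hD x)
      · intro i x t ht
        exact hr2 i x t ht

/-- a compact space whose subsets are split by `E`-families has a separating `E`-family -/
theorem GSplit.gs {X : Type u} [TopologicalSpace X] [CompactSpace X] [T2Space X]
    (hX : GSplit.{u, v} X) : ∃ (E : Type v) (_ : TopologicalSpace E)
      (_ : SecondCountableTopology E) (_ : Nonempty E), GS E X := by
  classical
  obtain ⟨F, hF, hsep⟩ := hX.splits.corson
  have hpc : ∀ x, {t : F | t.1 x ≠ 0}.Countable := by
    intro x
    have : {i : F | i.1 x ≠ 0} = Subtype.val ⁻¹' {f | f ∈ F ∧ f x ≠ 0} := by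
      ext i; simp [i.2]
    rw [this]
    exact (hF x (mem_univ x)).preimage Subtype.val_injective
  obtain ⟨χ, hχ⟩ := col F
  let sp : X → Set F := fun x => {t : F | t.1 x ≠ 0}
  obtain ⟨E, _, _, _, S, h, e, H, hs⟩ := hX.simul fun n => {x | χ (sp x) n = true}
  refine ⟨ℕ → E, inferInstance, inferInstance, inferInstance, ?_⟩
  refine gs_cap_aux _ X F S (fun t => t.1) h e hpc ?_ H H.pcount ?_ Set.univ dense_univ rfl
  · intro x y hxy
    exact hsep x (mem_univ x) y (mem_univ y) fun f hf => hxy ⟨f, hf⟩
  · intro x y hxy
    have h1 := hχ _ _ (hpc y) hxy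
    have h2 : ∃ n, χ (sp x) n ≠ χ (sp y) n := Function.ne_iff.1 h1
    obtain ⟨n, hn⟩ := h2
    by_cases hx : χ (sp x) n = true
    · exact hs n x hx y (fun hy => hn (hx.trans hy.symm))
    · by_cases hy : χ (sp y) n = true
      · obtain ⟨s, hs'⟩ := hs n y hy x hx
        exact ⟨s, hs'.symm⟩
      · exfalso
        apply hn
        rw [Bool.not_eq_true] at hx hy
        rw [hx, hy]

end Pool.Agent.Helper535
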