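import Pool.Agent.Helper535.Q

open Set Topology Cardinal

namespace Pool.Agent.Helper535

universe u v w

/-- points of `A` are separated from points outside of `A` by a countable family of closed sets,
and each point of `A` is in a compact member -/
def LSg {K : Type*} [TopologicalSpace K] (A : Set K) : Prop :=
  ∃ 𝓒 : Set (Set K), 𝓒.Countable ∧ (∀ C ∈ 𝓒, IsClosed C) ∧
    (∀ a ∈ A, ∃ C ∈ 𝓒, a ∈ C ∧ IsCompact C) ∧ ∀ a ∈ A, ∀ b ∉ A, ∃ C ∈ 𝓒, a ∈ C ∧ b ∉ C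

section
variable {K : Type*} [TopologicalSpace K]

theorem LSg.of_compact {A : Set K} (h1 : IsCompact A) (h2 : IsClosed A) : LSg A :=
  ⟨{A}, countable_singleton A, fun C hC => by rw [mem_singleton_iff] at hC; rwa [hC],
    fun a ha => ⟨A, rfl, ha, h1⟩, fun a ha b hb => ⟨A, rfl, ha, hb⟩⟩

theorem LSg.iUnion {A : ℕ → Set K} (h : ∀ n, LSg (A n)) : LSg (⋃ n, A n) := by
  choose 𝓒 h1 h2 h3 h4 using h
  refine ⟨⋃ n, 𝓒 n, countable_iUnion h1, ?_, ?_, ?_⟩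
  · intro C hC
    obtain ⟨n, hn⟩ := mem_iUnion.1 hC
    exact h2 n C hn
  · intro a ha
    obtain ⟨n, hn⟩ := mem_iUnion.1 ha
    obtain ⟨C, hC, h5⟩ := h3 n a hn
    exact ⟨C, mem_iUnion.2 ⟨n, hC⟩, h5⟩
  · intro a ha b hb
    obtain ⟨n, hn⟩ := mem_iUnion.1 ha
    obtain ⟨C, hC, h5⟩ := h4 n a hn b (fun h => hb (mem_iUnion.2 ⟨n, h⟩))
    exact ⟨C, mem_iUnion.2 ⟨n, hC⟩, h5⟩

theorem LSg.union {A B : Set K} (hA : LSg A) (hB : LSg B) : LSg (A ∪ B) := by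
  have : A ∪ B = ⋃ n : ℕ, if n = 0 then A else B := by
    ext x
    simp only [mem_union, mem_iUnion]
    constructor
    · rintro (h | h)
      · exact ⟨0, by simpa using h⟩
      · exact ⟨1, by simpa using h⟩
    · rintro ⟨n, hn⟩
      by_cases h0 : n = 0
      · left; simpa [h0] using hn
      · right; simpa [h0] using hn
  rw [this]
  apply LSg.iUnion
  intro n
  by_cases h0 : n = 0
  · simpa [h0] using hA
  · simpa [h0] using hB

theorem LSg.iInter {A : ℕ → Set K} (h : ∀ n, LSg (A n)) : LSg (⋂ n, A n) := by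
  choose 𝓒 h1 h2 h3 h4 using h
  refine ⟨⋃ n, 𝓒 n, countable_iUnion h1, ?_, ?_, ?_⟩
  · intro C hC
    obtain ⟨n, hn⟩ := mem_iUnion.1 hC
    exact h2 n C hn
  · intro a ha
    obtain ⟨C, hC, h5⟩ := h3 0 a (mem_iInter.1 ha 0)
    exact ⟨C, mem_iUnion.2 ⟨0, hC⟩, h5⟩
  · intro a ha b hb
    rw [mem_iInter] at hb
    push Not at hb
    obtain ⟨n, hn⟩ := hb
    obtain ⟨C, hC, h5⟩ := h4 n a (mem_iInter.1 ha n) b hn
    exact ⟨C, mem_iUnion.2 ⟨n, hC⟩, h5⟩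

theorem LSg.prod {L : Type*} [TopologicalSpace L] {A : Set K} {B : Set L} (hA : LSg A)
    (hB : LSg B) : LSg (A ×ˢ B) := by
  obtain ⟨𝓒, a1, a2, a3, a4⟩ := hA
  obtain ⟨𝓓, b1, b2, b3, b4⟩ := hB
  refine ⟨(fun p : Set K × Set L => p.1 ×ˢ p.2) '' (𝓒 ×ˢ 𝓓), (a1.prod b1).image _, ?_, ?_, ?_⟩
  · rintro _ ⟨⟨C, D⟩, ⟨hC, hD⟩, rfl⟩
    exact (a2 C hC).prod (b2 D hD)
  · rintro ⟨a, b⟩ ⟨ha, hb⟩
    obtain ⟨C, hC, h5, h6⟩ := a3 a ha
    obtain ⟨D, hD, h7, h8⟩ := b3 b hb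
    exact ⟨C ×ˢ D, ⟨(C, D), ⟨hC, hD⟩, rfl⟩, ⟨h5, h7⟩, h6.prod h8⟩
  · rintro ⟨a, b⟩ ⟨ha, hb⟩ ⟨a', b'⟩ hn
    by_cases h : a' ∈ A
    · have hb' : b' ∉ B := fun h' => hn ⟨h, h'⟩
      obtain ⟨C, hC, h5, h6⟩ := a3 a ha
      obtain ⟨D, hD, h7, h8⟩ := b4 b hb b' hb'
      exact ⟨C ×ˢ D, ⟨(C, D), ⟨hC, hD⟩, rfl⟩, ⟨h5, h7⟩, fun h' => h8 h'.2⟩
    · obtain ⟨C, hC, h5, h6⟩ := a4 a ha a' h
      obtain ⟨D, hD, h7, h8⟩ := b3 b hb
      exact ⟨C ×ˢ D, ⟨(C, D), ⟨hC, hD⟩, rfl⟩, ⟨h5, h7⟩, fun h' => h6 h'.1⟩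

lemma LSg_fin {𝓒 : Set (Set K)} (hcl : ∀ C ∈ 𝓒, IsClosed C) {a : K} {C0 : Set K} (h0 : C0 ∈ 𝓒)
    (ha : a ∈ C0) (hc : IsCompact C0) {V : Set K} (hV : IsOpen V)
    (hsub : ⋂₀ {C | C ∈ 𝓒 ∧ a ∈ C} ⊆ V) :
    ∃ T : Set (Set K), T.Finite ∧ T ⊆ {C | C ∈ 𝓒 ∧ a ∈ C} ∧ ⋂₀ T ⊆ V ∧ IsCompact (⋂₀ T) := by
  have h1 : (C0 ∩ Vᶜ) ∩ ⋂ C : {C | C ∈ 𝓒 ∧ a ∈ C}, C.1 = ∅ := by
    rw [eq_empty_iff_forall_notMem]
    rintro y ⟨⟨-, hy1⟩, hy2⟩
    apply hy1
    apply hsub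
    rintro C hC
    exact mem_iInter.1 hy2 ⟨C, hC⟩
  obtain ⟨t, ht⟩ := (hc.inter_right hV.isClosed_compl).elim_finite_subfamily_closed
    (fun C : {C | C ∈ 𝓒 ∧ a ∈ C} => C.1) (fun C => hcl C.1 C.2.1) h1
  refine ⟨insert C0 (Subtype.val '' (t : Set {C | C ∈ 𝓒 ∧ a ∈ C})), ?_, ?_, ?_, ?_⟩
  · exact (t.finite_toSet.image _).insert _
  · rintro C (rfl | ⟨C', -, rfl⟩)
    · exact ⟨h0, ha⟩
    · exact C'.2
  · intro y hy
    by_contra hyV
    have : y ∈ (C0 ∩ Vᶜ) ∩ ⋂ C ∈ t, C.1 := by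
      refine ⟨⟨hy C0 (Or.inl rfl), hyV⟩, ?_⟩
      simp only [mem_iInter]
      intro C hC
      exact hy C.1 (Or.inr ⟨C, hC, rfl⟩)
    rw [ht] at this
    exact this
  · apply hc.of_isClosed_subset
    · apply isClosed_sInter
      rintro C (rfl | ⟨C', -, rfl⟩)
      · exact hcl _ h0
      · exact hcl _ C'.2.1
    · exact sInter_subset_of_mem (Or.inl rfl)

theorem LSg.image {L : Type*} [TopologicalSpace L] [T2Space L] {A : Set K} (hA : LSg A)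
    {f : K → L} (hf : Continuous f) : LSg (f '' A) := by
  obtain ⟨𝓒, a1, a2, a3, a4⟩ := hA
  refine ⟨(fun T : Set (Set K) => f '' ⋂₀ T) '' {T | T ∈ {T | T.Finite ∧ T ⊆ 𝓒} ∧ IsCompact (⋂₀ T)},
    ?_, ?_, ?_, ?_⟩
  · apply Countable.image
    exact (countable_setOf_finite_subset a1).mono fun T hT => hT.1
  · rintro _ ⟨T, ⟨-, hT⟩, rfl⟩
    exact (hT.image hf).isClosed
  · rintro _ ⟨a, ha, rfl⟩
    obtain ⟨C, hC, h5, h6⟩ := a3 a ha
    refine ⟨f '' ⋂₀ {C}, ⟨{C}, ⟨⟨finite_singleton C, singleton_subset_iff.2 hC⟩, ?_⟩, rfl⟩, ?_, ?_⟩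
    · rwa [sInter_singleton]
    · rw [sInter_singleton]; exact ⟨a, h5, rfl⟩
    · rw [sInter_singleton]; exact h6.image hf
  · rintro _ ⟨a, ha, rfl⟩ b hb
    obtain ⟨C, hC, h5, h6⟩ := a3 a ha
    obtain ⟨T, hT1, hT2, hT3, hT4⟩ := LSg_fin a2 hC h5 h6 (V := (f ⁻¹' {b})ᶜ)
      (isClosed_singleton.preimage hf).isOpen_compl (by
        intro y hy hyb
        have hyA : y ∈ A := by
          by_contra hyA
          obtain ⟨C, hC, h7, h8⟩ := a4 a ha y hyA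
          exact h8 (hy C ⟨hC, h7⟩)
        exact hb ⟨y, hyA, hyb⟩)
    refine ⟨f '' ⋂₀ T, ⟨T, ⟨⟨hT1, fun C hC => (hT2 hC).1⟩, hT4⟩, rfl⟩, ?_, ?_⟩
    · exact ⟨a, fun C hC => (hT2 hC).2, rfl⟩
    · rintro ⟨y, hy, hyb⟩
      exact hT3 hy hyb

/-- a countable network modulo a compact cover -/
theorem LSg.network {A : Set K} (hA : LSg A) : ∃ 𝓕 : Set (Set A), 𝓕.Countable ∧
    ∀ z : A, ∃ C : Set A, IsCompact C ∧ z ∈ C ∧
      ∀ U : Set A, IsOpen U → C ⊆ U → ∃ F ∈ 𝓕, C ⊆ F ∧ F ⊆ U := by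
  obtain ⟨𝓒, a1, a2, a3, a4⟩ := hA
  refine ⟨(fun T : Set (Set K) => Subtype.val ⁻¹' ⋂₀ T) '' {T | T.Finite ∧ T ⊆ 𝓒},
    (countable_setOf_finite_subset a1).image _, ?_⟩
  rintro ⟨a, ha⟩
  have hsub : ⋂₀ {C | C ∈ 𝓒 ∧ a ∈ C} ⊆ A := by
    intro y hy
    by_contra hyA
    obtain ⟨C, hC, h7, h8⟩ := a4 a ha y hyA
    exact h8 (hy C ⟨hC, h7⟩)
  obtain ⟨C, hC, h5, h6⟩ := a3 a ha
  refine ⟨Subtype.val ⁻¹' ⋂₀ {C | C ∈ 𝓒 ∧ a ∈ C}, ?_, ?_, ?_⟩
  · rw [Subtype.isCompact_iff, Subtype.image_preimage_coe, inter_eq_self_of_subset_right hsub]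
    apply h6.of_isClosed_subset
    · exact isClosed_sInter fun C hC => a2 C hC.1
    · exact sInter_subset_of_mem ⟨hC, h5⟩
  · exact fun C hC => hC.2
  · rintro U hU hCU
    obtain ⟨V, hV, rfl⟩ := isOpen_induced_iff.1 hU
    obtain ⟨T, hT1, hT2, hT3, hT4⟩ := LSg_fin a2 hC h5 h6 hV (by
      intro y hy
      exact hCU (show (⟨y, hsub hy⟩ : A) ∈ Subtype.val ⁻¹' ⋂₀ {C | C ∈ 𝓒 ∧ a ∈ C} from hy))
    refine ⟨_, ⟨T, ⟨hT1, fun C hC => (hT2 hC).1⟩, rfl⟩, ?_, ?_⟩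
    · apply preimage_mono
      exact sInter_subset_sInter hT2
    · exact preimage_mono hT3

end

section
variable {X : Type u} [TopologicalSpace X]

theorem LSg_family {E : Type v} [TopologicalSpace E] [SecondCountableTopology E] {S : Type w}
    {h : S → C(X, ℝ)} {e : S → E} (H : EFam h e) :
    LSg (range (fun s => (h s : X → ℝ)) ∪ {0}) := by
  refine ⟨(fun O : Set E => closure ((fun s => (h s : X → ℝ)) '' {s | e s ∈ O})) ''
    (TopologicalSpace.countableBasis E) ∪ {{0}, Set.pi Set.univ fun _ => Icc (-1) 1}, ?_, ?_, ?_, ?_⟩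
  · apply Countable.union
    · exact (TopologicalSpace.countable_countableBasis E).image _
    · exact (countable_singleton _).insert _
  · rintro C (⟨O, -, rfl⟩ | rfl | rfl)
    · exact isClosed_closure
    · exact isClosed_singleton
    · exact isClosed_set_pi fun _ _ => isClosed_Icc
  · intro a ha
    refine ⟨_, Or.inr (Or.inr rfl), ?_, isCompact_univ_pi fun _ => isCompact_Icc⟩
    rcases ha with ⟨s, rfl⟩ | rfl
    · intro x _
      exact abs_le.1 (H.bdd s x)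
    · intro x _
      exact ⟨by simp, by simp⟩
  · rintro a (⟨s0, rfl⟩ | rfl) b hb
    · have hb0 : b ≠ 0 := fun h => hb (Or.inr h)
      obtain ⟨x, hx⟩ := Function.ne_iff.1 hb0
      have hx' : 0 < |b x| := abs_pos.2 hx
      obtain ⟨O, hO, hfin⟩ := H.fin x (e s0) (|b x| / 2) (by linarith)
      obtain ⟨O', hO'B, hO'1, hO'2⟩ := (TopologicalSpace.isBasis_countableBasis E).mem_nhds_iff.1 hO
      refine ⟨_, Or.inl ⟨O', hO'B, rfl⟩, subset_closure ⟨s0, hO'1, rfl⟩, ?_⟩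
      intro hbc
      have hcl : IsClosed ((fun s => (h s : X → ℝ)) '' {s | e s ∈ O ∧ |b x| / 2 ≤ |h s x|} ∪
          {g : X → ℝ | |g x| ≤ |b x| / 2}) := by
        apply IsClosed.union
        · exact (hfin.image _).isClosed
        · exact isClosed_le (continuous_apply x).abs continuous_const
      have hsub : (fun s => (h s : X → ℝ)) '' {s | e s ∈ O'} ⊆
          ((fun s => (h s : X → ℝ)) '' {s | e s ∈ O ∧ |b x| / 2 ≤ |h s x|} ∪
          {g : X → ℝ | |g x| ≤ |b x| / 2}) := by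
        rintro _ ⟨s, hs, rfl⟩
        rcases le_total (|b x| / 2) (|h s x|) with h1 | h1
        · exact Or.inl ⟨s, ⟨hO'2 hs, h1⟩, rfl⟩
        · exact Or.inr h1
      rcases closure_minimal hsub hcl hbc with ⟨s, -, hs⟩ | hs
      · exact hb (Or.inl ⟨s, hs⟩)
      · have : |b x| ≤ |b x| / 2 := hs
        linarith
    · exact ⟨{0}, Or.inr (Or.inl rfl), rfl, fun h => hb (Or.inr h)⟩

theorem LSg_const : LSg (range (fun (c : ℝ) (_ : X) => c)) := by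
  have hc : Continuous (fun (c : ℝ) (_ : X) => c) := continuous_pi fun _ => continuous_id
  have : range (fun (c : ℝ) (_ : X) => c) = ⋃ n : ℕ, (fun (c : ℝ) (_ : X) => c) ''
      Icc (-(n:ℝ)) n := by
    rw [← image_iUnion, ← image_univ]
    congr 1
    symm
    rw [eq_univ_iff_forall]
    intro c
    obtain ⟨n, hn⟩ := exists_nat_ge |c|
    exact mem_iUnion.2 ⟨n, abs_le.1 hn⟩
  rw [this]
  apply LSg.iUnion
  intro n
  have := isCompact_Icc.image (s := Icc (-(n:ℝ)) n) hc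
  exact LSg.of_compact this this.isClosed

def algA (A : Set (X → ℝ)) : ℕ → Set (X → ℝ)
  | 0 => A
  | n+1 => algA A n ∪ ((fun p : (X → ℝ) × (X → ℝ) => p.1 + p.2) '' (algA A n ×ˢ algA A n) ∪
      (fun p : (X → ℝ) × (X → ℝ) => p.1 * p.2) '' (algA A n ×ˢ algA A n))

lemma algA_mono (A : Set (X → ℝ)) : Monotone (algA A) :=
  monotone_nat_of_le_succ fun _ => subset_union_left

lemma algA_LSg {A : Set (X → ℝ)} (hA : LSg A) : ∀ n, LSg (algA A n) := by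
  intro n
  induction n with
  | zero => exact hA
  | succ n ih =>
    exact ih.union (((ih.prod ih).image (continuous_fst.add continuous_snd)).union
      ((ih.prod ih).image (continuous_fst.mul continuous_snd)))

lemma algA_cont {A : Set (X → ℝ)} (hA : ∀ f ∈ A, Continuous f) : ∀ n, ∀ f ∈ algA A n,
    Continuous f := by
  intro n
  induction n with
  | zero => exact hA
  | succ n ih =>
    rintro f (hf | ⟨⟨g, k⟩, ⟨hg, hk⟩, rfl⟩ | ⟨⟨g, k⟩, ⟨hg, hk⟩, rfl⟩)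
    · exact ih f hf
    · exact (ih g hg).add (ih k hk)
    · exact (ih g hg).mul (ih k hk)

theorem LSg_continuous [CompactSpace X] [T2Space X] {E : Type v} [TopologicalSpace E]
    [SecondCountableTopology E] (hX : GS E X) : LSg {f : X → ℝ | Continuous f} := by
  obtain ⟨S, h, e, H, hsep⟩ := hX
  let A : Set (X → ℝ) := (range (fun s => (h s : X → ℝ)) ∪ {0}) ∪ range (fun (c : ℝ) (_ : X) => c)
  have hA : LSg A := (LSg_family H).union LSg_const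
  have hAc : ∀ f ∈ A, Continuous f := by
    rintro f ((⟨s, rfl⟩ | rfl) | ⟨c, rfl⟩)
    · exact (h s).continuous
    · exact continuous_const
    · exact continuous_const
  let P : Set (X → ℝ) := ⋃ n, algA A n
  have hP : LSg P := LSg.iUnion (algA_LSg hA)
  have hPc : ∀ f ∈ P, Continuous f := by
    intro f hf
    obtain ⟨n, hn⟩ := mem_iUnion.1 hf
    exact algA_cont hAc n f hn
  have hPadd : ∀ f ∈ P, ∀ g ∈ P, f + g ∈ P := by
    intro f hf g hg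
    obtain ⟨n, hn⟩ := mem_iUnion.1 hf
    obtain ⟨m, hm⟩ := mem_iUnion.1 hg
    refine mem_iUnion.2 ⟨max n m + 1, Or.inr (Or.inl ⟨(f, g), ⟨?_, ?_⟩, rfl⟩)⟩
    · exact algA_mono A (le_max_left n m) hn
    · exact algA_mono A (le_max_right n m) hm
  have hPmul : ∀ f ∈ P, ∀ g ∈ P, f * g ∈ P := by
    intro f hf g hg
    obtain ⟨n, hn⟩ := mem_iUnion.1 hf
    obtain ⟨m, hm⟩ := mem_iUnion.1 hg
    refine mem_iUnion.2 ⟨max n m + 1, Or.inr (Or.inr ⟨(f, g), ⟨?_, ?_⟩, rfl⟩)⟩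
    · exact algA_mono A (le_max_left n m) hn
    · exact algA_mono A (le_max_right n m) hm
  let R : Subalgebra ℝ C(X, ℝ) := Algebra.adjoin ℝ (range h)
  have hR : ∀ f ∈ R, (f : X → ℝ) ∈ P := by
    intro f hf
    induction hf using Algebra.adjoin_induction with
    | mem f hf =>
      obtain ⟨s, rfl⟩ := hf
      exact mem_iUnion.2 ⟨0, Or.inl (Or.inl ⟨s, rfl⟩)⟩
    | algebraMap c =>
      exact mem_iUnion.2 ⟨0, Or.inr ⟨c, rfl⟩⟩
    | add f g _ _ hf hg => exact hPadd _ hf _ hg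
    | mul f g _ _ hf hg => exact hPmul _ hf _ hg
  have hRsep : R.SeparatesPoints := by
    intro x y hxy
    have : ∃ s, h s x ≠ h s y := by
      by_contra hall
      push Not at hall
      exact hxy (hsep x y hall)
    obtain ⟨s, hs⟩ := this
    exact ⟨h s, ⟨h s, Algebra.subset_adjoin ⟨s, rfl⟩, rfl⟩, hs⟩
  have hRd := ContinuousMap.subalgebra_topologicalClosure_eq_top_of_separatesPoints R hRsep
  let Bn : ℕ → Set (X → ℝ) := fun n => Set.pi Set.univ fun _ => Icc (-(1/((n:ℝ)+1))) (1/((n:ℝ)+1))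
  have hBn : ∀ n, LSg (Bn n) := fun n =>
    LSg.of_compact (isCompact_univ_pi fun _ => isCompact_Icc) (isClosed_set_pi fun _ _ => isClosed_Icc)
  have hmain : {f : X → ℝ | Continuous f} = ⋂ n, (fun p : (X → ℝ) × (X → ℝ) => p.1 + p.2) ''
      (P ×ˢ Bn n) := by
    ext f
    rw [mem_iInter]
    constructor
    · intro hf n
      have hf' : Continuous f := hf
      have h1 : (⟨f, hf'⟩ : C(X, ℝ)) ∈ R.topologicalClosure := by rw [hRd]; trivial
      have h2 : (⟨f, hf'⟩ : C(X, ℝ)) ∈ closure (R : Set C(X, ℝ)) := h1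
      obtain ⟨g, hg, hd⟩ := Metric.mem_closure_iff.1 h2 (1/((n:ℝ)+1)) (by positivity)
      refine ⟨(g, f - g), ⟨hR g hg, ?_⟩, ?_⟩
      · intro x _
        have h3 := (ContinuousMap.dist_apply_le_dist (f := (⟨f, hf'⟩ : C(X, ℝ))) (g := g) x).trans
          hd.le
        rw [Real.dist_eq] at h3
        exact abs_le.1 h3
      · funext x; simp
    · intro hf
      show Continuous f
      apply continuous_of_uniform_approx_of_continuous
      intro u hu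
      obtain ⟨ε, hε, hεu⟩ := Metric.mem_uniformity_dist.1 hu
      obtain ⟨n, hn⟩ := exists_nat_one_div_lt hε
      obtain ⟨⟨g, k⟩, ⟨hg, hk⟩, hgk⟩ := hf n
      refine ⟨g, hPc g hg, ?_⟩
      intro y
      apply hεu
      have h4 : f y = g y + k y := by rw [← hgk]; rfl
      have h5 : |k y| ≤ 1/((n:ℝ)+1) := abs_le.2 (hk y (mem_univ y))
      rw [Real.dist_eq, h4]
      have h6 : g y + k y - g y = k y := by ring
      rw [h6]; exact h5.trans_lt hn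
  rw [hmain]
  exact LSg.iInter fun n => (hP.prod (hBn n)).image (continuous_fst.add continuous_snd)

end

end Pool.Agent.Helper535
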