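import Pool.Agent.Helper535.R

open Set Topology Cardinal

namespace Pool.Agent.Helper535

universe u v w

/-- the function space, with the pointwise topology, is the image of an upper semicontinuous
compact valued map defined on `E` -/
def Usco (E : Type v) [TopologicalSpace E] (X : Type u) [TopologicalSpace X]
    (ζ : C(X, ℝ) → E) : Prop :=
  ∀ z : E, ∀ 𝓤 : Ultrafilter C(X, ℝ), Filter.Tendsto ζ 𝓤 (𝓝 z) →
    ∃ g : C(X, ℝ), ∀ x, Filter.Tendsto (fun f : C(X, ℝ) => f x) 𝓤 (𝓝 (g x))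

theorem Usco.restrict {E : Type v} [TopologicalSpace E] {X : Type u} [TopologicalSpace X]
    [CompactSpace X] [T2Space X] {ζ : C(X, ℝ) → E} (H : Usco E X ζ) {Z : Set X}
    (hZ : IsClosed Z) : ∃ ζ' : C(Z, ℝ) → E, Usco E Z ζ' := by
  choose ext hext using fun f : C(Z, ℝ) => ContinuousMap.exists_restrict_eq hZ f
  refine ⟨fun f => ζ (ext f), ?_⟩
  intro z 𝓤 h𝓤
  obtain ⟨g, hg⟩ := H z (𝓤.map ext) (by
    rw [Ultrafilter.coe_map, Filter.tendsto_map'_iff]; exact h𝓤)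
  refine ⟨g.restrict Z, ?_⟩
  intro x
  have h1 := hg x.1
  rw [Ultrafilter.coe_map, Filter.tendsto_map'_iff] at h1
  have h2 : (fun f : C(X, ℝ) => f x.1) ∘ ext = fun f => f x := by
    funext f
    exact congrArg (fun g : C(Z, ℝ) => g x) (hext f)
  rw [h2] at h1
  exact h1

section
variable {X : Type u} [TopologicalSpace X]

/-- basic sets of functions -/
def Box (j : Finset (X × ℚ × ℚ)) : Set C(X, ℝ) :=
  {g | ∀ t ∈ j, ((t.2.1 : ℚ) : ℝ) < g t.1 ∧ g t.1 < ((t.2.2 : ℚ) : ℝ)}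

/-- closing off condition -/
def CO {E : Type v} (ζ : C(X, ℝ) → E) (O : ℕ → Set E) (B : Set X) (M : Set C(X, ℝ)) : Prop :=
  ∀ j : Finset (X × ℚ × ℚ), (∀ t ∈ j, t.1 ∈ B) → ∀ n, (∃ g ∈ Box j, ζ g ∈ O n) →
    ∃ g ∈ M, g ∈ Box j ∧ ζ g ∈ O n

theorem CO.sep {E : Type v} [TopologicalSpace E] [CompactSpace X] [T2Space X]
    {ζ : C(X, ℝ) → E} (H : Usco E X ζ) {O : ℕ → Set E}
    (hO : TopologicalSpace.IsTopologicalBasis (range O)) {B : Set X} {M : Set C(X, ℝ)}
    (h : CO ζ O B M) : SepOn (closure B) M := by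
  classical
  intro x hx y hy hxy
  by_contra hne
  have hdis : Disjoint ({x} : Set X) {y} := by
    rw [disjoint_singleton]; exact hne
  obtain ⟨g0, h0, h1, -⟩ := exists_continuous_zero_one_of_isClosed (isClosed_singleton (x := x))
    (isClosed_singleton (x := y)) hdis
  have hx0 : g0 x = 0 := h0 rfl
  have hy1 : g0 y = 1 := h1 rfl
  let G : Set (Set C(X, ℝ)) := {s | s = M ∨ (∃ n, ζ g0 ∈ O n ∧ s = ζ ⁻¹' O n) ∨
    (∃ b ∈ B, ∃ q q' : ℚ, (q : ℝ) < g0 b ∧ g0 b < (q' : ℝ) ∧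
      s = {f : C(X, ℝ) | (q : ℝ) < f b ∧ f b < (q' : ℝ)})}
  have key : ∀ T : Finset (Set C(X, ℝ)), (T : Set (Set C(X, ℝ))) ⊆ G →
      ∃ j : Finset (X × ℚ × ℚ), (∀ t ∈ j, t.1 ∈ B) ∧ g0 ∈ Box j ∧ ∃ n, ζ g0 ∈ O n ∧
      ∀ f ∈ M, f ∈ Box j → ζ f ∈ O n → ∀ s ∈ T, f ∈ s := by
    intro T
    induction T using Finset.induction_on with
    | empty =>
      intro _
      obtain ⟨_, ⟨n, rfl⟩, hn, -⟩ := hO.exists_subset_of_mem_open (mem_univ (ζ g0)) isOpen_univ
      exact ⟨∅, by simp, by simp [Box], n, hn, by simp⟩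
    | insert s T _ ih =>
      intro hT
      rw [Finset.coe_insert, insert_subset_iff] at hT
      obtain ⟨j, hj1, hj2, n, hn, hj3⟩ := ih hT.2
      rcases hT.1 with rfl | ⟨m, hm, rfl⟩ | ⟨b, hb, q, q', hq, hq', rfl⟩
      · refine ⟨j, hj1, hj2, n, hn, ?_⟩
        intro f hf1 hf2 hf3 s hs
        rcases Finset.mem_insert.1 hs with rfl | hs
        · exact hf1
        · exact hj3 f hf1 hf2 hf3 s hs
      · obtain ⟨_, ⟨k, rfl⟩, hk, hk2⟩ := hO.exists_subset_inter (O m) ⟨m, rfl⟩ (O n) ⟨n, rfl⟩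
          (ζ g0) ⟨hm, hn⟩
        refine ⟨j, hj1, hj2, k, hk, ?_⟩
        intro f hf1 hf2 hf3 s hs
        rcases Finset.mem_insert.1 hs with rfl | hs
        · exact (hk2 hf3).1
        · exact hj3 f hf1 hf2 (hk2 hf3).2 s hs
      · refine ⟨insert (b, q, q') j, ?_, ?_, n, hn, ?_⟩
        · intro t ht
          rcases Finset.mem_insert.1 ht with rfl | ht
          · exact hb
          · exact hj1 t ht
        · intro t ht
          rcases Finset.mem_insert.1 ht with rfl | ht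
          · exact ⟨hq, hq'⟩
          · exact hj2 t ht
        · intro f hf1 hf2 hf3 s hs
          rcases Finset.mem_insert.1 hs with rfl | hs
          · exact hf2 _ (Finset.mem_insert_self _ _)
          · exact hj3 f hf1 (fun t ht => hf2 t (Finset.mem_insert_of_mem ht)) hf3 s hs
  obtain ⟨𝓤, h𝓤⟩ := Ultrafilter.exists_ultrafilter_of_finite_inter_nonempty G (by
    intro T hT
    obtain ⟨j, hj1, hj2, n, hn, hj3⟩ := key T hT
    obtain ⟨f, hf1, hf2, hf3⟩ := h j hj1 n ⟨g0, hj2, hn⟩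
    exact ⟨f, fun s hs => hj3 f hf1 hf2 hf3 s hs⟩)
  have hM : M ∈ 𝓤 := h𝓤 (Or.inl rfl)
  obtain ⟨g, hg⟩ := H (ζ g0) 𝓤 (by
    rw [hO.nhds_hasBasis.tendsto_right_iff]
    rintro _ ⟨⟨n, rfl⟩, hn⟩
    exact h𝓤 (Or.inr (Or.inl ⟨n, hn, rfl⟩)))
  have hgB : ∀ b ∈ B, (g - g0) b = 0 := by
    intro b hb
    have h2 : Filter.Tendsto (fun f : C(X, ℝ) => f b) 𝓤 (𝓝 (g0 b)) := by
      rw [tendsto_order]
      constructor
      · intro a ha
        obtain ⟨q, hq1, hq2⟩ := exists_rat_btwn ha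
        obtain ⟨q', hq'⟩ := exists_rat_gt (g0 b)
        have : {f : C(X, ℝ) | (q : ℝ) < f b ∧ f b < (q' : ℝ)} ∈ 𝓤 :=
          h𝓤 (Or.inr (Or.inr ⟨b, hb, q, q', hq2, hq', rfl⟩))
        filter_upwards [this] with f hf
        exact hq1.trans hf.1
      · intro a ha
        obtain ⟨q, hq1, hq2⟩ := exists_rat_btwn ha
        obtain ⟨q', hq'⟩ := exists_rat_lt (g0 b)
        have : {f : C(X, ℝ) | (q' : ℝ) < f b ∧ f b < (q : ℝ)} ∈ 𝓤 :=
          h𝓤 (Or.inr (Or.inr ⟨b, hb, q', q, hq', hq1, rfl⟩))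
        filter_upwards [this] with f hf
        exact hf.2.trans hq2
    have := tendsto_nhds_unique (hg b) h2
    simp [this]
  have hgx := vanish_closure hgB x hx
  have hgy := vanish_closure hgB y hy
  rw [ContinuousMap.sub_apply, hx0, sub_zero] at hgx
  rw [ContinuousMap.sub_apply, hy1] at hgy
  have e1 : ∀ᶠ f in (𝓤 : Filter C(X, ℝ)), f x < 1/2 := (hg x).eventually_lt_const (by
    rw [hgx]; norm_num)
  have e2 : ∀ᶠ f in (𝓤 : Filter C(X, ℝ)), 1/2 < f y := (hg y).eventually_const_lt (by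
    have : g y = 1 := by linarith
    rw [this]; norm_num)
  obtain ⟨f, hf1, hf2, hf3⟩ := (e1.and (e2.and hM)).exists
  have := hxy f hf3
  linarith

theorem CO.iUnion {E : Type v} {ζ : C(X, ℝ) → E} {O : ℕ → Set E} {ι : Type*} [LinearOrder ι]
    [Nonempty ι] {B : ι → Set X} {M : ι → Set C(X, ℝ)} (hB : Monotone B)
    (h : ∀ i, CO ζ O (B i) (M i)) : CO ζ O (⋃ i, B i) (⋃ i, M i) := by
  classical
  intro j hj n hex
  have : ∃ i, ∀ t ∈ j, t.1 ∈ B i := by
    clear hex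
    induction j using Finset.induction_on with
    | empty => exact ⟨Classical.arbitrary ι, by simp⟩
    | insert a j _ ih =>
      obtain ⟨i, hi⟩ := ih fun t ht => hj t (Finset.mem_insert_of_mem ht)
      obtain ⟨i', hi'⟩ := mem_iUnion.1 (hj a (Finset.mem_insert_self _ _))
      refine ⟨max i i', ?_⟩
      intro t ht
      rcases Finset.mem_insert.1 ht with rfl | ht
      · exact hB (le_max_right i i') hi'
      · exact hB (le_max_left i i') (hi t ht)
  obtain ⟨i, hi⟩ := this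
  obtain ⟨g, hg1, hg2⟩ := h i j hi n hex
  exact ⟨g, mem_iUnion.2 ⟨i, hg1⟩, hg2⟩

/-- points and functions in a set of indices -/
def Bp (S : Set (X ⊕ C(X, ℝ))) : Set X := {x | Sum.inl x ∈ S}
def Mp (S : Set (X ⊕ C(X, ℝ))) : Set C(X, ℝ) := {f | Sum.inr f ∈ S}

lemma Bp_card (S : Set (X ⊕ C(X, ℝ))) : #(Bp S) ≤ #S := by
  refine Cardinal.mk_le_of_injective (f := fun x : Bp S => (⟨Sum.inl x.1, x.2⟩ : S)) ?_
  intro x y h
  have := congrArg (fun z : S => z.1) h
  exact Subtype.ext (Sum.inl_injective this)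

lemma Mp_card (S : Set (X ⊕ C(X, ℝ))) : #(Mp S) ≤ #S := by
  refine Cardinal.mk_le_of_injective (f := fun x : Mp S => (⟨Sum.inr x.1, x.2⟩ : S)) ?_
  intro x y h
  have := congrArg (fun z : S => z.1) h
  exact Subtype.ext (Sum.inr_injective this)

/-- models -/
def Mod {E : Type v} (ζ : C(X, ℝ) → E) (O : ℕ → Set E) (S : Set (X ⊕ C(X, ℝ))) : Prop :=
  Dn Set.univ (Bp S) (Mp S) ∧ CO ζ O (Bp S) (Mp S)

theorem Mod.sUnion {E : Type v} [CompactSpace X] {ζ : C(X, ℝ) → E} {O : ℕ → Set E}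
    (𝒮 : Set (Set (X ⊕ C(X, ℝ)))) (hne : 𝒮.Nonempty) (hch : IsChain (· ⊆ ·) 𝒮)
    (h : ∀ S ∈ 𝒮, Mod ζ O S) : Mod ζ O (⋃₀ 𝒮) := by
  classical
  have hne' : Nonempty 𝒮 := hne.to_subtype
  have e1 : Bp (⋃₀ 𝒮) = ⋃ S : 𝒮, Bp S.1 := by
    ext x; simp [Bp]
  have e2 : Mp (⋃₀ 𝒮) = ⋃ S : 𝒮, Mp S.1 := by
    ext x; simp [Mp]
  have hBm : ∀ S S' : Set (X ⊕ C(X, ℝ)), S ⊆ S' → Bp S ⊆ Bp S' := fun S S' h x hx => h hx
  have hMm : ∀ S S' : Set (X ⊕ C(X, ℝ)), S ⊆ S' → Mp S ⊆ Mp S' := fun S S' h x hx => h hx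
  constructor
  · rw [e1, e2]
    apply Dn_iUnion
    · intro i j
      rcases hch.total i.2 j.2 with h | h
      · exact ⟨j, hBm _ _ h, subset_rfl, hMm _ _ h, subset_rfl⟩
      · exact ⟨i, subset_rfl, hBm _ _ h, subset_rfl, hMm _ _ h⟩
    · intro i; exact (h i.1 i.2).1
  · intro j hj n hex
    have : ∃ S ∈ 𝒮, ∀ t ∈ j, t.1 ∈ Bp S := by
      clear hex
      induction j using Finset.induction_on with
      | empty => obtain ⟨S, hS⟩ := hne; exact ⟨S, hS, by simp⟩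
      | insert a j _ ih =>
        obtain ⟨S, hS, hi⟩ := ih fun t ht => hj t (Finset.mem_insert_of_mem ht)
        obtain ⟨S', hS', hi'⟩ := hj a (Finset.mem_insert_self _ _)
        rcases hch.total hS hS' with h | h
        · refine ⟨S', hS', ?_⟩
          intro t ht
          rcases Finset.mem_insert.1 ht with rfl | ht
          · exact hi'
          · exact h (hi t ht)
        · refine ⟨S, hS, ?_⟩
          intro t ht
          rcases Finset.mem_insert.1 ht with rfl | ht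
          · exact h hi'
          · exact hi t ht
    obtain ⟨S, hS, hi⟩ := this
    obtain ⟨g, hg1, hg2⟩ := (h S hS).2 j hi n hex
    exact ⟨g, ⟨S, hS, hg1⟩, hg2⟩

theorem Mod.close {E : Type v} [CompactSpace X] (ζ : C(X, ℝ) → E) (O : ℕ → Set E)
    (S : Set (X ⊕ C(X, ℝ))) : ∃ S', S ⊆ S' ∧ Mod ζ O S' ∧ #S' ≤ max #S ℵ₀ := by
  classical
  have hw : ∀ (j : Finset (X × ℚ × ℚ)) (n : ℕ), ∃ g : C(X, ℝ), (∃ g ∈ Box j, ζ g ∈ O n) →
      g ∈ Box j ∧ ζ g ∈ O n := by
    intro j n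
    by_cases h : ∃ g ∈ Box j, ζ g ∈ O n
    · obtain ⟨g, hg⟩ := h; exact ⟨g, fun _ => hg⟩
    · exact ⟨0, fun h' => absurd h' h⟩
  choose w hw using hw
  have h1 : ∀ S : Set (X ⊕ C(X, ℝ)), ∃ C : Set X, #C ≤ max #S ℵ₀ ∧ Dn Set.univ C (Mp S) := by
    intro S
    obtain ⟨C, -, hCc, hD⟩ := lemA (Set.univ : Set X) (Mp S)
    rw [closure_univ] at hD
    exact ⟨C, hCc.trans (max_le ((Mp_card S).trans (le_max_left _ _)) (le_max_right _ _)), hD⟩
  choose C hCc hCD using h1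
  let W : Set (X ⊕ C(X, ℝ)) → Set C(X, ℝ) := fun S =>
    {f | ∃ j : Finset (X × ℚ × ℚ), (∀ t ∈ j, t.1 ∈ Bp S) ∧ ∃ n, f = w j n}
  have hW : ∀ S, #(W S) ≤ max #S ℵ₀ := by
    intro S
    let A : Set (X × ℚ × ℚ) := {t | t.1 ∈ Bp S}
    have hA : #A ≤ max #S ℵ₀ := by
      have : #A ≤ #(Bp S × ℚ × ℚ) := by
        refine Cardinal.mk_le_of_injective (f := fun t : A => ((⟨t.1.1, t.2⟩ : Bp S), t.1.2)) ?_
        rintro ⟨⟨a, b⟩, h⟩ ⟨⟨a', b'⟩, h'⟩ heq
        simp only [Prod.mk.injEq, Subtype.mk.injEq] at heq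
        apply Subtype.ext
        exact Prod.ext heq.1 heq.2
      refine this.trans ?_
      have h2 : #(Bp S × ℚ × ℚ) = #(Bp S) * ℵ₀ := by simp [Cardinal.mk_prod]
      rw [h2]
      calc #(Bp S) * ℵ₀ ≤ max #S ℵ₀ * max #S ℵ₀ :=
            mul_le_mul' ((Bp_card S).trans (le_max_left _ _)) (le_max_right _ _)
        _ = max #S ℵ₀ := Cardinal.mul_eq_self (le_max_right _ _)
    have hsub : W S ⊆ range (fun p : Finset A × ℕ =>
        w (p.1.map (Function.Embedding.subtype _)) p.2) := by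
      rintro f ⟨j, hj, n, rfl⟩
      refine ⟨(j.subtype (· ∈ A), n), ?_⟩
      simp only
      rw [Finset.subtype_map_of_mem]
      exact hj
    refine (Cardinal.mk_le_mk_of_subset hsub).trans (Cardinal.mk_range_le.trans ?_)
    have h3 : #(Finset A × ℕ) = #(Finset A) * ℵ₀ := by simp [Cardinal.mk_prod]
    rw [h3]
    calc #(Finset A) * ℵ₀ ≤ max #S ℵ₀ * max #S ℵ₀ :=
          mul_le_mul' ((mk_finset_le A).trans (max_le hA (le_max_right _ _))) (le_max_right _ _)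
      _ = max #S ℵ₀ := Cardinal.mul_eq_self (le_max_right _ _)
  let nxt : Set (X ⊕ C(X, ℝ)) → Set (X ⊕ C(X, ℝ)) := fun S =>
    S ∪ (Sum.inl '' C S ∪ Sum.inr '' W S)
  let T : ℕ → Set (X ⊕ C(X, ℝ)) := fun n => Nat.rec S (fun _ S => nxt S) n
  have hT : ∀ n, T (n+1) = nxt (T n) := fun n => rfl
  have hTmono : Monotone T := monotone_nat_of_le_succ fun n => by rw [hT]; exact subset_union_left
  have hTcard : ∀ n, #↥(T n) ≤ max #S ℵ₀ := by
    intro n
    induction n with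
    | zero => exact le_max_left _ _
    | succ n ih =>
      rw [hT]
      refine (Cardinal.mk_union_le _ _).trans ?_
      refine Cardinal.add_le_of_le (le_max_right _ _) ih ?_
      refine (Cardinal.mk_union_le _ _).trans ?_
      refine Cardinal.add_le_of_le (le_max_right _ _) ?_ ?_
      · exact Cardinal.mk_image_le.trans ((hCc _).trans (max_le ih (le_max_right _ _)))
      · exact Cardinal.mk_image_le.trans ((hW _).trans (max_le ih (le_max_right _ _)))
  refine ⟨⋃ n, T n, subset_iUnion T 0, ⟨?_, ?_⟩, iUnion_nat_card_le T (le_max_right _ _) hTcard⟩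
  · have e1 : Bp (⋃ n, T n) = ⋃ n, Bp (T n) := by
      ext x; simp [Bp]
    have e2 : Mp (⋃ n, T n) = ⋃ n, Mp (T n) := by
      ext x; simp [Mp]
    rw [e1, e2]
    have h5 : Dn Set.univ (⋃ n, Bp (T (n+1))) (⋃ n, Mp (T n)) := by
      apply Dn_iUnion
      · intro i j
        refine ⟨max i j, ?_, ?_, ?_, ?_⟩
        · intro x hx; exact hTmono (Nat.succ_le_succ (le_max_left i j)) hx
        · intro x hx; exact hTmono (Nat.succ_le_succ (le_max_right i j)) hx
        · intro x hx; exact hTmono (le_max_left i j) hx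
        · intro x hx; exact hTmono (le_max_right i j) hx
      · intro n x hx
        obtain ⟨x', hx', hf⟩ := hCD (T n) x hx
        refine ⟨x', closure_mono ?_ hx', hf⟩
        intro c hc
        show Sum.inl c ∈ T (n+1)
        rw [hT]
        exact Or.inr (Or.inl ⟨c, hc, rfl⟩)
    intro x hx
    obtain ⟨x', hx', hf⟩ := h5 x hx
    exact ⟨x', closure_mono (iUnion_subset fun n => subset_iUnion (fun n => Bp (T n)) (n+1)) hx', hf⟩
  · intro j hj n hex
    have : ∃ i, ∀ t ∈ j, t.1 ∈ Bp (T i) := by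
      clear hex
      induction j using Finset.induction_on with
      | empty => exact ⟨0, by simp⟩
      | insert a j _ ih =>
        obtain ⟨i, hi⟩ := ih fun t ht => hj t (Finset.mem_insert_of_mem ht)
        obtain ⟨i', hi'⟩ := mem_iUnion.1 (hj a (Finset.mem_insert_self _ _))
        refine ⟨max i i', ?_⟩
        intro t ht
        rcases Finset.mem_insert.1 ht with rfl | ht
        · exact hTmono (le_max_right i i') hi'
        · exact hTmono (le_max_left i i') (hi t ht)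
    obtain ⟨i, hi⟩ := this
    refine ⟨w j n, ?_, hw j n hex⟩
    refine mem_iUnion.2 ⟨i+1, ?_⟩
    rw [hT]
    exact Or.inr (Or.inr ⟨_, ⟨j, hi, n, rfl⟩, rfl⟩)

end

end Pool.Agent.Helper535
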