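import Pool.Agent.Helper535.S

open Set Topology Cardinal

namespace Pool.Agent.Helper535

universe u v w

/-- gluing of families along a chain of retractions -/
theorem glue_retr {E : Type v} [TopologicalSpace E]
    {X : Type u} [TopologicalSpace X] [CompactSpace X] [T2Space X] {ζ : C(X, ℝ) → E}
    (H : Usco E X ζ)
    {ι : Type u} [LinearOrder ι] [WellFoundedLT ι] [Nonempty ι]
    (B : ι → Set X) (hB : Monotone B) (r : ι → C(X, X))
    (hr1 : ∀ i x, r i x ∈ closure (B i)) (hr3 : ∀ i, ∀ x ∈ closure (B i), r i x = x)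
    (K0 : ∀ k i x, k ≤ i → r k (r i x) = r k x)
    (hlimB : ∀ i, Order.IsSuccLimit i → ∀ b ∈ B i, ∃ j < i, b ∈ B j)
    (hlimr : ∀ i, Order.IsSuccLimit i → ∀ x y, (∀ j < i, r j x = r j y) → r i x = r i y)
    (hdense : Dense (⋃ i, B i)) (hsep : ∀ x y, (∀ i, r i x = r i y) → x = y)
    (hst : ∀ i, GS (ℕ → E) (closure (B i))) :
    GS (ℕ → E) X := by
  classical
  choose Q g c G hG using hst
  let rc : ∀ i, C(X, closure (B i)) := fun i => ⟨fun x => ⟨r i x, hr1 i x⟩,
    (r i).continuous.subtype_mk _⟩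
  have hrc : ∀ i x y, rc i x = rc i y → r i x = r i y := by
    intro i x y hxy
    exact congrArg Subtype.val hxy
  have hrc' : ∀ i x y, r i x = r i y → rc i x = rc i y := by
    intro i x y hxy
    exact Subtype.ext hxy
  obtain ⟨i0, -, hi0⟩ := WellFounded.has_min (wellFounded_lt (α := ι)) Set.univ univ_nonempty
  let J : Type u := {p : ι × ι // p.1 ⋖ p.2}
  let I2 : Type u := Σ p : J, Q p.1.2
  let ff : I2 → C(X, ℝ) := fun q => (1/2 : ℝ) • ((g q.1.1.2 q.2).comp (rc q.1.1.2) -
    ((g q.1.1.2 q.2).comp (rc q.1.1.2)).comp (r q.1.1.1))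
  have hff : ∀ q x, ff q x = 1/2 * (g q.1.1.2 q.2 (rc q.1.1.2 x) -
      g q.1.1.2 q.2 (rc q.1.1.2 (r q.1.1.1 x))) := fun q x => rfl
  -- finiteness of the set of relevant jumps
  have hjump : ∀ x z ε, 0 < ε → ∃ O ∈ 𝓝 z, {p : J | ∃ s : Q p.1.2, ζ (ff ⟨p, s⟩) ∈ O ∧
      ε ≤ |ff ⟨p, s⟩ x|}.Finite := by
    intro x z ε hε
    by_contra hcon
    push Not at hcon
    let φ : I2 → E × J := fun q => (ζ (ff q), q.1)
    let L : Filter I2 := Filter.comap φ (𝓝 z ×ˢ Filter.cofinite) ⊓
      Filter.principal {q | ε ≤ |ff q x|}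
    have hL : L.NeBot := by
      rw [Filter.inf_principal_neBot_iff]
      intro U hU
      obtain ⟨V, hV, hVU⟩ := Filter.mem_comap.1 hU
      obtain ⟨O, hO, W, hW, hOW⟩ := Filter.mem_prod_iff.1 hV
      have h1 := hcon O hO
      obtain ⟨p, hp1, hp2⟩ := (h1.diff hW).nonempty
      obtain ⟨s, hs1, hs2⟩ := hp1
      rw [mem_compl_iff, not_not] at hp2
      exact ⟨⟨p, s⟩, hVU (hOW ⟨hs1, hp2⟩), hs2⟩
    let 𝓥 : Ultrafilter I2 := Ultrafilter.of L
    have h𝓥 : (𝓥 : Filter I2) ≤ L := Ultrafilter.of_le L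
    have t1 : Filter.Tendsto (fun q => ζ (ff q)) 𝓥 (𝓝 z) := by
      have : Filter.Tendsto φ 𝓥 (𝓝 z ×ˢ Filter.cofinite) :=
        Filter.tendsto_comap.mono_left (h𝓥.trans inf_le_left)
      exact Filter.tendsto_fst.comp this
    have t2 : ∀ p : J, {q : I2 | q.1 ≠ p} ∈ 𝓥 := by
      intro p
      have : Filter.Tendsto φ 𝓥 (𝓝 z ×ˢ Filter.cofinite) :=
        Filter.tendsto_comap.mono_left (h𝓥.trans inf_le_left)
      have h2 := Filter.tendsto_snd.comp this
      exact h2 (by simp : ({p}ᶜ : Set J) ∈ Filter.cofinite)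
    have t3 : {q | ε ≤ |ff q x|} ∈ 𝓥 := h𝓥 (Filter.mem_inf_of_right (Filter.mem_principal_self _))
    obtain ⟨f, hf⟩ := H z (𝓥.map ff) (by
      rw [Ultrafilter.coe_map, Filter.tendsto_map'_iff]; exact t1)
    have hf' : ∀ y, Filter.Tendsto (fun q => ff q y) 𝓥 (𝓝 (f y)) := by
      intro y
      have := hf y
      rw [Ultrafilter.coe_map, Filter.tendsto_map'_iff] at this
      exact this
    have hfx : ε ≤ |f x| := by
      have h1 : Filter.Tendsto (fun q => |ff q x|) 𝓥 (𝓝 (|f x|)) := (hf' x).abs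
      exact ge_of_tendsto h1 t3
    -- vanishing on bounded parts
    have hvan : ∀ k, {q : I2 | k < q.1.1.2} ∈ 𝓥 → ∀ y ∈ closure (B k), f y = 0 := by
      intro k hk y hy
      have h1 : ∀ᶠ q in (𝓥 : Filter I2), ff q y = 0 := by
        filter_upwards [hk] with q hq
        rw [hff]
        have h2 : k ≤ q.1.1.1 := q.1.2.le_of_lt hq
        rw [hr3 _ y (closure_mono (hB h2) hy), sub_self, mul_zero]
      have h2 : Filter.Tendsto (fun q => ff q y) 𝓥 (𝓝 0) :=
        Filter.Tendsto.congr' (h1.mono fun q hq => hq.symm) tendsto_const_nhds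
      exact tendsto_nhds_unique (hf' y) h2
    by_cases hex : ∃ i, {q : I2 | q.1.1.2 ≤ i} ∈ 𝓥
    · obtain ⟨i, hi, hmin⟩ := WellFounded.has_min (wellFounded_lt (α := ι))
        {i | {q : I2 | q.1.1.2 ≤ i} ∈ 𝓥} hex
      have hlt : ∀ k < i, {q : I2 | k < q.1.1.2} ∈ 𝓥 := by
        intro k hk
        have h1 : {q : I2 | q.1.1.2 ≤ k} ∉ 𝓥 := fun h => hmin k h hk
        have h2 := Ultrafilter.compl_mem_iff_notMem.2 h1
        have h3 : {q : I2 | q.1.1.2 ≤ k}ᶜ = {q : I2 | k < q.1.1.2} := by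
          ext q; simp
        rwa [h3] at h2
      rcases order_tri i with hm | ⟨j, hj⟩ | hl
      · obtain ⟨q, hq⟩ := (𝓥.neBot.nonempty_of_mem hi)
        have h1 : q.1.1.1 < i := q.1.2.lt.trans_le hq
        exact absurd (hm h1.le) (not_le.2 h1)
      · have h1 := hlt j hj.lt
        have h2 := t2 ⟨(j, i), hj⟩
        obtain ⟨q, ⟨hq1, hq2⟩, hq3⟩ := 𝓥.neBot.nonempty_of_mem
          (Filter.inter_mem (Filter.inter_mem hi h1) h2)
        apply hq3
        have e1 : q.1.1.2 = i := by
          apply le_antisymm hq1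
          by_contra hcon'
          push Not at hcon'
          exact hj.2 hq2 hcon'
        apply Subtype.ext
        have e2 : q.1.1.1 = j := by
          have := q.1.2
          rw [e1] at this
          exact this.unique_left hj
        exact Prod.ext e2 e1
      · have h0 : f (r i x) = 0 := by
          apply vanish_closure _ _ (hr1 i x)
          intro b hb
          obtain ⟨j, hji, hbj⟩ := hlimB i hl b hb
          exact hvan j (hlt j hji) b (subset_closure hbj)
        have h1 : f (r i x) = f x := by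
          have h2 : ∀ᶠ q in (𝓥 : Filter I2), ff q (r i x) = ff q x := by
            filter_upwards [hi] with q hq
            rw [hff, hff]
            have e1 : rc q.1.1.2 (r i x) = rc q.1.1.2 x := hrc' _ _ _ (K0 _ _ _ hq)
            have e2 : r q.1.1.1 (r i x) = r q.1.1.1 x := K0 _ _ _ (q.1.2.le.trans hq)
            rw [e1, e2]
          exact tendsto_nhds_unique ((hf' (r i x)).congr' h2) (hf' x)
        rw [h1] at h0
        rw [h0, abs_zero] at hfx
        linarith
    · push Not at hex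
      have hlt : ∀ k, {q : I2 | k < q.1.1.2} ∈ 𝓥 := by
        intro k
        have h2 := Ultrafilter.compl_mem_iff_notMem.2 (hex k)
        have h3 : {q : I2 | q.1.1.2 ≤ k}ᶜ = {q : I2 | k < q.1.1.2} := by
          ext q; simp
        rwa [h3] at h2
      have h0 : f x = 0 := by
        apply vanish_closure _ _ (hdense x)
        intro b hb
        obtain ⟨j, hbj⟩ := mem_iUnion.1 hb
        exact hvan j (hlt j) b (subset_closure hbj)
      rw [h0, abs_zero] at hfx
      linarith
  refine ⟨Q i0 ⊕ I2, Sum.elim (fun s => (g i0 s).comp (rc i0)) ff,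
    Sum.elim (c i0) (fun q => scons (ζ (ff q)) (c q.1.1.2 q.2)), ⟨?_, ?_⟩, ?_⟩
  · rintro (s | q) x
    · exact (G i0).bdd s _
    · show |ff q x| ≤ 1
      rw [hff]
      have h1 := abs_le.1 ((G q.1.1.2).bdd q.2 (rc q.1.1.2 x))
      have h2 := abs_le.1 ((G q.1.1.2).bdd q.2 (rc q.1.1.2 (r q.1.1.1 x)))
      rw [abs_le]
      constructor <;> linarith [h1.1, h1.2, h2.1, h2.2]
  · intro x z ε hε
    obtain ⟨O0, hO0, hf0⟩ := (G i0).fin (rc i0 x) z ε hε
    obtain ⟨O1, hO1, hf1⟩ := hjump x (z 0) ε hε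
    let P1 : Set J := {p : J | ∃ s : Q p.1.2, ζ (ff ⟨p, s⟩) ∈ O1 ∧ ε ≤ |ff ⟨p, s⟩ x|}
    choose O hO hf using fun p : J => (G p.1.2).fin (rc p.1.2 x) (fun n => z (n+1)) ε hε
    choose O' hO' hf' using fun p : J => (G p.1.2).fin (rc p.1.2 (r p.1.1 x))
      (fun n => z (n+1)) ε hε
    have hO2 : (⋂ p ∈ P1, O p ∩ O' p) ∈ 𝓝 (fun n => z (n+1)) := by
      rw [Filter.biInter_mem hf1]
      exact fun p _ => Filter.inter_mem (hO p) (hO' p)
    refine ⟨O0 ∩ {z' : ℕ → E | z' 0 ∈ O1 ∧ (fun n => z' (n+1)) ∈ ⋂ p ∈ P1, O p ∩ O' p},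
      Filter.inter_mem hO0 (scons_nhds z hO1 hO2), ?_⟩
    have hfin2 : (⋃ p ∈ P1, (fun s : Q p.1.2 => (⟨p, s⟩ : I2)) ''
        ({s | c p.1.2 s ∈ O p ∧ ε ≤ |g p.1.2 s (rc p.1.2 x)|} ∪
        {s | c p.1.2 s ∈ O' p ∧ ε ≤ |g p.1.2 s (rc p.1.2 (r p.1.1 x))|})).Finite :=
      hf1.biUnion fun p _ => ((hf p).union (hf' p)).image _
    apply ((hf0.image Sum.inl).union (hfin2.image Sum.inr)).subset
    rintro (s | q) ⟨⟨hs1, hs2, hs3⟩, hs4⟩
    · exact Or.inl ⟨s, ⟨hs1, hs4⟩, rfl⟩
    · refine Or.inr ⟨q, ?_, rfl⟩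
      have hs5 : ε ≤ |ff q x| := hs4
      have hq : q.1 ∈ P1 := ⟨q.2, hs2, hs5⟩
      have hq2 : c q.1.1.2 q.2 ∈ O q.1 ∩ O' q.1 := by
        have : (c q.1.1.2 q.2) ∈ ⋂ p ∈ P1, O p ∩ O' p := hs3
        simp only [mem_iInter] at this
        exact this q.1 hq
      simp only [mem_iUnion]
      refine ⟨q.1, hq, q.2, ?_, rfl⟩
      rw [hff, abs_mul] at hs5
      have h6 := abs_sub (g q.1.1.2 q.2 (rc q.1.1.2 x)) (g q.1.1.2 q.2 (rc q.1.1.2 (r q.1.1.1 x)))
      have h7 : |(1/2 : ℝ)| = 1/2 := abs_of_pos (by norm_num)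
      rw [h7] at hs5
      by_cases h8 : ε ≤ |g q.1.1.2 q.2 (rc q.1.1.2 x)|
      · exact Or.inl ⟨hq2.1, h8⟩
      · right
        refine ⟨hq2.2, ?_⟩
        push Not at h8
        linarith
  · intro x y hxy
    by_contra hne
    have hex : ∃ i, r i x ≠ r i y := by
      by_contra hall'
      push Not at hall'
      exact hne (hsep x y hall')
    obtain ⟨i, hi, hmin⟩ := WellFounded.has_min (wellFounded_lt (α := ι)) {i | r i x ≠ r i y} hex
    rcases order_tri i with hm | ⟨j, hj⟩ | hl
    · have : i = i0 := by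
        apply le_antisymm
        · by_contra hlt
          push Not at hlt
          exact absurd (hm hlt.le) (not_le.2 hlt)
        · by_contra hlt
          push Not at hlt
          exact hi0 i (mem_univ i) hlt
      subst this
      apply hi
      apply hrc
      apply hG
      intro s
      exact hxy (Sum.inl s)
    · have hjeq : r j x = r j y := by
        by_contra hne'
        exact hmin j hne' hj.lt
      apply hi
      apply hrc
      apply hG
      intro q
      have h3 : ff ⟨⟨(j, i), hj⟩, q⟩ x = ff ⟨⟨(j, i), hj⟩, q⟩ y := hxy (Sum.inr _)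
      rw [hff, hff] at h3
      simp only [hjeq] at h3
      linarith
    · apply hi
      apply hlimr i hl
      intro j hji
      by_contra hne'
      exact hmin j hne' hji

theorem usco_aux {E : Type v} [TopologicalSpace E] [SecondCountableTopology E]
    (kap : Cardinal.{u}) : ∀ (X : Type u) [TopologicalSpace X] [CompactSpace X] [T2Space X]
      (ζ : C(X, ℝ) → E), Usco E X ζ → ∀ D : Set X, Dense D → #D = kap → GS (ℕ → E) X := by
  classical
  induction kap using WellFoundedLT.induction with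
  | ind kap ih =>
    intro X _ _ _ ζ H D hD hDk
    obtain ⟨O, hOr⟩ := (TopologicalSpace.countable_countableBasis E).exists_eq_range (by
      obtain ⟨s, hs, -⟩ := (TopologicalSpace.isBasis_countableBasis E).exists_subset_of_mem_open
        (mem_univ (ζ 0)) isOpen_univ
      exact ⟨s, hs⟩)
    have hO : TopologicalSpace.IsTopologicalBasis (range O) := by
      rw [← hOr]; exact TopologicalSpace.isBasis_countableBasis E
    have hgood : ∀ S : Set (X ⊕ C(X, ℝ)), Mod ζ O S → Good (Bp S) (Mp S) :=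
      fun S hS => ⟨hS.1, hS.2.sep H hO⟩
    rcases le_or_gt kap ℵ₀ with hk | hk
    · obtain ⟨S, hS1, hS2, hS3⟩ := Mod.close ζ O (Sum.inl '' D)
      have hSc : #S ≤ ℵ₀ := hS3.trans (max_le (Cardinal.mk_image_le.trans (hDk.le.trans hk)) le_rfl)
      have hB : closure (Bp S) = Set.univ := by
        apply Dense.closure_eq
        apply hD.mono
        intro x hx
        exact hS1 ⟨x, hx, rfl⟩
      have h1 := (hgood S hS2).2
      rw [hB] at h1
      exact GS_of_countable (fun _ => ζ 0)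
        (Cardinal.le_aleph0_iff_set_countable.1 ((Mp_card S).trans hSc)) h1
    · obtain ⟨ι, _, _, hιne, S, hSmono, hP, hScard, hSlim, hSD⟩ := chain_exists
        (T := X ⊕ C(X, ℝ)) (kap := kap) ℵ₀ le_rfl hk (Mod ζ O)
        (fun 𝒮 h1 h2 h3 => Mod.sUnion 𝒮 h1 h2 h3)
        (fun N _ => Mod.close ζ O N) (Sum.inl '' D) (Cardinal.mk_image_le.trans hDk.le)
      choose r hr1 hr2 hr3 using fun i => (hgood _ (hP i)).retraction
      have hSep : ∀ i, SepOn (closure (Bp (S i))) (Mp (S i)) := fun i => (hgood _ (hP i)).2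
      have hBm : Monotone fun i => Bp (S i) := fun i j hij x hx => hSmono hij hx
      have hMm : Monotone fun i => Mp (S i) := fun i j hij x hx => hSmono hij hx
      have hdense : Dense (⋃ i, Bp (S i)) := by
        apply hD.mono
        intro x hx
        obtain ⟨i, hi⟩ := mem_iUnion.1 (hSD ⟨x, hx, rfl⟩)
        exact mem_iUnion.2 ⟨i, hi⟩
      apply glue_retr H (fun i => Bp (S i)) hBm r hr1 hr3
      · intro k i x hki
        apply hSep k _ (hr1 k _) _ (hr1 k _)
        intro f hf
        rw [hr2 k _ f hf, hr2 k _ f hf, hr2 i _ f (hMm hki hf)]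
      · intro i hi b hb
        obtain ⟨j, hj, hbj⟩ := hSlim i hi _ hb
        exact ⟨j, hj, hbj⟩
      · intro i hi x y hxy
        apply hSep i _ (hr1 i _) _ (hr1 i _)
        intro f hf
        obtain ⟨j, hj, hfj⟩ := hSlim i hi _ hf
        rw [hr2 i _ f hf, hr2 i _ f hf, ← hr2 j x f hfj, ← hr2 j y f hfj, hxy j hj]
      · exact hdense
      · intro x y hxy
        have h1 : Mod ζ O (⋃₀ range S) := by
          apply Mod.sUnion _ (range_nonempty S)
          · rintro _ ⟨i, rfl⟩ _ ⟨j, rfl⟩ _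
            rcases le_total i j with h | h
            · exact Or.inl (hSmono h)
            · exact Or.inr (hSmono h)
          · rintro _ ⟨i, rfl⟩; exact hP i
        have h2 := (hgood _ h1).2
        have e1 : Bp (⋃₀ range S) = ⋃ i, Bp (S i) := by
          ext x; simp [Bp]
        rw [e1, hdense.closure_eq] at h2
        apply h2 x (mem_univ x) y (mem_univ y)
        rintro f ⟨_, ⟨i, rfl⟩, hf⟩
        rw [← hr2 i x f hf, ← hr2 i y f hf, hxy i]
      · intro i
        have : CompactSpace (closure (Bp (S i))) :=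
          isCompact_iff_compactSpace.1 isClosed_closure.isCompact
        obtain ⟨ζ', H'⟩ := H.restrict (isClosed_closure (s := Bp (S i)))
        let DY : Set (closure (Bp (S i))) := {y | y.1 ∈ Bp (S i)}
        have hDY : Dense DY := by
          intro y
          rw [closure_subtype]
          have : ((↑) : closure (Bp (S i)) → X) '' DY = Bp (S i) := by
            ext x
            constructor
            · rintro ⟨y, hy, rfl⟩; exact hy
            · intro hx; exact ⟨⟨x, subset_closure hx⟩, hx, rfl⟩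
          rw [this]; exact y.2
        have hc : #DY ≤ #(Bp (S i)) := by
          refine Cardinal.mk_le_of_injective (f := fun y : DY => (⟨y.1.1, y.2⟩ : Bp (S i))) ?_
          intro y z h
          have h' : y.1.1 = z.1.1 := congrArg (fun t : Bp (S i) => t.1) h
          exact Subtype.ext (Subtype.ext h')
        exact ih #DY ((hc.trans (Bp_card _)).trans_lt (hScard i)) (closure (Bp (S i))) ζ' H' DY
          hDY rfl

theorem Usco.gs {E : Type v} [TopologicalSpace E] [SecondCountableTopology E]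
    {X : Type u} [TopologicalSpace X] [CompactSpace X] [T2Space X]
    {ζ : C(X, ℝ) → E} (H : Usco E X ζ) : GS (ℕ → E) X :=
  usco_aux _ X ζ H Set.univ dense_univ rfl

end Pool.Agent.Helper535
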