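import Pool.Agent.Helper535.V

open Set Topology Cardinal

namespace Pool.Agent.Helper535

universe u v w

/-- the conclusion of the definition of Lindelof Sigma spaces, for sets of functions -/
theorem LSg.perfect {K : Type u} [TopologicalSpace K] [T35Space K] {A : Set K} (hA : LSg A) :
    ∃ (P : Type u) (_ : TopologicalSpace P) (M : Type u) (_ : TopologicalSpace M),
      T35Space P ∧ TopologicalSpace.MetrizableSpace M ∧ TopologicalSpace.SeparableSpace M ∧
      (∃ p : P → M, Continuous p ∧ IsClosedMap p ∧ Function.Surjective p ∧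
        ∀ m, IsCompact (p ⁻¹' {m})) ∧
      ∃ q : P → A, Continuous q ∧ Function.Surjective q := by
  classical
  obtain ⟨𝓒, a1, a2, a3, a4⟩ := hA
  rcases A.eq_empty_or_nonempty with rfl | hne
  · refine ⟨PEmpty, ⊥, PEmpty, ⊥, ?_, ?_, ?_, ⟨id, continuous_id, IsClosedMap.id,
      Function.surjective_id, fun m => m.elim⟩, fun x => x.elim, ?_, ?_⟩
    · letI : TopologicalSpace PEmpty.{u+1} := ⊥
      haveI : DiscreteTopology PEmpty.{u+1} := ⟨rfl⟩
      infer_instance
    · letI : TopologicalSpace PEmpty.{u+1} := ⊥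
      haveI : DiscreteTopology PEmpty.{u+1} := ⟨rfl⟩
      infer_instance
    · letI : TopologicalSpace PEmpty.{u+1} := ⊥
      haveI : DiscreteTopology PEmpty.{u+1} := ⟨rfl⟩
      infer_instance
    · exact continuous_bot
    · rintro ⟨x, hx⟩; exact absurd hx (notMem_empty x)
  have hCne : 𝓒.Nonempty := by
    obtain ⟨a, ha⟩ := hne
    obtain ⟨C, hC, -⟩ := a3 a ha
    exact ⟨C, hC⟩
  obtain ⟨N, hN⟩ := a1.exists_eq_range hCne
  let z : A → (ULift.{u} ℕ → Bool) := fun a n => decide (a.1 ∈ N n.down)
  let M : Type u := range z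
  let P : Type u := {w : M × K // ∀ n, w.1.1 n = true → w.2 ∈ N n.down}
  have hsep : ∀ (a : A) (b : K), (∀ n, a.1 ∈ N n → b ∈ N n) → b ∈ A := by
    intro a b hab
    by_contra hb
    obtain ⟨C, hC, h1, h2⟩ := a4 a.1 a.2 b hb
    rw [hN] at hC
    obtain ⟨n, rfl⟩ := hC
    exact h2 (hab n h1)
  have hcl : ∀ n, IsClosed (N n) := fun n => a2 _ (by rw [hN]; exact ⟨n, rfl⟩)
  let p : P → M := fun w => w.1.1
  have hpc : Continuous p := continuous_fst.comp continuous_subtype_val
  have hproper : IsProperMap p := by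
    rw [isProperMap_iff_ultrafilter]
    refine ⟨hpc, ?_⟩
    rintro 𝓤 ⟨_, a, rfl⟩ h𝓤
    have h1 : ∀ n, a.1 ∈ N n → {w : P | w.1.2 ∈ N n} ∈ 𝓤 := by
      intro n hn
      have h2 : Filter.Tendsto (fun w : P => w.1.1.1 ⟨n⟩) 𝓤 (𝓝 (z a ⟨n⟩)) := by
        have h3 : Continuous (fun m : M => m.1 (⟨n⟩ : ULift.{u} ℕ)) :=
          (continuous_apply _).comp continuous_subtype_val
        exact (h3.tendsto _).comp h𝓤
      have h4 : z a ⟨n⟩ = true := by simp [z, hn]
      rw [h4, nhds_discrete, Filter.tendsto_pure] at h2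
      filter_upwards [h2] with w hw
      exact w.2 ⟨n⟩ hw
    obtain ⟨C, hC, h5, h6⟩ := a3 a.1 a.2
    rw [hN] at hC
    obtain ⟨n0, rfl⟩ := hC
    obtain ⟨k, hk, hle⟩ := h6.ultrafilter_le_nhds (𝓤.map fun w : P => w.1.2) (by
      rw [Filter.le_principal_iff]
      exact h1 n0 h5)
    have hkn : ∀ n, a.1 ∈ N n → k ∈ N n := by
      intro n hn
      exact (hcl n).mem_of_tendsto (f := fun w : P => w.1.2) (b := 𝓤) hle (h1 n hn)
    refine ⟨⟨(⟨z a, a, rfl⟩, k), ?_⟩, rfl, ?_⟩
    · intro n hn
      apply hkn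
      simpa [z] using hn
    · rw [nhds_subtype_eq_comap, ← Filter.map_le_iff_le_comap, nhds_prod_eq]
      have h7 : Filter.Tendsto (fun w : P => w.1.1) 𝓤 (𝓝 (⟨z a, a, rfl⟩ : M)) := h𝓤
      have h8 : Filter.Tendsto (fun w : P => w.1.2) 𝓤 (𝓝 k) := hle
      exact h7.prodMk h8
  have hproper' := isProperMap_iff_isClosedMap_and_compact_fibers.1 hproper
  have hP : T35Space P := by
    have : CompletelyRegularSpace (M × K) := inferInstance
    have h1 : CompletelyRegularSpace P := inferInstance
    have h2 : T1Space P := inferInstance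
    exact { h1, h2 with }
  have hM : TopologicalSpace.MetrizableSpace M := inferInstance
  have hMs : TopologicalSpace.SeparableSpace M := inferInstance
  refine ⟨P, inferInstance, M, inferInstance, hP, hM, hMs,
    ⟨p, hpc, hproper'.2.1, ?_, hproper'.2.2⟩, ?_⟩
  · rintro ⟨_, a, rfl⟩
    refine ⟨⟨(⟨z a, a, rfl⟩, a.1), ?_⟩, rfl⟩
    intro n hn
    simpa [z] using hn
  · refine ⟨fun w => ⟨w.1.2, ?_⟩, ?_, ?_⟩
    · obtain ⟨⟨⟨_, a, rfl⟩, k⟩, hk⟩ := w
      apply hsep a
      intro n hn
      exact hk ⟨n⟩ (by simp [z, hn])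
    · exact (continuous_snd.comp continuous_subtype_val).subtype_mk _
    · intro a
      refine ⟨⟨(⟨z a, a, rfl⟩, a.1), ?_⟩, rfl⟩
      intro n hn
      simpa [z] using hn

/-- from perfect preimages of separable metrizable spaces -/
theorem usco_of_perfect {X : Type u} [TopologicalSpace X] {P M : Type u} [TopologicalSpace P]
    [TopologicalSpace M] [TopologicalSpace.MetrizableSpace M] [TopologicalSpace.SeparableSpace M]
    (p : P → M) (hp1 : Continuous p) (hp2 : IsClosedMap p) (hp3 : ∀ m, IsCompact (p ⁻¹' {m}))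
    (q : P → {g : X → ℝ // Continuous g}) (hq1 : Continuous q) (hq2 : Function.Surjective q) :
    ∃ (E : Type u) (_ : TopologicalSpace E) (_ : SecondCountableTopology E) (_ : Nonempty E)
      (ζ : C(X, ℝ) → E), Usco E X ζ := by
  let c : C(X, ℝ) → {g : X → ℝ // Continuous g} := fun f => ⟨f, f.continuous⟩
  choose w hw using hq2
  have hpr : IsProperMap p := isProperMap_iff_isClosedMap_and_compact_fibers.2 ⟨hp1, hp2, hp3⟩
  rw [isProperMap_iff_ultrafilter] at hpr
  have hsc : SecondCountableTopology M := by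
    letI := TopologicalSpace.metrizableSpaceMetric M
    exact UniformSpace.secondCountable_of_separable M
  refine ⟨M, inferInstance, hsc, ⟨p (w (c 0))⟩, fun f => p (w (c f)), ?_⟩
  intro z 𝓤 h𝓤
  obtain ⟨x, -, hx⟩ := hpr.2 (𝒰 := 𝓤.map fun f => w (c f)) (y := z) (by
    rw [Ultrafilter.coe_map, Filter.tendsto_map'_iff]; exact h𝓤)
  refine ⟨⟨(q x).1, (q x).2⟩, ?_⟩
  intro y
  have h1 : Filter.Tendsto (fun f => w (c f)) 𝓤 (𝓝 x) := hx
  have h2 : Continuous (fun v : P => (q v).1 y) :=
    (continuous_apply y).comp (continuous_subtype_val.comp hq1)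
  have h3 := (h2.tendsto x).comp h1
  have h4 : ((fun v : P => (q v).1 y) ∘ fun f => w (c f)) = fun f : C(X, ℝ) => f y := by
    funext f
    show (q (w (c f))).1 y = f y
    rw [hw]
  rw [h4] at h3
  exact h3

/-- passing to continuous images -/
theorem LSg.image_space {X Z : Type u} [TopologicalSpace X] [TopologicalSpace Z] [CompactSpace X]
    [T2Space Z] (h : LSg {f : X → ℝ | Continuous f}) (g : X → Z) (hg : Continuous g)
    (hs : Function.Surjective g) : LSg {f : Z → ℝ | Continuous f} := by
  have hcZ : CompactSpace Z := by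
    constructor
    have := (isCompact_univ (X := X)).image hg
    rwa [image_univ, hs.range_eq] at this
  have hq : IsQuotientMap g := hg.isClosedMap.isQuotientMap hg hs
  obtain ⟨𝓒, a1, a2, a3, a4⟩ := h
  let φ : (Z → ℝ) → (X → ℝ) := fun u x => u (g x)
  have hφ : Continuous φ := continuous_pi fun x => continuous_apply (g x)
  have hiff : ∀ u : Z → ℝ, Continuous u ↔ Continuous (φ u) := by
    intro u
    exact hq.continuous_iff
  refine ⟨(fun C => φ ⁻¹' C) '' 𝓒 ∪ range (fun n : ℕ => Set.pi Set.univ fun _ => Icc (-(n:ℝ)) n),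
    (a1.image _).union (countable_range _), ?_, ?_, ?_⟩
  · rintro C (⟨C, hC, rfl⟩ | ⟨n, rfl⟩)
    · exact (a2 C hC).preimage hφ
    · exact isClosed_set_pi fun _ _ => isClosed_Icc
  · intro u hu
    have hu' : Continuous u := hu
    obtain ⟨n, hn⟩ := exists_nat_ge ‖(⟨u, hu'⟩ : C(Z, ℝ))‖
    refine ⟨_, Or.inr ⟨n, rfl⟩, ?_, isCompact_univ_pi fun _ => isCompact_Icc⟩
    intro z _
    have := ((⟨u, hu'⟩ : C(Z, ℝ)).norm_coe_le_norm z).trans hn
    exact abs_le.1 this
  · intro u hu v hv
    obtain ⟨C, hC, h1, h2⟩ := a4 (φ u) ((hiff u).1 hu) (φ v) (fun h => hv ((hiff v).2 h))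
    exact ⟨φ ⁻¹' C, Or.inl ⟨C, hC, rfl⟩, h1, h2⟩

/-- the dense metrizable subspace -/
theorem GS.dense_metrizable {X : Type u} [TopologicalSpace X] [CompactSpace X] [T2Space X]
    {E : Type v} [TopologicalSpace E] [SecondCountableTopology E] (hX : GS E X) :
    ∃ D : Set X, Dense D ∧ TopologicalSpace.MetrizableSpace D := by
  classical
  -- make the family non-negative
  obtain ⟨S0, h0, e0, H0, hsep0⟩ := hX
  let h : S0 ⊕ S0 → C(X, ℝ) := Sum.elim (fun s => h0 s ⊔ 0) (fun s => (-h0 s) ⊔ 0)
  let e : S0 ⊕ S0 → E := Sum.elim e0 e0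
  have hval1 : ∀ s x, h (Sum.inl s) x = max (h0 s x) 0 := fun s x => rfl
  have hval2 : ∀ s x, h (Sum.inr s) x = max (-h0 s x) 0 := fun s x => rfl
  have hnn : ∀ s x, 0 ≤ h s x := by
    rintro (s | s) x
    · rw [hval1]; exact le_max_right _ _
    · rw [hval2]; exact le_max_right _ _
  have hfin : ∀ x z ε, 0 < ε → ∃ O ∈ 𝓝 z, {s | e s ∈ O ∧ ε ≤ h s x}.Finite := by
    intro x z ε hε
    obtain ⟨O, hO, hf⟩ := H0.fin x z ε hε
    refine ⟨O, hO, ?_⟩
    apply ((hf.image Sum.inl).union (hf.image Sum.inr)).subset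
    rintro (s | s) ⟨hs1, hs2⟩
    · refine Or.inl ⟨s, ⟨hs1, ?_⟩, rfl⟩
      rw [hval1] at hs2
      rcases le_max_iff.1 hs2 with h | h
      · exact h.trans (le_abs_self _)
      · linarith
    · refine Or.inr ⟨s, ⟨hs1, ?_⟩, rfl⟩
      rw [hval2] at hs2
      rcases le_max_iff.1 hs2 with h | h
      · exact h.trans (neg_le_abs _)
      · linarith
  have hsep : ∀ x y, (∀ s, h s x = h s y) → x = y := by
    intro x y hxy
    apply hsep0
    intro s
    have h1 := hxy (Sum.inl s)
    have h2 := hxy (Sum.inr s)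
    rw [hval1, hval1] at h1
    rw [hval2, hval2] at h2
    rcases le_total 0 (h0 s x) with h3 | h3 <;> rcases le_total 0 (h0 s y) with h4 | h4
    · rwa [max_eq_left h3, max_eq_left h4] at h1
    · rw [max_eq_left h3, max_eq_right h4] at h1
      rw [max_eq_right (by linarith), max_eq_left (by linarith)] at h2
      linarith
    · rw [max_eq_right h3, max_eq_left h4] at h1
      rw [max_eq_left (by linarith), max_eq_right (by linarith)] at h2
      linarith
    · rw [max_eq_left (by linarith), max_eq_left (by linarith)] at h2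
      linarith
  -- the countable base
  have hB := TopologicalSpace.isBasis_countableBasis E
  have hBc : Countable (TopologicalSpace.countableBasis E) :=
    (TopologicalSpace.countable_countableBasis E)
  let I : Type _ := TopologicalSpace.countableBasis E × ℕ × ℚ
  let F : TopologicalSpace.countableBasis E → ℚ → X → Set (S0 ⊕ S0) := fun O q x =>
    {s | e s ∈ O.1 ∧ (q : ℝ) < h s x}
  let Y : TopologicalSpace.countableBasis E → ℕ → ℚ → Set X := fun O k q =>
    {x | ¬ ∃ t : Finset (S0 ⊕ S0), t.card = k + 1 ∧ (t : Set (S0 ⊕ S0)) ⊆ F O q x}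
  have hYc : ∀ O k q, IsClosed (Y O k q) := by
    intro O k q
    rw [← isOpen_compl_iff]
    have : (Y O k q)ᶜ = ⋃ t : {t : Finset (S0 ⊕ S0) // t.card = k + 1 ∧ ∀ s ∈ t, e s ∈ O.1},
        ⋂ s ∈ t.1, {x | (q : ℝ) < h s x} := by
      ext x
      simp only [Y, mem_compl_iff, mem_ofPred_eq, not_not, mem_iUnion, mem_iInter, Subtype.exists]
      constructor
      · rintro ⟨t, ht1, ht2⟩
        exact ⟨t, ⟨ht1, fun s hs => (ht2 hs).1⟩, fun s hs => (ht2 hs).2⟩
      · rintro ⟨t, ⟨ht1, ht2⟩, ht3⟩
        exact ⟨t, ht1, fun s hs => ⟨ht2 s hs, ht3 s hs⟩⟩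
    rw [this]
    apply isOpen_iUnion
    intro t
    exact isOpen_biInter_finset fun s _ => isOpen_lt continuous_const (h s).continuous
  have hYfin : ∀ O k q x, x ∈ Y O k q → (F O q x).Finite := by
    intro O k q x hx
    by_contra hinf
    obtain ⟨t, ht1, ht2⟩ := Set.Infinite.exists_subset_card_eq hinf (k+1)
    exact hx ⟨t, ht2, ht1⟩
  have hYself : ∀ O q x (hf : (F O q x).Finite), x ∈ Y O hf.toFinset.card q := by
    rintro O q x hf ⟨t, ht1, ht2⟩
    have : t ⊆ hf.toFinset := by
      intro s hs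
      rw [Set.Finite.mem_toFinset]; exact ht2 hs
    have := Finset.card_le_card this
    omega
  let D : Set X := ⋂ i : TopologicalSpace.countableBasis E × ℕ × ℚ,
    (frontier (Y i.1 i.2.1 i.2.2))ᶜ
  have hD : Dense D := by
    apply dense_iInter_of_isOpen
    · intro i; exact isClosed_frontier.isOpen_compl
    · intro i
      rw [← interior_eq_empty_iff_dense_compl]
      exact interior_frontier (hYc _ _ _)
  let Φ : D → (TopologicalSpace.countableBasis E × ℕ × ℚ → Option (Set (S0 ⊕ S0))) := fun x i =>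
    if x.1 ∈ Y i.1 i.2.1 i.2.2 then some (F i.1 i.2.2 x.1) else none
  letI : TopologicalSpace (Option (Set (S0 ⊕ S0))) := ⊥
  haveI : DiscreteTopology (Option (Set (S0 ⊕ S0))) := ⟨rfl⟩
  have hint : ∀ O k q, ∀ x ∈ D, x ∈ Y O k q → x ∈ interior (Y O k q) := by
    intro O k q x hx hxY
    by_contra hni
    have : x ∈ frontier (Y O k q) := ⟨subset_closure hxY, hni⟩
    exact mem_iInter.1 hx (O, k, q) this
  have hΦ : Continuous Φ := by
    apply continuous_pi
    intro i
    rw [continuous_iff_continuousAt]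
    intro x
    have hev : ∀ᶠ y in 𝓝 x, Φ y i = Φ x i := by
      by_cases hx : x.1 ∈ Y i.1 i.2.1 i.2.2
      · have hf := hYfin _ _ _ _ hx
        have h1 := hint _ _ _ _ x.2 (hYself i.1 i.2.2 x.1 hf)
        have h2 := hint _ _ _ _ x.2 hx
        have h3 : ∀ᶠ y in 𝓝 x.1, ∀ s ∈ hf.toFinset, (i.2.2 : ℝ) < h s y := by
          rw [Filter.eventually_all_finset]
          intro s hs
          rw [Set.Finite.mem_toFinset] at hs
          exact (isOpen_lt continuous_const (h s).continuous).mem_nhds hs.2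
        have h4 : ∀ᶠ y in 𝓝 x.1, y ∈ Y i.1 hf.toFinset.card i.2.2 :=
          mem_interior_iff_mem_nhds.1 h1
        have h5 : ∀ᶠ y in 𝓝 x.1, y ∈ Y i.1 i.2.1 i.2.2 := mem_interior_iff_mem_nhds.1 h2
        have h6 := continuous_subtype_val.continuousAt.eventually (h3.and (h4.and h5))
        filter_upwards [h6] with y hy
        obtain ⟨hy1, hy2, hy3⟩ := hy
        have hFF : F i.1 i.2.2 y.1 = F i.1 i.2.2 x.1 := by
          apply Set.Subset.antisymm
          · intro s hs
            by_contra hsx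
            apply hy2
            refine ⟨insert s hf.toFinset, ?_, ?_⟩
            · rw [Finset.card_insert_of_notMem]
              rw [Set.Finite.mem_toFinset]; exact hsx
            · intro s' hs'
              rw [Finset.coe_insert, mem_insert_iff] at hs'
              rcases hs' with rfl | hs'
              · exact hs
              · have h7 := hs'
                rw [Finset.mem_coe, Set.Finite.mem_toFinset] at h7
                exact ⟨h7.1, hy1 s' hs'⟩
          · intro s hs
            exact ⟨hs.1, hy1 s (by rw [Set.Finite.mem_toFinset]; exact hs)⟩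
        simp only [Φ, hx, hy3, if_true, hFF]
      · have h1 : ∀ᶠ y in 𝓝 x.1, y ∉ Y i.1 i.2.1 i.2.2 :=
          (hYc _ _ _).isOpen_compl.mem_nhds hx
        have h6 := continuous_subtype_val.continuousAt.eventually h1
        filter_upwards [h6] with y hy
        simp only [Φ, hx, hy, if_false]
    unfold ContinuousAt
    rw [nhds_discrete (Option (Set (S0 ⊕ S0)))]
    exact Filter.tendsto_pure.2 hev
  -- the functions separate topologically
  have hcontX : Continuous (fun (x : X) (s : S0 ⊕ S0) => h s x) :=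
    continuous_pi fun s => (h s).continuous
  have hembX : IsClosedEmbedding (fun (x : X) (s : S0 ⊕ S0) => h s x) :=
    hcontX.isClosedEmbedding fun x y hxy => hsep x y fun s => congrFun hxy s
  have hembD : IsEmbedding (fun (x : D) (s : S0 ⊕ S0) => h s x.1) :=
    hembX.isEmbedding.comp IsEmbedding.subtypeVal
  have hind : IsInducing Φ := by
    rw [isInducing_iff_nhds]
    intro x
    apply le_antisymm
    · exact Filter.map_le_iff_le_comap.1 hΦ.continuousAt
    · rw [hembD.isInducing.nhds_eq_comap x, ← Filter.map_le_iff_le_comap]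
      show Filter.Tendsto (fun (x : D) (s : S0 ⊕ S0) => h s x.1) (Filter.comap Φ (𝓝 (Φ x))) _
      rw [tendsto_pi_nhds]
      intro s
      have hcoord : ∀ i, ∀ᶠ y in Filter.comap Φ (𝓝 (Φ x)), Φ y i = Φ x i := by
        intro i
        have h1 : ∀ᶠ φ in 𝓝 (Φ x), φ i = Φ x i := by
          have h2 := (continuous_apply i).continuousAt (x := Φ x)
          unfold ContinuousAt at h2
          rw [nhds_discrete (Option (Set (S0 ⊕ S0)))] at h2
          exact Filter.tendsto_pure.1 h2
        exact Filter.Eventually.comap h1 Φ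
      have hq : ∀ q : ℚ, (0:ℝ) < q → ∃ (O : TopologicalSpace.countableBasis E) (k : ℕ),
          e s ∈ O.1 ∧ x.1 ∈ Y O k q := by
        intro q hq
        obtain ⟨V, hV, hf⟩ := hfin x.1 (e s) q hq
        obtain ⟨O, hO, hO1, hO2⟩ := hB.mem_nhds_iff.1 hV
        have hf' : (F ⟨O, hO⟩ q x.1).Finite := by
          apply hf.subset
          intro s' hs'
          exact ⟨hO2 hs'.1, hs'.2.le⟩
        exact ⟨⟨O, hO⟩, _, hO1, hYself _ _ _ hf'⟩
      rw [tendsto_order]
      constructor
      · intro a ha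
        rcases lt_or_ge a 0 with h1 | h1
        · exact Filter.Eventually.of_forall fun y => h1.trans_le (hnn _ _)
        · obtain ⟨q, hq1, hq2⟩ := exists_rat_btwn ha
          obtain ⟨O, k, hO, hY⟩ := hq q (h1.trans_lt hq1)
          filter_upwards [hcoord (O, k, q)] with y hy
          have h3 : Φ x (O, k, q) = some (F O q x.1) := by simp only [Φ, hY, if_true]
          rw [h3] at hy
          by_cases hyY : y.1 ∈ Y O k q
          · have h4 : Φ y (O, k, q) = some (F O q y.1) := by simp only [Φ, hyY, if_true]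
            rw [h4, Option.some_inj] at hy
            have h5 : s ∈ F O q y.1 := by rw [hy]; exact ⟨hO, hq2⟩
            exact hq1.trans h5.2
          · have h4 : Φ y (O, k, q) = none := by simp only [Φ, hyY, if_false]
            rw [h4] at hy
            exact absurd hy (by simp)
      · intro a ha
        obtain ⟨q, hq1, hq2⟩ := exists_rat_btwn ha
        obtain ⟨O, k, hO, hY⟩ := hq q ((hnn s x.1).trans_lt hq1)
        filter_upwards [hcoord (O, k, q)] with y hy
        have h3 : Φ x (O, k, q) = some (F O q x.1) := by simp only [Φ, hY, if_true]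
        rw [h3] at hy
        by_cases hyY : y.1 ∈ Y O k q
        · have h4 : Φ y (O, k, q) = some (F O q y.1) := by simp only [Φ, hyY, if_true]
          rw [h4, Option.some_inj] at hy
          have h5 : s ∉ F O q y.1 := by
            rw [hy]
            rintro ⟨-, h6⟩
            exact absurd h6 (not_lt.2 hq1.le)
          have h6 : ¬ ((q : ℝ) < h s y.1) := fun h7 => h5 ⟨hO, h7⟩
          exact (not_lt.1 h6).trans_lt hq2
        · have h4 : Φ y (O, k, q) = none := by simp only [Φ, hyY, if_false]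
          rw [h4] at hy
          exact absurd hy (by simp)
  have hT0 : T0Space D := inferInstance
  have hemb : IsEmbedding Φ := hind.isEmbedding
  refine ⟨D, hD, ?_⟩
  have hmet : TopologicalSpace.MetrizableSpace
      (TopologicalSpace.countableBasis E × ℕ × ℚ → Option (Set (S0 ⊕ S0))) := by
    letI : UniformSpace (Option (Set (S0 ⊕ S0))) := ⊥
    infer_instance
  exact hemb.metrizableSpace

end Pool.Agent.Helper535
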