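import Pool.Agent.Helper535.W

open Set Topology Cardinal

namespace Pool.Agent.Helper535

universe u v w

/-- a `c_0` family -/
def C0F {X : Type u} [TopologicalSpace X] {S : Type w} (h : S → C(X, ℝ)) : Prop :=
  (∀ s x, |h s x| ≤ 1) ∧ ∀ x ε, 0 < ε → {s | ε ≤ |h s x|}.Finite

/-- Eberlein compact, in terms of functions -/
def Eb (X : Type u) [TopologicalSpace X] : Prop :=
  ∃ (S : Type u) (h : S → C(X, ℝ)), C0F h ∧ ∀ x y, (∀ s, h s x = h s y) → x = y

theorem C0F.efam {X : Type u} [TopologicalSpace X] {S : Type w} {h : S → C(X, ℝ)} (H : C0F h)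
    {E : Type v} [TopologicalSpace E] (e : S → E) : EFam h e :=
  ⟨H.1, fun x _ ε hε => ⟨Set.univ, Filter.univ_mem, (H.2 x ε hε).subset fun _ hs => hs.2⟩⟩

theorem GS.eb {X : Type u} [TopologicalSpace X] {E : Type v} [TopologicalSpace E] [Subsingleton E]
    (h : GS E X) : Eb X := by
  obtain ⟨S, h, e, H, hsep⟩ := h
  refine ⟨S, h, ⟨H.bdd, ?_⟩, hsep⟩
  intro x ε hε
  by_cases hS : Nonempty S
  · obtain ⟨s0⟩ := hS
    obtain ⟨O, hO, hf⟩ := H.fin x (e s0) ε hε
    apply hf.subset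
    intro s hs
    refine ⟨?_, hs⟩
    rw [Subsingleton.elim (e s) (e s0)]
    exact mem_of_mem_nhds hO
  · rw [not_nonempty_iff] at hS
    exact Set.toFinite _

theorem Eb.gs {X : Type u} [TopologicalSpace X] (h : Eb X) : GS PUnit.{1} X := by
  obtain ⟨S, h, H, hsep⟩ := h
  exact ⟨S, h, fun _ => PUnit.unit, H.efam _, hsep⟩

/-- every subset is split by a `c_0` family -/
def ESplit (X : Type u) [TopologicalSpace X] : Prop :=
  ∀ A : Set X, ∃ (S : Type u) (h : S → C(X, ℝ)), C0F h ∧ ∀ x ∈ A, ∀ y ∉ A, ∃ s, h s x ≠ h s y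

theorem ESplit.gsplit {X : Type u} [TopologicalSpace X] (H : ESplit X) : GSplit.{u, 0} X := by
  intro A
  obtain ⟨S, h, hF, hsep⟩ := H A
  exact ⟨PUnit, inferInstance, inferInstance, inferInstance, S, h, fun _ => PUnit.unit,
    hF.efam _, hsep⟩

theorem ESplit.simul {X : Type u} [TopologicalSpace X] (H : ESplit X) (A : ℕ → Set X) :
    ∃ (S : Type u) (h : S → C(X, ℝ)), C0F h ∧
    ∀ n, ∀ x ∈ A n, ∀ y ∉ A n, ∃ s, h s x ≠ h s y := by
  choose S h hF hsep using fun n => H (A n)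
  have hpos : ∀ n : ℕ, (0:ℝ) < ((n:ℝ)+1)⁻¹ := fun n => by positivity
  have hle : ∀ n : ℕ, ((n:ℝ)+1)⁻¹ ≤ 1 := fun n => by
    apply inv_le_one_of_one_le₀
    have : (0:ℝ) ≤ n := Nat.cast_nonneg _
    linarith
  refine ⟨Σ n, S n, fun s => (((s.1:ℝ)+1)⁻¹) • h s.1 s.2, ⟨?_, ?_⟩, ?_⟩
  · rintro ⟨n, s⟩ x
    show |((n:ℝ)+1)⁻¹ * h n s x| ≤ 1
    rw [abs_mul, abs_of_pos (hpos n)]
    exact mul_le_one₀ (hle n) (abs_nonneg _) ((hF n).1 s x)
  · intro x ε hε
    obtain ⟨N, hN⟩ := exists_nat_gt (1/ε)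
    have hfin : (⋃ n ∈ Finset.range N, (fun s => (⟨n, s⟩ : Σ n, S n)) ''
        {s | ε ≤ |h n s x|}).Finite :=
      (Finset.finite_toSet _).biUnion fun n _ => ((hF n).2 x ε hε).image _
    apply hfin.subset
    rintro ⟨n, s⟩ hs
    have hs' : ε ≤ |((n:ℝ)+1)⁻¹ * h n s x| := hs
    rw [abs_mul, abs_of_pos (hpos n)] at hs'
    simp only [mem_iUnion]
    have h1 : ε ≤ ((n:ℝ)+1)⁻¹ := hs'.trans
      (mul_le_of_le_one_right (hpos n).le ((hF n).1 s x))
    have h2 : ε ≤ |h n s x| := hs'.trans (mul_le_of_le_one_left (abs_nonneg _) (hle n))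
    refine ⟨n, ?_, s, h2, rfl⟩
    rw [Finset.mem_range]
    have h3 : (n : ℝ) + 1 ≤ 1/ε := by
      rw [le_div_iff₀ hε]
      have h4 : 0 < (n : ℝ) + 1 := by positivity
      have := mul_le_mul_of_nonneg_left h1 h4.le
      rwa [mul_inv_cancel₀ h4.ne'] at this
    have h4 : (n : ℝ) < N := by linarith
    exact Nat.cast_lt.1 h4
  · intro n x hx y hy
    obtain ⟨s, hs⟩ := hsep n x hx y hy
    refine ⟨⟨n, s⟩, ?_⟩
    intro heq
    apply hs
    have heq' : ((n:ℝ)+1)⁻¹ * h n s x = ((n:ℝ)+1)⁻¹ * h n s y := heq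
    exact mul_left_cancel₀ (hpos n).ne' heq'

/-- a compact space splittable over Eberlein compacta is Eberlein compact -/
theorem ESplit.eb {X : Type u} [TopologicalSpace X] [CompactSpace X] [T2Space X]
    (hX : ESplit X) : Eb X := by
  classical
  obtain ⟨F, hF, hsep⟩ := hX.gsplit.splits.corson
  have hpc : ∀ x, {t : F | t.1 x ≠ 0}.Countable := by
    intro x
    have : {i : F | i.1 x ≠ 0} = Subtype.val ⁻¹' {f | f ∈ F ∧ f x ≠ 0} := by
      ext i; simp
    rw [this]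
    exact (hF x (mem_univ x)).preimage Subtype.val_injective
  obtain ⟨χ, hχ⟩ := col F
  let sp : X → Set F := fun x => {t : F | t.1 x ≠ 0}
  obtain ⟨S, h, H, hs⟩ := hX.simul fun n => {x | χ (sp x) n = true}
  have H' : EFam h (fun _ => PUnit.unit.{1}) := H.efam _
  apply GS.eb (E := ℕ → PUnit.{1})
  refine gs_cap_aux _ X F S (fun t => t.1) h _ hpc ?_ H' H'.pcount ?_ Set.univ dense_univ rfl
  · intro x y hxy
    exact hsep x (mem_univ x) y (mem_univ y) fun f hf => hxy ⟨f, hf⟩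
  · intro x y hxy
    have h1 := hχ _ _ (hpc y) hxy
    have h2 : ∃ n, χ (sp x) n ≠ χ (sp y) n := Function.ne_iff.1 h1
    obtain ⟨n, hn⟩ := h2
    by_cases hx : χ (sp x) n = true
    · exact hs n x hx y (fun hy => hn (hx.trans hy.symm))
    · by_cases hy : χ (sp y) n = true
      · obtain ⟨s, hs'⟩ := hs n y hy x hx
        exact ⟨s, hs'.symm⟩
      · exfalso
        apply hn
        rw [Bool.not_eq_true] at hx hy
        rw [hx, hy]

/-- the bounded reparametrisation of the line -/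
noncomputable def sq (t : ℝ) : ℝ := t / (1 + |t|)

lemma sq_cont : Continuous sq := by
  unfold sq
  apply continuous_id.div (continuous_const.add continuous_abs)
  intro t
  have := abs_nonneg t
  exact (show (0:ℝ) < 1 + |t| by linarith).ne'

lemma sq_abs (t : ℝ) : |sq t| = |t| / (1 + |t|) := by
  unfold sq
  have : 0 < 1 + |t| := by have := abs_nonneg t; positivity
  rw [abs_div, abs_of_pos this]

lemma sq_le_one (t : ℝ) : |sq t| ≤ 1 := by
  rw [sq_abs, div_le_one (by have := abs_nonneg t; positivity)]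
  linarith

lemma sq_le (t : ℝ) : |sq t| ≤ |t| := by
  rw [sq_abs]
  apply div_le_self (abs_nonneg t)
  have := abs_nonneg t
  linarith

lemma sq_inj {s t : ℝ} (h : sq s = sq t) : s = t := by
  have e1 : ∀ t, |t| = |sq t| / (1 - |sq t|) := by
    intro t
    have h0 := abs_nonneg t
    have h1 : (1 + |t|) ≠ 0 := by positivity
    rw [sq_abs]
    have h2 : 1 - |t| / (1 + |t|) = 1 / (1 + |t|) := by field_simp; ring
    rw [h2]
    field_simp
  have h2 : |s| = |t| := by rw [e1 s, e1 t, h]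
  unfold sq at h
  rw [h2] at h
  have h1 : (1 + |t|) ≠ 0 := by have := abs_nonneg t; positivity
  field_simp at h
  exact h

/-- splitting over spaces embedded in `c_0` gives splitting families -/
theorem esplit_of {X : Type u} [TopologicalSpace X]
    (h : ∀ A : Set X, ∃ (Γ : Type u) (e : X → Γ → ℝ), Continuous e ∧
      (∀ x, ∀ ε : ℝ, 0 < ε → {γ : Γ | ε ≤ |e x γ|}.Finite) ∧
      ∀ x ∈ A, ∀ y ∉ A, e x ≠ e y) : ESplit X := by
  intro A
  obtain ⟨Γ, e, he, hfin, hsep⟩ := h A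
  refine ⟨Γ, fun γ => ⟨fun x => sq (e x γ), sq_cont.comp ((continuous_apply γ).comp he)⟩,
    ⟨fun γ x => sq_le_one _, ?_⟩, ?_⟩
  · intro x ε hε
    exact (hfin x ε hε).subset fun γ hγ => le_trans (show ε ≤ |sq (e x γ)| from hγ) (sq_le _)
  · intro x hx y hy
    obtain ⟨γ, hγ⟩ := Function.ne_iff.1 (hsep x hx y hy)
    exact ⟨γ, fun h => hγ (sq_inj h)⟩

/-- embedding into `c_0` -/
theorem Eb.embedding {X : Type u} [TopologicalSpace X] [CompactSpace X] (h : Eb X) :
    ∃ (Γ : Type u) (e : X → Γ → ℝ), IsEmbedding e ∧ (∀ x γ, |e x γ| ≤ 1) ∧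
      (∀ x, ∀ ε : ℝ, 0 < ε → {γ : Γ | ε ≤ |e x γ|}.Finite) := by
  obtain ⟨S, h, H, hsep⟩ := h
  have hcont : Continuous (fun (x : X) (s : S) => h s x) := continuous_pi fun s => (h s).continuous
  have hinj : Function.Injective (fun (x : X) (s : S) => h s x) := by
    intro x y hxy
    exact hsep x y fun s => congrFun hxy s
  exact ⟨S, fun x s => h s x, (hcont.isClosedEmbedding hinj).isEmbedding, fun x s => H.1 s x,
    fun x ε hε => H.2 x ε hε⟩

end Pool.Agent.Helper535
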