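import Pool.Agent.Helper535.X1

open Set Topology Cardinal

namespace Pool.Agent.Helper535

universe u v w

/-- `f` is continuous up to `ε` -/
def Ec {X : Type u} [TopologicalSpace X] (f : X → ℝ) (ε : ℝ) : Prop :=
  ∀ z, ∀ᶠ y in 𝓝 z, |f y - f z| < ε

/-- `D` decomposes the function space into countably many sets all of whose pointwise limits are
continuous up to `ε` -/
def APe (X : Type u) [TopologicalSpace X] (ε : ℝ) (D : ℕ → Set C(X, ℝ)) : Prop :=
  (∀ f, ∃ m, f ∈ D m) ∧ ∀ m, ∀ 𝓤 : Ultrafilter C(X, ℝ), D m ∈ 𝓤 →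
    ∃ g : X → ℝ, (∀ x, Filter.Tendsto (fun f : C(X, ℝ) => f x) 𝓤 (𝓝 (g x))) ∧ Ec g ε

def AP (X : Type u) [TopologicalSpace X] : Prop := ∀ ε : ℝ, 0 < ε → ∃ D, APe X ε D

theorem AP.restrict {X : Type u} [TopologicalSpace X] [CompactSpace X] [T2Space X] (H : AP X)
    {Z : Set X} (hZ : IsClosed Z) : AP Z := by
  choose ext hext using fun f : C(Z, ℝ) => ContinuousMap.exists_restrict_eq hZ f
  intro ε hε
  obtain ⟨D, hD1, hD2⟩ := H ε hε
  refine ⟨fun m => ext ⁻¹' D m, fun f => hD1 (ext f), ?_⟩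
  intro m 𝓤 h𝓤
  obtain ⟨g, hg, hE⟩ := hD2 m (𝓤.map ext) h𝓤
  refine ⟨fun z => g z.1, ?_, ?_⟩
  · intro x
    have h1 := hg x.1
    rw [Ultrafilter.coe_map, Filter.tendsto_map'_iff] at h1
    have h2 : (fun f : C(X, ℝ) => f x.1) ∘ ext = fun f => f x := by
      funext f
      exact congrArg (fun g : C(Z, ℝ) => g x) (hext f)
    rw [h2] at h1
    exact h1
  · intro z
    exact continuous_subtype_val.continuousAt.eventually (hE z.1)

theorem AP.image {X Z : Type u} [TopologicalSpace X] [CompactSpace X]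
    [TopologicalSpace Z] [T2Space Z] (H : AP X) {φ : X → Z} (hφ : Continuous φ)
    (hs : Function.Surjective φ) : AP Z := by
  intro ε hε
  obtain ⟨D, hD1, hD2⟩ := H ε hε
  let c : C(Z, ℝ) → C(X, ℝ) := fun f => f.comp ⟨φ, hφ⟩
  refine ⟨fun m => c ⁻¹' D m, fun f => hD1 (c f), ?_⟩
  intro m 𝓤 h𝓤
  obtain ⟨g, hg, hE⟩ := hD2 m (𝓤.map c) h𝓤
  have hg' : ∀ x, Filter.Tendsto (fun f : C(Z, ℝ) => f (φ x)) 𝓤 (𝓝 (g x)) := by
    intro x
    have h1 := hg x
    rw [Ultrafilter.coe_map, Filter.tendsto_map'_iff] at h1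
    exact h1
  choose σ hσ using hs
  have hcst : ∀ x, g x = g (σ (φ x)) := by
    intro x
    have h1 := hg' (σ (φ x))
    rw [hσ] at h1
    exact tendsto_nhds_unique (hg' x) h1
  refine ⟨fun z => g (σ z), ?_, ?_⟩
  · intro z
    have h1 := hg' (σ z)
    rwa [hσ] at h1
  · intro z
    let W : Set X := {x | ∀ᶠ y in 𝓝 x, |g y - g (σ z)| < ε}
    have hW : IsOpen W := isOpen_setOf_eventually_nhds
    have hsub : φ ⁻¹' {z} ⊆ W := by
      intro x hx
      have hx' : φ x = z := hx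
      have h1 := hE x
      have h2 : g x = g (σ z) := by rw [hcst x, hx']
      show ∀ᶠ y in 𝓝 x, |g y - g (σ z)| < ε
      rw [← h2]; exact h1
    have hcl : IsClosed (φ '' Wᶜ) := hφ.isClosedMap _ hW.isClosed_compl
    have hz : z ∉ φ '' Wᶜ := by
      rintro ⟨x, hx, hxz⟩
      exact hx (hsub hxz)
    filter_upwards [hcl.isOpen_compl.mem_nhds hz] with y hy
    have h3 : σ y ∈ W := by
      by_contra hn
      exact hy ⟨σ y, hn, hσ y⟩
    have h4 : ∀ᶠ y' in 𝓝 (σ y), |g y' - g (σ z)| < ε := h3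
    exact h4.self_of_nhds

theorem CO.sep_ap {X : Type u} [TopologicalSpace X] [CompactSpace X] [T2Space X]
    {ε : ℝ} (hε5 : ε ≤ 1/5) {D : ℕ → Set C(X, ℝ)} (H : APe X ε D)
    {B : Set X} {M : Set C(X, ℝ)}
    (h : ∀ m, ∀ j : Finset (X × ℚ × ℚ), (∀ t ∈ j, t.1 ∈ B) → (∃ g ∈ Box j, g ∈ D m) →
      ∃ g ∈ M, g ∈ Box j ∧ g ∈ D m) : SepOn (closure B) M := by
  classical
  intro x hx y hy hxy
  by_contra hne
  have hdis : Disjoint ({x} : Set X) {y} := by
    rw [disjoint_singleton]; exact hne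
  obtain ⟨g0, h0, h1, -⟩ := exists_continuous_zero_one_of_isClosed (isClosed_singleton (x := x))
    (isClosed_singleton (x := y)) hdis
  have hx0 : g0 x = 0 := h0 rfl
  have hy1 : g0 y = 1 := h1 rfl
  obtain ⟨m, hm⟩ := H.1 g0
  let G : Set (Set C(X, ℝ)) := {s | s = M ∨ s = D m ∨
    (∃ b ∈ B, ∃ q q' : ℚ, (q : ℝ) < g0 b ∧ g0 b < (q' : ℝ) ∧
      s = {f : C(X, ℝ) | (q : ℝ) < f b ∧ f b < (q' : ℝ)})}
  have key : ∀ T : Finset (Set C(X, ℝ)), (T : Set (Set C(X, ℝ))) ⊆ G →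
      ∃ j : Finset (X × ℚ × ℚ), (∀ t ∈ j, t.1 ∈ B) ∧ g0 ∈ Box j ∧
      ∀ f ∈ M, f ∈ Box j → f ∈ D m → ∀ s ∈ T, f ∈ s := by
    intro T
    induction T using Finset.induction_on with
    | empty =>
      intro _
      exact ⟨∅, by simp, by simp [Box], by simp⟩
    | insert s T _ ih =>
      intro hT
      rw [Finset.coe_insert, insert_subset_iff] at hT
      obtain ⟨j, hj1, hj2, hj3⟩ := ih hT.2
      rcases hT.1 with rfl | rfl | ⟨b, hb, q, q', hq, hq', rfl⟩
      · refine ⟨j, hj1, hj2, ?_⟩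
        intro f hf1 hf2 hf3 s hs
        rcases Finset.mem_insert.1 hs with rfl | hs
        · exact hf1
        · exact hj3 f hf1 hf2 hf3 s hs
      · refine ⟨j, hj1, hj2, ?_⟩
        intro f hf1 hf2 hf3 s hs
        rcases Finset.mem_insert.1 hs with rfl | hs
        · exact hf3
        · exact hj3 f hf1 hf2 hf3 s hs
      · refine ⟨insert (b, q, q') j, ?_, ?_, ?_⟩
        · intro t ht
          rcases Finset.mem_insert.1 ht with rfl | ht
          · exact hb
          · exact hj1 t ht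
        · intro t ht
          rcases Finset.mem_insert.1 ht with rfl | ht
          · exact ⟨hq, hq'⟩
          · exact hj2 t ht
        · intro f hf1 hf2 hf3 s hs
          rcases Finset.mem_insert.1 hs with rfl | hs
          · exact hf2 _ (Finset.mem_insert_self _ _)
          · exact hj3 f hf1 (fun t ht => hf2 t (Finset.mem_insert_of_mem ht)) hf3 s hs
  obtain ⟨𝓤, h𝓤⟩ := Ultrafilter.exists_ultrafilter_of_finite_inter_nonempty G (by
    intro T hT
    obtain ⟨j, hj1, hj2, hj3⟩ := key T hT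
    obtain ⟨f, hf1, hf2, hf3⟩ := h m j hj1 ⟨g0, hj2, hm⟩
    exact ⟨f, fun s hs => hj3 f hf1 hf2 hf3 s hs⟩)
  have hM : M ∈ 𝓤 := h𝓤 (Or.inl rfl)
  obtain ⟨g, hg, hE⟩ := H.2 m 𝓤 (h𝓤 (Or.inr (Or.inl rfl)))
  have hgB : ∀ b ∈ B, g b = g0 b := by
    intro b hb
    have h2 : Filter.Tendsto (fun f : C(X, ℝ) => f b) 𝓤 (𝓝 (g0 b)) := by
      rw [tendsto_order]
      constructor
      · intro a ha
        obtain ⟨q, hq1, hq2⟩ := exists_rat_btwn ha
        obtain ⟨q', hq'⟩ := exists_rat_gt (g0 b)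
        have : {f : C(X, ℝ) | (q : ℝ) < f b ∧ f b < (q' : ℝ)} ∈ 𝓤 :=
          h𝓤 (Or.inr (Or.inr ⟨b, hb, q, q', hq2, hq', rfl⟩))
        filter_upwards [this] with f hf
        exact hq1.trans hf.1
      · intro a ha
        obtain ⟨q, hq1, hq2⟩ := exists_rat_btwn ha
        obtain ⟨q', hq'⟩ := exists_rat_lt (g0 b)
        have : {f : C(X, ℝ) | (q' : ℝ) < f b ∧ f b < (q : ℝ)} ∈ 𝓤 :=
          h𝓤 (Or.inr (Or.inr ⟨b, hb, q', q, hq', hq1, rfl⟩))
        filter_upwards [this] with f hf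
        exact hf.2.trans hq2
    exact tendsto_nhds_unique (hg b) h2
  have hclose : ∀ z ∈ closure B, |g z - g0 z| < 2/5 := by
    intro z hz
    have h2 : ∀ᶠ y in 𝓝 z, |g0 y - g0 z| < 1/5 := by
      have := g0.continuous.continuousAt (x := z)
      rw [Metric.continuousAt_iff'] at this
      exact this (1/5) (by norm_num)
    obtain ⟨b, ⟨hb1, hb2⟩, hbB⟩ := (mem_closure_iff_frequently.1 hz).and_eventually
      ((hE z).and h2) |>.exists |> fun ⟨b, hb1, hb2⟩ => (⟨b, hb2, hb1⟩ :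
        ∃ b, (|g b - g z| < ε ∧ |g0 b - g0 z| < 1/5) ∧ b ∈ B)
    rw [hgB b hbB] at hb1
    rw [abs_lt] at hb1 hb2 ⊢
    constructor <;> linarith [hb1.1, hb1.2, hb2.1, hb2.2]
  have hgx := hclose x hx
  have hgy := hclose y hy
  rw [hx0, abs_lt] at hgx
  rw [hy1, abs_lt] at hgy
  have e1 : ∀ᶠ f in (𝓤 : Filter C(X, ℝ)), f x < 1/2 := (hg x).eventually_lt_const (by
    linarith [hgx.2])
  have e2 : ∀ᶠ f in (𝓤 : Filter C(X, ℝ)), 1/2 < f y := (hg y).eventually_const_lt (by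
    linarith [hgy.1])
  obtain ⟨f, hf1, hf2, hf3⟩ := (e1.and (e2.and hM)).exists
  have := hxy f hf3
  linarith

/-- truncation -/
noncomputable def tr (ε t : ℝ) : ℝ := max (t - ε) 0 + min (t + ε) 0

lemma tr_cont (ε : ℝ) : Continuous (tr ε) := by
  unfold tr
  exact ((continuous_id.sub continuous_const).max continuous_const).add
    ((continuous_id.add continuous_const).min continuous_const)

lemma tr_close {ε : ℝ} (hε : 0 ≤ ε) (t : ℝ) : |tr ε t - t| ≤ ε := by
  unfold tr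
  rcases le_total (t - ε) 0 with h1 | h1 <;> rcases le_total (t + ε) 0 with h2 | h2
  · rw [max_eq_right h1, min_eq_left h2, abs_le]; constructor <;> linarith
  · rw [max_eq_right h1, min_eq_right h2, abs_le]; constructor <;> linarith
  · rw [max_eq_left h1, min_eq_left h2, abs_le]; constructor <;> linarith
  · rw [max_eq_left h1, min_eq_right h2, abs_le]; constructor <;> linarith

lemma tr_le {ε : ℝ} (hε : 0 ≤ ε) (t : ℝ) : |tr ε t| ≤ |t| := by
  unfold tr
  rcases le_total (t - ε) 0 with h1 | h1 <;> rcases le_total (t + ε) 0 with h2 | h2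
  · rw [max_eq_right h1, min_eq_left h2, zero_add, abs_of_nonpos h2,
      abs_of_nonpos (by linarith)]; linarith
  · rw [max_eq_right h1, min_eq_right h2]; simp
  · have : t = 0 ∧ ε = 0 := by constructor <;> linarith
    rw [this.1, this.2]; simp
  · rw [max_eq_left h1, min_eq_right h2, add_zero, abs_of_nonneg h1,
      abs_of_nonneg (by linarith)]; linarith

lemma tr_ne {ε : ℝ} {t : ℝ} (h : tr ε t ≠ 0) : ε < |t| := by
  by_contra hcon
  push Not at hcon
  have := abs_le.1 hcon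
  apply h
  unfold tr
  rw [max_eq_right (by linarith), min_eq_right (by linarith)]
  ring

end Pool.Agent.Helper535
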