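import Pool.Agent.Helper535.Y1

open Set Topology Cardinal

namespace Pool.Agent.Helper535

universe u v w

theorem Eb.of_countable {X : Type u} [TopologicalSpace X] [CompactSpace X]
    {M : Set C(X, ℝ)} (hM : M.Countable) (hsep : SepOn Set.univ M) : Eb X :=
  (GS_of_countable PUnit.unit.{1} hM hsep).eb

/-- gluing of `c_0` families along a chain of retractions -/
theorem glue_eb {X : Type u} [TopologicalSpace X] [CompactSpace X] [T2Space X]
    {D : ℕ → ℕ → Set C(X, ℝ)} (H : ∀ n : ℕ, APe X (1/((n:ℝ)+1)) (D n))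
    {ι : Type u} [LinearOrder ι] [WellFoundedLT ι] [Nonempty ι]
    (B : ι → Set X) (hB : Monotone B) (r : ι → C(X, X))
    (hr1 : ∀ i x, r i x ∈ closure (B i)) (hr3 : ∀ i, ∀ x ∈ closure (B i), r i x = x)
    (K0 : ∀ k i x, k ≤ i → r k (r i x) = r k x)
    (hlimB : ∀ i, Order.IsSuccLimit i → ∀ b ∈ B i, ∃ j < i, b ∈ B j)
    (hlimr : ∀ i, Order.IsSuccLimit i → ∀ x y, (∀ j < i, r j x = r j y) → r i x = r i y)
    (hdense : Dense (⋃ i, B i)) (hsep : ∀ x y, (∀ i, r i x = r i y) → x = y)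
    (hst : ∀ i, Eb (closure (B i))) : Eb X := by
  classical
  choose Q g G hG using hst
  let rc : ∀ i, C(X, closure (B i)) := fun i => ⟨fun x => ⟨r i x, hr1 i x⟩,
    (r i).continuous.subtype_mk _⟩
  have hrc : ∀ i x y, rc i x = rc i y → r i x = r i y := by
    intro i x y hxy
    exact congrArg Subtype.val hxy
  have hrc' : ∀ i x y, r i x = r i y → rc i x = rc i y := by
    intro i x y hxy
    exact Subtype.ext hxy
  obtain ⟨i0, -, hi0⟩ := WellFounded.has_min (wellFounded_lt (α := ι)) Set.univ univ_nonempty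
  let J : Type u := {p : ι × ι // p.1 ⋖ p.2}
  let I2 : Type u := Σ p : J, Q p.1.2
  let ff : I2 → C(X, ℝ) := fun q => (1/2 : ℝ) • ((g q.1.1.2 q.2).comp (rc q.1.1.2) -
    ((g q.1.1.2 q.2).comp (rc q.1.1.2)).comp (r q.1.1.1))
  have hff : ∀ q x, ff q x = 1/2 * (g q.1.1.2 q.2 (rc q.1.1.2 x) -
      g q.1.1.2 q.2 (rc q.1.1.2 (r q.1.1.1 x))) := fun q x => rfl
  have hff1 : ∀ q x, |ff q x| ≤ 1 := by
    intro q x
    rw [hff]
    have h1 := abs_le.1 ((G q.1.1.2).1 q.2 (rc q.1.1.2 x))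
    have h2 := abs_le.1 ((G q.1.1.2).1 q.2 (rc q.1.1.2 (r q.1.1.1 x)))
    rw [abs_le]
    constructor <;> linarith [h1.1, h1.2, h2.1, h2.2]
  -- finiteness of the set of relevant jumps
  have hjump : ∀ x n m, {p : J | ∃ s : Q p.1.2, ff ⟨p, s⟩ ∈ D n m ∧
      1/((n:ℝ)+1) ≤ |ff ⟨p, s⟩ x|}.Finite := by
    intro x n m
    by_contra hcon
    have hcon' : {p : J | ∃ s : Q p.1.2, ff ⟨p, s⟩ ∈ D n m ∧
      1/((n:ℝ)+1) ≤ |ff ⟨p, s⟩ x|}.Infinite := hcon
    let L : Filter I2 := Filter.comap (fun q : I2 => q.1) Filter.cofinite ⊓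
      Filter.principal {q | ff q ∈ D n m ∧ 1/((n:ℝ)+1) ≤ |ff q x|}
    have hL : L.NeBot := by
      rw [Filter.inf_principal_neBot_iff]
      intro U hU
      obtain ⟨W, hW, hVU⟩ := Filter.mem_comap.1 hU
      obtain ⟨p, hp1, hp2⟩ := (hcon'.sdiff hW).nonempty
      obtain ⟨s, hs1, hs2⟩ := hp1
      rw [mem_compl_iff, not_not] at hp2
      exact ⟨⟨p, s⟩, hVU hp2, hs1, hs2⟩
    let 𝓥 : Ultrafilter I2 := Ultrafilter.of L
    have h𝓥 : (𝓥 : Filter I2) ≤ L := Ultrafilter.of_le L
    have t2 : ∀ p : J, {q : I2 | q.1 ≠ p} ∈ 𝓥 := by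
      intro p
      have h2 : Filter.Tendsto (fun q : I2 => q.1) 𝓥 Filter.cofinite :=
        Filter.tendsto_comap.mono_left (h𝓥.trans inf_le_left)
      exact h2 (by simp : ({p}ᶜ : Set J) ∈ Filter.cofinite)
    have t3 : {q | ff q ∈ D n m ∧ 1/((n:ℝ)+1) ≤ |ff q x|} ∈ 𝓥 :=
      h𝓥 (Filter.mem_inf_of_right (Filter.mem_principal_self _))
    obtain ⟨f, hf, hE⟩ := (H n).2 m (𝓥.map ff) (by
      rw [Ultrafilter.mem_map]
      exact Filter.mem_of_superset t3 fun q hq => hq.1)
    have hf' : ∀ y, Filter.Tendsto (fun q => ff q y) 𝓥 (𝓝 (f y)) := by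
      intro y
      have := hf y
      rw [Ultrafilter.coe_map, Filter.tendsto_map'_iff] at this
      exact this
    have hfx : 1/((n:ℝ)+1) ≤ |f x| := by
      have h1 : Filter.Tendsto (fun q => |ff q x|) 𝓥 (𝓝 (|f x|)) := (hf' x).abs
      exact ge_of_tendsto h1 (Filter.mem_of_superset t3 fun q hq => hq.2)
    -- vanishing on bounded parts
    have hvan : ∀ k, {q : I2 | k < q.1.1.2} ∈ 𝓥 → ∀ y ∈ closure (B k), f y = 0 := by
      intro k hk y hy
      have h1 : ∀ᶠ q in (𝓥 : Filter I2), ff q y = 0 := by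
        filter_upwards [hk] with q hq
        rw [hff]
        have h2 : k ≤ q.1.1.1 := q.1.2.le_of_lt hq
        rw [hr3 _ y (closure_mono (hB h2) hy), sub_self, mul_zero]
      have h2 : Filter.Tendsto (fun q => ff q y) 𝓥 (𝓝 0) :=
        Filter.Tendsto.congr' (h1.mono fun q hq => hq.symm) tendsto_const_nhds
      exact tendsto_nhds_unique (hf' y) h2
    -- small on the closure of the union
    have hsmall : ∀ (A : Set X), (∀ b ∈ A, f b = 0) → ∀ z ∈ closure A, |f z| < 1/((n:ℝ)+1) := by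
      intro A hA z hz
      obtain ⟨b, hb1, hb2⟩ := ((mem_closure_iff_frequently.1 hz).and_eventually (hE z)).exists
      rw [hA b hb1, zero_sub, abs_neg] at hb2
      exact hb2
    by_cases hex : ∃ i, {q : I2 | q.1.1.2 ≤ i} ∈ 𝓥
    · obtain ⟨i, hi, hmin⟩ := WellFounded.has_min (wellFounded_lt (α := ι))
        {i | {q : I2 | q.1.1.2 ≤ i} ∈ 𝓥} hex
      have hlt : ∀ k < i, {q : I2 | k < q.1.1.2} ∈ 𝓥 := by
        intro k hk
        have h1 : {q : I2 | q.1.1.2 ≤ k} ∉ 𝓥 := fun h => hmin k h hk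
        have h2 := Ultrafilter.compl_mem_iff_notMem.2 h1
        have h3 : {q : I2 | q.1.1.2 ≤ k}ᶜ = {q : I2 | k < q.1.1.2} := by
          ext q; simp
        rwa [h3] at h2
      rcases order_tri i with hm | ⟨j, hj⟩ | hl
      · obtain ⟨q, hq⟩ := (𝓥.neBot.nonempty_of_mem hi)
        have h1 : q.1.1.1 < i := q.1.2.lt.trans_le hq
        exact absurd (hm h1.le) (not_le.2 h1)
      · have h1 := hlt j hj.lt
        have h2 := t2 ⟨(j, i), hj⟩
        obtain ⟨q, ⟨hq1, hq2⟩, hq3⟩ := 𝓥.neBot.nonempty_of_mem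
          (Filter.inter_mem (Filter.inter_mem hi h1) h2)
        apply hq3
        have e1 : q.1.1.2 = i := by
          apply le_antisymm hq1
          by_contra hcon'
          push Not at hcon'
          exact hj.2 hq2 hcon'
        apply Subtype.ext
        have e2 : q.1.1.1 = j := by
          have := q.1.2
          rw [e1] at this
          exact this.unique_left hj
        exact Prod.ext e2 e1
      · have h0 : |f (r i x)| < 1/((n:ℝ)+1) := by
          apply hsmall (B i) _ _ (hr1 i x)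
          intro b hb
          obtain ⟨j, hji, hbj⟩ := hlimB i hl b hb
          exact hvan j (hlt j hji) b (subset_closure hbj)
        have h1 : f (r i x) = f x := by
          have h2 : ∀ᶠ q in (𝓥 : Filter I2), ff q (r i x) = ff q x := by
            filter_upwards [hi] with q hq
            rw [hff, hff]
            have e1 : rc q.1.1.2 (r i x) = rc q.1.1.2 x := hrc' _ _ _ (K0 _ _ _ hq)
            have e2 : r q.1.1.1 (r i x) = r q.1.1.1 x := K0 _ _ _ (q.1.2.le.trans hq)
            rw [e1, e2]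
          exact tendsto_nhds_unique ((hf' (r i x)).congr' h2) (hf' x)
        rw [h1] at h0
        linarith
    · push Not at hex
      have hlt : ∀ k, {q : I2 | k < q.1.1.2} ∈ 𝓥 := by
        intro k
        have h2 := Ultrafilter.compl_mem_iff_notMem.2 (hex k)
        have h3 : {q : I2 | q.1.1.2 ≤ k}ᶜ = {q : I2 | k < q.1.1.2} := by
          ext q; simp
        rwa [h3] at h2
      have h0 : |f x| < 1/((n:ℝ)+1) := by
        apply hsmall _ _ _ (hdense x)
        intro b hb
        obtain ⟨j, hbj⟩ := mem_iUnion.1 hb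
        exact hvan j (hlt j) b (subset_closure hbj)
      linarith
  have hεn : ∀ n : ℕ, (0:ℝ) < 1/((n:ℝ)+1) := fun n => by positivity
  let I3 : Type u := {w : (ℕ × ℕ) × I2 // ff w.2 ∈ D w.1.1 w.1.2}
  let cc : ℕ × ℕ → ℝ := fun nm => ((nm.1:ℝ) + nm.2 + 1)⁻¹
  have hcc : ∀ nm, 0 < cc nm := fun nm => by positivity
  have hcc1 : ∀ nm, cc nm ≤ 1 := fun nm => by
    apply inv_le_one_of_one_le₀
    have h1 : (0:ℝ) ≤ nm.1 := Nat.cast_nonneg _
    have h2 : (0:ℝ) ≤ nm.2 := Nat.cast_nonneg _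
    linarith
  let kk : I3 → C(X, ℝ) := fun w => ⟨fun x => cc w.1.1 * tr (1/((w.1.1.1:ℝ)+1)) (ff w.1.2 x),
    continuous_const.mul ((tr_cont _).comp (ff w.1.2).continuous)⟩
  have hkk : ∀ w x, kk w x = cc w.1.1 * tr (1/((w.1.1.1:ℝ)+1)) (ff w.1.2 x) := fun w x => rfl
  have htr1 : ∀ (n : ℕ) q x, |tr (1/((n:ℝ)+1)) (ff q x)| ≤ 1 := fun n q x =>
    (tr_le (hεn n).le _).trans (hff1 q x)
  refine ⟨Q i0 ⊕ I3, Sum.elim (fun s => (g i0 s).comp (rc i0)) kk, ⟨?_, ?_⟩, ?_⟩
  · rintro (s | w) x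
    · exact (G i0).1 s _
    · show |kk w x| ≤ 1
      rw [hkk, abs_mul, abs_of_pos (hcc _)]
      exact mul_le_one₀ (hcc1 _) (abs_nonneg _) (htr1 _ _ _)
  · intro x ε hε
    have hf0 := (G i0).2 (rc i0 x) ε hε
    have hnm : {nm : ℕ × ℕ | ε ≤ cc nm}.Finite := by
      obtain ⟨N, hN⟩ := exists_nat_gt (1/ε)
      apply ((Set.finite_Iio N).prod (Set.finite_Iio N)).subset
      rintro ⟨n, m⟩ h1
      have h1' : ε ≤ ((n:ℝ) + m + 1)⁻¹ := h1
      have h2 : (n:ℝ) + m + 1 ≤ 1/ε := by
        rw [le_div_iff₀ hε]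
        have h3 : 0 < (n:ℝ) + m + 1 := by positivity
        have := mul_le_mul_of_nonneg_left h1' h3.le
        rwa [mul_inv_cancel₀ h3.ne'] at this
      have h4 : (0:ℝ) ≤ n := Nat.cast_nonneg _
      have h5 : (0:ℝ) ≤ m := Nat.cast_nonneg _
      constructor
      · have h4 : (n : ℝ) < N := by linarith
        exact Nat.cast_lt.1 h4
      · have h4 : (m : ℝ) < N := by linarith
        exact Nat.cast_lt.1 h4
    have hfin2 : (⋃ nm ∈ {nm : ℕ × ℕ | ε ≤ cc nm}, ⋃ p ∈ {p : J | ∃ s : Q p.1.2,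
        ff ⟨p, s⟩ ∈ D nm.1 nm.2 ∧ 1/((nm.1:ℝ)+1) ≤ |ff ⟨p, s⟩ x|},
        (fun s : Q p.1.2 => ((nm, ⟨p, s⟩) : (ℕ × ℕ) × I2)) ''
        ({s | ε ≤ |g p.1.2 s (rc p.1.2 x)|} ∪
        {s | ε ≤ |g p.1.2 s (rc p.1.2 (r p.1.1 x))|})).Finite :=
      hnm.biUnion fun nm _ => (hjump x nm.1 nm.2).biUnion fun p _ =>
        (((G p.1.2).2 _ ε hε).union ((G p.1.2).2 _ ε hε)).image _
    have hfin3 := hfin2.preimage (f := fun w : I3 => w.1) Subtype.val_injective.injOn
    apply ((hf0.image Sum.inl).union (hfin3.image Sum.inr)).subset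
    rintro (s | w) hs
    · exact Or.inl ⟨s, hs, rfl⟩
    · refine Or.inr ⟨w, ?_, rfl⟩
      have hs5 : ε ≤ |kk w x| := hs
      rw [hkk, abs_mul, abs_of_pos (hcc _)] at hs5
      have h1 : ε ≤ cc w.1.1 := hs5.trans (mul_le_of_le_one_right (hcc _).le (htr1 _ _ _))
      have h2 : ε ≤ |tr (1/((w.1.1.1:ℝ)+1)) (ff w.1.2 x)| :=
        hs5.trans (mul_le_of_le_one_left (abs_nonneg _) (hcc1 _))
      have h3 : ε ≤ |ff w.1.2 x| := h2.trans (tr_le (hεn _).le _)
      have h4 : 1/((w.1.1.1:ℝ)+1) < |ff w.1.2 x| := by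
        apply tr_ne
        intro h0
        rw [h0, abs_zero] at h2
        linarith
      simp only [mem_preimage, mem_iUnion]
      refine ⟨w.1.1, h1, w.1.2.1, ⟨w.1.2.2, w.2, h4.le⟩, w.1.2.2, ?_, rfl⟩
      rw [hff, abs_mul] at h3
      have h6 := abs_sub (g w.1.2.1.1.2 w.1.2.2 (rc w.1.2.1.1.2 x))
        (g w.1.2.1.1.2 w.1.2.2 (rc w.1.2.1.1.2 (r w.1.2.1.1.1 x)))
      have h7 : |(1/2 : ℝ)| = 1/2 := abs_of_pos (by norm_num)
      rw [h7] at h3
      by_cases h8 : ε ≤ |g w.1.2.1.1.2 w.1.2.2 (rc w.1.2.1.1.2 x)|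
      · exact Or.inl h8
      · right
        push Not at h8
        show ε ≤ |g w.1.2.1.1.2 w.1.2.2 (rc w.1.2.1.1.2 (r w.1.2.1.1.1 x))|
        linarith
  · intro x y hxy
    by_contra hne
    have hex : ∃ i, r i x ≠ r i y := by
      by_contra hall'
      push Not at hall'
      exact hne (hsep x y hall')
    obtain ⟨i, hi, hmin⟩ := WellFounded.has_min (wellFounded_lt (α := ι)) {i | r i x ≠ r i y} hex
    rcases order_tri i with hm | ⟨j, hj⟩ | hl
    · have : i = i0 := by
        apply le_antisymm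
        · by_contra hlt
          push Not at hlt
          exact absurd (hm hlt.le) (not_le.2 hlt)
        · by_contra hlt
          push Not at hlt
          exact hi0 i (mem_univ i) hlt
      subst this
      apply hi
      apply hrc
      apply hG
      intro s
      exact hxy (Sum.inl s)
    · have hjeq : r j x = r j y := by
        by_contra hne'
        exact hmin j hne' hj.lt
      apply hi
      apply hrc
      apply hG
      intro q
      have h3 : ff ⟨⟨(j, i), hj⟩, q⟩ x = ff ⟨⟨(j, i), hj⟩, q⟩ y := by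
        by_contra hne3
        have hpos : 0 < |ff ⟨⟨(j, i), hj⟩, q⟩ x - ff ⟨⟨(j, i), hj⟩, q⟩ y| :=
          abs_pos.2 (sub_ne_zero.2 hne3)
        obtain ⟨n, hn⟩ := exists_nat_one_div_lt (show 0 < |ff ⟨⟨(j, i), hj⟩, q⟩ x -
          ff ⟨⟨(j, i), hj⟩, q⟩ y| / 2 by linarith)
        obtain ⟨m, hm⟩ := (H n).1 (ff ⟨⟨(j, i), hj⟩, q⟩)
        have h4 : kk ⟨((n, m), ⟨⟨(j, i), hj⟩, q⟩), hm⟩ x =
            kk ⟨((n, m), ⟨⟨(j, i), hj⟩, q⟩), hm⟩ y := hxy (Sum.inr _)
        rw [hkk, hkk] at h4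
        have h5 := mul_left_cancel₀ (hcc _).ne' h4
        have h6 := tr_close (hεn n).le (ff ⟨⟨(j, i), hj⟩, q⟩ x)
        have h7 := tr_close (hεn n).le (ff ⟨⟨(j, i), hj⟩, q⟩ y)
        simp only at h5
        rw [h5] at h6
        rw [abs_le] at h6 h7
        have h8 : |ff ⟨⟨(j, i), hj⟩, q⟩ x - ff ⟨⟨(j, i), hj⟩, q⟩ y| ≤ 2 * (1/((n:ℝ)+1)) := by
          rw [abs_le]; constructor <;> linarith [h6.1, h6.2, h7.1, h7.2]
        linarith
      rw [hff, hff] at h3
      simp only [hjeq] at h3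
      linarith
    · apply hi
      apply hlimr i hl
      intro j hji
      by_contra hne'
      exact hmin j hne' hji

theorem ap_aux (kap : Cardinal.{u}) : ∀ (X : Type u) [TopologicalSpace X] [CompactSpace X]
    [T2Space X], AP X → ∀ D : Set X, Dense D → #D = kap → Eb X := by
  classical
  induction kap using WellFoundedLT.induction with
  | ind kap ih =>
    intro X _ _ _ H D hD hDk
    choose DD hDD using fun n : ℕ => H (1/((n:ℝ)+1)) (by positivity)
    let O : ℕ → Set C(X, ℝ) := fun k => DD k.unpair.1 k.unpair.2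
    have hgood : ∀ S : Set (X ⊕ C(X, ℝ)), Mod id O S → Good (Bp S) (Mp S) := by
      intro S hS
      refine ⟨hS.1, ?_⟩
      apply CO.sep_ap (ε := 1/(((4:ℕ):ℝ)+1)) (by norm_num) (hDD 4)
      intro m j hj hex
      have h1 : O (Nat.pair 4 m) = DD 4 m := by simp [O]
      have h2 := hS.2 j hj (Nat.pair 4 m) (by
        obtain ⟨g, hg1, hg2⟩ := hex
        exact ⟨g, hg1, by rw [h1]; exact hg2⟩)
      obtain ⟨g, hg1, hg2, hg3⟩ := h2
      refine ⟨g, hg1, hg2, ?_⟩
      rw [h1] at hg3; exact hg3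
    rcases le_or_gt kap ℵ₀ with hk | hk
    · obtain ⟨S, hS1, hS2, hS3⟩ := Mod.close (id : C(X, ℝ) → C(X, ℝ)) O (Sum.inl '' D)
      have hSc : #S ≤ ℵ₀ := hS3.trans (max_le (Cardinal.mk_image_le.trans (hDk.le.trans hk)) le_rfl)
      have hB : closure (Bp S) = Set.univ := by
        apply Dense.closure_eq
        apply hD.mono
        intro x hx
        exact hS1 ⟨x, hx, rfl⟩
      have h1 := (hgood S hS2).2
      rw [hB] at h1
      exact Eb.of_countable (Cardinal.le_aleph0_iff_set_countable.1 ((Mp_card S).trans hSc)) h1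
    · obtain ⟨ι, _, _, hιne, S, hSmono, hP, hScard, hSlim, hSD⟩ := chain_exists
        (T := X ⊕ C(X, ℝ)) (kap := kap) ℵ₀ le_rfl hk (Mod id O)
        (fun 𝒮 h1 h2 h3 => Mod.sUnion 𝒮 h1 h2 h3)
        (fun N _ => Mod.close id O N) (Sum.inl '' D) (Cardinal.mk_image_le.trans hDk.le)
      choose r hr1 hr2 hr3 using fun i => (hgood _ (hP i)).retraction
      have hSep : ∀ i, SepOn (closure (Bp (S i))) (Mp (S i)) := fun i => (hgood _ (hP i)).2
      have hBm : Monotone fun i => Bp (S i) := fun i j hij x hx => hSmono hij hx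
      have hMm : Monotone fun i => Mp (S i) := fun i j hij x hx => hSmono hij hx
      have hdense : Dense (⋃ i, Bp (S i)) := by
        apply hD.mono
        intro x hx
        obtain ⟨i, hi⟩ := mem_iUnion.1 (hSD ⟨x, hx, rfl⟩)
        exact mem_iUnion.2 ⟨i, hi⟩
      apply glue_eb hDD (fun i => Bp (S i)) hBm r hr1 hr3
      · intro k i x hki
        apply hSep k _ (hr1 k _) _ (hr1 k _)
        intro f hf
        rw [hr2 k _ f hf, hr2 k _ f hf, hr2 i _ f (hMm hki hf)]
      · intro i hi b hb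
        obtain ⟨j, hj, hbj⟩ := hSlim i hi _ hb
        exact ⟨j, hj, hbj⟩
      · intro i hi x y hxy
        apply hSep i _ (hr1 i _) _ (hr1 i _)
        intro f hf
        obtain ⟨j, hj, hfj⟩ := hSlim i hi _ hf
        rw [hr2 i _ f hf, hr2 i _ f hf, ← hr2 j x f hfj, ← hr2 j y f hfj, hxy j hj]
      · exact hdense
      · intro x y hxy
        have h1 : Mod id O (⋃₀ range S) := by
          apply Mod.sUnion _ (range_nonempty S)
          · rintro _ ⟨i, rfl⟩ _ ⟨j, rfl⟩ _
            rcases le_total i j with h | h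
            · exact Or.inl (hSmono h)
            · exact Or.inr (hSmono h)
          · rintro _ ⟨i, rfl⟩; exact hP i
        have h2 := (hgood _ h1).2
        have e1 : Bp (⋃₀ range S) = ⋃ i, Bp (S i) := by
          ext x; simp [Bp]
        rw [e1, hdense.closure_eq] at h2
        apply h2 x (mem_univ x) y (mem_univ y)
        rintro f ⟨_, ⟨i, rfl⟩, hf⟩
        rw [← hr2 i x f hf, ← hr2 i y f hf, hxy i]
      · intro i
        have : CompactSpace (closure (Bp (S i))) :=
          isCompact_iff_compactSpace.1 isClosed_closure.isCompact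
        let DY : Set (closure (Bp (S i))) := {y | y.1 ∈ Bp (S i)}
        have hDY : Dense DY := by
          intro y
          rw [closure_subtype]
          have : ((↑) : closure (Bp (S i)) → X) '' DY = Bp (S i) := by
            ext x
            constructor
            · rintro ⟨y, hy, rfl⟩; exact hy
            · intro hx; exact ⟨⟨x, subset_closure hx⟩, hx, rfl⟩
          rw [this]; exact y.2
        have hc : #DY ≤ #(Bp (S i)) := by
          refine Cardinal.mk_le_of_injective (f := fun y : DY => (⟨y.1.1, y.2⟩ : Bp (S i))) ?_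
          intro y z h
          have h' : y.1.1 = z.1.1 := congrArg (fun t : Bp (S i) => t.1) h
          exact Subtype.ext (Subtype.ext h')
        exact ih #DY ((hc.trans (Bp_card _)).trans_lt (hScard i)) (closure (Bp (S i)))
          (H.restrict isClosed_closure) DY hDY rfl

theorem AP.eb {X : Type u} [TopologicalSpace X] [CompactSpace X] [T2Space X] (H : AP X) : Eb X :=
  ap_aux _ X H Set.univ dense_univ rfl

/-- a compact separating set of continuous functions, in the pointwise topology -/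
theorem ap_of_compact {X : Type u} [TopologicalSpace X] [CompactSpace X] [T2Space X]
    {L : Set (X → ℝ)} (hL : IsCompact L) (hLc : ∀ f ∈ L, Continuous f)
    (hLs : ∀ x y, (∀ f ∈ L, f x = f y) → x = y) : AP X := by
  have hcst : Continuous (fun (c : ℝ) (_ : X) => c) := continuous_pi fun _ => continuous_id
  let A : Set (X → ℝ) := L ∪ (fun (c : ℝ) (_ : X) => c) '' Icc (-1) 1
  have hA : IsCompact A := hL.union (isCompact_Icc.image hcst)
  have hAc : ∀ f ∈ A, Continuous f := by
    rintro f (hf | ⟨c, -, rfl⟩)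
    · exact hLc f hf
    · exact continuous_const
  have hcomp : ∀ n, IsCompact (algA A n) := by
    intro n
    induction n with
    | zero => exact hA
    | succ n ih =>
      exact ih.union (((ih.prod ih).image (continuous_fst.add continuous_snd)).union
        ((ih.prod ih).image (continuous_fst.mul continuous_snd)))
  let P : Set (X → ℝ) := ⋃ n, algA A n
  have hPadd : ∀ f ∈ P, ∀ g ∈ P, f + g ∈ P := by
    intro f hf g hg
    obtain ⟨n, hn⟩ := mem_iUnion.1 hf
    obtain ⟨m, hm⟩ := mem_iUnion.1 hg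
    refine mem_iUnion.2 ⟨max n m + 1, Or.inr (Or.inl ⟨(f, g), ⟨?_, ?_⟩, rfl⟩)⟩
    · exact algA_mono A (le_max_left n m) hn
    · exact algA_mono A (le_max_right n m) hm
  have hPmul : ∀ f ∈ P, ∀ g ∈ P, f * g ∈ P := by
    intro f hf g hg
    obtain ⟨n, hn⟩ := mem_iUnion.1 hf
    obtain ⟨m, hm⟩ := mem_iUnion.1 hg
    refine mem_iUnion.2 ⟨max n m + 1, Or.inr (Or.inr ⟨(f, g), ⟨?_, ?_⟩, rfl⟩)⟩
    · exact algA_mono A (le_max_left n m) hn
    · exact algA_mono A (le_max_right n m) hm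
  have hPc : ∀ n : ℕ, ∀ c : ℝ, |c| ≤ (n:ℝ) + 1 → (fun _ => c : X → ℝ) ∈ P := by
    intro n
    induction n with
    | zero =>
      intro c hc
      refine mem_iUnion.2 ⟨0, Or.inr ⟨c, ?_, rfl⟩⟩
      have : |c| ≤ 1 := by simpa using hc
      exact abs_le.1 this
    | succ n ih =>
      intro c hc
      have h1 : |c / 2| ≤ (n:ℝ) + 1 := by
        rw [abs_div]
        have : |(2:ℝ)| = 2 := abs_of_pos (by norm_num)
        rw [this]
        push_cast at hc
        have : (0:ℝ) ≤ n := Nat.cast_nonneg _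
        linarith
      have h2 := hPadd _ (ih _ h1) _ (ih _ h1)
      have h3 : (fun _ => c / 2 : X → ℝ) + (fun _ => c / 2 : X → ℝ) = fun _ => c := by
        funext x; simp
      rwa [h3] at h2
  let hs : L → C(X, ℝ) := fun f => ⟨f.1, hLc f.1 f.2⟩
  let R : Subalgebra ℝ C(X, ℝ) := Algebra.adjoin ℝ (range hs)
  have hR : ∀ f ∈ R, (f : X → ℝ) ∈ P := by
    intro f hf
    induction hf using Algebra.adjoin_induction with
    | mem f hf =>
      obtain ⟨s, rfl⟩ := hf
      exact mem_iUnion.2 ⟨0, Or.inl s.2⟩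
    | algebraMap c =>
      obtain ⟨n, hn⟩ := exists_nat_ge |c|
      exact hPc n c (hn.trans (by linarith))
    | add f g _ _ hf hg => exact hPadd _ hf _ hg
    | mul f g _ _ hf hg => exact hPmul _ hf _ hg
  have hRsep : R.SeparatesPoints := by
    intro x y hxy
    have : ∃ f ∈ L, f x ≠ f y := by
      by_contra hall
      push Not at hall
      exact hxy (hLs x y hall)
    obtain ⟨f, hf, hne⟩ := this
    exact ⟨hs ⟨f, hf⟩, ⟨hs ⟨f, hf⟩, Algebra.subset_adjoin ⟨_, rfl⟩, rfl⟩, hne⟩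
  have hRd := ContinuousMap.subalgebra_topologicalClosure_eq_top_of_separatesPoints R hRsep
  intro ε hε
  let K : ℕ → Set (X → ℝ) := fun n => (fun p : (X → ℝ) × (X → ℝ) => p.1 + p.2) ''
    (algA A n ×ˢ Set.pi Set.univ fun _ => Icc (-(ε/4)) (ε/4))
  have hK : ∀ n, IsCompact (K n) := fun n =>
    ((hcomp n).prod (isCompact_univ_pi fun _ => isCompact_Icc)).image
      (continuous_fst.add continuous_snd)
  refine ⟨fun n => {f | (f : X → ℝ) ∈ K n}, ?_, ?_⟩
  · intro f
    have h2 : f ∈ closure (R : Set C(X, ℝ)) := by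
      have h1 : f ∈ R.topologicalClosure := by rw [hRd]; trivial
      exact h1
    obtain ⟨g, hg, hd⟩ := Metric.mem_closure_iff.1 h2 (ε/4) (by positivity)
    obtain ⟨n, hn⟩ := mem_iUnion.1 (hR g hg)
    refine ⟨n, (g, f - g), ⟨hn, ?_⟩, ?_⟩
    · intro x _
      have h3 := (ContinuousMap.dist_apply_le_dist (f := f) (g := g) x).trans hd.le
      rw [Real.dist_eq] at h3
      exact abs_le.1 h3
    · funext x; simp
  · intro n 𝓤 h𝓤
    obtain ⟨g, hg, hle⟩ := (hK n).ultrafilter_le_nhds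
      (𝓤.map (fun f : C(X, ℝ) => (f : X → ℝ))) (by
        rw [Filter.le_principal_iff]; exact h𝓤)
    refine ⟨g, ?_, ?_⟩
    · intro x
      have h1 : Filter.Tendsto (fun f : C(X, ℝ) => (f : X → ℝ)) 𝓤 (𝓝 g) := hle
      exact (tendsto_pi_nhds.1 h1) x
    · obtain ⟨⟨l, b⟩, ⟨hl, hb⟩, rfl⟩ := hg
      have hlc : Continuous l := algA_cont hAc n l hl
      intro z
      have h2 := hlc.continuousAt (x := z)
      rw [Metric.continuousAt_iff'] at h2
      filter_upwards [h2 (ε/4) (by positivity)] with y hy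
      have hy' : |l y - l z| < ε/4 := hy
      have h3 := hb y (mem_univ y)
      have h4 := hb z (mem_univ z)
      show |(l y + b y) - (l z + b z)| < ε
      rw [abs_lt] at hy' ⊢
      constructor <;> linarith [h3.1, h3.2, h4.1, h4.2, hy'.1, hy'.2]

theorem Eb.ap {X : Type u} [TopologicalSpace X] [CompactSpace X] [T2Space X] (h : Eb X) :
    AP X := by
  obtain ⟨S, h, H, hsep⟩ := h
  have hcl : IsClosed (range (fun s => (h s : X → ℝ)) ∪ {0}) := by
    rw [← isOpen_compl_iff, isOpen_iff_mem_nhds]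
    intro b hb
    have hb0 : b ≠ 0 := fun h => hb (Or.inr h)
    obtain ⟨x, hx⟩ := Function.ne_iff.1 hb0
    have hx' : 0 < |b x| := abs_pos.2 hx
    have hfin := H.2 x (|b x| / 2) (by linarith)
    have hcl : IsClosed ((fun s => (h s : X → ℝ)) '' {s | |b x| / 2 ≤ |h s x|} ∪
        {g : X → ℝ | |g x| ≤ |b x| / 2}) := by
      apply IsClosed.union
      · exact (hfin.image _).isClosed
      · exact isClosed_le (continuous_apply x).abs continuous_const
    have hbn : b ∉ ((fun s => (h s : X → ℝ)) '' {s | |b x| / 2 ≤ |h s x|} ∪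
        {g : X → ℝ | |g x| ≤ |b x| / 2}) := by
      rintro (⟨s, -, hs⟩ | hs)
      · exact hb (Or.inl ⟨s, hs⟩)
      · have : |b x| ≤ |b x| / 2 := hs
        linarith
    apply Filter.mem_of_superset (hcl.isOpen_compl.mem_nhds hbn)
    intro c hc hcA
    apply hc
    rcases hcA with ⟨s, rfl⟩ | rfl
    · rcases le_total (|b x| / 2) (|h s x|) with h1 | h1
      · exact Or.inl ⟨s, h1, rfl⟩
      · exact Or.inr h1
    · right
      show |(0 : X → ℝ) x| ≤ |b x| / 2
      simp only [Pi.zero_apply, abs_zero]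
      linarith
  have hcomp : IsCompact (range (fun s => (h s : X → ℝ)) ∪ {0}) := by
    apply (isCompact_univ_pi fun _ : X => isCompact_Icc (a := (-1:ℝ)) (b := 1)).of_isClosed_subset
      hcl
    rintro f (⟨s, rfl⟩ | rfl)
    · intro x _
      exact abs_le.1 (H.1 s x)
    · intro x _
      exact ⟨by simp, by simp⟩
  apply ap_of_compact hcomp
  · rintro f (⟨s, rfl⟩ | rfl)
    · exact (h s).continuous
    · exact continuous_const
  · intro x y hxy
    exact hsep x y fun s => hxy _ (Or.inl ⟨s, rfl⟩)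

/-- continuous images of Eberlein compacta are Eberlein compact -/
theorem Eb.image {X Z : Type u} [TopologicalSpace X] [CompactSpace X] [T2Space X]
    [TopologicalSpace Z] [T2Space Z] (h : Eb X) {φ : X → Z} (hφ : Continuous φ)
    (hs : Function.Surjective φ) : Eb Z := by
  have hcZ : CompactSpace Z := by
    constructor
    have := (isCompact_univ (X := X)).image hφ
    rwa [image_univ, hs.range_eq] at this
  exact (h.ap.image hφ hs).eb

end Pool.Agent.Helper535
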