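import Pool.Agent.Helper535.Y2

open Set Topology Cardinal Filter

namespace Pool.Agent.Helper535

universe u v w

/-- in a pseudocompact space, sequences of open sets cluster -/
theorem pc_cluster {X : Type u} [TopologicalSpace X] [CompletelyRegularSpace X]
    (hX : ∀ f : X → ℝ, Continuous f → ∃ M : ℝ, ∀ x, |f x| ≤ M)
    (U : ℕ → Set X) (hU : ∀ n, IsOpen (U n)) (hne : ∀ n, (U n).Nonempty) :
    ∃ x, ∀ W ∈ 𝓝 x, {n | (U n ∩ W).Nonempty}.Infinite := by
  classical
  by_contra hcon
  push Not at hcon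
  choose p hp using hne
  have hg : ∀ n, ∃ g : X → ℝ, Continuous g ∧ (∀ x, 0 ≤ g x) ∧ g (p n) = 1 ∧
      ∀ x ∉ U n, g x = 0 := by
    intro n
    obtain ⟨f, hf, hf0, hf1⟩ := CompletelyRegularSpace.completely_regular (p n) (U n)ᶜ
      (hU n).isClosed_compl (by simpa using hp n)
    refine ⟨fun x => 1 - (f x : ℝ), continuous_const.sub (continuous_subtype_val.comp hf), ?_, ?_, ?_⟩
    · intro x
      have := (f x).2.2
      linarith
    · show 1 - ((f (p n) : unitInterval) : ℝ) = 1
      rw [hf0]; simp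
    · intro x hx
      show 1 - ((f x : unitInterval) : ℝ) = 0
      rw [hf1 hx]; simp
  choose g hgc hg0 hg1 hgz using hg
  have hlf : LocallyFinite fun n : ℕ => Function.support fun x => (n : ℝ) * g n x := by
    intro x
    obtain ⟨W, hW, hfin⟩ := hcon x
    refine ⟨W, hW, (Set.not_infinite.1 (by simpa using hfin)).subset ?_⟩
    rintro n ⟨z, hz, hzW⟩
    refine ⟨z, ?_, hzW⟩
    by_contra hzU
    apply hz
    show (n : ℝ) * g n z = 0
    rw [hgz n z hzU, mul_zero]
  have hF : Continuous fun x => ∑ᶠ n : ℕ, (n : ℝ) * g n x :=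
    continuous_finsum (fun n => continuous_const.mul (hgc n)) hlf
  obtain ⟨M, hM⟩ := hX _ hF
  obtain ⟨n, hn⟩ := exists_nat_gt M
  have h1 : (n : ℝ) * g n (p n) ≤ ∑ᶠ m : ℕ, (m : ℝ) * g m (p n) :=
    single_le_finsum (f := fun m : ℕ => (m : ℝ) * g m (p n)) n
      ((hlf.point_finite (p n)).subset fun m hm => hm)
      (fun m => mul_nonneg (Nat.cast_nonneg _) (hg0 m _))
  have h2 := (le_abs_self _).trans (hM (p n))
  rw [hg1, mul_one] at h1
  linarith

/-- open sets of small oscillation -/
theorem small_osc {X : Type u} [TopologicalSpace X] [CompletelyRegularSpace X]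
    (hX : ∀ f : X → ℝ, Continuous f → ∃ M : ℝ, ∀ x, |f x| ≤ M) {T : Type w} {h : T → C(X, ℝ)}
    (H : C0F h) {V : Set X} (hV : IsOpen V) (hVne : V.Nonempty) {δ : ℝ} (hδ : 0 < δ) :
    ∃ U ⊆ V, IsOpen U ∧ U.Nonempty ∧ ∀ z ∈ U, ∀ z' ∈ U, ∀ t, |h t z - h t z'| ≤ δ := by
  classical
  by_contra hcon
  push Not at hcon
  let P : Set X × Finset T → Prop := fun p => p.1 ⊆ V ∧ IsOpen p.1 ∧ p.1.Nonempty ∧
    (∀ t ∈ p.2, ∀ z ∈ p.1, δ / 2 < |h t z|) ∧ ∀ t ∈ p.2, ∀ z ∈ p.1, ∀ z' ∈ p.1, |h t z - h t z'| ≤ δ
  have step : ∀ p : {p // P p}, ∃ p' : {p // P p}, p'.1.1 ⊆ p.1.1 ∧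
      p'.1.2.card = p.1.2.card + 1 := by
    rintro ⟨⟨U, a⟩, h1, h2, h3, h4, h5⟩
    obtain ⟨z, hz, z', hz', t, ht⟩ := hcon U h1 h2 h3
    have hta : t ∉ a := fun hta => absurd (h5 t hta z hz z' hz') (not_le.2 ht)
    have hw : ∃ w ∈ U, δ / 2 < |h t w| := by
      by_contra hall
      push Not at hall
      have e1 := hall z hz
      have e2 := hall z' hz'
      have e3 := abs_sub (h t z) (h t z')
      linarith
    obtain ⟨w, hwU, hw⟩ := hw
    refine ⟨⟨(U ∩ {v | δ / 2 < |h t v| ∧ |h t v - h t w| < δ / 2}, insert t a), ?_, ?_, ?_, ?_, ?_⟩,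
      inter_subset_left, ?_⟩
    · exact inter_subset_left.trans h1
    · apply h2.inter
      exact (isOpen_lt continuous_const (h t).continuous.abs).inter
        (isOpen_lt ((h t).continuous.sub continuous_const).abs continuous_const)
    · exact ⟨w, hwU, hw, by simpa using hδ⟩
    · intro s hs v hv
      rcases Finset.mem_insert.1 hs with rfl | hs
      · exact hv.2.1
      · exact h4 s hs v hv.1
    · intro s hs v hv v' hv'
      rcases Finset.mem_insert.1 hs with rfl | hs
      · have e1 := abs_lt.1 hv.2.2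
        have e2 := abs_lt.1 hv'.2.2
        rw [abs_le]; constructor <;> linarith [e1.1, e1.2, e2.1, e2.2]
      · exact h5 s hs v hv.1 v' hv'.1
    · rw [Finset.card_insert_of_notMem hta]
  choose nx hnx1 hnx2 using step
  let q : ℕ → {p // P p} := fun n => Nat.rec ⟨(V, ∅), subset_rfl, hV, hVne, by simp, by simp⟩
    (fun _ p => nx p) n
  have hq : ∀ n, q (n+1) = nx (q n) := fun n => rfl
  have hqc : ∀ n, (q n).1.2.card = n := by
    intro n
    induction n with
    | zero => rfl
    | succ n ih => rw [hq, hnx2, ih]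
  have hqm : ∀ n m, n ≤ m → (q m).1.1 ⊆ (q n).1.1 := by
    intro n m hnm
    induction hnm with
    | refl => exact subset_rfl
    | step _ ih => rw [hq]; exact (hnx1 _).trans ih
  obtain ⟨x, hx⟩ := pc_cluster hX (fun n => (q n).1.1) (fun n => (q n).2.2.1)
    (fun n => (q n).2.2.2.1)
  have hxc : ∀ n, x ∈ closure (q n).1.1 := by
    intro n
    rw [mem_closure_iff_nhds]
    intro W hW
    obtain ⟨m, hm1, hm2⟩ := (hx W hW).exists_gt n
    obtain ⟨z, hz1, hz2⟩ := hm1
    exact ⟨z, hz2, hqm n m hm2.le hz1⟩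
  have hfin := H.2 x (δ/2) (by linarith)
  have hsub : ∀ n, (q n).1.2 ⊆ hfin.toFinset := by
    intro n t ht
    rw [Set.Finite.mem_toFinset]
    have hcl : IsClosed {z | δ/2 ≤ |h t z|} := isClosed_le continuous_const (h t).continuous.abs
    exact closure_minimal (fun z hz => ((q n).2.2.2.2.1 t ht z hz).le) hcl (hxc n)
  have h1 := Finset.card_le_card (hsub (hfin.toFinset.card + 1))
  have h2 := hqc (hfin.toFinset.card + 1)
  omega

/-- sequences in closures, for families with countable supports -/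
theorem seq_lemma {X : Type u} [TopologicalSpace X] {T : Type w} (h : T → C(X, ℝ))
    (hc : ∀ x, {t | h t x ≠ 0}.Countable) (Q : ℕ → Set X) (y : T → ℝ)
    (hy : {t | y t ≠ 0}.Countable)
    (H : ∀ n (a : Finset T) (ε : ℝ), 0 < ε → ∃ q ∈ Q n, ∀ t ∈ a, |h t q - y t| < ε) :
    ∃ q : ℕ → X, (∀ n, q n ∈ Q n) ∧ ∀ t, Tendsto (fun n => h t (q n)) atTop (𝓝 (y t)) := by
  classical
  rcases isEmpty_or_nonempty T with hT | hT
  · choose q hq using fun n => H n ∅ 1 one_pos
    exact ⟨q, fun n => (hq n).1, fun t => (hT.false t).elim⟩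
  · choose e he using fun x => Set.countable_iff_exists_subset_range.1 (hc x)
    obtain ⟨ey, hey⟩ := Set.countable_iff_exists_subset_range.1 hy
    let a : List X → Finset T := fun D => (Finset.range D.length).image ey ∪
      D.toFinset.biUnion fun x => (Finset.range D.length).image (e x)
    choose F hF1 hF2 using fun D : List X => H D.length (a D) (1/((D.length:ℝ)+1)) (by positivity)
    let D : ℕ → List X := fun n => Nat.rec [] (fun _ D => F D :: D) n
    have hD : ∀ n, D (n+1) = F (D n) :: D n := fun n => rfl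
    have hlen : ∀ n, (D n).length = n := by
      intro n
      induction n with
      | zero => rfl
      | succ n ih => rw [hD, List.length_cons, ih]
    have hmem : ∀ n i, i < n → F (D i) ∈ D n := by
      intro n
      induction n with
      | zero => intro i hi; omega
      | succ n ih =>
        intro i hi
        rw [hD]
        rcases Nat.lt_succ_iff_lt_or_eq.1 hi with h | rfl
        · exact List.mem_cons_of_mem _ (ih i h)
        · exact List.mem_cons_self
    refine ⟨fun n => F (D n), ?_, ?_⟩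
    · intro n
      have := hF1 (D n)
      rwa [hlen] at this
    · intro t
      have key : ∀ N, (∀ n, N ≤ n → t ∈ a (D n)) →
          Tendsto (fun n => h t (F (D n))) atTop (𝓝 (y t)) := by
        intro N hN
        rw [Metric.tendsto_atTop]
        intro ε hε
        obtain ⟨M, hM⟩ := exists_nat_one_div_lt hε
        refine ⟨max N M, ?_⟩
        intro n hn
        have h1 := hF2 (D n) t (hN n ((le_max_left _ _).trans hn))
        rw [hlen] at h1
        rw [Real.dist_eq]
        refine h1.trans_le (le_trans ?_ hM.le)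
        have h2 : (M:ℝ) ≤ n := Nat.cast_le.2 ((le_max_right _ _).trans hn)
        apply one_div_le_one_div_of_le
        · positivity
        · linarith
      by_cases hyt : y t = 0
      · by_cases hex : ∃ i, h t (F (D i)) ≠ 0
        · obtain ⟨i, hi⟩ := hex
          obtain ⟨j, hj⟩ := he (F (D i)) hi
          apply key (max i j + 1)
          intro n hn
          apply Finset.mem_union_right
          rw [Finset.mem_biUnion]
          have hin : i < n := by have := le_max_left i j; omega
          have hjn : j < n := by have := le_max_right i j; omega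
          refine ⟨F (D i), List.mem_toFinset.2 (hmem n i hin), ?_⟩
          rw [Finset.mem_image]
          exact ⟨j, by rw [Finset.mem_range, hlen]; exact hjn, hj⟩
        · push Not at hex
          rw [hyt]
          simp only [hex]
          exact tendsto_const_nhds
      · obtain ⟨j, hj⟩ := hey hyt
        apply key (j + 1)
        intro n hn
        apply Finset.mem_union_left
        rw [Finset.mem_image]
        exact ⟨j, by rw [Finset.mem_range, hlen]; omega, hj⟩

lemma C0F.countable {X : Type u} [TopologicalSpace X] {T : Type w} {h : T → C(X, ℝ)}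
    (H : C0F h) (x : X) : {t | h t x ≠ 0}.Countable :=
  (H.efam (fun _ => PUnit.unit.{1})).pcount x

/-- sequences of open sets converging to a point, along the family -/
theorem open_seq {X : Type u} [TopologicalSpace X] [CompletelyRegularSpace X]
    (hX : ∀ f : X → ℝ, Continuous f → ∃ M : ℝ, ∀ x, |f x| ≤ M) {T : Type w} {h : T → C(X, ℝ)}
    (H : C0F h) (s : X) :
    ∃ U : ℕ → Set X, (∀ n, IsOpen (U n)) ∧ (∀ n, (U n).Nonempty) ∧
      ∀ t, ∀ ε > 0, ∀ᶠ n in atTop, ∀ z ∈ U n, |h t z - h t s| < ε := by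
  classical
  obtain ⟨q, hq1, hq2⟩ := seq_lemma h H.countable
    (fun n => {d | ∃ U : Set X, IsOpen U ∧ d ∈ U ∧ ∀ z ∈ U, ∀ z' ∈ U, ∀ t,
      |h t z - h t z'| ≤ 1/((n:ℝ)+1)}) (fun t => h t s) (H.countable s) (by
      intro n a ε hε
      have hV : IsOpen (⋂ t ∈ a, {z | |h t z - h t s| < ε}) :=
        isOpen_biInter_finset fun t _ =>
          isOpen_lt ((h t).continuous.sub continuous_const).abs continuous_const
      have hVne : (⋂ t ∈ a, {z | |h t z - h t s| < ε}).Nonempty := by
        refine ⟨s, ?_⟩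
        simp only [mem_iInter]
        intro t _
        show |h t s - h t s| < ε
        simpa using hε
      obtain ⟨U, hU1, hU2, ⟨d, hd⟩, hU4⟩ := small_osc hX H hV hVne (δ := 1/((n:ℝ)+1))
        (by positivity)
      refine ⟨d, ⟨U, hU2, hd, hU4⟩, ?_⟩
      intro t ht
      have := hU1 hd
      simp only [mem_iInter] at this
      exact this t ht)
  choose U hU1 hU2 hU3 using hq1
  refine ⟨U, hU1, fun n => ⟨q n, hU2 n⟩, ?_⟩
  intro t ε hε
  have h1 := (Metric.tendsto_atTop.1 (hq2 t)) (ε/2) (by linarith)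
  obtain ⟨N, hN⟩ := h1
  obtain ⟨M, hM⟩ := exists_nat_one_div_lt (show 0 < ε/2 by linarith)
  filter_upwards [eventually_ge_atTop (max N M)] with n hn z hz
  have h2 := hN n ((le_max_left _ _).trans hn)
  rw [Real.dist_eq] at h2
  have h3 := hU3 n z hz (q n) (hU2 n) t
  have h4 : 1/((n:ℝ)+1) ≤ 1/((M:ℝ)+1) := by
    apply one_div_le_one_div_of_le
    · positivity
    · have : (M:ℝ) ≤ n := Nat.cast_le.2 ((le_max_right _ _).trans hn)
      linarith
  have h5 := abs_lt.1 h2
  have h6 := abs_le.1 h3
  rw [abs_lt]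
  constructor <;> linarith [h5.1, h5.2, h6.1, h6.2]

/-- convergence along an isolating family is convergence in the space -/
theorem open_seq_conv {X : Type u} [TopologicalSpace X] [T35Space X]
    (hX : ∀ f : X → ℝ, Continuous f → ∃ M : ℝ, ∀ x, |f x| ≤ M) {T : Type w} {h : T → C(X, ℝ)}
    {s : X} (hs : ∀ x, (∀ t, h t x = h t s) → x = s) {U : ℕ → Set X}
    (hU1 : ∀ n, IsOpen (U n))
    (hU3 : ∀ t, ∀ ε > 0, ∀ᶠ n in atTop, ∀ z ∈ U n, |h t z - h t s| < ε) :
    ∀ W ∈ 𝓝 s, ∀ᶠ n in atTop, U n ⊆ W := by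
  intro W hW
  by_contra hcon
  rw [not_eventually] at hcon
  obtain ⟨φ, hφ, hφ2⟩ := extraction_of_frequently_atTop hcon
  obtain ⟨W', hW', hW'c, hW'W⟩ := exists_mem_nhds_isClosed_subset hW
  obtain ⟨x, hx⟩ := pc_cluster hX (fun n => U (φ n) \ W')
    (fun n => (hU1 _).sdiff hW'c) (by
      intro n
      rw [nonempty_iff_ne_empty]
      intro h
      rw [sdiff_eq_empty] at h
      exact hφ2 n (h.trans hW'W))
  have hxs : x = s := by
    apply hs
    intro t
    by_contra hne
    have hpos : 0 < |h t x - h t s| := abs_pos.2 (sub_ne_zero.2 hne)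
    obtain ⟨N, hN⟩ := eventually_atTop.1 (hU3 t (|h t x - h t s| / 2) (by linarith))
    have hO : {z | |h t z - h t x| < |h t x - h t s| / 2} ∈ 𝓝 x := by
      apply (isOpen_lt ((h t).continuous.sub continuous_const).abs continuous_const).mem_nhds
      show |h t x - h t x| < |h t x - h t s| / 2
      simp only [sub_self, abs_zero]; linarith
    obtain ⟨n, ⟨z, hz1, hz2⟩, hn⟩ := (hx _ hO).exists_gt N
    have h1 := hN (φ n) (hn.le.trans (hφ.id_le n)) z hz1.1
    have h2 : |h t z - h t x| < |h t x - h t s| / 2 := hz2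
    have h3 : |h t x - h t s| ≤ |h t z - h t x| + |h t z - h t s| := by
      have := abs_sub (h t z - h t s) (h t z - h t x)
      have e : (h t z - h t s) - (h t z - h t x) = h t x - h t s := by ring
      rw [e] at this
      linarith
    linarith
  subst hxs
  obtain ⟨n, ⟨z, hz1, hz2⟩⟩ := (hx W' hW').nonempty
  exact hz1.2 hz2

end Pool.Agent.Helper535
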