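import Pool.Agent.Helper535.Z1

open Set Topology Cardinal Filter

namespace Pool.Agent.Helper535

universe u v w

/-- countable compactness: every sequence clusters -/
def CC (X : Type u) [TopologicalSpace X] : Prop :=
  ∀ s : ℕ → X, ∃ x, ∀ W ∈ 𝓝 x, {n | s n ∈ W}.Infinite

theorem inj_cluster {X : Type u} [TopologicalSpace X] [T35Space X]
    (hX : ∀ f : X → ℝ, Continuous f → ∃ M : ℝ, ∀ x, |f x| ≤ M) (hS : ESplit X)
    (s : ℕ → X) (hinj : Function.Injective s) : ∃ x, ∀ W ∈ 𝓝 x, {n | s n ∈ W}.Infinite := by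
  classical
  by_contra hcon
  push Not at hcon
  -- the isolating family
  obtain ⟨T0, h0, H0, sep0⟩ := hS.simul (fun n => {s n})
  have iso : ∀ n x, (∀ t, h0 t x = h0 t (s n)) → x = s n := by
    intro n x hx
    by_contra hne
    obtain ⟨t, ht⟩ := sep0 n (s n) rfl x hne
    exact ht (hx t).symm
  choose U hU1 hU2 hU3 using fun n => open_seq hX H0 (s n)
  have conv : ∀ n, ∀ W ∈ 𝓝 (s n), ∀ᶠ j in atTop, U n j ⊆ W := fun n =>
    open_seq_conv hX (iso n) (hU1 n) (hU3 n)
  -- neighbourhoods
  have hO : ∀ x, ∃ O : Set X, IsOpen O ∧ x ∈ O ∧ ∀ n, s n ≠ x → s n ∉ closure O := by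
    intro x
    obtain ⟨W, hW, hfin⟩ := hcon x
    have hfin' : {n | s n ∈ W}.Finite := by simpa using hfin
    have hW1 : W ∩ ⋂ n ∈ {n | s n ∈ W}, {z | s n ≠ x → z ≠ s n} ∈ 𝓝 x := by
      apply inter_mem hW
      rw [biInter_mem hfin']
      intro n _
      by_cases hn : s n = x
      · simp [hn]
      · have : {z | s n ≠ x → z ≠ s n} = {s n}ᶜ := by
          ext z; simp [hn]
        rw [this]
        exact isClosed_singleton.isOpen_compl.mem_nhds (fun h => hn h.symm)
    obtain ⟨W', hW', hW'c, hW'W⟩ := exists_mem_nhds_isClosed_subset hW1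
    refine ⟨interior W', isOpen_interior, mem_interior_iff_mem_nhds.2 hW', ?_⟩
    intro n hn hc
    have h1 : s n ∈ W' := closure_minimal interior_subset hW'c hc
    have h2 := hW'W h1
    have h3 := h2.2
    simp only [mem_iInter] at h3
    exact h3 n h2.1 hn rfl
  choose O hO1 hO2 hO3 using hO
  have hκ : ∀ x n, ∃ k, s n ≠ x → ∀ j ≥ k, U n j ∩ O x = ∅ := by
    intro x n
    by_cases hn : s n = x
    · exact ⟨0, fun h => absurd hn h⟩
    · have h1 : (closure (O x))ᶜ ∈ 𝓝 (s n) :=
        isClosed_closure.isOpen_compl.mem_nhds (hO3 x n hn)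
      obtain ⟨k, hk⟩ := eventually_atTop.1 (conv n _ h1)
      refine ⟨k, fun _ j hj => ?_⟩
      rw [eq_empty_iff_forall_notMem]
      rintro z ⟨hz1, hz2⟩
      exact hk j hj hz1 (subset_closure hz2)
  choose κ hκ using hκ
  -- the capturing family
  obtain ⟨T, h, H, sep⟩ := hS.simul (fun m => {x | κ x m.unpair.1 = m.unpair.2})
  have cap : ∀ x x', (∀ t, h t x = h t x') → κ x = κ x' := by
    intro x x' hxx
    funext n
    by_contra hne
    obtain ⟨t, ht⟩ := sep (Nat.pair n (κ x n)) x (by simp) x' (by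
      simp only [mem_ofPred_eq, Nat.unpair_pair]
      exact fun h => hne h.symm)
    exact ht (hxx t)
  -- the limit
  have hlim : ∀ t, ∃ y : ℝ, Tendsto (fun n : ℕ => h t (s n)) (hyperfilter ℕ : Filter ℕ) (𝓝 y) := by
    intro t
    obtain ⟨y, -, hy⟩ := (isCompact_Icc (a := (-1:ℝ)) (b := 1)).ultrafilter_le_nhds
      ((hyperfilter ℕ).map fun n : ℕ => h t (s n)) (by
        rw [le_principal_iff, Ultrafilter.coe_map, Filter.mem_map]
        exact Filter.univ_mem' fun n : ℕ => abs_le.1 (H.1 t (s n)))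
    exact ⟨y, hy⟩
  choose y hy using hlim
  have hysupp : {t | y t ≠ 0}.Countable := by
    apply (countable_iUnion fun n => H.countable (s n)).mono
    intro t ht
    by_contra hcon'
    apply ht
    have h0 : ∀ n, h t (s n) = 0 := by
      intro n
      by_contra hne
      exact hcon' (mem_iUnion.2 ⟨n, hne⟩)
    have h1 := hy t
    simp only [h0] at h1
    exact tendsto_nhds_unique h1 tendsto_const_nhds
  let κs : ℕ → ℕ := if hex : ∃ x, ∀ t, h t x = y t then κ hex.choose else fun _ => 0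
  obtain ⟨q, hq1, hq2⟩ := seq_lemma h H.countable
    (fun k => {d | ∃ n ≥ k, ∃ J ≥ κs n, ∃ V : Set X, IsOpen V ∧ d ∈ V ∧ V ⊆ U n J ∧
      ∀ z ∈ V, ∀ z' ∈ V, ∀ t, |h t z - h t z'| ≤ 1/((k:ℝ)+1)}) y hysupp (by
      intro k a ε hε
      have e1 : ∀ᶠ n in (hyperfilter ℕ : Filter ℕ), ∀ t ∈ a, |h t (s n) - y t| < ε / 2 := by
        rw [eventually_all_finset]
        intro t _
        have := hy t
        rw [Metric.tendsto_nhds] at this
        exact this (ε/2) (by linarith)
      have e2 : ∀ᶠ n in (hyperfilter ℕ : Filter ℕ), k ≤ n :=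
        (Nat.hyperfilter_le_atTop) (eventually_ge_atTop k)
      obtain ⟨n, hn1, hn2⟩ := (e1.and e2).exists
      have hV : IsOpen (⋂ t ∈ a, {z | |h t z - h t (s n)| < ε / 2}) :=
        isOpen_biInter_finset fun t _ =>
          isOpen_lt ((h t).continuous.sub continuous_const).abs continuous_const
      have hVs : (⋂ t ∈ a, {z | |h t z - h t (s n)| < ε / 2}) ∈ 𝓝 (s n) := by
        apply hV.mem_nhds
        simp only [mem_iInter]
        intro t _
        show |h t (s n) - h t (s n)| < ε / 2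
        simp only [sub_self, abs_zero]; linarith
      obtain ⟨J, hJ1, hJ2⟩ := ((conv n _ hVs).and (eventually_ge_atTop (κs n))).exists
      obtain ⟨V, hV1, hV2, ⟨d, hd⟩, hV4⟩ := small_osc hX H (hU1 n J) (hU2 n J)
        (δ := 1/((k:ℝ)+1)) (by positivity)
      refine ⟨d, ⟨n, hn2, J, hJ2, V, hV2, hd, hV1, hV4⟩, ?_⟩
      intro t ht
      have h1 := hJ1 (hV1 hd)
      simp only [mem_iInter] at h1
      have h2 : |h t d - h t (s n)| < ε / 2 := h1 t ht
      have h3 := hn1 t ht
      have h4 := abs_lt.1 h2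
      have h5 := abs_lt.1 h3
      rw [abs_lt]
      constructor <;> linarith [h4.1, h4.2, h5.1, h5.2])
  choose n hn J hJ V hV1 hV2 hV3 hV4 using hq1
  obtain ⟨x, hx⟩ := pc_cluster hX V hV1 (fun k => ⟨q k, hV2 k⟩)
  have hxy : ∀ t, h t x = y t := by
    intro t
    by_contra hne
    have hpos : 0 < |h t x - y t| := abs_pos.2 (sub_ne_zero.2 hne)
    obtain ⟨N, hN⟩ := (Metric.tendsto_atTop.1 (hq2 t)) (|h t x - y t| / 4) (by linarith)
    obtain ⟨M, hM⟩ := exists_nat_one_div_lt (show 0 < |h t x - y t| / 4 by linarith)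
    have hO : {z | |h t z - h t x| < |h t x - y t| / 4} ∈ 𝓝 x := by
      apply (isOpen_lt ((h t).continuous.sub continuous_const).abs continuous_const).mem_nhds
      show |h t x - h t x| < |h t x - y t| / 4
      simp only [sub_self, abs_zero]; linarith
    obtain ⟨k, ⟨z, hz1, hz2⟩, hk⟩ := (hx _ hO).exists_gt (max N M)
    have h1 := hN k ((le_max_left _ _).trans hk.le)
    rw [Real.dist_eq] at h1
    have h2 : |h t z - h t x| < |h t x - y t| / 4 := hz2
    have h3 := hV4 k z hz1 (q k) (hV2 k) t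
    have h4 : 1/((k:ℝ)+1) ≤ 1/((M:ℝ)+1) := by
      apply one_div_le_one_div_of_le
      · positivity
      · have : (M:ℝ) ≤ k := Nat.cast_le.2 ((le_max_right _ _).trans hk.le)
        linarith
    have h5 : |h t x - y t| ≤ |h t z - h t x| + |h t z - h t (q k)| + |h t (q k) - y t| := by
      have e1 := abs_sub_le (h t x) (h t z) (y t)
      have e2 := abs_sub_le (h t z) (h t (q k)) (y t)
      rw [abs_sub_comm (h t x) (h t z)] at e1
      linarith
    linarith
  have hκx : κs = κ x := by
    have hex : ∃ x, ∀ t, h t x = y t := ⟨x, hxy⟩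
    have h1 : κs = κ hex.choose := dif_pos hex
    rw [h1]
    apply cap
    intro t
    rw [hxy t, hex.choose_spec t]
  have hinf := hx (O x) ((hO1 x).mem_nhds (hO2 x))
  have hsub : {k | (V k ∩ O x).Nonempty} ⊆ {k | s (n k) = x} := by
    intro k hk
    by_contra hne
    have h1 := hκ x (n k) hne (J k) (by rw [← hκx]; exact hJ k)
    obtain ⟨z, hz1, hz2⟩ := hk
    have : z ∈ U (n k) (J k) ∩ O x := ⟨hV3 k hz1, hz2⟩
    rw [h1] at this
    exact this
  obtain ⟨k0, hk0⟩ := hinf.nonempty
  have hk0' : s (n k0) = x := hsub hk0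
  obtain ⟨k, hk, hkn⟩ := hinf.exists_gt (n k0)
  have h1 : s (n k) = x := hsub hk
  have h2 : n k = n k0 := hinj (h1.trans hk0'.symm)
  have h3 := hn k
  omega

theorem cc_of_pseudocompact {X : Type u} [TopologicalSpace X] [T35Space X]
    (hX : ∀ f : X → ℝ, Continuous f → ∃ M : ℝ, ∀ x, |f x| ≤ M) (hS : ESplit X) : CC X := by
  classical
  intro s
  by_cases hfin : (range s).Finite
  · have : Finite (range s) := hfin
    obtain ⟨⟨x, hx⟩, hx2⟩ := Finite.exists_infinite_fiber (rangeFactorization s)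
    refine ⟨x, ?_⟩
    intro W hW
    have h1 : (rangeFactorization s ⁻¹' {⟨x, hx⟩}).Infinite := Set.infinite_coe_iff.1 hx2
    apply h1.mono
    intro n hn
    have h2 : s n = x := congrArg Subtype.val hn
    show s n ∈ W
    rw [h2]; exact mem_of_mem_nhds hW
  · let e := (show (range s).Infinite from hfin).natEmbedding
    obtain ⟨x, hx⟩ := inj_cluster hX hS (fun k => (e k).1)
      (fun a b hab => e.injective (Subtype.ext hab))
    choose n hn using fun k => (e k).2
    have hninj : Function.Injective n := by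
      intro a b hab
      apply e.injective
      apply Subtype.ext
      rw [← hn a, ← hn b, hab]
    refine ⟨x, ?_⟩
    intro W hW
    apply ((hx W hW).image hninj.injOn).mono
    rintro _ ⟨k, hk, rfl⟩
    show s (n k) ∈ W
    rw [hn k]; exact hk

end Pool.Agent.Helper535
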